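import Mathlib
import Pool.Agent.Lib.MP_10e784_ag.PT.PTDefs

/-!
MP_10e784_ag, all quadratic twists of hyperelliptic curves with at most one rational Weierstrass point.
Definitions shared by all files.  `PT.rt G p` is the number of roots of `G` modulo `p`, `PT.hom G a b = b ^ deg G * G (a / b)`,
`PT.PS a x = ∑_{p ≤ x} a p / p`, `PT.ind S` the indicator function, `PT.Spl G S n`: see `PTDefs`.
-/

namespace TW

open Polynomial Finset

/-- reduction modulo `p` -/
noncomputable def red (p : ℕ) (g : ℤ[X]) : (ZMod p)[X] := g.map (Int.castRingHom (ZMod p))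

/-- the coordinates: for every `i` the `deg (g i)` coefficients of a polynomial of degree less than `deg (g i)` -/
abbrev Co {ι : Type} (g : ι → ℤ[X]) : Type := Σ i : ι, Fin (g i).natDegree

/-- the polynomials with given coordinates -/
noncomputable def pol {ι R : Type} [CommRing R] (g : ι → ℤ[X]) (x : Co g → R) (i : ι) : R[X] :=
  ∑ c : Fin (g i).natDegree, C (x ⟨i, c⟩) * X ^ (c : ℕ)

/-- a family of different monic polynomials, irreducible over `ℚ`, of even total degree at least six, at most one of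
them linear -/
structure Fam {ι : Type} [Fintype ι] (g : ι → ℤ[X]) : Prop where
  monic : ∀ i, (g i).Monic
  irr : ∀ i, Irreducible ((g i).map (Int.castRingHom ℚ))
  inj : Function.Injective g
  even : Even (∑ i, (g i).natDegree)
  six : 6 ≤ ∑ i, (g i).natDegree
  lin : ∀ i j, (g i).natDegree = 1 → (g j).natDegree = 1 → i = j

/-- good primes -/
structure GoodP {ι : Type} [Fintype ι] (g : ι → ℤ[X]) (p : ℕ) : Prop where
  prime : p.Prime
  big : 8 * (∑ i, (g i).natDegree) ^ 2 ≤ p
  sqf : Squarefree (red p (∏ i, g i))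

/-- the local condition at `p` (`w` is the vector of coordinates modulo `p`): either no `pol g w i` is divisible by an
irreducible factor of `g i` modulo `p`, or there is a root `t` of `g i₀` and `s ≠ 0` such that `pol g w i₀` vanishes at
`t` and for all `i` and all other irreducible factors `h` of `g i` modulo `p` the product `s (t - X) (pol g w i)` is a
square modulo `h` and `pol g w i` is not divisible by `h` -/
def Al {ι : Type} (g : ι → ℤ[X]) (p : ℕ) (w : Co g → ZMod p) : Prop :=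
  (∀ i, ∀ h : (ZMod p)[X], h.Monic → Irreducible h → h ∣ red p (g i) → ¬ h ∣ pol g w i) ∨
  ∃ (i₀ : ι) (t s : ZMod p), s ≠ 0 ∧ (red p (g i₀)).eval t = 0 ∧ (pol g w i₀).eval t = 0 ∧
    ∀ i, ∀ h : (ZMod p)[X], h.Monic → Irreducible h → h ∣ red p (g i) → h ≠ X - C t →
      ¬ h ∣ pol g w i ∧ ∃ B : (ZMod p)[X], h ∣ pol g w i * C s * (C t - X) - B ^ 2

/-- the box: the coordinates of index `i` have size at most `C 2 ^ (j i / deg (g i))` -/
def Bx {ι : Type} (g : ι → ℤ[X]) (C : ℝ) (j : ι → ℕ) (x : Co g → ℤ) : Prop :=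
  ∀ c : Co g, |(x c : ℝ)| ≤ C * (2 : ℝ) ^ ((j c.1 : ℝ) / ((g c.1).natDegree : ℝ))

/-- all local conditions outside `M` -/
def Loc {ι : Type} (g : ι → ℤ[X]) (M : ℕ) (x : Co g → ℤ) : Prop :=
  ∀ p : ℕ, p.Prime → ¬ p ∣ M → Al g p (fun c => (x c : ZMod p))

/-- over `ℚ` -/
noncomputable def qq (g : ℤ[X]) : ℚ[X] := g.map (Int.castRingHom ℚ)

/-- the class of the rational Weierstrass point: `g i₀ = X - r` and `c (r - X) P i` is a square modulo `g i` for all
`i ≠ i₀` -/
def Triv {ι : Type} (g : ι → ℤ[X]) (i₀ : ι) (P : ι → ℚ[X]) : Prop :=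
  (g i₀).natDegree = 1 ∧ ∃ c : ℚ, c ≠ 0 ∧ ∀ i, i ≠ i₀ →
    ∃ B : ℚ[X], qq (g i) ∣ C c * P i * (C (-((g i₀).coeff 0 : ℚ)) - X) - B ^ 2

/-- the sum of the degrees over a set of indices -/
def dg {ι : Type} (g : ι → ℤ[X]) (I : Finset ι) : ℕ := ∑ i ∈ I, (g i).natDegree

/-- the sum of the numbers of roots modulo `p` over a set of indices -/
noncomputable def rts {ι : Type} (g : ι → ℤ[X]) (I : Finset ι) (p : ℕ) : ℕ := ∑ i ∈ I, PT.rt (g i) p

/-- the product of a finite set of natural numbers -/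
noncomputable def pr (T : Finset ℕ) : ℝ := ∏ p ∈ T, (p : ℝ)

/-- the tail of the sieve -/
noncomputable def tl (D : ℝ) (P : Finset ℕ) (ω : ℕ → ℝ) : ℝ :=
  ∑ T ∈ P.powerset.filter (fun T => D < pr T), ∏ p ∈ T, ω p

/-- a set of natural numbers with divergent sum of reciprocals -/
def Div (T : Set ℕ) : Prop := ∀ B : ℝ, ∃ F : Finset ℕ, (∀ p ∈ F, p ∈ T) ∧ B ≤ ∑ p ∈ F, (1 : ℝ) / p

end TW
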