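import Pool.Agent.Lib.MP_10e784_ag.TW.TWDefs

/-! JOB TWFld.  Two number fields.

`monic_field`: `K = AdjoinRoot (g.map (Int.castRingHom ℚ))`, `t` the class of `X`; copy the first part of the proof of `root_primes` in `PT/PTRoot.lean` (there the leading coefficient `c` is arbitrary; here it is `1`, the root itself is integral).
`sqrt_field`: work in `ℂ`: `θ ∈ ℂ` a root of `g` (`Complex.exists_root` or `IsAlgClosed.exists_aeval_eq_zero`), `σ ∈ ℂ` with `σ ^ 2 = aeval θ d` (`IsAlgClosed.exists_pow_nat_eq`).  `E = IntermediateField.adjoin ℚ {θ, σ}` is finite dimensional over `ℚ`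
(`IntermediateField.finiteDimensional_adjoin`, both elements are integral over `ℚ`: `σ ^ 2` is integral: `IsIntegral.of_pow`), so a number field (beware of the two `ℚ`-algebra structures: `NumberField.of_module_finite ℚ E`, or `Subsingleton.elim` on `Algebra ℚ E`, see `ptgal_field_aux` in `PT/PTGal.lean`).
`t, s ∈ 𝓞 E`: `θ`, `σ` are integral over `ℤ` (`g` monic; `σ ^ 2 = aeval θ d` integral).  `Algebra.adjoin ℚ {θ, σ} = ⊤` in `E`: `IntermediateField.adjoin_toSubalgebra_of_isAlgebraic...` (the elements are algebraic).  Last property: if `s = aeval t B` then in `ℂ`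
`aeval θ (d.map - B ^ 2) = 0`, and `qq g` is irreducible with root `θ`, so `qq g ∣ d.map _ - B ^ 2` (if not, they are coprime, Bezout at `θ` gives `0 = 1`), contradiction with `hd`. -/

namespace TW

open NumberField Finset Polynomial

theorem monic_field (g : ℤ[X]) (hm : g.Monic) (hirr : Irreducible (g.map (Int.castRingHom ℚ))) :
    ∃ (K : Type) (_ : Field K) (_ : NumberField K) (t : 𝓞 K), aeval t g = 0 ∧
      Algebra.adjoin ℚ {(t : K)} = ⊤ := by
  classical
  have hfact : Fact (Irreducible (g.map (Int.castRingHom ℚ))) := ⟨hirr⟩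
  have hmk : ∀ q : ℤ[X], aeval (AdjoinRoot.root (g.map (Int.castRingHom ℚ))) q =
      AdjoinRoot.mk (g.map (Int.castRingHom ℚ)) (q.map (Int.castRingHom ℚ)) := by
    intro q
    rw [← AdjoinRoot.aeval_eq]
    exact (aeval_map_algebraMap ℚ (AdjoinRoot.root (g.map (Int.castRingHom ℚ))) q).symm
  have hroot : aeval (AdjoinRoot.root (g.map (Int.castRingHom ℚ))) g = 0 := by
    rw [hmk, AdjoinRoot.mk_self]
  have hint : IsIntegral ℤ (AdjoinRoot.root (g.map (Int.castRingHom ℚ))) :=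
    ⟨g, hm, by rw [← aeval_def]; exact hroot⟩
  obtain ⟨t, ht⟩ : ∃ t : 𝓞 (AdjoinRoot (g.map (Int.castRingHom ℚ))),
      (t : AdjoinRoot (g.map (Int.castRingHom ℚ))) = AdjoinRoot.root (g.map (Int.castRingHom ℚ)) :=
    ⟨⟨_, hint⟩, rfl⟩
  have hgen : Algebra.adjoin ℚ {(t : AdjoinRoot (g.map (Int.castRingHom ℚ)))} = ⊤ := by
    have hconst : ∀ a : ℚ, AdjoinRoot.of (g.map (Int.castRingHom ℚ)) a ∈
        Algebra.adjoin ℚ {(t : AdjoinRoot (g.map (Int.castRingHom ℚ)))} := by
      intro a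
      have h1 : AdjoinRoot.of (g.map (Int.castRingHom ℚ)) a =
          algebraMap ℚ (AdjoinRoot (g.map (Int.castRingHom ℚ))) a :=
        (eq_ratCast (AdjoinRoot.of (g.map (Int.castRingHom ℚ))) a).trans
          (eq_ratCast (algebraMap ℚ (AdjoinRoot (g.map (Int.castRingHom ℚ)))) a).symm
      rw [h1]
      exact Subalgebra.algebraMap_mem _ _
    have hrt : AdjoinRoot.root (g.map (Int.castRingHom ℚ)) ∈
        Algebra.adjoin ℚ {(t : AdjoinRoot (g.map (Int.castRingHom ℚ)))} := by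
      rw [← ht]
      exact Algebra.subset_adjoin rfl
    rw [eq_top_iff]
    intro x _
    obtain ⟨q, rfl⟩ := AdjoinRoot.mk_surjective x
    induction q using Polynomial.induction_on with
    | C a => exact hconst a
    | add q₁ q₂ h₁ h₂ => rw [map_add]; exact add_mem (h₁ trivial) (h₂ trivial)
    | monomial n a _ =>
      rw [map_mul, map_pow]
      exact mul_mem (hconst a) (pow_mem hrt _)
  refine ⟨AdjoinRoot (g.map (Int.castRingHom ℚ)), inferInstance, inferInstance, t, ?_, hgen⟩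
  apply RingOfIntegers.coe_injective
  rw [map_zero, ← aeval_algebraMap_apply]
  have h1 : aeval (t : AdjoinRoot (g.map (Int.castRingHom ℚ))) g = 0 := by rw [ht]; exact hroot
  exact h1

theorem twfld_int {E : Type} [Field E] (θ : E) (hint : IsIntegral ℤ θ) (d : ℤ[X]) :
    IsIntegral ℤ (aeval θ d) := by
  induction d using Polynomial.induction_on with
  | C a => rw [aeval_C]; exact isIntegral_algebraMap
  | add q₁ q₂ h₁ h₂ => rw [map_add]; exact h₁.add h₂
  | monomial n a _ =>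
    rw [map_mul, aeval_C, aeval_X_pow]
    exact isIntegral_algebraMap.mul (hint.pow _)

theorem twfld_gen (F L : Type) [Field F] [Field L] [Algebra F L] (θ σ : L) (hθ : IsIntegral F θ)
    (hσ : IsIntegral F σ) :
    FiniteDimensional F (IntermediateField.adjoin F ({θ, σ} : Set L)) ∧
    ∃ θ' σ' : IntermediateField.adjoin F ({θ, σ} : Set L), (θ' : L) = θ ∧ (σ' : L) = σ ∧
      Algebra.adjoin F {θ', σ'} = ⊤ := by
  have hall : ∀ x ∈ ({θ, σ} : Set L), IsIntegral F x := by
    intro x hx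
    rcases hx with rfl | hx
    · exact hθ
    · rw [Set.mem_singleton_iff] at hx
      rw [hx]
      exact hσ
  have hfin : FiniteDimensional F (IntermediateField.adjoin F ({θ, σ} : Set L)) :=
    IntermediateField.finiteDimensional_adjoin hall
  have hθm : θ ∈ IntermediateField.adjoin F ({θ, σ} : Set L) :=
    IntermediateField.subset_adjoin F _ (Or.inl rfl)
  have hσm : σ ∈ IntermediateField.adjoin F ({θ, σ} : Set L) :=
    IntermediateField.subset_adjoin F _ (Or.inr rfl)
  refine ⟨hfin, ⟨θ, hθm⟩, ⟨σ, hσm⟩, rfl, rfl, ?_⟩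
  rw [eq_top_iff]
  rintro ⟨x, hx⟩ -
  have h1 : x ∈ (IntermediateField.adjoin F ({θ, σ} : Set L)).toSubalgebra := hx
  rw [IntermediateField.adjoin_toSubalgebra_of_isAlgebraic fun y hy => (hall y hy).isAlgebraic] at h1
  have h3 : Algebra.adjoin F ({θ, σ} : Set L) =
      (Algebra.adjoin F {(⟨θ, hθm⟩ : IntermediateField.adjoin F ({θ, σ} : Set L)), ⟨σ, hσm⟩}).map
        (IntermediateField.adjoin F ({θ, σ} : Set L)).val := by
    rw [AlgHom.map_adjoin, Set.image_pair]
    rfl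
  rw [h3] at h1
  obtain ⟨z, hz, hzy⟩ := h1
  have h4 : (⟨x, hx⟩ : IntermediateField.adjoin F ({θ, σ} : Set L)) = z := by
    apply Subtype.ext
    exact hzy.symm
  rw [h4]
  exact hz

theorem twfld_fin (E : Type) [Field E] [CharZero E] (a : Algebra ℚ E)
    (hfin : @Module.Finite ℚ E _ _ a.toModule) (θ σ : E)
    (hgen : @Algebra.adjoin ℚ E _ _ a {θ, σ} = ⊤) (g : ℤ[X]) (hm : g.Monic)
    (hirr : Irreducible (g.map (Int.castRingHom ℚ))) (d : ℤ[X])
    (hd : ¬ ∃ B : ℚ[X], qq g ∣ d.map (Int.castRingHom ℚ) - B ^ 2)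
    (hθ : aeval θ g = 0) (hσ : σ ^ 2 = aeval θ d) :
    ∃ (E : Type) (_ : Field E) (_ : NumberField E) (t s : 𝓞 E), aeval t g = 0 ∧ s ^ 2 = aeval t d ∧
      Algebra.adjoin ℚ {(t : E), (s : E)} = ⊤ ∧ ∀ B : ℚ[X], (s : E) ≠ aeval (t : E) B := by
  have ha : a = DivisionRing.toRatAlgebra := Subsingleton.elim _ _
  subst ha
  have hNF : NumberField E := { to_charZero := inferInstance, to_finiteDimensional := hfin }
  have hint : IsIntegral ℤ θ := ⟨g, hm, by rw [← aeval_def]; exact hθ⟩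
  have hint2 : IsIntegral ℤ (aeval θ d) := by
    exact twfld_int θ hint d
  have hintσ : IsIntegral ℤ σ := by
    refine IsIntegral.of_pow (n := 2) (by norm_num) ?_
    rw [hσ]
    exact hint2
  obtain ⟨t, ht⟩ : ∃ t : 𝓞 E, (t : E) = θ := ⟨⟨θ, hint⟩, rfl⟩
  obtain ⟨s, hs⟩ : ∃ s : 𝓞 E, (s : E) = σ := ⟨⟨σ, hintσ⟩, rfl⟩
  refine ⟨E, inferInstance, hNF, t, s, ?_, ?_, ?_, ?_⟩
  · apply RingOfIntegers.coe_injective
    rw [map_zero, ← aeval_algebraMap_apply]
    have h1 : aeval (t : E) g = 0 := by rw [ht]; exact hθ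
    exact h1
  · apply RingOfIntegers.coe_injective
    rw [map_pow, ← aeval_algebraMap_apply]
    have h1 : (s : E) ^ 2 = aeval (t : E) d := by rw [ht, hs]; exact hσ
    exact h1
  · rw [ht, hs]
    exact hgen
  · intro B hB
    rw [ht, hs] at hB
    apply hd
    refine ⟨B, ?_⟩
    have h1 : aeval θ (d.map (Int.castRingHom ℚ) - B ^ 2) = 0 := by
      rw [map_sub, map_pow, ← hB, hσ]
      have h2 : aeval θ (d.map (Int.castRingHom ℚ)) = aeval θ d :=
        aeval_map_algebraMap ℚ θ d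
      rw [h2, sub_self]
    have h3 : aeval θ (g.map (Int.castRingHom ℚ)) = 0 := by
      have h2 : aeval θ (g.map (Int.castRingHom ℚ)) = aeval θ g :=
        aeval_map_algebraMap ℚ θ g
      rw [h2, hθ]
    by_contra hnd
    have hcop : IsCoprime (g.map (Int.castRingHom ℚ)) (d.map (Int.castRingHom ℚ) - B ^ 2) :=
      (Irreducible.coprime_iff_not_dvd hirr).2 hnd
    obtain ⟨u, v, huv⟩ := hcop
    have h4 := congrArg (aeval θ) huv
    rw [map_add, map_mul, map_mul, h3, h1, mul_zero, mul_zero, add_zero, map_one] at h4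
    exact zero_ne_one h4

theorem sqrt_field (g : ℤ[X]) (hm : g.Monic) (hirr : Irreducible (g.map (Int.castRingHom ℚ))) (d : ℤ[X])
    (hd : ¬ ∃ B : ℚ[X], qq g ∣ d.map (Int.castRingHom ℚ) - B ^ 2) :
    ∃ (E : Type) (_ : Field E) (_ : NumberField E) (t s : 𝓞 E), aeval t g = 0 ∧ s ^ 2 = aeval t d ∧
      Algebra.adjoin ℚ {(t : E), (s : E)} = ⊤ ∧ ∀ B : ℚ[X], (s : E) ≠ aeval (t : E) B := by
  have hdeg : g.degree ≠ 0 := by
    intro h
    have h1 := hirr.natDegree_pos
    rw [hm.natDegree_map, natDegree_eq_zero_iff_degree_le_zero.2 h.le] at h1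
    exact lt_irrefl _ h1
  obtain ⟨θ, hθ⟩ : ∃ θ : ℂ, aeval θ g = 0 :=
    IsAlgClosed.exists_aeval_eq_zero_of_injective ℂ (algebraMap ℤ ℂ).injective_int g hdeg
  obtain ⟨σ, hσ⟩ : ∃ σ : ℂ, σ ^ 2 = aeval θ d := IsAlgClosed.exists_pow_nat_eq _ (by norm_num)
  have hint : IsIntegral ℤ θ := ⟨g, hm, by rw [← aeval_def]; exact hθ⟩
  have hint2 : IsIntegral ℤ (aeval θ d) := twfld_int θ hint d
  have hintσ : IsIntegral ℤ σ := by
    refine IsIntegral.of_pow (n := 2) (by norm_num) ?_
    rw [hσ]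
    exact hint2
  have hθQ : IsIntegral ℚ θ := hint.tower_top
  have hσQ : IsIntegral ℚ σ := hintσ.tower_top
  obtain ⟨hfin, θ', σ', hθe, hσe, hgen⟩ := twfld_gen ℚ ℂ θ σ hθQ hσQ
  have key : ∀ q : ℤ[X], ((aeval θ' q : IntermediateField.adjoin ℚ ({θ, σ} : Set ℂ)) : ℂ) = aeval θ q := by
    intro q
    induction q using Polynomial.induction_on with
    | C a =>
      rw [aeval_C, aeval_C, algebraMap_int_eq, algebraMap_int_eq, eq_intCast, eq_intCast]
      rfl
    | add q₁ q₂ h₁ h₂ =>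
      rw [map_add, map_add, ← h₁, ← h₂]
      rfl
    | monomial n a _ =>
      rw [map_mul, map_mul, aeval_C, aeval_C, aeval_X_pow, aeval_X_pow, algebraMap_int_eq, algebraMap_int_eq,
        eq_intCast, eq_intCast]
      exact congrArg (fun y : ℂ => (a : ℂ) * y ^ (n + 1)) hθe
  have hθ' : aeval θ' g = 0 := by
    apply Subtype.ext
    exact (key g).trans hθ
  have hσ' : σ' ^ 2 = aeval θ' d := by
    apply Subtype.ext
    refine Eq.trans ?_ (key d).symm
    rw [← hσ]
    exact congrArg (fun y : ℂ => y ^ 2) hσe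
  exact twfld_fin (IntermediateField.adjoin ℚ ({θ, σ} : Set ℂ)) _ hfin θ' σ' hgen g hm hirr d hd hθ' hσ'

end TW
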