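import Pool.Agent.Lib.MP_10e784_ag.TW.TWPrU
import Pool.Agent.Lib.MP_10e784_ag.TW.TWFld
import Pool.Agent.Lib.MP_10e784_ag.PT.PTSplit
import Pool.Agent.Lib.MP_10e784_ag.PT.PTRtSum

/-! JOB TWRtLow.  The sum over the roots from below.

`rt_low_s`: `K, t` from `monic_field`, `B1` from `primes_le_rt`, `C` and `E` from `PT.zeta_lower K`.  Every `P ∈ E` contains a prime number `q P` with `absNorm P = q P` or `(q P) ^ 2 ≤ absNorm P` (`PT.ptsplit_char`); `T = E.image q`.  Imitate the lower bound in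
`PT.split_set` (file `PT/PTSplit.lean`): the `P ∈ E` with `absNorm P = q P` and `¬ q P ∣ B1`: for each `p` at most `rt g p` of them (`primes_le_rt` for the filtered set), contribution at most `∑ p ∈ T, rt g p * p ^ (-s)`; those with `q P ∣ B1`: at most `n = finrank ℚ K` for each `p`
(`PT.primes_above_le`), each term at most `1`, at most `B1` primes: `≤ n B1`; the others: at most `n` for each `p`, each term at most `1 / p ^ 2`: `≤ n ∑' k, 1 / k ^ 2`.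
`rt_low`: `PT.conv_lower` with `a p = rt g p`, `M` from `PT.rt_le g`, `c = 1`. -/

namespace TW

open NumberField Finset Polynomial

/-- the prime ideals above one prime number -/
private theorem twrtlow_fiber (g : ℤ[X]) (K : Type) [Field K] [NumberField K] (B1 : ℕ)
    (hB : ∀ p : ℕ, p.Prime → ¬ p ∣ B1 → ∀ E : Finset (Ideal (𝓞 K)),
      (∀ P ∈ E, P.IsPrime ∧ Ideal.absNorm P = p) → E.card ≤ PT.rt g p)
    (s : ℝ) (hs : 1 < s) (p : ℕ) (hp : p.Prime) (F : Finset (Ideal (𝓞 K)))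
    (hF : ∀ P ∈ F, P.IsPrime ∧ (p : 𝓞 K) ∈ P ∧ (Ideal.absNorm P = p ∨ p ^ 2 ≤ Ideal.absNorm P)) :
    ∑ P ∈ F, ((Ideal.absNorm P : ℕ) : ℝ) ^ (-s) ≤ (PT.rt g p : ℝ) * (p : ℝ) ^ (-s)
      + (Module.finrank ℚ K : ℝ) * (if p ∣ B1 then 1 else 0)
      + (Module.finrank ℚ K : ℝ) * (1 / (p : ℝ) ^ 2) := by
  classical
  have hp1 : (1 : ℝ) ≤ p := by exact_mod_cast hp.one_lt.le
  have hp0 : (0 : ℝ) < p := by linarith
  have h0 : 0 ≤ (p : ℝ) ^ (-s) := Real.rpow_nonneg hp0.le _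
  have h1le : (p : ℝ) ^ (-s) ≤ 1 := Real.rpow_le_one_of_one_le_of_nonpos hp1 (by linarith)
  have hsub : ∀ F' ⊆ F, (F'.card : ℝ) ≤ (Module.finrank ℚ K : ℝ) := by
    intro F' hF'
    have h := PT.primes_above_le K p hp F' fun P hP => ⟨(hF P (hF' hP)).1, (hF P (hF' hP)).2.1⟩
    exact_mod_cast h
  rw [← Finset.sum_filter_add_sum_filter_not F (fun P => Ideal.absNorm P = p)]
  have ha : ∑ P ∈ F.filter (fun P => Ideal.absNorm P = p), ((Ideal.absNorm P : ℕ) : ℝ) ^ (-s)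
      ≤ (PT.rt g p : ℝ) * (p : ℝ) ^ (-s)
        + (Module.finrank ℚ K : ℝ) * (if p ∣ B1 then 1 else 0) := by
    have h2 : ∑ P ∈ F.filter (fun P => Ideal.absNorm P = p), ((Ideal.absNorm P : ℕ) : ℝ) ^ (-s)
        = ((F.filter (fun P => Ideal.absNorm P = p)).card : ℝ) * (p : ℝ) ^ (-s) := by
      rw [Finset.sum_congr rfl (g := fun _ => (p : ℝ) ^ (-s))
        (fun P hP => by rw [(Finset.mem_filter.1 hP).2]), Finset.sum_const, nsmul_eq_mul]
    rw [h2]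
    by_cases hd : p ∣ B1
    · rw [if_pos hd]
      have h3 := hsub _ (Finset.filter_subset (fun P => Ideal.absNorm P = p) F)
      have h4 : ((F.filter (fun P => Ideal.absNorm P = p)).card : ℝ) * (p : ℝ) ^ (-s)
          ≤ (Module.finrank ℚ K : ℝ) * 1 :=
        mul_le_mul h3 h1le h0 (Nat.cast_nonneg _)
      have h5 : 0 ≤ (PT.rt g p : ℝ) * (p : ℝ) ^ (-s) := mul_nonneg (Nat.cast_nonneg _) h0
      linarith
    · rw [if_neg hd]
      have h3 := hB p hp hd (F.filter (fun P => Ideal.absNorm P = p)) fun P hP =>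
        ⟨(hF P (Finset.mem_filter.1 hP).1).1, (Finset.mem_filter.1 hP).2⟩
      have h4 : ((F.filter (fun P => Ideal.absNorm P = p)).card : ℝ) ≤ (PT.rt g p : ℝ) := by
        exact_mod_cast h3
      have h5 := mul_le_mul_of_nonneg_right h4 h0
      linarith
  have hb : ∑ P ∈ F.filter (fun P => ¬ Ideal.absNorm P = p), ((Ideal.absNorm P : ℕ) : ℝ) ^ (-s)
      ≤ (Module.finrank ℚ K : ℝ) * (1 / (p : ℝ) ^ 2) := by
    have h2 : ∀ P ∈ F.filter (fun P => ¬ Ideal.absNorm P = p),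
        ((Ideal.absNorm P : ℕ) : ℝ) ^ (-s) ≤ 1 / (p : ℝ) ^ 2 := by
      intro P hP
      rw [Finset.mem_filter] at hP
      have h := ((hF P hP.1).2.2).resolve_left hP.2
      have hN1 : ((p : ℝ)) ^ 2 ≤ ((Ideal.absNorm P : ℕ) : ℝ) := by exact_mod_cast h
      have hN2 : (1 : ℝ) ≤ ((Ideal.absNorm P : ℕ) : ℝ) := le_trans (one_le_pow₀ hp1) hN1
      have h3 : ((Ideal.absNorm P : ℕ) : ℝ) ^ (-s) ≤ ((Ideal.absNorm P : ℕ) : ℝ) ^ (-1 : ℝ) :=
        Real.rpow_le_rpow_of_exponent_le hN2 (by linarith)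
      have h4 : ((Ideal.absNorm P : ℕ) : ℝ) ^ (-1 : ℝ) ≤ 1 / (p : ℝ) ^ 2 := by
        rw [Real.rpow_neg_one, one_div]
        exact inv_anti₀ (by positivity) hN1
      exact h3.trans h4
    refine (Finset.sum_le_sum h2).trans ?_
    rw [Finset.sum_const, nsmul_eq_mul]
    exact mul_le_mul_of_nonneg_right
      (hsub _ (Finset.filter_subset (fun P => ¬ Ideal.absNorm P = p) F)) (by positivity)
  linarith

theorem rt_low_s (g : ℤ[X]) (hm : g.Monic) (hirr : Irreducible (g.map (Int.castRingHom ℚ))) :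
    ∃ C : ℝ, ∀ s : ℝ, 1 < s → s ≤ 2 → ∃ T : Finset ℕ, (∀ p ∈ T, p.Prime) ∧
      Real.log (1 / (s - 1)) - C ≤ ∑ p ∈ T, (PT.rt g p : ℝ) * (p : ℝ) ^ (-s) := by
  classical
  obtain ⟨K, iF, iN, t, ht, hgen⟩ := monic_field g hm hirr
  obtain ⟨B1, hB1, hB⟩ := primes_le_rt g K t ht hgen
  obtain ⟨C, hC⟩ := PT.zeta_lower K
  set n : ℕ := Module.finrank ℚ K with hn
  set C2 : ℝ := ∑' k : ℕ, 1 / (k : ℝ) ^ 2 with hC2
  refine ⟨C + n * B1 + n * C2, fun s hs1 hs2 => ?_⟩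
  obtain ⟨E, hE, hsum⟩ := hC s hs1 hs2
  have hex : ∀ P : Ideal (𝓞 K), ∃ p : ℕ, P ∈ E →
      (p.Prime ∧ (p : 𝓞 K) ∈ P ∧ (Ideal.absNorm P = p ∨ p ^ 2 ≤ Ideal.absNorm P)) := by
    intro P
    by_cases hP : P ∈ E
    · obtain ⟨p, hp⟩ := PT.ptsplit_char K P (hE P hP).1 (hE P hP).2
      exact ⟨p, fun _ => hp⟩
    · exact ⟨0, fun h => absurd h hP⟩
  choose q hq using hex
  have hT : ∀ p ∈ E.image q, p.Prime := by
    intro p hp
    rw [Finset.mem_image] at hp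
    obtain ⟨P, hP, rfl⟩ := hp
    exact (hq P hP).1
  refine ⟨E.image q, hT, ?_⟩
  have h1 : ∑ P ∈ E, ((Ideal.absNorm P : ℕ) : ℝ) ^ (-s)
      ≤ ∑ p ∈ E.image q, ((PT.rt g p : ℝ) * (p : ℝ) ^ (-s)
        + (n : ℝ) * (if p ∣ B1 then 1 else 0) + (n : ℝ) * (1 / (p : ℝ) ^ 2)) := by
    rw [← Finset.sum_fiberwise_of_maps_to (fun P hP => Finset.mem_image_of_mem q hP)
      (fun P => ((Ideal.absNorm P : ℕ) : ℝ) ^ (-s))]
    refine Finset.sum_le_sum fun p hp => ?_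
    refine twrtlow_fiber g K B1 hB s hs1 p (hT p hp) _ fun P hP => ?_
    rw [Finset.mem_filter] at hP
    have h2 := hq P hP.1
    rw [hP.2] at h2
    exact ⟨(hE P hP.1).1, h2.2.1, h2.2.2⟩
  have h3 : ∑ p ∈ E.image q, (if p ∣ B1 then (1 : ℝ) else 0) ≤ B1 := by
    rw [← Finset.sum_filter, Finset.sum_const, nsmul_eq_mul, mul_one]
    have h5 : (E.image q).filter (· ∣ B1) ⊆ B1.divisors := by
      intro p hp
      rw [Finset.mem_filter] at hp
      exact Nat.mem_divisors.2 ⟨hp.2, hB1⟩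
    have h6 := (Finset.card_le_card h5).trans (Nat.card_divisors_le_self B1)
    exact_mod_cast h6
  have h5 : ∑ p ∈ E.image q, 1 / (p : ℝ) ^ 2 ≤ C2 :=
    (Real.summable_one_div_nat_pow.2 (by norm_num)).sum_le_tsum _ (fun k _ => by positivity)
  rw [Finset.sum_add_distrib, Finset.sum_add_distrib, ← Finset.mul_sum, ← Finset.mul_sum] at h1
  have hn0 : (0 : ℝ) ≤ n := Nat.cast_nonneg _
  have h7 := mul_le_mul_of_nonneg_left h3 hn0
  have h8 := mul_le_mul_of_nonneg_left h5 hn0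
  linarith

theorem rt_low (g : ℤ[X]) (hm : g.Monic) (hirr : Irreducible (g.map (Int.castRingHom ℚ))) :
    ∃ C : ℝ, ∀ x : ℝ, 2 ≤ x → Real.log (Real.log x) - C ≤ PT.PS (fun p => (PT.rt g p : ℝ)) x := by
  obtain ⟨C, hC⟩ := rt_low_s g hm hirr
  obtain ⟨M, hM⟩ := PT.rt_le g hm.ne_zero
  obtain ⟨C', hC'⟩ := PT.conv_lower (fun p => (PT.rt g p : ℝ)) M 1 C
    (fun p _ => Nat.cast_nonneg _) (fun p hp => by exact_mod_cast hM p hp) zero_le_one (by
      intro s hs1 hs2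
      obtain ⟨T, hT, h⟩ := hC s hs1 hs2
      exact ⟨T, hT, by rw [one_mul]; exact h⟩)
  refine ⟨C', fun x hx => ?_⟩
  have h := hC' x hx
  rw [one_mul] at h
  exact h

end TW
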