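import Pool.Agent.Lib.MP_10e784_ag.TW.TWDefs
import Pool.Agent.Lib.MP_10e784_ag.PT.PTBad

/-! JOB TWGood.  Almost all primes are good.

`good_exists`: `∏ i, qq (g i)` is squarefree over `ℚ` (pairwise coprime irreducible: different monic irreducible polynomials are coprime), so separable (`PerfectField`/char 0: `Irreducible.separable`, `Polynomial.Separable.mul`, or `Polynomial.separable_prod'`), so for `G = ∏ g i` there are `a, b ∈ ℤ[X]` and `R ≠ 0` in `ℤ` with
`a * G + b * derivative G = C R` (`PT.ptbad_bezout` in `Pool.Agent.Lib.MP_10e784_ag.PT.PTBad` is exactly this; import it).  For `p ∤ R` the reduction of `G` is separable, hence squarefree (`Polynomial.Separable.squarefree`).  `M = R.natAbs * (8 N ^ 2)!` with `N = ∑ natDegree`: a prime `p ∤ M` is larger than `8 N ^ 2` (`Nat.Prime.dvd_factorial`). -/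

namespace TW

open Polynomial Finset

theorem twgood_coprime {ι : Type} [Fintype ι] {g : ι → ℤ[X]} (hg : Fam g) {i j : ι} (hij : i ≠ j) :
    IsCoprime ((g i).map (Int.castRingHom ℚ)) ((g j).map (Int.castRingHom ℚ)) := by
  rw [(hg.irr i).coprime_iff_not_dvd]
  intro hd
  have h1 : Associated ((g i).map (Int.castRingHom ℚ)) ((g j).map (Int.castRingHom ℚ)) :=
    (hg.irr i).associated_of_dvd (hg.irr j) hd
  have h2 := Polynomial.eq_of_monic_of_associated ((hg.monic i).map _) ((hg.monic j).map _) h1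
  exact hij (hg.inj (Polynomial.map_injective (Int.castRingHom ℚ) Int.cast_injective h2))

theorem twgood_sep {ι : Type} [Fintype ι] {g : ι → ℤ[X]} (hg : Fam g) :
    ((∏ i, g i).map (Int.castRingHom ℚ)).Separable := by
  rw [Polynomial.map_prod]
  apply Polynomial.separable_prod'
  · intro i _ j _ hij
    exact twgood_coprime hg hij
  · intro i _
    exact (hg.irr i).separable

theorem good_exists {ι : Type} [Fintype ι] [DecidableEq ι] {g : ι → ℤ[X]} (hg : Fam g) :
    ∃ M : ℕ, M ≠ 0 ∧ ∀ p : ℕ, p.Prime → ¬ p ∣ M → GoodP g p := by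
  have hsep := twgood_sep hg
  unfold Polynomial.Separable at hsep
  rw [Polynomial.derivative_map] at hsep
  obtain ⟨U, V, R, hR, hUV⟩ := PT.ptbad_bezout _ _ hsep
  refine ⟨R.natAbs * (8 * (∑ i, (g i).natDegree) ^ 2).factorial,
    mul_ne_zero (Int.natAbs_ne_zero.2 hR) (Nat.factorial_ne_zero _), fun p hp hpM => ⟨hp, ?_, ?_⟩⟩
  · by_contra hlt
    apply hpM
    exact Dvd.dvd.mul_left ((Nat.Prime.dvd_factorial hp).2 (by omega)) _
  · haveI : Fact p.Prime := ⟨hp⟩
    have hpR : ¬ p ∣ R.natAbs := fun h => hpM (Dvd.dvd.mul_right h _)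
    have hR' : ((R : ℤ) : ZMod p) ≠ 0 := by
      intro h0
      rw [ZMod.intCast_zmod_eq_zero_iff_dvd] at h0
      exact hpR (Int.natCast_dvd.1 h0)
    apply Polynomial.Separable.squarefree
    unfold Polynomial.Separable red
    rw [Polynomial.derivative_map]
    have h1 := congrArg (Polynomial.map (Int.castRingHom (ZMod p))) hUV
    rw [Polynomial.map_add, Polynomial.map_mul, Polynomial.map_mul, Polynomial.map_C] at h1
    refine ⟨C (((R : ℤ) : ZMod p)⁻¹) * U.map (Int.castRingHom (ZMod p)),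
      C (((R : ℤ) : ZMod p)⁻¹) * V.map (Int.castRingHom (ZMod p)), ?_⟩
    rw [mul_assoc, mul_assoc, ← mul_add, h1, ← C_mul]
    rw [show (Int.castRingHom (ZMod p)) R = ((R : ℤ) : ZMod p) from rfl, inv_mul_cancel₀ hR', C_1]

end TW
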