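import Pool.Agent.Lib.MP_10e784_ag.TW.TWDefs

/-! JOB TWTriv.  Small algebraic facts.

`triv_transfer`: `qq (g i)` is irreducible (`hg.irr i`), so `κ` is invertible modulo `qq (g i)`: `κ * κ' ≡ 1` (`IsCoprime`).  From `qq (g i) ∣ C c * P i * (C r - X) - B ^ 2` and `P i ≡ Q i κ ^ 2`: `C c * Q i * (C r - X) ≡ (B κ') ^ 2`.
`pol_ne`: if `pol g (x : ℚ) i = 0` then `qq (g i) ∣ (C u - C v X) κ ^ 2`, so it divides `ℓ = C u - C v X` (irreducible = prime).  If `ℓ = 0` then `u = v = 0`, not coprime.  Otherwise `natDegree ℓ ≤ 1`, so `natDegree (g i) = 1` (it is `≥ 1`, and at most `natDegree ℓ`), `g i = X - C t` (`t ∈ ℤ`, monic), so `ℓ(t) = 0`, `u = v t`, and `PT.hom (g i) u v = u - t v = 0`, a contradiction.  `pol g x i ≠ 0` over `ℤ` follows by mapping to `ℚ`.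
`pol_map`: `map` of `pol`.  `sqf_ext`: two squarefree natural numbers with the same prime divisors are equal (`Nat.prod_primeFactors_of_squarefree`); a prime `p ∣ M` divides neither `e i` nor `e' i`. -/

namespace TW

open Polynomial Finset

theorem pol_map {ι R S : Type} [CommRing R] [CommRing S] (f : R →+* S) (g : ι → ℤ[X]) (x : Co g → R) (i : ι) :
    (pol g x i).map f = pol g (fun c => f (x c)) i := by
  unfold pol
  rw [Polynomial.map_sum]
  apply Finset.sum_congr rfl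
  intro c _
  rw [Polynomial.map_mul, Polynomial.map_pow, map_C, map_X]

theorem triv_transfer {ι : Type} [Fintype ι] {g : ι → ℤ[X]} (hg : Fam g) (P Q : ι → ℚ[X])
    (h : ∀ i, ∃ κ : ℚ[X], ¬ qq (g i) ∣ κ ∧ qq (g i) ∣ P i - Q i * κ ^ 2) (i₀ : ι) (hT : Triv g i₀ P) :
    Triv g i₀ Q := by
  obtain ⟨h1, c, hc, hP⟩ := hT
  refine ⟨h1, c, hc, fun i hi => ?_⟩
  obtain ⟨B, D, hB⟩ := hP i hi
  obtain ⟨κ, hκ, E, hE⟩ := h i
  have hirr : Irreducible (qq (g i)) := hg.irr i
  obtain ⟨a, b, hab⟩ := (hirr.coprime_iff_not_dvd).2 hκ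
  refine ⟨B * b, C c * Q i * (C (-((g i₀).coeff 0 : ℚ)) - X) * a * (1 + b * κ) -
    b ^ 2 * C c * (C (-((g i₀).coeff 0 : ℚ)) - X) * E + b ^ 2 * D, ?_⟩
  linear_combination b ^ 2 * hB - b ^ 2 * C c * (C (-((g i₀).coeff 0 : ℚ)) - X) * hE -
    C c * Q i * (C (-((g i₀).coeff 0 : ℚ)) - X) * (1 + b * κ) * hab

theorem pol_ne {ι : Type} [Fintype ι] {g : ι → ℤ[X]} (hg : Fam g) (u v : ℤ) (huv : IsCoprime u v) (i : ι)
    (hh : PT.hom (g i) u v ≠ 0) (x : Co g → ℤ)
    (h : ∃ κ : ℚ[X], ¬ qq (g i) ∣ κ ∧ qq (g i) ∣ pol g (fun c => (x c : ℚ)) i - (C (u : ℚ) - C (v : ℚ) * X) * κ ^ 2) :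
    pol g x i ≠ 0 := by
  intro h0
  obtain ⟨κ, hκ, hd⟩ := h
  have hirr : Irreducible (qq (g i)) := hg.irr i
  have h1 : pol g (fun c => (x c : ℚ)) i = 0 := by
    have h2 := pol_map (Int.castRingHom ℚ) g x i
    rw [h0, Polynomial.map_zero] at h2
    exact h2.symm
  rw [h1, zero_sub, dvd_neg] at hd
  have hdl : qq (g i) ∣ C (u : ℚ) - C (v : ℚ) * X := by
    rcases hirr.prime.dvd_or_dvd hd with h2 | h2
    · exact h2
    · exact absurd (hirr.prime.dvd_of_dvd_pow h2) hκ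
  have hmon : (qq (g i)).natDegree = (g i).natDegree := (hg.monic i).natDegree_map _
  have hpos : 1 ≤ (g i).natDegree := by
    rw [← hmon]
    exact hirr.natDegree_pos
  by_cases hl : C (u : ℚ) - C (v : ℚ) * X = 0
  · have hu : (u : ℚ) = 0 := by
      have := congrArg (fun P : ℚ[X] => P.coeff 0) hl
      simpa using this
    have hv : (v : ℚ) = 0 := by
      have h3 : (C (u : ℚ) - C (v : ℚ) * X).coeff 1 = 0 := by rw [hl, coeff_zero]
      rw [coeff_sub, coeff_C_mul, coeff_X_one, coeff_C_of_ne_zero one_ne_zero, mul_one, zero_sub, neg_eq_zero] at h3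
      exact h3
    have hu' : u = 0 := by exact_mod_cast hu
    have hv' : v = 0 := by exact_mod_cast hv
    rw [hu', hv'] at huv
    obtain ⟨a, b, hab⟩ := huv
    simp at hab
  · have hdeg : (g i).natDegree ≤ 1 := by
      rw [← hmon]
      refine (natDegree_le_of_dvd hdl hl).trans ?_
      refine (natDegree_sub_le _ _).trans ?_
      rw [natDegree_C]
      exact max_le (Nat.zero_le _) ((natDegree_C_mul_le _ _).trans natDegree_X_le)
    have hd1 : (g i).natDegree = 1 := le_antisymm hdeg hpos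
    have hg1 : g i = X + C ((g i).coeff 0) := (hg.monic i).eq_X_add_C hd1
    have hq1 : qq (g i) = X - C (-((g i).coeff 0 : ℚ)) := by
      unfold qq
      rw [hg1]
      simp
    rw [hq1, dvd_iff_isRoot, IsRoot.def, eval_sub, eval_C, eval_mul, eval_C, eval_X] at hdl
    apply hh
    unfold PT.hom
    rw [hd1, Finset.sum_range_succ, Finset.sum_range_succ, Finset.sum_range_zero]
    have hc1 : (g i).coeff 1 = 1 := by
      have := hg.monic i
      rw [Monic, leadingCoeff, hd1] at this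
      exact this
    rw [hc1]
    have h3 : ((g i).coeff 0 : ℚ) * v + u = 0 := by linear_combination hdl
    have h4 : (g i).coeff 0 * v + u = 0 := by exact_mod_cast h3
    simpa using h4

theorem sqf_ext {ι : Type} [Fintype ι] (M : ℕ) (e e' : ι → ℕ) (he : Squarefree (∏ i, e i)) (he' : Squarefree (∏ i, e' i))
    (h : ∀ p : ℕ, p.Prime → p ∣ ∏ i, e i → ¬ p ∣ M) (h' : ∀ p : ℕ, p.Prime → p ∣ ∏ i, e' i → ¬ p ∣ M)
    (hp : ∀ p : ℕ, p.Prime → ¬ p ∣ M → ∀ i, (p ∣ e i ↔ p ∣ e' i)) : e = e' := by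
  funext i
  have h1 : e i ∣ ∏ i, e i := Finset.dvd_prod_of_mem e (Finset.mem_univ i)
  have h2 : e' i ∣ ∏ i, e' i := Finset.dvd_prod_of_mem e' (Finset.mem_univ i)
  rw [Nat.Squarefree.ext_iff (he.squarefree_of_dvd h1) (he'.squarefree_of_dvd h2)]
  intro p hpp
  constructor
  · intro hd
    exact (hp p hpp (h p hpp (hd.trans h1)) i).1 hd
  · intro hd
    exact (hp p hpp (h' p hpp (hd.trans h2)) i).2 hd

end TW
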