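import Pool.Agent.Lib.MP_10e784_ag.TW.TWDefs
import Pool.Agent.Lib.MP_10e784_ag.PT.PTRedA

/-! JOB TWGen.  The family of a squarefree rational polynomial with at most one rational root.

`PT.ptreda_factors F` gives `n`, `q : Fin n → ℚ[X]` monic irreducible injective, `F = C c * ∏ q i`.  `M` = product of the denominators of all coefficients of all `q i` (or `IsLocalization.exist_integer_multiples_of_finset`), so `M * coeff` is an integer for all coefficients; then the coefficients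
`coeff k * M ^ (deg - k)` of `(q i).scaleRoots M` are integers (`k < deg`: divisible by `M`; `k = deg`: equal to `1`; above: `0`), so `(q i).scaleRoots M = (g i).map` (`Polynomial.mem_lifts`, `lifts_iff_coeff_lifts`, or `lifts_and_natDegree_eq_and_monic`), `g i` monic (`monic_scaleRoots_iff`, injectivity of the map).
Irreducible: `scaleRoots` by the unit `M` is invertible and multiplicative (`mul_scaleRoots_of_noZeroDivisors`, `scaleRoots_mul`, `scaleRoots_one`): a factorization `(q i).scaleRoots M = a * b` gives `q i = (a.scaleRoots M⁻¹) * (b.scaleRoots M⁻¹)`, degrees are preserved, units are the nonzero constants (or `scaleRoots_dvd_iff`).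
Injective: `g i = g j` gives `(q i).scaleRoots M = (q j).scaleRoots M`, hence `q i = q j`.  Degrees: `natDegree F = ∑ natDegree (q i)` (`natDegree_prod`, monic), `natDegree (g i) = natDegree (q i)`.
`lin`: if `natDegree (g i) = natDegree (g j) = 1` then `q i = X - r`, `q j = X - r'`, `r` and `r'` are roots of `F`, so `r = r'` by `hroot`, `q i = q j`, `i = j`. -/

namespace TW

open Finset Polynomial

private theorem gen_scale_inv (p : ℚ[X]) {M : ℚ} (hM : M ≠ 0) :
    (p.scaleRoots M).scaleRoots M⁻¹ = p := by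
  rw [← scaleRoots_mul, mul_inv_cancel₀ hM, scaleRoots_one]

private theorem gen_scale_irr (p : ℚ[X]) (hp : Irreducible p) {M : ℚ} (hM : M ≠ 0) :
    Irreducible (p.scaleRoots M) := by
  have hn : 0 < (p.scaleRoots M).natDegree := by
    rw [natDegree_scaleRoots]
    exact hp.natDegree_pos
  have h0 : p.scaleRoots M ≠ 0 := scaleRoots_ne_zero hp.ne_zero M
  refine ⟨fun h => ?_, fun a b hab => ?_⟩
  · rw [natDegree_eq_zero_of_isUnit h] at hn
    exact absurd hn (lt_irrefl 0)
  · have h1 : p = a.scaleRoots M⁻¹ * b.scaleRoots M⁻¹ := by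
      rw [← mul_scaleRoots_of_noZeroDivisors, ← hab, gen_scale_inv p hM]
    have ha0 : a ≠ 0 := by
      rintro rfl
      rw [zero_mul] at hab
      exact h0 hab
    have hb0 : b ≠ 0 := by
      rintro rfl
      rw [mul_zero] at hab
      exact h0 hab
    have key : ∀ c : ℚ[X], c ≠ 0 → IsUnit (c.scaleRoots M⁻¹) → IsUnit c := by
      intro c hc hu
      have h2 : c.natDegree = 0 := by
        rw [← natDegree_scaleRoots c M⁻¹]
        exact natDegree_eq_zero_of_isUnit hu
      rw [eq_C_of_natDegree_eq_zero h2]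
      refine isUnit_C.2 (isUnit_iff_ne_zero.2 fun h3 => hc ?_)
      rw [eq_C_of_natDegree_eq_zero h2, h3, C_0]
    rcases hp.isUnit_or_isUnit h1 with h2 | h2
    · exact Or.inl (key a ha0 h2)
    · exact Or.inr (key b hb0 h2)

private theorem gen_lift (p : ℚ[X]) (hp : p.Monic) {M : ℤ}
    (hM : ∀ k, ∃ z : ℤ, (z : ℚ) = M * p.coeff k) :
    ∃ g : ℤ[X], g.Monic ∧ g.map (Int.castRingHom ℚ) = p.scaleRoots (M : ℚ) := by
  have h1 : p.scaleRoots (M : ℚ) ∈ lifts (Int.castRingHom ℚ) := by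
    rw [lifts_iff_coeff_lifts]
    intro k
    rw [coeff_scaleRoots]
    rcases lt_trichotomy k p.natDegree with h | h | h
    · obtain ⟨z, hz⟩ := hM k
      refine ⟨z * M ^ (p.natDegree - k - 1), ?_⟩
      rw [map_mul, map_pow, eq_intCast, eq_intCast, hz]
      have h2 : p.natDegree - k = (p.natDegree - k - 1) + 1 := by omega
      rw [h2, pow_succ, Nat.add_sub_cancel]
      ring
    · refine ⟨1, ?_⟩
      rw [h, Nat.sub_self, pow_zero, mul_one, hp.coeff_natDegree, map_one]
    · refine ⟨0, ?_⟩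
      rw [coeff_eq_zero_of_natDegree_lt h, zero_mul, map_zero]
  obtain ⟨g, hg1, _, hg3⟩ := lifts_and_natDegree_eq_and_monic h1 ((monic_scaleRoots_iff _).2 hp)
  exact ⟨g, hg3, hg1⟩

private theorem gen_denom {n : ℕ} (q : Fin n → ℚ[X]) :
    ∃ M : ℤ, M ≠ 0 ∧ ∀ i k, ∃ z : ℤ, (z : ℚ) = M * (q i).coeff k := by
  classical
  obtain ⟨b, hb⟩ := IsLocalization.exist_integer_multiples_of_finset (nonZeroDivisors ℤ)
    (S := ℚ) ((univ : Finset (Fin n)).biUnion
      (fun i => (range ((q i).natDegree + 1)).image (q i).coeff))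
  refine ⟨b.1, nonZeroDivisors.coe_ne_zero b, fun i k => ?_⟩
  by_cases hk : k ≤ (q i).natDegree
  · obtain ⟨z, hz⟩ := hb ((q i).coeff k) (mem_biUnion.2 ⟨i, mem_univ _,
      mem_image.2 ⟨k, mem_range.2 (Nat.lt_succ_of_le hk), rfl⟩⟩)
    refine ⟨z, ?_⟩
    have h1 : (algebraMap ℤ ℚ) z = (z : ℚ) := rfl
    rw [← h1, hz, zsmul_eq_mul]
  · refine ⟨0, ?_⟩
    rw [coeff_eq_zero_of_natDegree_lt (not_le.1 hk), mul_zero, Int.cast_zero]

private theorem gen_root (F p : ℚ[X]) (hp : p.Monic) (h1 : p.natDegree = 1) (hd : p ∣ F) :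
    F.eval (-p.coeff 0) = 0 := by
  obtain ⟨e, rfl⟩ := hd
  rw [eval_mul]
  have h2 := hp.eq_X_add_C h1
  have h3 : p.eval (-p.coeff 0) = 0 := by
    have h4 := congrArg (eval (-p.coeff 0)) h2
    rw [eval_add, eval_X, eval_C, neg_add_cancel] at h4
    exact h4
  rw [h3, zero_mul]

theorem gen_fam (F : ℚ[X]) (hF : Squarefree F) (hdeg : Even F.natDegree) (h6 : 6 ≤ F.natDegree)
    (hroot : ∀ x y : ℚ, F.eval x = 0 → F.eval y = 0 → x = y) :
    ∃ (n : ℕ) (q : Fin n → ℚ[X]) (g : Fin n → ℤ[X]) (M : ℤ) (c : ℚ), M ≠ 0 ∧ c ≠ 0 ∧ Fam g ∧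
      (∀ i, (q i).Monic) ∧ F = C c * ∏ i, q i ∧ ∀ i, qq (g i) = (q i).scaleRoots (M : ℚ) := by
  obtain ⟨n, q, a, ha, hinj, hmon, hirr, hdvd, hprod, _⟩ := PT.ptreda_factors F hF
  obtain ⟨M, hM, hMq⟩ := gen_denom q
  have hMQ : (M : ℚ) ≠ 0 := Int.cast_ne_zero.2 hM
  have hex : ∀ i, ∃ g : ℤ[X], g.Monic ∧ g.map (Int.castRingHom ℚ) = (q i).scaleRoots (M : ℚ) :=
    fun i => gen_lift (q i) (hmon i) (hMq i)
  choose g hgm hg using hex
  have hdg : ∀ i, (g i).natDegree = (q i).natDegree := by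
    intro i
    rw [← natDegree_scaleRoots (q i) (M : ℚ), ← hg i, (hgm i).natDegree_map]
  have hsum : ∑ i, (g i).natDegree = F.natDegree := by
    rw [Finset.sum_congr rfl fun i _ => hdg i, hprod, natDegree_C_mul ha,
      natDegree_prod_of_monic _ _ fun i _ => hmon i]
  refine ⟨n, q, g, M, a, hM, ha, ⟨hgm, fun i => ?_, fun i j hij => ?_, ?_, ?_, ?_⟩, hmon, hprod, hg⟩
  · rw [hg i]
    exact gen_scale_irr (q i) (hirr i) hMQ
  · apply hinj
    rw [← gen_scale_inv (q i) hMQ, ← gen_scale_inv (q j) hMQ, ← hg i, ← hg j, hij]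
  · rw [hsum]
    exact hdeg
  · rw [hsum]
    exact h6
  · intro i j hi hj
    rw [hdg i] at hi
    rw [hdg j] at hj
    apply hinj
    have h1 := hroot _ _ (gen_root F (q i) (hmon i) hi (hdvd i))
      (gen_root F (q j) (hmon j) hj (hdvd j))
    rw [(hmon i).eq_X_add_C hi, (hmon j).eq_X_add_C hj, neg_inj.1 h1]

end TW
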