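import Pool.Agent.Lib.MP_10e784_ag.TW.TWDefs

/-! JOB TWInv.  `ℚ[M / θ] = ℚ[θ]` for an algebraic number `θ ≠ 0`.

`inv_poly`: `f ≠ 0` has the root `θ ≠ 0`; take the minimal polynomial `m` of `θ` over `ℚ` (`m.coeff 0 ≠ 0` because `θ ≠ 0`: `minpoly.coeff_zero_ne_zero`), `m = X * r + C m₀` (`Polynomial.divX`, `divX_mul_X_add`), so `θ * aeval θ r = - m₀` and `θ⁻¹ = aeval θ (C (-1 / m₀) * r)`; multiply by `M`.
`triv_C`: from the divisibility: `g ∣ C c * (C u - C v * X) * (C 0 - X) - B ^ 2` at `ϑ = M / θ`, `aeval ϑ g = 0`: `c (u - v ϑ) (- ϑ) = (aeval ϑ B) ^ 2`.  With `u = l M`, `v = l x`: `c l M (1 - x / θ) (- M / θ) = c l M ^ 2 (x - θ) / θ ^ 2`, so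
`c l (x - θ) = (θ / M * aeval ϑ B) ^ 2 = (aeval θ (C M⁻¹ * X * B.comp U)) ^ 2` with `U` from `inv_poly`. -/

namespace TW

open Finset Polynomial

theorem inv_poly (f : ℚ[X]) (hf : f ≠ 0) (θ : ℂ) (h : aeval θ f = 0) (h0 : θ ≠ 0) (M : ℚ) :
    ∃ U : ℚ[X], aeval θ U = (M : ℂ) * θ⁻¹ := by
  have hint : IsIntegral ℚ θ := by
    have : IsAlgebraic ℚ θ := ⟨f, hf, h⟩
    exact this.isIntegral
  set m := minpoly ℚ θ with hm
  have hm0 : m.coeff 0 ≠ 0 := minpoly.coeff_zero_ne_zero hint h0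
  have hroot : aeval θ m = 0 := minpoly.aeval ℚ θ
  have hdec : m.divX * X + C (m.coeff 0) = m := divX_mul_X_add m
  have h1 : aeval θ m.divX * θ + ((m.coeff 0 : ℚ) : ℂ) = 0 := by
    have h2 : aeval θ (m.divX * X + C (m.coeff 0)) = 0 := by rw [hdec]; exact hroot
    simpa using h2
  have hc : ((m.coeff 0 : ℚ) : ℂ) ≠ 0 := by exact_mod_cast hm0
  refine ⟨C (M * (-1 / m.coeff 0)) * m.divX, ?_⟩
  have h3 : aeval θ m.divX * θ = - ((m.coeff 0 : ℚ) : ℂ) := by linear_combination h1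
  rw [map_mul, aeval_C]
  simp only [eq_ratCast, Rat.cast_mul, Rat.cast_div, Rat.cast_neg, Rat.cast_one]
  field_simp
  linear_combination (-(M : ℂ)) * h3

theorem triv_C (f : ℚ[X]) (hf : f ≠ 0) (θ : ℂ) (h : aeval θ f = 0) (h0 : θ ≠ 0) (M l c x u v : ℚ) (hM : M ≠ 0)
    (hu : u = l * (M * 1)) (hv : v = l * x) (g B : ℚ[X]) (hg : aeval ((M : ℂ) * θ⁻¹) g = 0)
    (hB : g ∣ C c * (C u - C v * X) * (C 0 - X) - B ^ 2) :
    ∃ B' : ℚ[X], aeval θ (C (c * l) * (C x - X)) = (aeval θ B') ^ 2 := by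
  obtain ⟨U, hU⟩ := inv_poly f hf θ h h0 M
  obtain ⟨q, hq⟩ := hB
  have h1 : aeval ((M : ℂ) * θ⁻¹) (C c * (C u - C v * X) * (C 0 - X) - B ^ 2) = 0 := by
    rw [hq, map_mul, hg, zero_mul]
  have hMc : (M : ℂ) ≠ 0 := by exact_mod_cast hM
  have h2 : (c : ℂ) * ((u : ℂ) - v * ((M : ℂ) * θ⁻¹)) * (0 - (M : ℂ) * θ⁻¹) - (aeval ((M : ℂ) * θ⁻¹) B) ^ 2 = 0 := by
    simpa using h1
  have hu' : (u : ℂ) = l * M := by rw [hu]; push_cast; ring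
  have hv' : (v : ℂ) = l * x := by rw [hv]; push_cast; ring
  rw [hu', hv'] at h2
  have h3 : aeval θ (B.comp U) = aeval ((M : ℂ) * θ⁻¹) B := by
    rw [aeval_comp, hU]
  refine ⟨C M⁻¹ * X * B.comp U, ?_⟩
  rw [map_mul (aeval θ) (C M⁻¹ * X), h3]
  have h4 : (aeval ((M : ℂ) * θ⁻¹) B) ^ 2 = (c : ℂ) * ((l : ℂ) * M - l * x * ((M : ℂ) * θ⁻¹)) * (0 - (M : ℂ) * θ⁻¹) := by
    linear_combination -h2
  rw [mul_pow, h4]
  simp only [map_mul, map_sub, aeval_C, aeval_X, eq_ratCast, Rat.cast_inv]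
  field_simp
  ring

end TW
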