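import Pool.Agent.Lib.MP_10e784_ag.TW.TWDefs

/-! JOB TWNorm.  A norm computation.

Let `n = f.natDegree ≥ 1` (`n = 0`: `f` is a nonzero constant and the quotient is `1`), `A = AdjoinRoot f` (free of rank `n` over `ℚ`, `AdjoinRoot.powerBasis`), `θ` the root.  `Algebra.norm ℚ (x - θ) = f.eval x / f.leadingCoeff`: it is the determinant of `x - leftMulMatrix θ`, the value at `x` of the characteristic
polynomial of `θ`, which is the minimal polynomial `f * C (leadingCoeff⁻¹)` (`charpoly_leftMulMatrix`, `Algebra.norm_eq_matrix_det`, `Matrix.charpoly`, `Matrix.eval_charpoly`... ; `AdjoinRoot.minpoly_root`).  `norm (algebraMap c) = c ^ n`.  From the hypothesis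
`c (x - θ) = h(θ) ^ 2` in `A`, so `c ^ n * f.eval x / f.leadingCoeff = norm (h(θ)) ^ 2`.  Alternative: roots in `ℂ`: `∏ (c (x - θ_k)) = (∏ h(θ_k)) ^ 2`, and `∏ h(θ_k)` is rational up to `leadingCoeff ^ _` (resultant). -/

namespace TW

open Finset Polynomial

private theorem norm_lin (f : ℚ[X]) (hf : f ≠ 0) (x : ℚ) :
    Algebra.norm ℚ (algebraMap ℚ (AdjoinRoot f) x - AdjoinRoot.root f) =
      f.eval x / f.leadingCoeff := by
  have h1 : (AdjoinRoot.powerBasis hf).gen = AdjoinRoot.root f := AdjoinRoot.powerBasis_gen hf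
  rw [Algebra.norm_eq_matrix_det (AdjoinRoot.powerBasis hf).basis, map_sub, ← h1,
    AlgHom.commutes]
  have h2 := Matrix.eval_charpoly
    (Algebra.leftMulMatrix (AdjoinRoot.powerBasis hf).basis (AdjoinRoot.powerBasis hf).gen) x
  have h3 : (algebraMap ℚ (Matrix (Fin (AdjoinRoot.powerBasis hf).dim)
      (Fin (AdjoinRoot.powerBasis hf).dim) ℚ)) x = Matrix.scalar _ x := rfl
  rw [h3, ← h2, charpoly_leftMulMatrix, AdjoinRoot.minpoly_powerBasis_gen hf, eval_mul, eval_C,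
    div_eq_mul_inv]

theorem norm_sq (f : ℚ[X]) (hf : f ≠ 0) (c x : ℚ) (h : ℚ[X]) (hd : f ∣ C c * (C x - X) - h ^ 2) :
    IsSquare (c ^ f.natDegree * f.eval x / f.leadingCoeff) := by
  have h1 : algebraMap ℚ (AdjoinRoot f) c *
      (algebraMap ℚ (AdjoinRoot f) x - AdjoinRoot.root f) = (AdjoinRoot.mk f h) ^ 2 := by
    have h2 := AdjoinRoot.mk_eq_zero.2 hd
    rw [map_sub, map_mul, map_sub, AdjoinRoot.mk_C, AdjoinRoot.mk_C, AdjoinRoot.mk_X, map_pow,
      sub_eq_zero] at h2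
    exact h2
  have h3 := congrArg (Algebra.norm ℚ) h1
  rw [map_mul, map_pow, norm_lin f hf x,
    Algebra.norm_algebraMap_of_basis (AdjoinRoot.powerBasis hf).basis, Fintype.card_fin,
    AdjoinRoot.powerBasis_dim] at h3
  refine ⟨Algebra.norm ℚ (AdjoinRoot.mk f h), ?_⟩
  rw [← pow_two, ← h3, mul_div_assoc]

/-- the constant is determined up to squares -/
theorem norm_const (f : ℚ[X]) (hodd : Odd f.natDegree) (c x D w : ℚ) (hc : c ≠ 0) (hw : w ≠ 0) (hD : D ≠ 0)
    (h : D * w ^ 2 = f.eval x) (H : ℚ[X]) (hd : f ∣ C c * (C x - X) - H ^ 2) :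
    ∃ H' : ℚ[X], f ∣ C (f.leadingCoeff * D) * (C x - X) - H' ^ 2 := by
  have hf : f ≠ 0 := by
    rintro rfl
    simp at hodd
  have hl : f.leadingCoeff ≠ 0 := leadingCoeff_ne_zero.2 hf
  obtain ⟨r, hr⟩ := norm_sq f hf c x H hd
  obtain ⟨m, hm⟩ := hodd
  rw [hm, ← h, pow_succ, pow_mul] at hr
  have hcm : c ^ m ≠ 0 := pow_ne_zero m hc
  have hs : f.leadingCoeff * D = c * (r * f.leadingCoeff / (c ^ m * w * c)) ^ 2 := by
    have h2 : ((c ^ 2) ^ m * c * (D * w ^ 2)) = r * r * f.leadingCoeff := by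
      rw [← hr]
      field_simp
    have h3 : (c ^ 2) ^ m = (c ^ m) ^ 2 := by
      rw [← pow_mul, ← pow_mul, mul_comm]
    rw [h3] at h2
    field_simp
    linear_combination h2
  refine ⟨C (r * f.leadingCoeff / (c ^ m * w * c)) * H, ?_⟩
  rw [hs]
  have h4 : C (c * (r * f.leadingCoeff / (c ^ m * w * c)) ^ 2) * (C x - X) -
      (C (r * f.leadingCoeff / (c ^ m * w * c)) * H) ^ 2 =
      (C (r * f.leadingCoeff / (c ^ m * w * c))) ^ 2 * (C c * (C x - X) - H ^ 2) := by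
    rw [C_mul, C_pow]
    ring
  rw [h4]
  exact Dvd.dvd.mul_left hd _

end TW
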