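import Pool.Agent.Lib.MP_10e784_ag.TW.TWDefs

/-! JOB TWRev.  The polynomial `F = X * f.reverse` for `f` squarefree without rational root.

`rev_deg`: `reverse_natDegree`, `natTrailingDegree f = 0` because `f.coeff 0 = f.eval 0 ≠ 0`.
`rev_sqf`: `f.reverse` is squarefree: if `d * d ∣ f.reverse` then `d.coeff 0 ≠ 0` (`coeff_zero_reverse`: the constant coefficient of `f.reverse` is `leadingCoeff f ≠ 0`), `reverse` is multiplicative (`reverse_mul_of_domain`), `f.reverse.reverse = f` (`f.coeff 0 ≠ 0`; compare coefficients with `coeff_reverse`, `revAt`),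
so `d.reverse * d.reverse ∣ f`, `d.reverse` is a unit, of degree zero, and `natDegree d = natDegree d.reverse = 0` (`d.coeff 0 ≠ 0`), `d` is a unit.  `X` is prime and does not divide `f.reverse` (constant coefficient), so `X * f.reverse` is squarefree (`squarefree_mul`, `IsRelPrime`/`IsCoprime`).
(Alternative: separability over `ℚ` and roots in `ℂ`.)
`rev_root`: a rational root of `f.reverse` is not zero and its inverse is a root of `f` (`eval₂_reverse_eq_zero_iff`), impossible.
`rev_root_C`: for a complex root `θ` of `f` (`θ ≠ 0` because `f.coeff 0 ≠ 0`), `θ⁻¹` is a root of `f.reverse` (`eval₂_reverse_eq_zero_iff` or `eval₂_reverse_mul_pow` with `Invertible`). -/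

namespace TW

open Finset Polynomial

private theorem rev_trail (f : ℚ[X]) (h0 : f.coeff 0 ≠ 0) : f.natTrailingDegree = 0 :=
  natTrailingDegree_eq_zero.2 (Or.inr h0)

private theorem rev_natDegree (f : ℚ[X]) (h0 : f.coeff 0 ≠ 0) :
    f.reverse.natDegree = f.natDegree := by
  rw [reverse_natDegree, rev_trail f h0, Nat.sub_zero]

private theorem rev_ne_zero (f : ℚ[X]) (h0 : f.coeff 0 ≠ 0) : f.reverse ≠ 0 := by
  intro h
  rw [reverse_eq_zero] at h
  rw [h] at h0
  simp at h0

private theorem rev_rev (f : ℚ[X]) (h0 : f.coeff 0 ≠ 0) : f.reverse.reverse = f := by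
  have h1 : f.reverse.reverse = reflect f.reverse.natDegree f.reverse := rfl
  rw [h1, rev_natDegree f h0]
  show reflect f.natDegree (reflect f.natDegree f) = f
  exact reflect_reflect

theorem rev_deg (f : ℚ[X]) (h0 : f.coeff 0 ≠ 0) : (X * f.reverse).natDegree = f.natDegree + 1 := by
  rw [natDegree_X_mul (rev_ne_zero f h0), rev_natDegree f h0]

theorem rev_sqf (f : ℚ[X]) (hf : Squarefree f) (h0 : f.coeff 0 ≠ 0) : Squarefree (X * f.reverse) := by
  have hf0 : f ≠ 0 := by
    rintro rfl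
    simp at h0
  have hc : f.reverse.coeff 0 ≠ 0 := by
    rw [coeff_zero_reverse]
    exact leadingCoeff_ne_zero.2 hf0
  have h1 : Squarefree f.reverse := by
    rintro d ⟨e, he⟩
    have h2 : f = d.reverse * d.reverse * e.reverse := by
      rw [← reverse_mul_of_domain, ← reverse_mul_of_domain, ← he, rev_rev f h0]
    have h3 : IsUnit d.reverse := hf d.reverse ⟨e.reverse, h2⟩
    have h4 : d.coeff 0 ≠ 0 := by
      intro h5
      apply hc
      rw [he, mul_coeff_zero, mul_coeff_zero, h5, zero_mul, zero_mul]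
    have h5 : d.natDegree = 0 := by
      rw [← rev_natDegree d h4]
      exact natDegree_eq_zero_of_isUnit h3
    rw [eq_C_of_natDegree_eq_zero h5]
    exact isUnit_C.2 (isUnit_iff_ne_zero.2 h4)
  rw [squarefree_mul_iff]
  refine ⟨?_, irreducible_X.squarefree, h1⟩
  rw [Irreducible.isRelPrime_iff_not_dvd irreducible_X, X_dvd_iff]
  exact hc

theorem rev_root (f : ℚ[X]) (hroot : ∀ x : ℚ, f.eval x ≠ 0) (x : ℚ) (hx : (X * f.reverse).eval x = 0) : x = 0 := by
  by_contra h
  rw [eval_mul, eval_X] at hx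
  have h1 := (mul_eq_zero.1 hx).resolve_left h
  have hi : x⁻¹ ≠ 0 := inv_ne_zero h
  have : Invertible (x⁻¹) := invertibleOfNonzero hi
  have h2 : ⅟(x⁻¹) = x := by
    rw [invOf_eq_inv, inv_inv]
  have h3 := eval₂_reverse_eq_zero_iff (RingHom.id ℚ) (x⁻¹) f
  rw [h2] at h3
  exact hroot x⁻¹ (h3.1 h1)

theorem rev_root_C (f : ℚ[X]) (h0 : f.coeff 0 ≠ 0) (θ : ℂ) (h : aeval θ f = 0) :
    θ ≠ 0 ∧ aeval (θ⁻¹) (X * f.reverse) = 0 := by
  have hθ : θ ≠ 0 := by
    rintro rfl
    rw [← coeff_zero_eq_aeval_zero'] at h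
    apply h0
    have h1 : (algebraMap ℚ ℂ) (f.coeff 0) = algebraMap ℚ ℂ 0 := by rw [h, map_zero]
    exact (algebraMap ℚ ℂ).injective h1
  refine ⟨hθ, ?_⟩
  have : Invertible θ := invertibleOfNonzero hθ
  have h3 := eval₂_reverse_eq_zero_iff (algebraMap ℚ ℂ) θ f
  rw [invOf_eq_inv] at h3
  rw [map_mul]
  have h4 : aeval (θ⁻¹) f.reverse = 0 := h3.2 h
  rw [h4, mul_zero]

end TW
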