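import Pool.Agent.Lib.MP_10e784_ag.TW.TWDefs
import Pool.Agent.Lib.MP_10e784_ag.PT.PTRedA

/-! Squares modulo a squarefree polynomial, checked at the complex roots.

`irr_root`: `q` irreducible with root `θ`: `aeval θ R = 0` implies `q ∣ R` (otherwise coprime, `u * q + v * R = 1`, evaluate at `θ`).
`sq_glue`: factor `f = C a * ∏ q i` (`PT.ptreda_factors`, the `q i` monic irreducible and different, hence pairwise coprime).  For every `i` choose a root `θ i ∈ ℂ` of `q i` (degree `≥ 1`, `IsAlgClosed.exists_aeval_eq_zero`), it is a root of `f`, the hypothesis gives `B i` with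
`aeval (θ i) (P - (B i) ^ 2) = 0`, so `q i ∣ P - (B i) ^ 2`.  Chinese remainder theorem: `H` with `q i ∣ H - B i` for all `i`; then `q i ∣ P - H ^ 2` for all `i`, and
`∏ q i ∣ P - H ^ 2` (`Finset.prod_dvd_of_coprime`). -/

namespace TW

open Finset Polynomial

theorem irr_root (q : ℚ[X]) (hq : Irreducible q) (θ : ℂ) (h0 : aeval θ q = 0) (R : ℚ[X]) (hR : aeval θ R = 0) :
    q ∣ R := by
  by_contra hnd
  have hcop : IsCoprime q R := (hq.coprime_iff_not_dvd).2 hnd
  obtain ⟨u, v, huv⟩ := hcop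
  have h := congrArg (aeval θ) huv
  simp [h0, hR] at h

theorem sq_glue (f : ℚ[X]) (hf : Squarefree f) (P : ℚ[X])
    (h : ∀ θ : ℂ, aeval θ f = 0 → ∃ B : ℚ[X], aeval θ P = (aeval θ B) ^ 2) :
    ∃ H : ℚ[X], f ∣ P - H ^ 2 := by
  obtain ⟨n, q, a, ha, hinj, hmon, hirr, hdvd, hfeq, -⟩ := PT.ptreda_factors f hf
  have hcop : ∀ i j, i ≠ j → IsCoprime (q i) (q j) := by
    intro i j hij
    rw [(hirr i).coprime_iff_not_dvd]
    intro hd
    apply hij
    apply hinj
    exact eq_of_monic_of_associated (hmon i) (hmon j)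
      ((hirr i).associated_of_dvd (hirr j) hd)
  have hB : ∀ i, ∃ B : ℚ[X], q i ∣ P - B ^ 2 := by
    intro i
    have hdeg : (q i).degree ≠ 0 := by
      intro h0
      exact (hirr i).not_isUnit (isUnit_iff_degree_eq_zero.2 h0)
    obtain ⟨θ, hθ⟩ := IsAlgClosed.exists_aeval_eq_zero ℂ (q i) hdeg
    have hfθ : aeval θ f = 0 := by
      obtain ⟨c, hc⟩ := hdvd i
      rw [hc, map_mul, hθ, zero_mul]
    obtain ⟨B, hB⟩ := h θ hfθ
    refine ⟨B, irr_root (q i) (hirr i) θ hθ _ ?_⟩
    rw [map_sub, map_pow, hB, sub_self]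
  choose B hB using hB
  obtain ⟨H, hH⟩ := Ideal.exists_forall_sub_mem_ideal (I := fun i => Ideal.span {q i})
    (fun i j hij => (Ideal.isCoprime_span_singleton_iff _ _).2 (hcop i j hij)) B
  refine ⟨H, ?_⟩
  rw [hfeq]
  have hprod : ∏ i, q i ∣ P - H ^ 2 := by
    apply Finset.prod_dvd_of_coprime
    · intro i _ j _ hij
      exact hcop i j hij
    · intro i _
      have h1 : q i ∣ H - B i := Ideal.mem_span_singleton.1 (hH i)
      have h2 : P - H ^ 2 = (P - B i ^ 2) - (H - B i) * (H + B i) := by ring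
      rw [h2]
      exact dvd_sub (hB i) (Dvd.dvd.mul_right h1 _)
  have hunit : IsUnit (C a : ℚ[X]) := isUnit_C.2 (isUnit_iff_ne_zero.2 ha)
  exact (hunit.mul_left_dvd).2 hprod

end TW
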