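import Pool.Agent.Lib.MP_10e784_ag.TW.TWHq
import Pool.Agent.Lib.MP_10e784_ag.TW.TWGen
import Pool.Agent.Lib.MP_10e784_ag.TW.TWNorm
import Pool.Agent.Lib.MP_10e784_ag.TW.TWSq
import Pool.Agent.Lib.MP_10e784_ag.TW.TWRev
import Pool.Agent.Lib.MP_10e784_ag.TW.TWInv

/-! The reduction from a rational polynomial to a family. -/

namespace TW

open Finset Polynomial

theorem natDegree_qq (g : ℤ[X]) : (qq g).natDegree = g.natDegree :=
  natDegree_map_eq_of_injective (RingHom.injective_int _) _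

theorem gen_pt {n : ℕ} (F : ℚ[X]) (hdeg : Even F.natDegree) (q : Fin n → ℚ[X]) (g : Fin n → ℤ[X]) (M : ℤ) (c : ℚ)
    (hM : M ≠ 0) (hc : c ≠ 0) (hmon : ∀ i, (q i).Monic) (hF : F = C c * ∏ i, q i)
    (hg : ∀ i, qq (g i) = (q i).scaleRoots (M : ℚ)) (D : ℤ) (x y w : ℚ) (hxy : x ≠ 0 ∨ y ≠ 0)
    (hne : hq F x y ≠ 0) (h : (D : ℚ) * w ^ 2 = hq F x y) :
    ∃ (u v : ℤ) (l : ℚ), IsCoprime u v ∧ l ≠ 0 ∧ (u : ℚ) = l * (M * x) ∧ (v : ℚ) = l * y ∧
      (∀ i, PT.hom (g i) u v ≠ 0) ∧ IsSquare (D * (c.num * c.den) * ∏ i, PT.hom (g i) u v) := by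
  have hMQ : (M : ℚ) ≠ 0 := by exact_mod_cast hM
  obtain ⟨u, v, l, huv, hl, hu, hv⟩ := coprime_pt ((M : ℚ) * x) y (by
    rcases hxy with h | h
    · exact Or.inl (mul_ne_zero hMQ h)
    · exact Or.inr h)
  have hhom : ∀ i, ((PT.hom (g i) u v : ℤ) : ℚ) = (l * M) ^ (q i).natDegree * hq (q i) x y := fun i =>
    hom_scale (g i) (q i) M (hg i) l x y u v hu hv
  have hprod : hq F x y = c * ∏ i, hq (q i) x y := by
    rw [hF]
    exact hq_prod q (fun i => (hmon i).ne_zero) c hc x y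
  have hqne : ∀ i, hq (q i) x y ≠ 0 := by
    intro i h0
    apply hne
    rw [hprod, Finset.prod_eq_zero (Finset.mem_univ i) h0, mul_zero]
  have hlM : l * (M : ℚ) ≠ 0 := mul_ne_zero hl hMQ
  refine ⟨u, v, l, huv, hl, hu, hv, ?_, ?_⟩
  · intro i h0
    have h1 := hhom i
    rw [h0, Int.cast_zero] at h1
    exact mul_ne_zero (pow_ne_zero _ hlM) (hqne i) h1.symm
  · have hsum : ∑ i, (q i).natDegree = F.natDegree := by
      rw [hF, natDegree_C_mul hc, natDegree_prod_of_monic _ _ (fun i _ => hmon i)]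
    obtain ⟨r, hr⟩ := hdeg
    rw [← Rat.isSquare_intCast_iff]
    refine ⟨(D : ℚ) * w * (l * M) ^ r * c.den, ?_⟩
    have h1 : ((∏ i, PT.hom (g i) u v : ℤ) : ℚ) = (l * M) ^ (r + r) * ∏ i, hq (q i) x y := by
      rw [Int.cast_prod, Finset.prod_congr rfl fun i _ => hhom i, Finset.prod_mul_distrib,
        Finset.prod_pow_eq_pow_sum, hsum, hr]
    have h2 : (c.num : ℚ) = c * c.den := (Rat.mul_den_eq_num c).symm
    rw [Int.cast_mul, Int.cast_mul, Int.cast_mul, Int.cast_natCast, h1, h2]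
    rw [hprod] at h
    generalize ∏ i, hq (q i) x y = P at *
    calc (D : ℚ) * (c * c.den * c.den) * ((l * M) ^ (r + r) * P)
        = D * (c * P) * c.den ^ 2 * (l * M) ^ (r + r) := by ring
      _ = D * (D * w ^ 2) * c.den ^ 2 * (l * M) ^ (r + r) := by rw [h]
      _ = D * w * (l * M) ^ r * c.den * (D * w * (l * M) ^ r * c.den) := by
        rw [pow_add]
        ring

theorem red_E (f : ℚ[X]) (hf : Squarefree f) (hdeg : Even f.natDegree) (h6 : 6 ≤ f.natDegree)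
    (hroot : ∀ x : ℚ, f.eval x ≠ 0) :
    ∃ (n : ℕ) (g : Fin n → ℤ[X]) (a : ℤ), Fam g ∧ a ≠ 0 ∧ ∀ D : ℤ,
      (∃ x w : ℚ, (D : ℚ) * w ^ 2 = f.eval x) →
      ∃ u v : ℤ, IsCoprime u v ∧ (∀ i, PT.hom (g i) u v ≠ 0) ∧ IsSquare (D * a * ∏ i, PT.hom (g i) u v) ∧
        ∀ i₀, ¬ Triv g i₀ (fun _ => C (u : ℚ) - C (v : ℚ) * X) := by
  obtain ⟨n, q, g, M, c, hM, hc, hFam, hmon, hF, hg⟩ := gen_fam f hf hdeg h6
    (fun x y hx _ => absurd hx (hroot x))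
  have hden : (c.den : ℤ) ≠ 0 := by exact_mod_cast c.den_ne_zero
  refine ⟨n, g, c.num * c.den, hFam, mul_ne_zero (Rat.num_ne_zero.2 hc) hden, ?_⟩
  rintro D ⟨x, w, h⟩
  obtain ⟨u, v, l, huv, hl, hu, hv, h1, h2⟩ := gen_pt f hdeg q g M c hM hc hmon hF hg D x 1 w
    (Or.inr one_ne_zero) (by rw [hq_one]; exact hroot x) (by rw [hq_one]; exact h)
  refine ⟨u, v, huv, h1, h2, ?_⟩
  rintro i₀ ⟨h3, -⟩
  rw [← natDegree_qq, hg i₀, natDegree_scaleRoots] at h3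
  have h4 : (q i₀).degree = 1 := by
    rw [Polynomial.degree_eq_natDegree (hmon i₀).ne_zero, h3]; rfl
  obtain ⟨r, hr⟩ := Polynomial.exists_root_of_degree_eq_one h4
  refine hroot r (hr.dvd ?_)
  rw [hF]
  exact dvd_mul_of_dvd_right (Finset.dvd_prod_of_mem q (Finset.mem_univ i₀)) _

theorem red_O (f : ℚ[X]) (hf : Squarefree f) (hdeg : Odd f.natDegree) (h5 : 5 ≤ f.natDegree)
    (hroot : ∀ x : ℚ, f.eval x ≠ 0) :
    ∃ (n : ℕ) (g : Fin n → ℤ[X]) (a : ℤ), Fam g ∧ a ≠ 0 ∧ ∀ D : ℤ, D ≠ 0 →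
      (∃ x w : ℚ, (D : ℚ) * w ^ 2 = f.eval x ∧
        ¬ ∃ h : ℚ[X], f ∣ C (f.leadingCoeff * D) * (C x - X) - h ^ 2) →
      ∃ u v : ℤ, IsCoprime u v ∧ (∀ i, PT.hom (g i) u v ≠ 0) ∧ IsSquare (D * a * ∏ i, PT.hom (g i) u v) ∧
        ∀ i₀, ¬ Triv g i₀ (fun _ => C (u : ℚ) - C (v : ℚ) * X) := by
  have h0 : f.coeff 0 ≠ 0 := by
    rw [coeff_zero_eq_eval_zero]
    exact hroot 0
  have hd := rev_deg f h0
  obtain ⟨n, q, g, M, c, hM, hc, hFam, hmon, hF, hg⟩ := gen_fam (X * f.reverse) (rev_sqf f hf h0)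
    (by rw [hd]; exact hdeg.add_one) (by omega)
    (fun x y hx hy => by rw [rev_root f hroot x hx, rev_root f hroot y hy])
  have hMQ : (M : ℚ) ≠ 0 := by exact_mod_cast hM
  have hden : (c.den : ℤ) ≠ 0 := by exact_mod_cast c.den_ne_zero
  refine ⟨n, g, c.num * c.den, hFam, mul_ne_zero (Rat.num_ne_zero.2 hc) hden, ?_⟩
  rintro D hD ⟨x, w, h, hnot⟩
  obtain ⟨u, v, l, huv, hl, hu, hv, h1, h2⟩ := gen_pt (X * f.reverse) (by rw [hd]; exact hdeg.add_one) q g M c hM hc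
    hmon hF hg D 1 x w (Or.inl one_ne_zero) (by rw [hq_rev f h0]; exact hroot x) (by rw [hq_rev f h0]; exact h)
  refine ⟨u, v, huv, h1, h2, ?_⟩
  rintro i₀ ⟨h3, c', hc', hB⟩
  apply hnot
  have h3' : (q i₀).natDegree = 1 := by
    rwa [← natDegree_qq, hg i₀, natDegree_scaleRoots] at h3
  have h4 : (q i₀).degree = 1 := by
    rw [Polynomial.degree_eq_natDegree (hmon i₀).ne_zero, h3']; rfl
  obtain ⟨r, hr⟩ := Polynomial.exists_root_of_degree_eq_one h4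
  have hdv : ∀ i, q i ∣ X * f.reverse := by
    intro i
    rw [hF]
    exact dvd_mul_of_dvd_right (Finset.dvd_prod_of_mem q (Finset.mem_univ i)) _
  have hr0 : r = 0 := rev_root f hroot r (hr.dvd (hdv i₀))
  have hq0 : q i₀ = X := by
    have h5 := (hmon i₀).eq_X_add_C h3'
    rw [hr0, IsRoot.def, h5] at hr
    simp only [eval_add, eval_X, eval_C, zero_add] at hr
    rw [h5, hr, C_0, add_zero]
  have hcoeff : (((g i₀).coeff 0 : ℤ) : ℚ) = 0 := by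
    have h5 : (qq (g i₀)).coeff 0 = (((g i₀).coeff 0 : ℤ) : ℚ) := by
      rw [qq, coeff_map, eq_intCast]
    rw [← h5, hg i₀, coeff_scaleRoots, hq0, coeff_X_zero, zero_mul]
  have hf0 : f ≠ 0 := hf.ne_zero
  have hglue := sq_glue f hf (C (c' * l) * (C x - X)) (by
    intro θ hθ
    obtain ⟨hθ0, hθ1⟩ := rev_root_C f h0 θ hθ
    rw [hF, map_mul, map_prod, aeval_C] at hθ1
    have h5 : algebraMap ℚ ℂ c ≠ 0 := by
      rw [Ne, map_eq_zero]
      exact hc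
    obtain ⟨i, -, hi⟩ := Finset.prod_eq_zero_iff.1 ((mul_eq_zero.1 hθ1).resolve_left h5)
    have hii : i ≠ i₀ := by
      rintro rfl
      rw [hq0, aeval_X] at hi
      exact inv_ne_zero hθ0 hi
    obtain ⟨B, hB'⟩ := hB i hii
    rw [hcoeff, neg_zero] at hB'
    refine triv_C f hf0 θ hθ hθ0 M l c' x u v hMQ hu hv (qq (g i)) B ?_ hB'
    rw [hg i]
    have h6 := scaleRoots_aeval_eq_zero (r := (M : ℚ)) hi
    simpa using h6)
  obtain ⟨H, hH⟩ := hglue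
  have hw : w ≠ 0 := by
    rintro rfl
    apply hroot x
    rw [← h]
    ring
  exact norm_const f hdeg (c' * l) x D w (mul_ne_zero hc' hl) hw (by exact_mod_cast hD) h H hH

end TW
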