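import Pool.Agent.Lib.MP_10e784_ag.TW.TWDefs

/-! JOB TWOmega.  Choice of a set of forbidden residues with constant fibres.

`κ → ZMod p` is finite (`haveI : NeZero p`).  Two vectors are in the same fibre if they agree outside `A`; for each fibre (it is determined by the restriction of `y` to the complement of `A`; choose e.g. the class function `y ↦ fun c => if c ∈ A then 0 else y c`) the fibre has `p ^ A.card` elements
(bijection with `A → ZMod p`), so the complement of `L` in it has at least `u` elements and we choose a subset with exactly `u` elements (`Finset.exists_subset_card_eq`, `Finset.exists_subset_card_eq`).  `Ω` is the union of the chosen subsets. -/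

namespace TW

open Finset

theorem twomega_card {κ : Type} [Fintype κ] [DecidableEq κ] (p : ℕ) [NeZero p] (A : Finset κ) (z : κ → ZMod p) :
    (Fintype.piFinset (fun c : κ => if c ∈ A then (univ : Finset (ZMod p)) else {z c})).card = p ^ A.card := by
  rw [Fintype.card_piFinset]
  have h1 : ∀ c : κ, (if c ∈ A then (univ : Finset (ZMod p)) else {z c}).card = if c ∈ A then p else 1 := by
    intro c
    split_ifs
    · rw [Finset.card_univ, ZMod.card]
    · exact Finset.card_singleton _
  rw [Finset.prod_congr rfl (fun c _ => h1 c), Finset.prod_ite_mem, Finset.univ_inter, Finset.prod_const]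

theorem twomega_mem {κ : Type} [Fintype κ] [DecidableEq κ] (p : ℕ) [NeZero p] (A : Finset κ) (z w : κ → ZMod p) :
    w ∈ Fintype.piFinset (fun c : κ => if c ∈ A then (univ : Finset (ZMod p)) else {z c}) ↔
      ∀ c, c ∉ A → w c = z c := by
  rw [Fintype.mem_piFinset]
  refine forall_congr' fun c => ?_
  split_ifs with hc
  · simp [hc]
  · simp [hc]

theorem choose_omega {κ : Type} [Fintype κ] [DecidableEq κ] (p : ℕ) (hp : p.Prime) (L : Set (κ → ZMod p)) (A : Finset κ)
    (u : ℕ) (h : ∀ y : κ → ZMod p, Nat.card {w : κ → ZMod p // w ∈ L ∧ ∀ c, c ∉ A → w c = y c} + u ≤ p ^ A.card) :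
    ∃ Ω : Set (κ → ZMod p), (∀ w ∈ Ω, w ∉ L) ∧
      ∀ y : κ → ZMod p, Nat.card {w : κ → ZMod p // w ∈ Ω ∧ ∀ c, c ∉ A → w c = y c} = u := by
  have : NeZero p := ⟨hp.ne_zero⟩
  classical
  have hfib : ∀ y : κ → ZMod p, ∃ S : Finset (κ → ZMod p),
      (∀ w ∈ S, w ∉ L ∧ ∀ c, c ∉ A → w c = y c) ∧ S.card = u := by
    intro y
    set F := Fintype.piFinset (fun c : κ => if c ∈ A then (univ : Finset (ZMod p)) else {y c}) with hF
    have hFc : F.card = p ^ A.card := twomega_card p A y
    have h1 := h y
    have h2 : Nat.card {w : κ → ZMod p // w ∈ L ∧ ∀ c, c ∉ A → w c = y c} = (F.filter (fun w => w ∈ L)).card := by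
      rw [Nat.subtype_card (F.filter (fun w => w ∈ L)) (fun w => ?_)]
      rw [Finset.mem_filter, hF, twomega_mem, and_comm]
    have h3 : (F.filter (fun w => w ∈ L)).card + (F.filter (fun w => ¬ w ∈ L)).card = F.card :=
      Finset.card_filter_add_card_filter_not _
    have h4 : u ≤ (F.filter (fun w => ¬ w ∈ L)).card := by
      rw [h2] at h1
      omega
    obtain ⟨S, hS, hSc⟩ := Finset.exists_subset_card_eq h4
    refine ⟨S, fun w hw => ?_, hSc⟩
    have h5 := Finset.mem_filter.1 (hS hw)
    rw [hF, twomega_mem] at h5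
    exact ⟨h5.2, h5.1⟩
  choose S hS hSc using hfib
  set k : (κ → ZMod p) → (κ → ZMod p) := fun y c => if c ∈ A then 0 else y c with hk
  have hkc : ∀ (y : κ → ZMod p) (c : κ), c ∉ A → k y c = y c := by
    intro y c hc
    show (if c ∈ A then 0 else y c) = y c
    rw [if_neg hc]
  have hkk : ∀ w y : κ → ZMod p, (∀ c, c ∉ A → w c = y c) → k w = k y := by
    intro w y hwy
    funext c
    show (if c ∈ A then 0 else w c) = (if c ∈ A then 0 else y c)
    split_ifs with hc
    · rfl
    · exact hwy c hc
  refine ⟨{w | w ∈ S (k w)}, fun w hw => (hS (k w) w hw).1, fun y => ?_⟩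
  rw [Nat.subtype_card (S (k y)) (fun w => ?_)]
  · exact hSc (k y)
  · constructor
    · intro hw
      have h1 := (hS (k y) w hw).2
      have h2 : ∀ c, c ∉ A → w c = y c := fun c hc => (h1 c hc).trans (hkc y c hc)
      refine ⟨?_, h2⟩
      show w ∈ S (k w)
      rw [hkk w y h2]
      exact hw
    · rintro ⟨hw, h2⟩
      have h3 : w ∈ S (k w) := hw
      rwa [hkk w y h2] at h3

end TW
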