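import Pool.Agent.Lib.MP_10e784_ag.TW.TWDefs

/-! JOB TWTrunc.  Truncated inclusion-exclusion (upper bound sieve), the tail bound, and the main term.

`trunc`: if `B = ∅` the sum is `cT D z ∅ = 1` (the empty product `1 ≤ D`).  If `q ∈ B`: `∑ T ∈ B.powerset = ∑ T ∈ (B.erase q).powerset, (cT T + cT (insert q T))` (`Finset.sum_powerset_insert`), and every bracket is `≥ 0`: let `n = ∏ T`, `∏ (insert q T) = q n`.
If `q n ≤ D` then also `n ≤ D` (`q ≥ 1`) and the bracket is `(-1)^|T| + (-1)^(|T|+1) = 0`.  If `n ≤ D < q n` then `q n ≤ z D`, so the bracket is `(-1)^|T| + 1 ≥ 0`.  If `D < n` both terms are `≥ 0`.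

`main_term`: `∑_T cT T * ∏ ω = ∑_T (-1)^|T| ∏ ω + ∑_{T : D < ∏ T} (cT T - (-1)^|T|) ∏ ω`, the first sum is `∏ (1 - ω)` (`Finset.prod_one_sub`/`Finset.prod_add`), `|cT T - (-1)^|T|| ≤ 2`, `ω ≥ 0`; `∏ (1 - ω) ≥ 0` because `ω ≤ 1`.

`tail`: for `T` with `D < ∏ T`: `1 ≤ (∏ T / D) ^ (1 / log z) = exp(- log D / log z) * ∏_{p ∈ T} p ^ (1 / log z)` and `p ^ (1 / log z) = exp (log p / log z) ≤ exp 1` for `1 ≤ p ≤ z`.  So the sum is `≤ exp(-log D / log z) * ∑_T ∏_{p ∈ T} (exp 1 * ω p) = exp(..) * ∏ (1 + exp 1 * ω p) ≤ exp(..) * exp (exp 1 * ∑ ω p)`. -/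

namespace TW

open Finset

/-- the coefficients of the truncated sieve -/
noncomputable def cT (D z : ℝ) (T : Finset ℕ) : ℝ :=
  if pr T ≤ D then (-1) ^ T.card else if pr T ≤ D * z then 1 else 0

private theorem twtrunc_pr_one {T : Finset ℕ} (h : ∀ p ∈ T, 1 ≤ p) : 1 ≤ pr T := by
  unfold pr
  refine Finset.prod_induction (fun p : ℕ => (p : ℝ)) (fun x => 1 ≤ x)
    (fun a b ha hb => ?_) le_rfl fun p hp => ?_
  · nlinarith
  · exact_mod_cast h p hp

private theorem twtrunc_sign (n : ℕ) : ((-1 : ℝ)) ^ n = 1 ∨ ((-1 : ℝ)) ^ n = -1 :=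
  neg_one_pow_eq_or ℝ n

theorem trunc (D z : ℝ) (hD : 1 ≤ D) (B : Finset ℕ) (hB : ∀ p ∈ B, 1 ≤ p ∧ (p : ℝ) ≤ z) :
    (if B = ∅ then (1 : ℝ) else 0) ≤ ∑ T ∈ B.powerset, cT D z T := by
  by_cases hB0 : B = ∅
  · subst hB0
    have h1 : pr ∅ ≤ D := by simpa [pr] using hD
    simp [cT, h1]
  · rw [if_neg hB0]
    obtain ⟨q, hq⟩ := Finset.nonempty_iff_ne_empty.2 hB0
    rw [← Finset.insert_erase hq, Finset.sum_powerset_insert (Finset.notMem_erase q B),
      ← Finset.sum_add_distrib]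
    refine Finset.sum_nonneg fun T hT => ?_
    have hTB : ∀ p ∈ T, p ∈ B := fun p hp =>
      Finset.mem_of_mem_erase (Finset.mem_powerset.1 hT hp)
    have hqT : q ∉ T := fun h => Finset.notMem_erase q B (Finset.mem_powerset.1 hT h)
    have hn : 1 ≤ pr T := twtrunc_pr_one fun p hp => (hB p (hTB p hp)).1
    have hq1 : (1 : ℝ) ≤ q := by exact_mod_cast (hB q hq).1
    have hqz := (hB q hq).2
    have hpr : pr (insert q T) = q * pr T := by
      unfold pr
      rw [Finset.prod_insert hqT]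
    have hc : (insert q T).card = T.card + 1 := Finset.card_insert_of_notMem hqT
    unfold cT
    rw [hpr, hc, pow_succ]
    by_cases h1 : (q : ℝ) * pr T ≤ D
    · have h2 : pr T ≤ D := by nlinarith
      rw [if_pos h1, if_pos h2]
      linarith
    · rw [if_neg h1]
      by_cases h2 : pr T ≤ D
      · have h3 : (q : ℝ) * pr T ≤ D * z := by nlinarith
        rw [if_pos h2, if_pos h3]
        rcases twtrunc_sign T.card with h | h <;> rw [h] <;> norm_num
      · rw [if_neg h2]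
        split_ifs <;> norm_num

theorem main_term (D z : ℝ) (P : Finset ℕ) (ω : ℕ → ℝ) (hω : ∀ p ∈ P, 0 ≤ ω p ∧ ω p ≤ 1) :
    |∑ T ∈ P.powerset, cT D z T * ∏ p ∈ T, ω p| ≤
      ∏ p ∈ P, (1 - ω p) + 2 * tl D P ω := by
  have h1 : ∏ p ∈ P, (1 - ω p) = ∑ T ∈ P.powerset, (-1) ^ T.card * ∏ p ∈ T, ω p := by
    have h := Finset.prod_one_add (f := fun p => - ω p) P
    simp only [← sub_eq_add_neg] at h
    rw [h]
    refine Finset.sum_congr rfl fun T _ => ?_
    rw [Finset.prod_neg]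
  have hnn : ∀ T ∈ P.powerset, 0 ≤ ∏ p ∈ T, ω p := fun T hT =>
    Finset.prod_nonneg fun p hp => (hω p (Finset.mem_powerset.1 hT hp)).1
  have h2 : ∑ T ∈ P.powerset, cT D z T * ∏ p ∈ T, ω p = ∏ p ∈ P, (1 - ω p) +
      ∑ T ∈ P.powerset, (cT D z T - (-1) ^ T.card) * ∏ p ∈ T, ω p := by
    rw [h1, ← Finset.sum_add_distrib]
    refine Finset.sum_congr rfl fun T _ => ?_
    ring
  have h3 : |∑ T ∈ P.powerset, (cT D z T - (-1) ^ T.card) * ∏ p ∈ T, ω p| ≤ 2 * tl D P ω := by
    unfold tl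
    rw [Finset.mul_sum, Finset.sum_filter]
    refine (Finset.abs_sum_le_sum_abs _ _).trans (Finset.sum_le_sum fun T hT => ?_)
    rw [abs_mul, abs_of_nonneg (hnn T hT)]
    by_cases h : D < pr T
    · rw [if_pos h]
      refine mul_le_mul_of_nonneg_right ?_ (hnn T hT)
      unfold cT
      rw [if_neg (not_le.2 h)]
      rcases twtrunc_sign T.card with h' | h' <;> rw [h'] <;> split_ifs <;> norm_num
    · rw [if_neg h]
      unfold cT
      rw [if_pos (not_lt.1 h)]
      simp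
  rw [h2]
  refine (abs_add_le _ _).trans (add_le_add (le_of_eq (abs_of_nonneg ?_)) h3)
  exact Finset.prod_nonneg fun p hp => by linarith [(hω p hp).2]

theorem tail (D z : ℝ) (hD : 1 ≤ D) (hz : 1 < z) (P : Finset ℕ) (hP : ∀ p ∈ P, 1 ≤ p ∧ (p : ℝ) ≤ z) (ω : ℕ → ℝ)
    (hω : ∀ p ∈ P, 0 ≤ ω p) :
    tl D P ω ≤
      Real.exp (-(Real.log D / Real.log z)) * Real.exp (Real.exp 1 * ∑ p ∈ P, ω p) := by
  have hlz : 0 < Real.log z := Real.log_pos hz
  have hstep : ∀ T ∈ P.powerset, D < pr T → ∏ p ∈ T, ω p ≤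
      Real.exp (-(Real.log D / Real.log z)) * ∏ p ∈ T, (Real.exp 1 * ω p) := by
    intro T hT hDT
    have hTP : ∀ p ∈ T, p ∈ P := fun p hp => Finset.mem_powerset.1 hT hp
    have hnn : 0 ≤ ∏ p ∈ T, ω p := Finset.prod_nonneg fun p hp => hω p (hTP p hp)
    have hlog : Real.log (pr T) ≤ T.card * Real.log z := by
      unfold pr
      rw [Real.log_prod (fun p hp => by
        have := (hP p (hTP p hp)).1
        positivity)]
      have := Finset.sum_le_card_nsmul T (fun p : ℕ => Real.log p) (Real.log z) fun p hp =>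
        Real.log_le_log (by exact_mod_cast (hP p (hTP p hp)).1) (hP p (hTP p hp)).2
      simpa using this
    have hlogD : Real.log D ≤ Real.log (pr T) := Real.log_le_log (by linarith) hDT.le
    have h1 : Real.log D / Real.log z ≤ T.card := by
      rw [div_le_iff₀ hlz]
      linarith
    have h2 : 1 ≤ Real.exp (-(Real.log D / Real.log z)) * Real.exp 1 ^ T.card := by
      rw [← Real.exp_nat_mul, ← Real.exp_add]
      apply Real.one_le_exp
      linarith
    rw [Finset.prod_mul_distrib, Finset.prod_const, ← mul_assoc]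
    exact le_mul_of_one_le_left hnn h2
  calc tl D P ω ≤ ∑ T ∈ P.powerset.filter (fun T => D < pr T),
        Real.exp (-(Real.log D / Real.log z)) * ∏ p ∈ T, (Real.exp 1 * ω p) :=
        Finset.sum_le_sum fun T hT => hstep T (Finset.mem_filter.1 hT).1 (Finset.mem_filter.1 hT).2
    _ ≤ ∑ T ∈ P.powerset, Real.exp (-(Real.log D / Real.log z)) *
          ∏ p ∈ T, (Real.exp 1 * ω p) := by
        refine Finset.sum_le_sum_of_subset_of_nonneg (Finset.filter_subset _ _) fun T hT _ => ?_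
        refine mul_nonneg (Real.exp_pos _).le (Finset.prod_nonneg fun p hp => ?_)
        exact mul_nonneg (Real.exp_pos _).le (hω p (Finset.mem_powerset.1 hT hp))
    _ = Real.exp (-(Real.log D / Real.log z)) * ∏ p ∈ P, (1 + Real.exp 1 * ω p) := by
        rw [← Finset.mul_sum, Finset.prod_one_add]
    _ ≤ Real.exp (-(Real.log D / Real.log z)) * ∏ p ∈ P, Real.exp (Real.exp 1 * ω p) := by
        refine mul_le_mul_of_nonneg_left (Finset.prod_le_prod (fun p hp => ?_) fun p hp => ?_)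
          (Real.exp_pos _).le
        · have := mul_nonneg (Real.exp_pos 1).le (hω p hp)
          linarith
        · linarith [Real.add_one_le_exp (Real.exp 1 * ω p)]
    _ = Real.exp (-(Real.log D / Real.log z)) * Real.exp (Real.exp 1 * ∑ p ∈ P, ω p) := by
        rw [← Real.exp_sum, Finset.mul_sum]

end TW
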