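import Pool.Agent.Lib.MP_10e784_ag.TW.TWEquiK
import Pool.Agent.Lib.MP_10e784_ag.TW.TWTrunc

/-! JOB TWMulti.  The multi-range upper bound sieve.

For `x` let `B k x = (P k).filter (x mod p ∈ Ω p)`.  The indicator of `x mod p ∉ Ω p` for all `k` and `p ∈ P k` is `∏ k, (if B k x = ∅ then 1 else 0) ≤ ∏ k, ∑ T ∈ (B k x).powerset, cT (D k) (z k) T` (`trunc`, all factors are `≥ 0`, `Finset.prod_le_prod`)
`= ∏ k, ∑ T ∈ (P k).powerset, cT (D k) (z k) T * [T ⊆ B k x]`.  Expand (`Finset.prod_univ_sum`/`Finset.prod_sum`, `Fintype.piFinset fun k => (P k).powerset`) and sum over the box: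
`∑_{T ∈ piFinset} (∏ k, cT (D k) (z k) (T k)) * count (T)`, `count T` = number of `x` in the box with `x mod p ∈ Ω p` for all `p ∈ S(T) := univ.biUnion T`.
If some `∏ (T k) > D k * z k` the coefficient is `0`.  Otherwise `equiK` with `S = S(T)` and the level function `k p = (the index κ of the P containing p) + 1` (the `P k` are pairwise disjoint; choose `kk : ℕ → ℕ` with `kk p = k + 1` for `p ∈ P k`) gives `|count T - V ∏_{p ∈ S(T)} ω p| ≤ ((1+η)^card - 1) V ∏ ω p`, `V = ∏ H c`: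
hypothesis `hH` of `equiK`: if `lev c = 0` then `lev c < kk p` for all `p`; otherwise the product over `p ∈ S(T)` with `kk p ≤ lev c` is `∏_{k : k+1 ≤ lev c} ∏ (T k) ≤ ∏_{k : k + 1 ≤ lev c} (D k * z k) ≤ η H c`.
Main term: `V * ∏ k, (∑_{T ∈ (P k).powerset} cT T * ∏_{p ∈ T} ω p)` minus the `T`'s with coefficient zero (nothing), in absolute value `≤ V * ∏ k, |..| ≤ V * ∏ k, (∏ (1 - ω) + 2 Tail k)` (`main_term`).
Error: `|∏ cT| ≤ 1`, so it is at most `((1+η)^card - 1) V * ∏ k, ∑_{T ∈ (P k).powerset} ∏_{p ∈ T} ω p = ((1+η)^card - 1) V * ∏ k, ∏_{p ∈ P k} (1 + ω p)` (`Finset.prod_one_add`/`Finset.prod_add_one`). -/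

namespace TW

open Finset

open Classical in
/-- the indicator of the event that `x mod p` lies in `Ω p` for all `p ∈ T` -/
private noncomputable def twmulti_I {κ : Type} (Ω : (p : ℕ) → Set (κ → ZMod p)) (T : Finset ℕ) (x : κ → ℤ) : ℝ :=
  if ∀ p ∈ T, (fun c => ((x c : ℤ) : ZMod p)) ∈ Ω p then 1 else 0

private theorem twmulti_cT_abs (D z : ℝ) (T : Finset ℕ) : |cT D z T| ≤ 1 := by
  unfold cT
  split_ifs
  · rw [abs_pow, abs_neg, abs_one, one_pow]
  · simp
  · simp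

private theorem twmulti_cT_zero {D z : ℝ} (hD : 1 ≤ D) (hz : 1 ≤ z) {T : Finset ℕ} (h : ¬ pr T ≤ D * z) :
    cT D z T = 0 := by
  unfold cT
  have h1 : ¬ pr T ≤ D := fun h2 => h (h2.trans (le_mul_of_one_le_right (by linarith) hz))
  rw [if_neg h1, if_neg h]

private theorem twmulti_card {κ : Type} [Fintype κ] [DecidableEq κ] (a : κ → ℤ) (H : κ → ℕ) (Q : (κ → ℤ) → Prop)
    [DecidablePred Q] :
    (Nat.card {x : κ → ℤ // (∀ c, a c ≤ x c ∧ x c < a c + H c) ∧ Q x} : ℝ) =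
      ∑ x ∈ Fintype.piFinset (fun c => Finset.Ico (a c) (a c + H c)), if Q x then (1 : ℝ) else 0 := by
  rw [Finset.sum_boole, Nat.cast_inj, Nat.subtype_card]
  intro x
  rw [Finset.mem_filter, Fintype.mem_piFinset]
  simp only [Finset.mem_Ico]

open Classical in
private theorem twmulti_sub {κ : Type} (Ω : (p : ℕ) → Set (κ → ZMod p)) (P : Finset ℕ) (f : Finset ℕ → ℝ)
    (x : κ → ℤ) :
    ∑ T ∈ (P.filter fun p => (fun c => ((x c : ℤ) : ZMod p)) ∈ Ω p).powerset, f T =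
      ∑ T ∈ P.powerset, f T * twmulti_I Ω T x := by
  have h1 : (P.filter fun p => (fun c => ((x c : ℤ) : ZMod p)) ∈ Ω p).powerset =
      P.powerset.filter fun T => ∀ p ∈ T, (fun c => ((x c : ℤ) : ZMod p)) ∈ Ω p := by
    ext T
    simp only [Finset.mem_powerset, Finset.mem_filter, Finset.subset_iff]
    constructor
    · intro h
      exact ⟨fun p hp => (h hp).1, fun p hp => (h hp).2⟩
    · rintro ⟨h2, h3⟩ p hp
      exact ⟨h2 hp, h3 p hp⟩
  rw [h1, Finset.sum_filter]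
  refine Finset.sum_congr rfl fun T _ => ?_
  unfold twmulti_I
  split_ifs <;> simp

private theorem twmulti_prodI {κ : Type} {K : ℕ} (Ω : (p : ℕ) → Set (κ → ZMod p)) (t : Fin K → Finset ℕ) (x : κ → ℤ) :
    ∏ k, twmulti_I Ω (t k) x = twmulti_I Ω (univ.biUnion t) x := by
  classical
  unfold twmulti_I
  by_cases h : ∀ p ∈ univ.biUnion t, (fun c => ((x c : ℤ) : ZMod p)) ∈ Ω p
  · rw [if_pos h]
    refine Finset.prod_eq_one fun k _ => ?_
    rw [if_pos]
    exact fun p hp => h p (Finset.mem_biUnion.mpr ⟨k, Finset.mem_univ _, hp⟩)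
  · rw [if_neg h]
    push Not at h
    obtain ⟨p, hp, hp2⟩ := h
    obtain ⟨k, _, hk⟩ := Finset.mem_biUnion.mp hp
    refine Finset.prod_eq_zero (Finset.mem_univ k) ?_
    rw [if_neg]
    exact fun h3 => hp2 (h3 p hk)

theorem multi {κ : Type} [Fintype κ] [DecidableEq κ] (K : ℕ) (P : Fin K → Finset ℕ) (hP : ∀ k, ∀ p ∈ P k, p.Prime)
    (hdis : ∀ k k', k ≠ k' → Disjoint (P k) (P k')) (lev : κ → ℕ) (Ω : (p : ℕ) → Set (κ → ZMod p)) (ω : ℕ → ℝ)
    (hω : ∀ k, ∀ p ∈ P k, 0 ≤ ω p ∧ ω p ≤ 1)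
    (hΩ : ∀ k : Fin K, ∀ p ∈ P k, ∀ y : κ → ZMod p,
      (Nat.card {w : κ → ZMod p // w ∈ Ω p ∧ ∀ c, lev c < (k : ℕ) + 1 → w c = y c} : ℝ) =
        ω p * (p : ℝ) ^ (univ.filter fun c => (k : ℕ) + 1 ≤ lev c).card)
    (a : κ → ℤ) (H : κ → ℕ) (D z : Fin K → ℝ) (hD : ∀ k, 1 ≤ D k) (hz1 : ∀ k, 1 ≤ z k) (hz : ∀ k, ∀ p ∈ P k, (p : ℝ) ≤ z k)
    (η : ℝ) (hη : 0 ≤ η)
    (hH : ∀ c, lev c = 0 ∨ (∏ k ∈ univ.filter (fun k : Fin K => (k : ℕ) + 1 ≤ lev c), (D k * z k)) ≤ η * H c) :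
    (Nat.card {x : κ → ℤ // (∀ c, a c ≤ x c ∧ x c < a c + H c) ∧
        ∀ k, ∀ p ∈ P k, (fun c => ((x c : ℤ) : ZMod p)) ∉ Ω p} : ℝ) ≤
      (∏ c, (H c : ℝ)) * (∏ k, (∏ p ∈ P k, (1 - ω p) + 2 * tl (D k) (P k) ω) +
        ((1 + η) ^ Fintype.card κ - 1) * ∏ k, ∏ p ∈ P k, (1 + ω p)) := by
  classical
  set box : Finset (κ → ℤ) := Fintype.piFinset (fun c => Finset.Ico (a c) (a c + H c)) with hbox
  set V : ℝ := ∏ c, (H c : ℝ) with hV
  have hV0 : 0 ≤ V := Finset.prod_nonneg fun c _ => Nat.cast_nonneg _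
  set E : ℝ := (1 + η) ^ Fintype.card κ - 1 with hE
  have hE0 : 0 ≤ E := by
    have : (1 : ℝ) ≤ (1 + η) ^ Fintype.card κ := one_le_pow₀ (by linarith)
    linarith
  -- the coefficients and the weights
  set cc : (Fin K → Finset ℕ) → ℝ := fun t => ∏ k, cT (D k) (z k) (t k) with hcc
  set W : (Fin K → Finset ℕ) → ℝ := fun t => ∏ k, ∏ p ∈ t k, ω p with hW
  set TT : Finset (Fin K → Finset ℕ) := Fintype.piFinset (fun k => (P k).powerset) with hTT
  have htP : ∀ t ∈ TT, ∀ k, t k ⊆ P k := fun t ht k =>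
    Finset.mem_powerset.mp (Fintype.mem_piFinset.mp ht k)
  have hW0 : ∀ t ∈ TT, 0 ≤ W t := fun t ht => Finset.prod_nonneg fun k _ =>
    Finset.prod_nonneg fun p hp => (hω k p (htP t ht k hp)).1
  have hcc1 : ∀ t, |cc t| ≤ 1 := fun t => by
    rw [hcc]
    simp only
    rw [Finset.abs_prod]
    exact Finset.prod_le_one (fun k _ => abs_nonneg _) fun k _ => twmulti_cT_abs _ _ _
  -- the level function
  set kk : ℕ → ℕ := fun p => if h : ∃ k, p ∈ P k then ((Classical.choose h : Fin K) : ℕ) + 1 else 0 with hkk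
  have hkkP : ∀ k : Fin K, ∀ p ∈ P k, kk p = (k : ℕ) + 1 := by
    intro k p hp
    have h : ∃ k, p ∈ P k := ⟨k, hp⟩
    rw [hkk]
    simp only
    rw [dif_pos h]
    have h2 := Classical.choose_spec h
    by_contra hne
    have h3 : Classical.choose h ≠ k := fun h4 => hne (by rw [h4])
    exact Finset.disjoint_left.mp (hdis _ _ h3) h2 hp
  -- the counting function
  set NN : (Fin K → Finset ℕ) → ℝ := fun t => ∑ x ∈ box, twmulti_I Ω (univ.biUnion t) x with hNN
  have hWS : ∀ t ∈ TT, ∏ p ∈ univ.biUnion t, ω p = W t := by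
    intro t ht
    rw [Finset.prod_biUnion]
    intro k _ k' _ hkk'
    exact Finset.disjoint_of_subset_left (htP t ht k)
      (Finset.disjoint_of_subset_right (htP t ht k') (hdis k k' hkk'))
  have hN : ∀ t ∈ TT, (∀ k, pr (t k) ≤ D k * z k) → |NN t - V * W t| ≤ E * (V * W t) := by
    intro t ht hle
    have hmem : ∀ p ∈ univ.biUnion t, ∃ k, p ∈ t k ∧ p ∈ P k := by
      intro p hp
      obtain ⟨k, _, hk⟩ := Finset.mem_biUnion.mp hp
      exact ⟨k, hk, htP t ht k hk⟩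
    have h1 := equiK (univ.biUnion t)
      (fun p hp => by obtain ⟨k, _, hk⟩ := hmem p hp; exact hP k p hk) kk lev Ω ω
      (fun p hp y => by
        obtain ⟨k, _, hk⟩ := hmem p hp
        rw [hkkP k p hk]
        exact hΩ k p hk y) a H η hη
      (fun c => by
        rcases hH c with h0 | h0
        · left
          intro p hp
          obtain ⟨k, _, hk⟩ := hmem p hp
          rw [hkkP k p hk, h0]
          exact Nat.succ_pos _
        · right
          refine le_trans ?_ h0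
          have h2 : (univ.biUnion t).filter (fun p => kk p ≤ lev c) =
              (univ.filter (fun k : Fin K => (k : ℕ) + 1 ≤ lev c)).biUnion t := by
            ext p
            simp only [Finset.mem_filter, Finset.mem_biUnion, Finset.mem_univ, true_and]
            constructor
            · rintro ⟨⟨k, hk⟩, hle2⟩
              exact ⟨k, (hkkP k p (htP t ht k hk)) ▸ hle2, hk⟩
            · rintro ⟨k, hk1, hk⟩
              exact ⟨⟨k, hk⟩, (hkkP k p (htP t ht k hk)).symm ▸ hk1⟩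
          rw [h2, Finset.prod_biUnion]
          · refine Finset.prod_le_prod (fun k _ => Finset.prod_nonneg fun p _ => Nat.cast_nonneg _)
              fun k _ => ?_
            exact hle k
          · intro k _ k' _ hkk'
            exact Finset.disjoint_of_subset_left (htP t ht k)
              (Finset.disjoint_of_subset_right (htP t ht k') (hdis k k' hkk')))
    rw [twmulti_card a H (fun x => ∀ p ∈ univ.biUnion t, (fun c => ((x c : ℤ) : ZMod p)) ∈ Ω p),
      hWS t ht] at h1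
    have h2 : NN t = ∑ x ∈ box,
        if ∀ p ∈ univ.biUnion t, (fun c => ((x c : ℤ) : ZMod p)) ∈ Ω p then (1 : ℝ) else 0 := by
      rw [hNN]
      refine Finset.sum_congr rfl fun x _ => ?_
      unfold twmulti_I
      split_ifs <;> rfl
    rw [h2]
    exact h1
  -- the bound for a single coefficient
  have hterm : ∀ t ∈ TT, cc t * NN t ≤ V * (cc t * W t) + E * (V * W t) := by
    intro t ht
    have hVW : 0 ≤ V * W t := mul_nonneg hV0 (hW0 t ht)
    by_cases hle : ∀ k, pr (t k) ≤ D k * z k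
    · have h1 := hN t ht hle
      have h2 : cc t * NN t - V * (cc t * W t) = cc t * (NN t - V * W t) := by ring
      have h3 : cc t * (NN t - V * W t) ≤ |cc t| * |NN t - V * W t| := by
        rw [← abs_mul]; exact le_abs_self _
      have h4 : |cc t| * |NN t - V * W t| ≤ 1 * (E * (V * W t)) :=
        mul_le_mul (hcc1 t) h1 (abs_nonneg _) zero_le_one
      linarith
    · push Not at hle
      obtain ⟨k, hk⟩ := hle
      have h0 : cc t = 0 :=
        Finset.prod_eq_zero (Finset.mem_univ k) (twmulti_cT_zero (hD k) (hz1 k) (not_le.mpr hk))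
      rw [h0, zero_mul, zero_mul, mul_zero, zero_add]
      exact mul_nonneg hE0 hVW
  -- expansion
  have hcard : (Nat.card {x : κ → ℤ // (∀ c, a c ≤ x c ∧ x c < a c + H c) ∧
        ∀ k, ∀ p ∈ P k, (fun c => ((x c : ℤ) : ZMod p)) ∉ Ω p} : ℝ) =
      ∑ x ∈ box, if ∀ k, ∀ p ∈ P k, (fun c => ((x c : ℤ) : ZMod p)) ∉ Ω p then (1 : ℝ) else 0 :=
    twmulti_card a H (fun x => ∀ k, ∀ p ∈ P k, (fun c => ((x c : ℤ) : ZMod p)) ∉ Ω p)
  have hx : ∀ x : κ → ℤ, (if ∀ k, ∀ p ∈ P k, (fun c => ((x c : ℤ) : ZMod p)) ∉ Ω p then (1 : ℝ) else 0) ≤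
      ∑ t ∈ TT, cc t * twmulti_I Ω (univ.biUnion t) x := by
    intro x
    set B : Fin K → Finset ℕ := fun k => (P k).filter fun p => (fun c => ((x c : ℤ) : ZMod p)) ∈ Ω p with hB
    have h1 : (if ∀ k, ∀ p ∈ P k, (fun c => ((x c : ℤ) : ZMod p)) ∉ Ω p then (1 : ℝ) else 0) =
        ∏ k, if B k = ∅ then (1 : ℝ) else 0 := by
      by_cases h : ∀ k, ∀ p ∈ P k, (fun c => ((x c : ℤ) : ZMod p)) ∉ Ω p
      · rw [if_pos h]
        symm
        refine Finset.prod_eq_one fun k _ => ?_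
        rw [if_pos]
        exact Finset.filter_eq_empty_iff.mpr fun p hp => h k p hp
      · rw [if_neg h]
        push Not at h
        obtain ⟨k, p, hp, hp2⟩ := h
        symm
        refine Finset.prod_eq_zero (Finset.mem_univ k) ?_
        rw [if_neg]
        exact Finset.ne_empty_of_mem (Finset.mem_filter.mpr ⟨hp, hp2⟩)
    have h2 : (∏ k, if B k = ∅ then (1 : ℝ) else 0) ≤ ∏ k, ∑ T ∈ (B k).powerset, cT (D k) (z k) T := by
      refine Finset.prod_le_prod (fun k _ => by split_ifs <;> norm_num) fun k _ => ?_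
      refine trunc (D k) (z k) (hD k) (B k) fun p hp => ?_
      have hp2 := (Finset.mem_filter.mp hp).1
      exact ⟨(hP k p hp2).one_lt.le, hz k p hp2⟩
    have h3 : (∏ k, ∑ T ∈ (B k).powerset, cT (D k) (z k) T) =
        ∑ t ∈ TT, cc t * twmulti_I Ω (univ.biUnion t) x := by
      have h4 : ∀ k, ∑ T ∈ (B k).powerset, cT (D k) (z k) T =
          ∑ T ∈ (P k).powerset, cT (D k) (z k) T * twmulti_I Ω T x := fun k =>
        twmulti_sub Ω (P k) (fun T => cT (D k) (z k) T) x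
      rw [Finset.prod_congr rfl fun k _ => h4 k, Finset.prod_univ_sum]
      refine Finset.sum_congr rfl fun t _ => ?_
      rw [Finset.prod_mul_distrib, twmulti_prodI]
    rw [h1]
    exact h2.trans (le_of_eq h3)
  have hmain : (∑ x ∈ box, if ∀ k, ∀ p ∈ P k, (fun c => ((x c : ℤ) : ZMod p)) ∉ Ω p then (1 : ℝ) else 0) ≤
      ∑ t ∈ TT, cc t * NN t := by
    refine (Finset.sum_le_sum fun x _ => hx x).trans (le_of_eq ?_)
    rw [Finset.sum_comm]
    refine Finset.sum_congr rfl fun t _ => ?_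
    rw [← Finset.mul_sum]
  rw [hcard]
  refine hmain.trans ((Finset.sum_le_sum hterm).trans ?_)
  rw [Finset.sum_add_distrib, ← Finset.mul_sum, ← Finset.mul_sum, ← Finset.mul_sum]
  have hA : ∑ t ∈ TT, cc t * W t ≤ ∏ k, (∏ p ∈ P k, (1 - ω p) + 2 * tl (D k) (P k) ω) := by
    have h1 : ∑ t ∈ TT, cc t * W t = ∏ k, ∑ T ∈ (P k).powerset, cT (D k) (z k) T * ∏ p ∈ T, ω p := by
      rw [Finset.prod_univ_sum]
      refine Finset.sum_congr rfl fun t _ => ?_
      rw [Finset.prod_mul_distrib]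
    rw [h1]
    refine (le_abs_self _).trans ?_
    rw [Finset.abs_prod]
    exact Finset.prod_le_prod (fun k _ => abs_nonneg _) fun k _ =>
      main_term (D k) (z k) (P k) ω (hω k)
  have hBB : ∑ t ∈ TT, W t = ∏ k, ∏ p ∈ P k, (1 + ω p) := by
    have h1 : ∀ k, ∏ p ∈ P k, (1 + ω p) = ∑ T ∈ (P k).powerset, ∏ p ∈ T, ω p := fun k =>
      Finset.prod_one_add (P k)
    rw [Finset.prod_congr rfl fun k _ => h1 k, Finset.prod_univ_sum]
  rw [hBB]
  have hC := mul_le_mul_of_nonneg_left hA hV0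
  calc V * ∑ t ∈ TT, cc t * W t + E * (V * ∏ k, ∏ p ∈ P k, (1 + ω p))
      ≤ V * ∏ k, (∏ p ∈ P k, (1 - ω p) + 2 * tl (D k) (P k) ω) + E * (V * ∏ k, ∏ p ∈ P k, (1 + ω p)) := by
        linarith
    _ = V * (∏ k, (∏ p ∈ P k, (1 - ω p) + 2 * tl (D k) (P k) ω) + E * ∏ k, ∏ p ∈ P k, (1 + ω p)) := by
        ring

end TW
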