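import Pool.Agent.Lib.MP_10e784_ag.TW.TWMulti
import Pool.Agent.Lib.MP_10e784_ag.TW.TWOmega

/-! JOB TWLev.  The scales.

`λ = lam K L = L ^ (1 / K) ≥ 1`, level `k + 1` has size `λ ^ (k + 1)` (`k = 0, .., K - 1`), `lv K L j` is the number of `k < K` with `λ ^ (k + 1) ≤ j`.

`lv_iff`: the set `{k < K : λ ^ (k + 1) ≤ j}` is an initial segment of `range K` because `λ ≥ 1` (`pow_le_pow_right₀`), so it is `range (lv K L j)`.
`lv_top`: `λ ^ K = L` (`Real.rpow_natCast`, `Real.rpow_mul`), so `λ ^ (k + 1) ≤ L ≤ j` for all `k < K`.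
`Pk_disj`: `p ∈ Pk k` means `zz (k-1) < p ≤ zz k`, `zz` is monotone in `k`.
`modulus`: `D k * z k = exp (c1 λ ^ (k+1) + λ ^ (k + 1/2))` and `λ ^ (k + 1/2) = λ ^ (k+1) * λ ^ (-1/2) ≤ c1 λ ^ (k+1)` by `hlam`, so the product over `k < l` (the filter in the statement is `{k : Fin K | k + 1 ≤ l}`) is `≤ exp (2 c1 ∑_{k < l} λ ^ (k+1)) ≤ exp (4 c1 λ ^ l)` (geometric sum, `λ ≥ 2`) with `l = lv K L j ≥ 1`, `l ≤ K`.
`4 c1 λ ^ l ≤ 4 c1 j = (log 2) j / (2 N)` (`lv_iff` with `k = l - 1`) and `j ≥ λ ^ l ≥ λ`.  So the product is at most `2 ^ (j / (2 N)) ≤ 2 ^ (-λ/(2N)) * 2 ^ (j / n)` because `j / n ≥ j / N = j/(2N) + j/(2N) ≥ j/(2N) + λ/(2N)` (`1 ≤ n ≤ N`). -/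

namespace TW

open Finset

noncomputable def lam (K : ℕ) (L : ℝ) : ℝ := L ^ ((1 : ℝ) / K)

noncomputable def lv (K : ℕ) (L : ℝ) (j : ℕ) : ℕ := ((range K).filter fun k => lam K L ^ (k + 1) ≤ (j : ℝ)).card

/-- upper end of the range `k` -/
noncomputable def zz (K : ℕ) (L : ℝ) (k : ℕ) : ℝ := Real.exp (lam K L ^ ((k : ℝ) + 1 / 2))

/-- sieve level of the range `k` -/
noncomputable def Dd (c1 : ℝ) (K : ℕ) (L : ℝ) (k : ℕ) : ℝ := Real.exp (c1 * lam K L ^ (k + 1))

/-- the primes of the range `k` -/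
noncomputable def Pk (M K : ℕ) (L : ℝ) (k : ℕ) : Finset ℕ :=
  (Icc 1 ⌊zz K L k⌋₊).filter fun p => p.Prime ∧ ¬ p ∣ M ∧ (k = 0 ∨ zz K L (k - 1) < p)

private theorem aux_TWLev_one_le_lam (K : ℕ) (L : ℝ) (hL : 1 ≤ L) : 1 ≤ lam K L := by
  unfold lam
  exact Real.one_le_rpow hL (by positivity)

private theorem aux_TWLev_card (K : ℕ) (P : ℕ → Prop) [DecidablePred P] (hP : ∀ a b, a ≤ b → P b → P a) :
    (range K).filter P = range ((range K).filter P).card := by
  classical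
  induction K with
  | zero => simp
  | succ n ih =>
    by_cases h : P n
    · have h1 : (range (n + 1)).filter P = range (n + 1) := by
        apply Finset.filter_true_of_mem
        intro x hx
        rw [Finset.mem_range] at hx
        exact hP x n (by omega) h
      rw [h1]; simp
    · rw [Finset.range_add_one, Finset.filter_insert, if_neg h]
      exact ih

private theorem aux_TWLev_set (K : ℕ) (L : ℝ) (hL : 1 ≤ L) (j : ℕ) :
    ((range K).filter fun k => lam K L ^ (k + 1) ≤ (j : ℝ)) = range (lv K L j) := by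
  unfold lv
  apply aux_TWLev_card
  intro a b hab hb
  exact le_trans (pow_le_pow_right₀ (aux_TWLev_one_le_lam K L hL) (by omega)) hb

theorem lv_iff (K : ℕ) (hK : 0 < K) (L : ℝ) (hL : 1 ≤ L) (j k : ℕ) (hk : k < K) :
    k + 1 ≤ lv K L j ↔ lam K L ^ (k + 1) ≤ (j : ℝ) := by
  have h := aux_TWLev_set K L hL j
  have h1 : k ∈ ((range K).filter fun k => lam K L ^ (k + 1) ≤ (j : ℝ)) ↔ k ∈ range (lv K L j) := by
    rw [h]
  rw [Finset.mem_filter, Finset.mem_range, Finset.mem_range] at h1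
  constructor
  · intro h2
    exact (h1.2 (by omega)).2
  · intro h2
    have := h1.1 ⟨hk, h2⟩
    omega

theorem lv_le (K : ℕ) (L : ℝ) (j : ℕ) : lv K L j ≤ K := by
  unfold lv
  exact le_trans (Finset.card_filter_le _ _) (by simp)

private theorem aux_TWLev_lam_pow (K : ℕ) (hK : 0 < K) (L : ℝ) (hL : 1 ≤ L) : lam K L ^ K = L := by
  unfold lam
  rw [← Real.rpow_natCast, ← Real.rpow_mul (by linarith)]
  have : (1 : ℝ) / K * (K : ℝ) = 1 := by
    have : (K : ℝ) ≠ 0 := by positivity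
    field_simp
  rw [this, Real.rpow_one]

theorem lv_top (K : ℕ) (hK : 0 < K) (L : ℝ) (hL : 1 ≤ L) (j : ℕ) (hj : L ≤ j) : lv K L j = K := by
  apply le_antisymm (lv_le K L j)
  have h := (lv_iff K hK L hL j (K - 1) (by omega)).2 (by
    have : K - 1 + 1 = K := by omega
    rw [this, aux_TWLev_lam_pow K hK L hL]
    exact hj)
  omega

private theorem aux_TWLev_zz_mono (K : ℕ) (L : ℝ) (hL : 1 ≤ L) (a b : ℕ) (h : a ≤ b) : zz K L a ≤ zz K L b := by
  unfold zz
  apply Real.exp_le_exp.2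
  apply Real.rpow_le_rpow_of_exponent_le (aux_TWLev_one_le_lam K L hL)
  have : (a : ℝ) ≤ b := by exact_mod_cast h
  linarith

private theorem aux_TWLev_disj (M K : ℕ) (L : ℝ) (hL : 1 ≤ L) (k k' : ℕ) (h : k < k') : Disjoint (Pk M K L k) (Pk M K L k') := by
  rw [Finset.disjoint_left]
  intro p hp hp'
  unfold Pk at hp hp'
  rw [Finset.mem_filter, Finset.mem_Icc] at hp hp'
  obtain ⟨⟨h1, h2⟩, h3, h4, h5⟩ := hp
  obtain ⟨⟨g1, g2⟩, g3, g4, g5⟩ := hp'
  have hz : 0 ≤ zz K L k := (Real.exp_pos _).le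
  have h6 : (p : ℝ) ≤ zz K L k := (Nat.le_floor_iff hz).1 h2
  rcases g5 with g5 | g5
  · omega
  · have := aux_TWLev_zz_mono K L hL k (k' - 1) (by omega)
    linarith

theorem Pk_disj (M K : ℕ) (L : ℝ) (hL : 1 ≤ L) (k k' : ℕ) (h : k ≠ k') : Disjoint (Pk M K L k) (Pk M K L k') := by
  rcases Nat.lt_or_gt_of_ne h with h1 | h1
  · exact aux_TWLev_disj M K L hL k k' h1
  · exact (aux_TWLev_disj M K L hL k' k h1).symm

private theorem aux_TWLev_geom (x : ℝ) (hx : 2 ≤ x) (l : ℕ) : ∑ k ∈ range l, x ^ (k + 1) ≤ 2 * x ^ l := by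
  induction l with
  | zero => simp
  | succ n ih =>
    rw [Finset.sum_range_succ]
    have h1 : 0 ≤ x ^ n := by positivity
    have h2 : 2 * x ^ n ≤ x ^ (n + 1) := by
      rw [pow_succ]
      nlinarith
    linarith

private theorem aux_TWLev_prod (K l : ℕ) (hl : l ≤ K) (f : ℕ → ℝ) :
    ∏ k ∈ univ.filter (fun k : Fin K => (k : ℕ) + 1 ≤ l), f (k : ℕ) = ∏ k ∈ range l, f k := by
  symm
  refine Finset.prod_bij' (fun (k : ℕ) (hk : k ∈ range l) => (⟨k, lt_of_lt_of_le (Finset.mem_range.1 hk) hl⟩ : Fin K))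
    (fun (k : Fin K) _ => (k : ℕ)) ?_ ?_ ?_ ?_ ?_
  · intro a ha
    rw [Finset.mem_filter]
    rw [Finset.mem_range] at ha
    exact ⟨Finset.mem_univ _, ha⟩
  · intro a ha
    rw [Finset.mem_filter] at ha
    rw [Finset.mem_range]
    have := ha.2
    omega
  · intro a ha; rfl
  · intro a ha; rfl
  · intro a ha; rfl

theorem modulus (K N n : ℕ) (hK : 0 < K) (hn : 1 ≤ n) (hnN : n ≤ N) (L : ℝ) (hL : 1 ≤ L) (h2 : 2 ≤ lam K L)
    (hlam : lam K L ^ (-(1 / 2) : ℝ) ≤ Real.log 2 / (8 * N)) (j : ℕ) (hj : lv K L j ≠ 0) :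
    ∏ k ∈ univ.filter (fun k : Fin K => (k : ℕ) + 1 ≤ lv K L j), (Dd (Real.log 2 / (8 * N)) K L k * zz K L k) ≤
      (2 : ℝ) ^ (-(lam K L / (2 * N))) * (2 : ℝ) ^ ((j : ℝ) / n) := by
  have hlK := lv_le K L j
  obtain ⟨l, hl⟩ : ∃ l, lv K L j = l := ⟨_, rfl⟩
  have hjl : lam K L ^ l ≤ (j : ℝ) := by
    have := (lv_iff K hK L hL j (l - 1) (by omega)).1 (by omega)
    have e : l - 1 + 1 = l := by omega
    rwa [e] at this
  rw [hl] at hj hlK
  rw [hl]
  rw [aux_TWLev_prod K l hlK (fun k => Dd (Real.log 2 / (8 * N)) K L k * zz K L k)]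
  have hlog : 0 < Real.log 2 := Real.log_pos (by norm_num)
  have hN : (0 : ℝ) < N := by
    have : 0 < N := by omega
    exact_mod_cast this
  have hn' : (0 : ℝ) < n := by
    have : 0 < n := by omega
    exact_mod_cast this
  have hc : 0 < Real.log 2 / (8 * N) := by positivity
  obtain ⟨c, hcd⟩ : ∃ c, Real.log 2 / (8 * (N : ℝ)) = c := ⟨_, rfl⟩
  obtain ⟨x, hx⟩ : ∃ x, lam K L = x := ⟨_, rfl⟩
  have hlamx : x ^ (-(1 / 2) : ℝ) ≤ c := by rw [← hx, ← hcd]; exact hlam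
  rw [hcd] at hc
  rw [hx] at h2 hjl
  have hx0 : 0 < x := by linarith
  have hterm : ∀ k ∈ range l, Dd (Real.log 2 / (8 * N)) K L k * zz K L k ≤ Real.exp (2 * c * x ^ (k + 1)) := by
    intro k _
    unfold Dd zz
    rw [← Real.exp_add, hcd, hx]
    apply Real.exp_le_exp.2
    have e1 : x ^ ((k : ℝ) + 1 / 2) = x ^ (k + 1) * x ^ (-(1 / 2) : ℝ) := by
      rw [← Real.rpow_natCast, ← Real.rpow_add hx0]
      congr 1
      push_cast
      ring
    rw [e1]
    have h3 : x ^ (k + 1) * x ^ (-(1 / 2) : ℝ) ≤ x ^ (k + 1) * c :=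
      mul_le_mul_of_nonneg_left hlamx (by positivity)
    linarith
  have hprod : ∏ k ∈ range l, (Dd (Real.log 2 / (8 * N)) K L k * zz K L k) ≤ Real.exp (4 * c * x ^ l) := by
    calc ∏ k ∈ range l, (Dd (Real.log 2 / (8 * N)) K L k * zz K L k)
        ≤ ∏ k ∈ range l, Real.exp (2 * c * x ^ (k + 1)) := by
          apply Finset.prod_le_prod
          · intro k _
            unfold Dd zz
            positivity
          · exact hterm
      _ = Real.exp (∑ k ∈ range l, 2 * c * x ^ (k + 1)) := (Real.exp_sum _ _).symm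
      _ ≤ Real.exp (4 * c * x ^ l) := by
          apply Real.exp_le_exp.2
          rw [← Finset.mul_sum]
          have := mul_le_mul_of_nonneg_left (aux_TWLev_geom x h2 l) (by positivity : (0 : ℝ) ≤ 2 * c)
          linarith
  refine le_trans hprod ?_
  rw [hx, ← Real.rpow_add (by norm_num : (0 : ℝ) < 2), Real.rpow_def_of_pos (by norm_num : (0 : ℝ) < 2)]
  apply Real.exp_le_exp.2
  have hxl : x ≤ x ^ l := by
    calc x = x ^ 1 := (pow_one x).symm
      _ ≤ x ^ l := pow_le_pow_right₀ (by linarith) (by omega)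
  have hjx : x ≤ (j : ℝ) := le_trans hxl hjl
  have h5 : 4 * c * x ^ l ≤ 4 * c * j := mul_le_mul_of_nonneg_left hjl (by positivity)
  have h6 : 4 * c * (j : ℝ) = Real.log 2 * ((j : ℝ) / (2 * N)) := by
    rw [← hcd]; field_simp; ring
  have h7 : (j : ℝ) / (2 * N) + x / (2 * N) ≤ (j : ℝ) / n := by
    have a1 : (j : ℝ) / N ≤ (j : ℝ) / n := by
      apply div_le_div_of_nonneg_left (by positivity) hn'
      exact_mod_cast hnN
    have a2 : x / (2 * N) ≤ (j : ℝ) / (2 * N) := by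
      apply div_le_div_of_nonneg_right hjx (by positivity)
    have a3 : (j : ℝ) / N = (j : ℝ) / (2 * N) + (j : ℝ) / (2 * N) := by
      field_simp; ring
    linarith
  have h8 : Real.log 2 * ((j : ℝ) / (2 * N)) ≤ Real.log 2 * (-(x / (2 * N)) + (j : ℝ) / n) :=
    mul_le_mul_of_nonneg_left (by linarith) hlog.le
  linarith

end TW
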