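import Pool.Agent.Lib.MP_10e784_ag.TW.TWLev
import Pool.Agent.Lib.MP_10e784_ag.TW.TWRtLow

/-! JOB TWW.  The sum of the sieve densities over all ranges.

Notation: `Λ = log (lam K L) = (log L) / K` (natural `L ≥ 3`), `N = ∑ natDegree`, `s = Fintype.card ι`, `K = 16 n (s + 1)` (`n ≥ 1` from `hS.npos`), `Q l = {p prime, p ∤ M, p ≤ zz K L (l - 1)}` for `l ≥ 1`, `Q 0 = ∅`.  The ranges `Pk k`, `k < l`, partition `Q l` (`zz` is increasing; `Pk_disj`), for `1 ≤ l ≤ K`.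
`log log (zz K L (l-1)) = (l - 1/2) Λ`.
For `p ∈ Pk k`: `rts g (I k) p = ∑_{i : k + 1 ≤ lv (j i)} rt (g i) p`, so `∑_{k < K} ∑_{p ∈ Pk k} rts g (I k) p / p = ∑_i ∑_{p ∈ Q (lv (j i))} rt (g i) p / p` (exchange the sums; `k + 1 ≤ lv (j i)` iff `k < lv (j i)`).
For every nonnegative bounded `a`: `PT.PS a x - C ≤ ∑_{p ≤ x, p ∤ M} a p / p ≤ PT.PS a x` (the omitted primes divide `M ≠ 0`: finitely many terms).  Bounds for `x = zz K L (l - 1) ≥ 2` (true for `l ≥ 1` and `L ≥ L0`):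
 (1) `rt_low`: `∑_{p ∈ Q l} rt (g i) p / p ≥ (l - 1/2) Λ - C` for `l ≥ 1` (`rt ≤` constant: `PT.rt_le`);  (2) `∑_{p ∈ Q K} 1 / p ≤ (K - 1/2) Λ + C`: `PT.rt_sum` for the polynomial `X` (`PT.rt X p = 1`);  (3) `hS.lower`: `∑_{p ∈ Q K} ind S p / p ≥ (1/n) (K - 1/2) Λ - C`.
 Also `∑_p C1 / p ^ 2 ≤ 2 C1`.
Index `i₀`: `lv (j i₀) = K` (`lv_top`), its sum is `≥ (K - 1/2) Λ - C` and cancels `- ∑_{p ∈ Q K} 1/p`.
Index `i ≠ i₀`, `l = lv (j i)`: if `l = 0` then `j i < λ` (`lv_iff` with `k = 0`), so `0 ≥ log (1 + j i) - Λ - log 2`; if `1 ≤ l < K`: `j i < λ ^ (l + 1)` (`lv_iff` with `k = l`), so `(l - 1/2) Λ ≥ log (1 + j i) - log 2 - (3/2) Λ`; if `l = K`: `j i ≤ L = λ ^ K`, the same.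
Total: `W ≥ ∑_{i ≠ i₀} log (1 + j i) - (3/2) s Λ + (K - 1/2) Λ / (4 n) - C ≥ ∑_{i ≠ i₀} log (1 + j i) + K Λ / (8 n) - C` by the choice of `K` (`K/(4n) - 1/(8n) - (3/2) s ≥ K / (8 n)`), and `K Λ = log L`.
`log (1 + j i) ≤ log (1 + L) ≤ log L + log 2` for `i ≠ i₀`, so `∑_{i ≠ i₀} log (1 + j i) ≤ s (log L + log 2)`, hence `log L / (8 n) ≥ δ ∑_{i ≠ i₀} log (1 + j i) - C` with `δ = 1 / (8 n s)`.
Upper bound: `W ≤ N ∑_{p ∈ Q K} 1/p ≤ N (K - 1/2) Λ + C ≤ N log L + C`. -/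

namespace TW

open Polynomial Finset

/-- the primes up to `x` not dividing `M` -/
noncomputable def tww_Q (M : ℕ) (x : ℝ) : Finset ℕ := (Icc 1 ⌊x⌋₊).filter fun p => p.Prime ∧ ¬ p ∣ M

private theorem tww_lam_one (K : ℕ) (L : ℝ) (hL : 1 ≤ L) : 1 ≤ lam K L :=
  Real.one_le_rpow hL (by positivity)

private theorem tww_log_lam (K : ℕ) (L : ℝ) (hL : 1 ≤ L) : Real.log (lam K L) = Real.log L / K := by
  unfold lam
  rw [Real.log_rpow (by linarith)]
  ring

private theorem tww_zz_mono (K : ℕ) (L : ℝ) (hL : 1 ≤ L) (k k' : ℕ) (h : k ≤ k') : zz K L k ≤ zz K L k' := by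
  unfold zz
  apply Real.exp_le_exp.mpr
  apply Real.rpow_le_rpow_of_exponent_le (tww_lam_one K L hL)
  have : (k : ℝ) ≤ k' := by exact_mod_cast h
  linarith

private theorem tww_zz_two (K : ℕ) (L : ℝ) (hL : 1 ≤ L) (k : ℕ) : 2 ≤ zz K L k := by
  unfold zz
  have h1 : (1 : ℝ) ≤ lam K L ^ ((k : ℝ) + 1 / 2) := Real.one_le_rpow (tww_lam_one K L hL) (by positivity)
  have h2 := Real.add_one_le_exp (lam K L ^ ((k : ℝ) + 1 / 2))
  linarith

private theorem tww_loglog (K : ℕ) (L : ℝ) (hL : 1 ≤ L) (k : ℕ) :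
    Real.log (Real.log (zz K L k)) = ((k : ℝ) + 1 / 2) * (Real.log L / K) := by
  unfold zz
  rw [Real.log_exp, Real.log_rpow (by linarith [tww_lam_one K L hL]), tww_log_lam K L hL]

private theorem tww_part (M K : ℕ) (L : ℝ) (hL : 1 ≤ L) (a : ℕ → ℝ) (l : ℕ) :
    ∑ k ∈ range (l + 1), ∑ p ∈ Pk M K L k, a p = ∑ p ∈ tww_Q M (zz K L l), a p := by
  induction l with
  | zero =>
    rw [zero_add, Finset.sum_range_one]
    apply Finset.sum_congr _ (fun _ _ => rfl)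
    ext p
    simp [Pk, tww_Q]
  | succ l ih =>
    rw [Finset.sum_range_succ, ih, ← Finset.sum_union]
    · apply Finset.sum_congr _ (fun _ _ => rfl)
      ext p
      have h0 : (0 : ℝ) ≤ zz K L l := by linarith [tww_zz_two K L hL l]
      have h1 : (0 : ℝ) ≤ zz K L (l + 1) := by linarith [tww_zz_two K L hL (l + 1)]
      have h2 := tww_zz_mono K L hL l (l + 1) (by omega)
      simp only [Pk, tww_Q, Finset.mem_union, Finset.mem_filter, Finset.mem_Icc, Nat.le_floor_iff h0,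
        Nat.le_floor_iff h1, Nat.add_sub_cancel]
      constructor
      · rintro (⟨⟨h3, h4⟩, h5⟩ | ⟨⟨h3, h4⟩, h5⟩)
        · exact ⟨⟨h3, h4.trans h2⟩, h5⟩
        · exact ⟨⟨h3, h4⟩, h5.1, h5.2.1⟩
      · rintro ⟨⟨h3, h4⟩, h5⟩
        rcases le_or_gt (p : ℝ) (zz K L l) with h6 | h6
        · exact Or.inl ⟨⟨h3, h6⟩, h5⟩
        · exact Or.inr ⟨⟨h3, h4⟩, h5.1, h5.2, Or.inr h6⟩
    · rw [Finset.disjoint_left]
      intro p hp hp2
      have h0 : (0 : ℝ) ≤ zz K L l := by linarith [tww_zz_two K L hL l]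
      simp only [Pk, tww_Q, Finset.mem_filter, Finset.mem_Icc, Nat.le_floor_iff h0, Nat.add_sub_cancel] at hp hp2
      rcases hp2.2.2.2 with h | h
      · omega
      · linarith [hp.1.2]

private theorem tww_up (M : ℕ) (a : ℕ → ℝ) (ha : ∀ p : ℕ, p.Prime → 0 ≤ a p) (x : ℝ) :
    ∑ p ∈ tww_Q M x, a p / p ≤ PT.PS a x := by
  unfold tww_Q PT.PS
  apply Finset.sum_le_sum_of_subset_of_nonneg
  · intro p hp
    simp only [Finset.mem_filter] at hp ⊢
    exact ⟨hp.1, hp.2.1⟩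
  · intro p hp _
    simp only [Finset.mem_filter] at hp
    exact div_nonneg (ha p hp.2) (by positivity)

private theorem tww_down (M : ℕ) (hM : M ≠ 0) (a : ℕ → ℝ) (A : ℝ) (ha : ∀ p : ℕ, p.Prime → 0 ≤ a p)
    (hA : ∀ p : ℕ, p.Prime → a p ≤ A) (x : ℝ) :
    PT.PS a x - A * M ≤ ∑ p ∈ tww_Q M x, a p / p := by
  have hA0 : 0 ≤ A := (ha 2 Nat.prime_two).trans (hA 2 Nat.prime_two)
  have h1 : PT.PS a x = ∑ p ∈ ((Icc 1 ⌊x⌋₊).filter Nat.Prime).filter (fun p => p ∣ M), a p / p +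
      ∑ p ∈ ((Icc 1 ⌊x⌋₊).filter Nat.Prime).filter (fun p => ¬ p ∣ M), a p / p := by
    unfold PT.PS
    rw [Finset.sum_filter_add_sum_filter_not]
  have h2 : ((Icc 1 ⌊x⌋₊).filter Nat.Prime).filter (fun p => ¬ p ∣ M) = tww_Q M x := by
    ext p
    simp [tww_Q, and_assoc]
  have h3 : ∑ p ∈ ((Icc 1 ⌊x⌋₊).filter Nat.Prime).filter (fun p => p ∣ M), a p / p ≤ A * M := by
    have h4 : ∀ p ∈ ((Icc 1 ⌊x⌋₊).filter Nat.Prime).filter (fun p => p ∣ M), a p / p ≤ A := by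
      intro p hp
      simp only [Finset.mem_filter] at hp
      have h5 : (1 : ℝ) ≤ p := by exact_mod_cast hp.1.2.one_lt.le
      rw [div_le_iff₀ (by linarith)]
      nlinarith [hA p hp.1.2]
    have h6 := Finset.sum_le_card_nsmul _ _ _ h4
    rw [nsmul_eq_mul] at h6
    have h7 : (((Icc 1 ⌊x⌋₊).filter Nat.Prime).filter (fun p => p ∣ M)).card ≤ M := by
      calc (((Icc 1 ⌊x⌋₊).filter Nat.Prime).filter (fun p => p ∣ M)).card ≤ (Icc 1 M).card := by
            apply Finset.card_le_card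
            intro p hp
            simp only [Finset.mem_filter, Finset.mem_Icc] at hp ⊢
            exact ⟨hp.1.1.1, Nat.le_of_dvd (Nat.pos_of_ne_zero hM) hp.2⟩
        _ = M := by simp
    have h8 : ((((Icc 1 ⌊x⌋₊).filter Nat.Prime).filter (fun p => p ∣ M)).card : ℝ) ≤ M := by exact_mod_cast h7
    nlinarith
  rw [h1, h2]
  linarith

private theorem tww_sq (M : ℕ) (x C1 : ℝ) (hC1 : 0 ≤ C1) : ∑ p ∈ tww_Q M x, C1 / (p : ℝ) ^ 2 ≤ 2 * C1 := by
  have h1 := sum_Ioo_inv_sq_le (α := ℝ) 0 (⌊x⌋₊ + 1)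
  have h2 : ∑ p ∈ tww_Q M x, ((p : ℝ) ^ 2)⁻¹ ≤ ∑ i ∈ Ioo 0 (⌊x⌋₊ + 1), ((i : ℝ) ^ 2)⁻¹ := by
    apply Finset.sum_le_sum_of_subset_of_nonneg
    · intro p hp
      simp only [tww_Q, Finset.mem_filter, Finset.mem_Icc] at hp
      simp only [Finset.mem_Ioo]
      omega
    · intro p _ _
      positivity
  have h3 : ∑ p ∈ tww_Q M x, C1 / (p : ℝ) ^ 2 = C1 * ∑ p ∈ tww_Q M x, ((p : ℝ) ^ 2)⁻¹ := by
    rw [Finset.mul_sum]
    exact Finset.sum_congr rfl fun p _ => by rw [div_eq_mul_inv]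
  rw [h3]
  have h4 : ∑ p ∈ tww_Q M x, ((p : ℝ) ^ 2)⁻¹ ≤ 2 := by
    refine h2.trans (h1.trans ?_)
    norm_num
  nlinarith

private theorem tww_rtX (p : ℕ) (hp : p.Prime) : PT.rt (X : ℤ[X]) p = 1 := by
  have : Fact p.Prime := ⟨hp⟩
  unfold PT.rt
  simp only [Polynomial.map_X, eval_X]
  rw [Nat.card_unique]

private theorem tww_one (M : ℕ) : ∃ C : ℝ, 0 ≤ C ∧ ∀ x : ℝ, 2 ≤ x →
    ∑ p ∈ tww_Q M x, (1 : ℝ) / p ≤ Real.log (Real.log x) + C := by
  obtain ⟨C, hC⟩ := PT.rt_sum (X : ℤ[X]) (by rw [Polynomial.map_X]; exact irreducible_X)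
  refine ⟨|C|, abs_nonneg C, fun x hx => ?_⟩
  have h1 := hC x hx
  have h2 := tww_up M (fun p => (PT.rt (X : ℤ[X]) p : ℝ)) (fun p _ => by positivity) x
  have h3 : ∑ p ∈ tww_Q M x, (1 : ℝ) / p = ∑ p ∈ tww_Q M x, (PT.rt (X : ℤ[X]) p : ℝ) / p := by
    refine Finset.sum_congr rfl fun p hp => ?_
    simp only [tww_Q, Finset.mem_filter] at hp
    rw [tww_rtX p hp.2.1]
    simp
  rw [h3]
  linarith [le_abs_self C]

private theorem tww_low (M : ℕ) (hM : M ≠ 0) (g : ℤ[X]) (hm : g.Monic)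
    (hirr : Irreducible (g.map (Int.castRingHom ℚ))) : ∃ C : ℝ, 0 ≤ C ∧ ∀ x : ℝ, 2 ≤ x →
    Real.log (Real.log x) - C ≤ ∑ p ∈ tww_Q M x, (PT.rt g p : ℝ) / p := by
  obtain ⟨C, hC⟩ := rt_low g hm hirr
  obtain ⟨A, hA⟩ := PT.rt_le g hm.ne_zero
  refine ⟨|C| + A * M, by positivity, fun x hx => ?_⟩
  have h1 := hC x hx
  have h2 := tww_down M hM (fun p => (PT.rt g p : ℝ)) A (fun p _ => by positivity)
    (fun p hp => by exact_mod_cast hA p hp) x
  linarith [le_abs_self C]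

private theorem tww_S {ι : Type} {g : ι → ℤ[X]} (S : Set ℕ) (n : ℕ) (hS : PT.Spl g S n) (M : ℕ) (hM : M ≠ 0) :
    ∃ C : ℝ, 0 ≤ C ∧ ∀ x : ℝ, 2 ≤ x →
    (1 / n : ℝ) * Real.log (Real.log x) - C ≤ ∑ p ∈ tww_Q M x, PT.ind S p / p := by
  obtain ⟨C, hC⟩ := hS.lower
  refine ⟨|C| + M, by positivity, fun x hx => ?_⟩
  have h1 := hC x hx
  have h2 := tww_down M hM (PT.ind S) 1 (fun p _ => by unfold PT.ind; split_ifs <;> norm_num)
    (fun p hp => by unfold PT.ind; split_ifs <;> norm_num) x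
  linarith [le_abs_self C]

/-- exchange of the sums -/
private theorem tww_exch {ι : Type} [Fintype ι] [DecidableEq ι] (g : ι → ℤ[X]) (M K : ℕ) (L : ℝ) (l : ι → ℕ)
    (hl : ∀ i, l i ≤ K) :
    ∑ k ∈ range K, ∑ p ∈ Pk M K L k, (rts g (univ.filter fun i => k + 1 ≤ l i) p : ℝ) / p =
      ∑ i, ∑ k ∈ range (l i), ∑ p ∈ Pk M K L k, (PT.rt (g i) p : ℝ) / p := by
  have h1 : ∀ k, ∑ p ∈ Pk M K L k, (rts g (univ.filter fun i => k + 1 ≤ l i) p : ℝ) / p =
      ∑ i, if k < l i then ∑ p ∈ Pk M K L k, (PT.rt (g i) p : ℝ) / p else 0 := by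
    intro k
    rw [← Finset.sum_filter]
    rw [Finset.sum_comm]
    refine Finset.sum_congr rfl fun p _ => ?_
    unfold rts
    rw [Nat.cast_sum, Finset.sum_div]
    rfl
  rw [Finset.sum_congr rfl fun k _ => h1 k, Finset.sum_comm]
  refine Finset.sum_congr rfl fun i _ => ?_
  rw [← Finset.sum_filter]
  apply Finset.sum_congr _ (fun _ _ => rfl)
  ext k
  simp only [Finset.mem_filter, Finset.mem_range]
  have := hl i
  omega

theorem W_bounds {ι : Type} [Fintype ι] [DecidableEq ι] {g : ι → ℤ[X]} (hg : Fam g) (S : Set ℕ) (n : ℕ) (hS : PT.Spl g S n)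
    (M : ℕ) (hM : M ≠ 0) (C1 : ℝ) (hC1 : 0 ≤ C1) :
    ∃ (K : ℕ) (δ C2 L0 : ℝ), 0 < K ∧ 0 < δ ∧ 0 ≤ C2 ∧ ∀ (j : ι → ℕ) (i₀ : ι) (L : ℕ), L0 ≤ L →
      (∀ i, i ≠ i₀ → j i ≤ L) → L ≤ j i₀ → ∀ ω : ℕ → ℝ,
      (∀ k < K, ∀ p ∈ Pk M K L k,
        ((rts g (univ.filter fun i => k + 1 ≤ lv K L (j i)) p : ℝ) - 1 + PT.ind S p / 4) / p - C1 / (p : ℝ) ^ 2 ≤ ω p ∧
        ω p ≤ (∑ i, (g i).natDegree : ℕ) / (p : ℝ)) →
      (1 + δ) * ∑ i ∈ univ.erase i₀, Real.log (1 + j i) - C2 ≤ ∑ k ∈ range K, ∑ p ∈ Pk M K L k, ω p ∧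
      ∑ k ∈ range K, ∑ p ∈ Pk M K L k, ω p ≤ (∑ i, (g i).natDegree : ℕ) * Real.log L + C2 := by
  have hn : 1 ≤ n := hS.npos
  have hn' : (1 : ℝ) ≤ n := by exact_mod_cast hn
  obtain ⟨CX, hCX0, hCX⟩ := tww_one M
  obtain ⟨CS, hCS0, hCS⟩ := tww_S S n hS M hM
  choose Cl hCl0 hCl using fun i => tww_low M hM (g i) (hg.monic i) (hg.irr i)
  set s : ℕ := Fintype.card ι with hs
  set N : ℕ := ∑ i, (g i).natDegree with hN
  have hA0 : 0 ≤ ∑ i, Cl i := Finset.sum_nonneg fun i _ => hCl0 i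
  have hlog2 : 0 ≤ Real.log 2 := Real.log_nonneg (by norm_num)
  refine ⟨16 * n * (s + 1), 1 / (8 * n * (s + 1)), (s + 1) * Real.log 2 + ∑ i, Cl i + CX + CS + 2 * C1 + N * CX, 1,
    by positivity, by positivity, by positivity, ?_⟩
  intro j i₀ L hL hj1 hj2 ω hω
  set K : ℕ := 16 * n * (s + 1) with hKdef
  have hK : 0 < K := by positivity
  have hK1 : (1 : ℝ) ≤ K := by exact_mod_cast hK
  have hKr : (K : ℝ) = 16 * n * (s + 1) := by rw [hKdef]; push_cast; ring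
  obtain ⟨K', hK'⟩ : ∃ K', K = K' + 1 := ⟨K - 1, by omega⟩
  set Λ : ℝ := Real.log L / K with hΛ
  have hlogL : 0 ≤ Real.log (L : ℝ) := Real.log_nonneg hL
  have hΛ0 : 0 ≤ Λ := by positivity
  have hKΛ : (K : ℝ) * Λ = Real.log L := by rw [hΛ]; field_simp
  -- sums over all the ranges
  have hpart : ∀ a : ℕ → ℝ, ∑ k ∈ range K, ∑ p ∈ Pk M K L k, a p = ∑ p ∈ tww_Q M (zz K L K'), a p := by
    intro a
    have h := tww_part M K L hL a K'
    rwa [← hK'] at h
  have hx2 : ∀ k, 2 ≤ zz K L k := fun k => tww_zz_two K L hL k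
  have hll : ∀ k : ℕ, Real.log (Real.log (zz K L k)) = ((k : ℝ) + 1 / 2) * Λ := fun k => tww_loglog K L hL k
  have hK'r : (K' : ℝ) = K - 1 := by rw [hK']; push_cast; ring
  have hllK : Real.log (Real.log (zz K L K')) = ((K : ℝ) - 1 / 2) * Λ := by
    rw [hll, hK'r]; ring
  have hone : ∑ p ∈ tww_Q M (zz K L K'), (1 : ℝ) / p ≤ ((K : ℝ) - 1 / 2) * Λ + CX := by
    have := hCX _ (hx2 K')
    rwa [hllK] at this
  have hone' : ∑ p ∈ tww_Q M (zz K L K'), (1 : ℝ) / p ≤ Real.log L + CX := by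
    have : ((K : ℝ) - 1 / 2) * Λ ≤ Real.log L := by
      rw [sub_mul, hKΛ]
      linarith
    linarith
  have hsplit : (1 / n : ℝ) * (((K : ℝ) - 1 / 2) * Λ) - CS ≤ ∑ p ∈ tww_Q M (zz K L K'), PT.ind S p / p := by
    have := hCS _ (hx2 K')
    rwa [hllK] at this
  have hsq := tww_sq M (zz K L K') C1 hC1
  refine ⟨?_, ?_⟩
  · -- lower bound
    have hlow : ∑ k ∈ range K, ∑ p ∈ Pk M K L k,
        (((rts g (univ.filter fun i => k + 1 ≤ lv K L (j i)) p : ℝ) - 1 + PT.ind S p / 4) / p - C1 / (p : ℝ) ^ 2) ≤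
        ∑ k ∈ range K, ∑ p ∈ Pk M K L k, ω p := by
      refine Finset.sum_le_sum fun k hk => Finset.sum_le_sum fun p hp => ?_
      exact (hω k (Finset.mem_range.mp hk) p hp).1
    have hdec : ∑ k ∈ range K, ∑ p ∈ Pk M K L k,
        (((rts g (univ.filter fun i => k + 1 ≤ lv K L (j i)) p : ℝ) - 1 + PT.ind S p / 4) / p - C1 / (p : ℝ) ^ 2) =
        ∑ k ∈ range K, ∑ p ∈ Pk M K L k, (rts g (univ.filter fun i => k + 1 ≤ lv K L (j i)) p : ℝ) / p -
        ∑ k ∈ range K, ∑ p ∈ Pk M K L k, (1 : ℝ) / p +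
        (1 / 4) * ∑ k ∈ range K, ∑ p ∈ Pk M K L k, PT.ind S p / p -
        ∑ k ∈ range K, ∑ p ∈ Pk M K L k, C1 / (p : ℝ) ^ 2 := by
      rw [← Finset.sum_sub_distrib, Finset.mul_sum, ← Finset.sum_add_distrib, ← Finset.sum_sub_distrib]
      refine Finset.sum_congr rfl fun k _ => ?_
      rw [← Finset.sum_sub_distrib, Finset.mul_sum, ← Finset.sum_add_distrib, ← Finset.sum_sub_distrib]
      refine Finset.sum_congr rfl fun p _ => ?_
      ring
    rw [hdec, tww_exch g M K L (fun i => lv K L (j i)) (fun i => lv_le K L (j i)), hpart, hpart, hpart] at hlow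
    -- the index `i₀`
    have hi0 : ((K : ℝ) - 1 / 2) * Λ - Cl i₀ ≤
        ∑ k ∈ range (lv K L (j i₀)), ∑ p ∈ Pk M K L k, (PT.rt (g i₀) p : ℝ) / p := by
      rw [lv_top K hK L hL (j i₀) (by exact_mod_cast hj2), hpart]
      have := hCl i₀ _ (hx2 K')
      rwa [hllK] at this
    -- the other indices
    have hi : ∀ i, i ≠ i₀ → Real.log (1 + j i) - Real.log 2 - 3 / 2 * Λ - Cl i ≤
        ∑ k ∈ range (lv K L (j i)), ∑ p ∈ Pk M K L k, (PT.rt (g i) p : ℝ) / p := by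
      intro i hii
      have hlam1 : 1 ≤ lam K L := tww_lam_one K L hL
      have hloglam : Real.log (lam K L) = Λ := tww_log_lam K L hL
      have hle := lv_le K L (j i)
      have hj0 : (0 : ℝ) ≤ (j i : ℝ) := by positivity
      rcases Nat.eq_zero_or_pos (lv K L (j i)) with h0 | h0
      · rw [h0, Finset.range_zero, Finset.sum_empty]
        have h1 : ¬ (0 + 1 ≤ lv K L (j i)) := by omega
        rw [lv_iff K hK L hL (j i) 0 hK] at h1
        have h2 : (j i : ℝ) < lam K L := by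
          rw [not_le] at h1
          simpa using h1
        have h3 : Real.log (1 + j i) ≤ Real.log (2 * lam K L) := by
          apply Real.log_le_log (by positivity)
          linarith
        rw [Real.log_mul (by norm_num) (by positivity), hloglam] at h3
        linarith [hCl0 i]
      · obtain ⟨l, hl⟩ : ∃ l, lv K L (j i) = l + 1 := ⟨lv K L (j i) - 1, by omega⟩
        rw [hl, tww_part M K L hL]
        have h4 := hCl i _ (hx2 l)
        rw [hll] at h4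
        have h5 : Real.log (1 + j i) ≤ Real.log 2 + ((l : ℝ) + 2) * Λ := by
          rcases Nat.lt_or_ge (l + 1) K with h6 | h6
          · have h7 : ¬ (l + 1 + 1 ≤ lv K L (j i)) := by omega
            rw [lv_iff K hK L hL (j i) (l + 1) h6, not_le] at h7
            have h8 : (1 : ℝ) ≤ lam K L ^ (l + 1 + 1) := one_le_pow₀ hlam1
            have h9 : Real.log (1 + j i) ≤ Real.log (2 * lam K L ^ (l + 1 + 1)) := by
              apply Real.log_le_log (by positivity)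
              linarith
            rw [Real.log_mul (by norm_num) (by positivity), Real.log_pow, hloglam] at h9
            push_cast at h9
            linarith
          · have h7 : (j i : ℝ) ≤ L := by exact_mod_cast hj1 i hii
            have h9 : Real.log (1 + j i) ≤ Real.log (2 * L) := by
              apply Real.log_le_log (by positivity)
              linarith
            rw [Real.log_mul (by norm_num) (by positivity)] at h9
            have h10 : (K : ℝ) ≤ l + 1 := by exact_mod_cast h6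
            have h11 := mul_le_mul_of_nonneg_right h10 hΛ0
            rw [hKΛ] at h11
            have h12 : ((l : ℝ) + 2) * Λ = (l + 1) * Λ + Λ := by ring
            rw [h12]
            linarith
        linarith
    have hsum : ∑ i ∈ univ.erase i₀, (Real.log (1 + j i) - Real.log 2 - 3 / 2 * Λ - Cl i) ≤
        ∑ i ∈ univ.erase i₀, ∑ k ∈ range (lv K L (j i)), ∑ p ∈ Pk M K L k, (PT.rt (g i) p : ℝ) / p :=
      Finset.sum_le_sum fun i hi' => hi i (Finset.ne_of_mem_erase hi')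
    have htot : ∑ i, ∑ k ∈ range (lv K L (j i)), ∑ p ∈ Pk M K L k, (PT.rt (g i) p : ℝ) / p =
        ∑ k ∈ range (lv K L (j i₀)), ∑ p ∈ Pk M K L k, (PT.rt (g i₀) p : ℝ) / p +
        ∑ i ∈ univ.erase i₀, ∑ k ∈ range (lv K L (j i)), ∑ p ∈ Pk M K L k, (PT.rt (g i) p : ℝ) / p :=
      (Finset.add_sum_erase univ (fun i => ∑ k ∈ range (lv K L (j i)), ∑ p ∈ Pk M K L k, (PT.rt (g i) p : ℝ) / p)
        (Finset.mem_univ i₀)).symm
    have hCsum : Cl i₀ + ∑ i ∈ univ.erase i₀, Cl i = ∑ i, Cl i := Finset.add_sum_erase _ _ (Finset.mem_univ i₀)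
    have hcard : ((univ.erase i₀ : Finset ι).card : ℝ) ≤ s := by
      have : (univ.erase i₀ : Finset ι).card ≤ s := by
        rw [hs, ← Finset.card_univ]
        exact Finset.card_le_card (Finset.erase_subset _ _)
      exact_mod_cast this
    have hcard0 : (0 : ℝ) ≤ ((univ.erase i₀ : Finset ι).card : ℝ) := by positivity
    have hs0 : (0 : ℝ) ≤ (s : ℝ) := by positivity
    have hexp : ∑ i ∈ univ.erase i₀, (Real.log (1 + j i) - Real.log 2 - 3 / 2 * Λ - Cl i) =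
        ∑ i ∈ univ.erase i₀, Real.log (1 + j i) - ((univ.erase i₀ : Finset ι).card : ℝ) * Real.log 2 -
        ((univ.erase i₀ : Finset ι).card : ℝ) * (3 / 2 * Λ) - ∑ i ∈ univ.erase i₀, Cl i := by
      rw [Finset.sum_sub_distrib, Finset.sum_sub_distrib, Finset.sum_sub_distrib, Finset.sum_const, Finset.sum_const,
        nsmul_eq_mul, nsmul_eq_mul]
    have hE : ∑ i ∈ univ.erase i₀, Real.log (1 + j i) ≤ s * (Real.log L + Real.log 2) := by
      have h1 : ∀ i ∈ univ.erase i₀, Real.log (1 + j i) ≤ Real.log L + Real.log 2 := by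
        intro i hi'
        have h7 : (j i : ℝ) ≤ L := by exact_mod_cast hj1 i (Finset.ne_of_mem_erase hi')
        have h9 : Real.log (1 + j i) ≤ Real.log (2 * L) := by
          apply Real.log_le_log (by positivity)
          linarith
        rw [Real.log_mul (by norm_num) (by positivity)] at h9
        linarith
      have h2 := Finset.sum_le_card_nsmul _ _ _ h1
      rw [nsmul_eq_mul] at h2
      exact h2.trans (mul_le_mul_of_nonneg_right hcard (by positivity))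
    set E : ℝ := ∑ i ∈ univ.erase i₀, Real.log (1 + j i) with hEdef
    set c : ℝ := ((univ.erase i₀ : Finset ι).card : ℝ) with hc
    have hδ : 1 / (8 * n * (s + 1)) * E ≤ 1 / (8 * n) * Real.log L + Real.log 2 := by
      have h1 : 1 / (8 * n * (s + 1)) * E ≤ 1 / (8 * n * (s + 1)) * (s * (Real.log L + Real.log 2)) := by
        apply mul_le_mul_of_nonneg_left hE (by positivity)
      have h2 : 1 / (8 * n * (s + 1)) * (s * (Real.log L + Real.log 2)) =
          (1 / (8 * n)) * ((s / (s + 1 : ℝ)) * (Real.log L + Real.log 2)) := by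
        field_simp
      have h3 : (s / (s + 1 : ℝ)) ≤ 1 := by
        rw [div_le_one (by positivity)]
        linarith
      have h4 : (s / (s + 1 : ℝ)) * (Real.log L + Real.log 2) ≤ Real.log L + Real.log 2 := by
        have h5 : 0 ≤ Real.log L + Real.log 2 := by positivity
        exact mul_le_of_le_one_left h5 h3
      have h6 : (1 / (8 * n) : ℝ) ≤ 1 := by
        rw [div_le_one (by positivity)]
        linarith
      have h7 : (0 : ℝ) ≤ 1 / (8 * n) := by positivity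
      have h8 : (1 / (8 * n)) * ((s / (s + 1 : ℝ)) * (Real.log L + Real.log 2)) ≤
          (1 / (8 * n)) * (Real.log L + Real.log 2) := mul_le_mul_of_nonneg_left h4 h7
      have h9 := mul_le_of_le_one_left hlog2 h6
      rw [mul_add] at h8
      linarith
    have hgain : 1 / (8 * n) * Real.log L + s * (3 / 2 * Λ) ≤ 1 / 4 * ((1 / n) * (((K : ℝ) - 1 / 2) * Λ)) := by
      rw [← hKΛ, hKr]
      have h1 : 1 / 4 * ((1 / n) * (((16 * n * (s + 1) : ℝ) - 1 / 2) * Λ)) =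
          (4 * (s + 1) - 1 / (8 * n)) * Λ := by
        field_simp
        ring
      have h2 : 1 / (8 * n) * ((16 * n * (s + 1) : ℝ) * Λ) = 2 * (s + 1) * Λ := by
        field_simp
        ring
      rw [h1, h2]
      have h3 : (1 / (8 * n) : ℝ) ≤ 1 := by
        rw [div_le_one (by positivity)]
        linarith
      have h4 : 0 ≤ Λ * (1 / 2 * s + 2 - 1 / (8 * n)) := mul_nonneg hΛ0 (by linarith)
      have h5 : (4 * ((s : ℝ) + 1) - 1 / (8 * n)) * Λ - (2 * (s + 1) * Λ + s * (3 / 2 * Λ)) =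
          Λ * (1 / 2 * s + 2 - 1 / (8 * n)) := by ring
      linarith
    have hcΛ : c * (3 / 2 * Λ) ≤ s * (3 / 2 * Λ) := mul_le_mul_of_nonneg_right hcard (by positivity)
    have hc2 : c * Real.log 2 ≤ s * Real.log 2 := mul_le_mul_of_nonneg_right hcard hlog2
    have hNCX : 0 ≤ (N : ℝ) * CX := by positivity
    rw [htot] at hlow
    have e1 : (1 + 1 / (8 * (n : ℝ) * (s + 1))) * E = E + 1 / (8 * n * (s + 1)) * E := by ring
    rw [e1]
    linarith
  · -- upper bound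
    have h1 : ∑ k ∈ range K, ∑ p ∈ Pk M K L k, ω p ≤ ∑ k ∈ range K, ∑ p ∈ Pk M K L k, (N : ℝ) / p := by
      refine Finset.sum_le_sum fun k hk => Finset.sum_le_sum fun p hp => ?_
      exact (hω k (Finset.mem_range.mp hk) p hp).2
    rw [hpart (fun p => (N : ℝ) / p)] at h1
    have h2 : ∑ p ∈ tww_Q M (zz K L K'), (N : ℝ) / p = N * ∑ p ∈ tww_Q M (zz K L K'), (1 : ℝ) / p := by
      rw [Finset.mul_sum]
      exact Finset.sum_congr rfl fun p _ => by ring
    rw [h2] at h1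
    have h3 : (N : ℝ) * ∑ p ∈ tww_Q M (zz K L K'), (1 : ℝ) / p ≤ N * (Real.log L + CX) :=
      mul_le_mul_of_nonneg_left hone' (by positivity)
    have h4 : 0 ≤ ((s : ℝ) + 1) * Real.log 2 := by positivity
    rw [mul_add] at h3
    linarith

end TW
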