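import Pool.Agent.Lib.MP_10e784_ag.TW.TWCrt

/-! JOB TWCoset.  Half of the nonzero elements of a finite field of odd characteristic lie in a given class modulo squares.

`coset_card`: `x ↦ x * c` is a bijection of the nonzero elements, so we may count the nonzero squares: the map `y ↦ y ^ 2` from the nonzero elements to the nonzero squares is two-to-one (`y ^ 2 = z ^ 2 ↔ y = z ∨ y = -z`, `z ≠ -z`), or use `quadraticChar_sum_zero`, `quadraticChar_card_sqrts`, `FiniteField` lemmas.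
`coset_adjoin`: `AdjoinRoot h` is a field with `p ^ natDegree h` elements (`card_adjoin`), its characteristic is `p ≠ 2`; `IsSquare (mk P * mk Q)` in `AdjoinRoot h` iff `∃ B, h ∣ P * Q - B ^ 2` (`AdjoinRoot.mk_surjective`, `AdjoinRoot.mk_eq_mk`, `AdjoinRoot.mk_eq_zero`): that is `isSquare_adjoin`. -/

namespace TW

open Polynomial Finset

theorem coset_card {F : Type} [Field F] [Finite F] (h2 : (2 : F) ≠ 0) (c : F) (hc : c ≠ 0) :
    2 * Nat.card {x : F // x ≠ 0 ∧ IsSquare (x * c)} = Nat.card F - 1 := by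
  classical
  haveI : Fintype F := Fintype.ofFinite F
  have hF : ringChar F ≠ 2 := by
    intro h
    apply h2
    have h3 : ((2 : ℕ) : F) = 0 := (ringChar.spec F 2).2 (by rw [h])
    exact_mod_cast h3
  have hsum := quadraticChar_sum_zero hF
  have hpt : ∀ x : F, (if x ≠ 0 ∧ IsSquare (x * c) then (2 : ℤ) else 0) =
      (if x ≠ 0 then 1 else 0) + quadraticChar F c * quadraticChar F x := by
    intro x
    by_cases hx : x = 0
    · simp [hx]
    · have hxc : x * c ≠ 0 := mul_ne_zero hx hc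
      rw [← map_mul, mul_comm c x, if_pos hx]
      by_cases hs : IsSquare (x * c)
      · rw [if_pos ⟨hx, hs⟩, (quadraticChar_one_iff_isSquare hxc).2 hs]
        norm_num
      · rw [if_neg (fun h => hs h.2), quadraticChar_neg_one_iff_not_isSquare.2 hs]
        norm_num
  have htot : ∑ x : F, (if x ≠ 0 ∧ IsSquare (x * c) then (2 : ℤ) else 0) =
      ∑ x : F, (if x ≠ 0 then (1 : ℤ) else 0) := by
    rw [Finset.sum_congr rfl (fun x _ => hpt x), Finset.sum_add_distrib, ← Finset.mul_sum, hsum]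
    ring
  have e1 : ∑ x : F, (if x ≠ 0 ∧ IsSquare (x * c) then (2 : ℤ) else 0) =
      2 * (Nat.card {x : F // x ≠ 0 ∧ IsSquare (x * c)} : ℤ) := by
    rw [Nat.card_eq_fintype_card, Fintype.card_subtype, ← Finset.sum_filter, Finset.sum_const, nsmul_eq_mul]
    ring
  have e2 : ∑ x : F, (if x ≠ 0 then (1 : ℤ) else 0) = (Nat.card F : ℤ) - 1 := by
    have e3 : ∀ x : F, (if x ≠ 0 then (1 : ℤ) else 0) = 1 - (if x = 0 then (1 : ℤ) else 0) := by
      intro x
      by_cases hx : x = 0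
      · simp [hx]
      · simp [hx]
    rw [Finset.sum_congr rfl (fun x _ => e3 x), Finset.sum_sub_distrib, Finset.sum_ite_eq' Finset.univ (0 : F), Finset.sum_const,
      nsmul_eq_mul, mul_one, Finset.card_univ, Nat.card_eq_fintype_card]
    simp
  rw [e1, e2] at htot
  have hpos : 1 ≤ Nat.card F := Nat.card_pos
  omega

theorem isSquare_adjoin {F : Type} [Field F] (h P : F[X]) :
    IsSquare (AdjoinRoot.mk h P) ↔ ∃ B : F[X], h ∣ P - B ^ 2 := by
  constructor
  · rintro ⟨r, hr⟩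
    obtain ⟨B, rfl⟩ := AdjoinRoot.mk_surjective r
    refine ⟨B, ?_⟩
    rw [← AdjoinRoot.mk_eq_zero, map_sub, hr, map_pow, sq, sub_self]
  · rintro ⟨B, hB⟩
    refine ⟨AdjoinRoot.mk h B, ?_⟩
    rw [← AdjoinRoot.mk_eq_zero, map_sub, map_pow, sub_eq_zero] at hB
    rw [hB, sq]

theorem coset_adjoin (p : ℕ) [Fact p.Prime] (hp2 : p ≠ 2) (h : (ZMod p)[X]) (hm : h.Monic) (hi : Irreducible h) (Q : (ZMod p)[X])
    (hQ : ¬ h ∣ Q) :
    (Nat.card {x : AdjoinRoot h // x ≠ 0 ∧ IsSquare (x * AdjoinRoot.mk h Q)} : ℝ) = ((p : ℝ) ^ h.natDegree - 1) / 2 := by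
  haveI : Fact (Irreducible h) := ⟨hi⟩
  obtain ⟨hfin, hcard⟩ := card_adjoin p h hm
  haveI := hfin
  have h2 : (2 : AdjoinRoot h) ≠ 0 := by
    intro h0
    have h3 : algebraMap (ZMod p) (AdjoinRoot h) 2 = algebraMap (ZMod p) (AdjoinRoot h) 0 := by
      rw [map_zero, map_ofNat]
      exact h0
    have h4 : (2 : ZMod p) = 0 := (algebraMap (ZMod p) (AdjoinRoot h)).injective h3
    have h5 : ((2 : ℕ) : ZMod p) = 0 := by exact_mod_cast h4
    rw [ZMod.natCast_eq_zero_iff] at h5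
    exact hp2 ((Nat.prime_dvd_prime_iff_eq Fact.out Nat.prime_two).1 h5)
  have hc : AdjoinRoot.mk h Q ≠ 0 := by
    intro h0
    exact hQ (AdjoinRoot.mk_eq_zero.1 h0)
  have hmain := coset_card h2 (AdjoinRoot.mk h Q) hc
  rw [hcard] at hmain
  have hpos : 1 ≤ p ^ h.natDegree := Nat.one_le_pow _ _ (Nat.Prime.pos Fact.out)
  have hmain' : ((2 * Nat.card {x : AdjoinRoot h // x ≠ 0 ∧ IsSquare (x * AdjoinRoot.mk h Q)} : ℕ) : ℝ) =
      ((p ^ h.natDegree - 1 : ℕ) : ℝ) := by
    rw [hmain]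
  rw [Nat.cast_sub hpos] at hmain'
  push_cast at hmain'
  linarith

end TW
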