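import Pool.Agent.Lib.MP_10e784_ag.TW.TWFacs

/-! JOB TWNu.  The numbers of factors and roots.

`rt_facs`: the roots `ρ : ZMod p` of `red p (g i)` correspond to the factors `X - C ρ` (monic irreducible of degree `1` are exactly the `X - C ρ`, `Polynomial.Monic.eq_X_add_C`/`natDegree_eq_one`), `dvd_iff_isRoot`; `PT.rt` is `Nat.card` of the subtype.
`nu_facts`: with `ρ` = number of degree-one factors, `ν` = number of factors, `m = ∑ degrees`, all degrees `≥ 1`: `ρ ≤ ν ≤ m`; if `ρ = m` all degrees are `1` and `ν = m`; if `ρ ≠ m` there is a factor of degree `≥ 2`, so `ρ + 1 ≤ ν`.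
`parity`: if all factors of all `red p (g i)`, `i ∈ J`, have even degree then `dg g J` is even. -/

namespace TW

open Polynomial Finset

theorem rt_facs {ι : Type} [Fintype ι] {g : ι → ℤ[X]} (hg : Fam g) (p : ℕ) [Fact p.Prime] (hp : GoodP g p) (i : ι) :
    ((facs (red p (g i))).filter fun h => h.natDegree = 1).card = PT.rt (g i) p := by
  classical
  have hne : red p (g i) ≠ 0 := (red_monic hg p i).1.ne_zero
  have h1 : PT.rt (g i) p = (Finset.univ.filter fun ρ : ZMod p => (red p (g i)).eval ρ = 0).card := by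
    unfold PT.rt red
    rw [Nat.card_eq_fintype_card, Fintype.card_subtype]
  rw [h1]
  symm
  refine Finset.card_bij (fun ρ _ => X - C ρ) ?_ ?_ ?_
  · intro ρ hρ
    rw [Finset.mem_filter] at hρ ⊢
    rw [mem_facs hne]
    exact ⟨⟨monic_X_sub_C ρ, irreducible_X_sub_C ρ, dvd_iff_isRoot.2 hρ.2⟩, natDegree_X_sub_C ρ⟩
  · intro a _ b _ hab
    exact C_injective (sub_right_injective hab)
  · intro h hh
    rw [Finset.mem_filter, mem_facs hne] at hh
    obtain ⟨⟨hm, _, hd⟩, hdeg⟩ := hh
    have he : h = X - C (-(h.coeff 0)) := by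
      rw [C_neg, sub_neg_eq_add]
      exact hm.eq_X_add_C hdeg
    refine ⟨-(h.coeff 0), ?_, he.symm⟩
    rw [Finset.mem_filter]
    refine ⟨Finset.mem_univ _, ?_⟩
    have h2 : X - C (-(h.coeff 0)) ∣ red p (g i) := by
      rw [← he]
      exact hd
    exact dvd_iff_isRoot.1 h2

/-- the number of irreducible factors over a set of indices -/
noncomputable def nu {ι : Type} (g : ι → ℤ[X]) (p : ℕ) [Fact p.Prime] (I : Finset ι) : ℕ :=
  ∑ i ∈ I, (facs (red p (g i))).card

theorem twnu_sum {ι : Type} [Fintype ι] {g : ι → ℤ[X]} (hg : Fam g) (p : ℕ) [Fact p.Prime] (hp : GoodP g p) (i : ι) :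
    ∑ h ∈ facs (red p (g i)), h.natDegree = (g i).natDegree := by
  rw [sum_facs (red_monic hg p i).1 (red_sqf hg p hp i), (red_monic hg p i).2]

theorem twnu_pos {ι : Type} [Fintype ι] {g : ι → ℤ[X]} (hg : Fam g) (p : ℕ) [Fact p.Prime] (i : ι) :
    ∀ h ∈ facs (red p (g i)), 1 ≤ h.natDegree := by
  intro h hh
  rw [mem_facs (red_monic hg p i).1.ne_zero] at hh
  exact hh.2.1.natDegree_pos

theorem nu_facts {ι : Type} [Fintype ι] {g : ι → ℤ[X]} (hg : Fam g) (p : ℕ) [Fact p.Prime] (hp : GoodP g p)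
    (I : Finset ι) :
    rts g I p ≤ nu g p I ∧ nu g p I ≤ dg g I ∧ (rts g I p ≠ dg g I → rts g I p + 1 ≤ nu g p I) ∧ I.card ≤ nu g p I := by
  have hle : ∀ i ∈ I, PT.rt (g i) p ≤ (facs (red p (g i))).card := by
    intro i _
    rw [← rt_facs hg p hp i]
    exact Finset.card_filter_le _ _
  have h1 : rts g I p ≤ nu g p I := Finset.sum_le_sum hle
  have hcard : ∀ i, (facs (red p (g i))).card ≤ (g i).natDegree := by
    intro i
    rw [← twnu_sum hg p hp i, Finset.card_eq_sum_ones]
    exact Finset.sum_le_sum (twnu_pos hg p i)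
  refine ⟨h1, Finset.sum_le_sum fun i _ => hcard i, ?_, ?_⟩
  · intro hne
    by_contra hlt
    have heq : rts g I p = nu g p I := by omega
    apply hne
    have hall := (Finset.sum_eq_sum_iff_of_le hle).1 heq
    rw [heq]
    unfold nu dg
    refine Finset.sum_congr rfl fun i hi => ?_
    have h2 := hall i hi
    rw [← rt_facs hg p hp i, Finset.card_filter_eq_iff] at h2
    rw [← twnu_sum hg p hp i, Finset.card_eq_sum_ones]
    exact Finset.sum_congr rfl fun h hh => (h2 h hh).symm
  · unfold nu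
    rw [Finset.card_eq_sum_ones]
    refine Finset.sum_le_sum fun i _ => ?_
    rw [Nat.one_le_iff_ne_zero, Finset.card_ne_zero]
    by_contra hempty
    rw [Finset.not_nonempty_iff_eq_empty] at hempty
    have h3 := twnu_sum hg p hp i
    rw [hempty, Finset.sum_empty] at h3
    have h4 := (hg.irr i).natDegree_pos
    rw [(hg.monic i).natDegree_map] at h4
    omega

theorem parity {ι : Type} [Fintype ι] {g : ι → ℤ[X]} (hg : Fam g) (p : ℕ) [Fact p.Prime] (hp : GoodP g p)
    (J : Finset ι) (h : ∀ i ∈ J, ∀ f ∈ facs (red p (g i)), Even f.natDegree) : Even (dg g J) := by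
  unfold dg
  apply Finset.even_sum
  intro i hi
  rw [← twnu_sum hg p hp i]
  exact Finset.even_sum _ (h i hi)

end TW
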