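import Pool.Agent.Lib.MP_10e784_ag.TW.TWKfHom

/-! JOB TWCoord.  Coordinates of algebraic integers.

Let `n = natDegree g = finrank ℚ K`.  `b i = θ ^ i`, `i < n`, is a `ℚ`-basis of `K` (`gen_span`/`gen_rat`, or `PowerBasis`).  The trace form is nondegenerate (`traceForm_nondegenerate`), take the dual basis `δ i` (`LinearMap.BilinForm.dualBasis`/`Module.Basis.traceDual`): the coordinate of `x` is `Tr (x δ i)`, and `Tr y = ∑_σ σ y`
(`trace_eq_sum_embeddings`), so `|coordinate| ≤ ∑_σ ‖σ x‖ ‖σ (δ i)‖ ≤ C R` if all `‖σ x‖ ≤ R`.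
`m0 = M` of `gen_hom`: `m0 x = aeval θ P` with `P : ℤ[X]`; replace `P` by `P %ₘ g` (degree `< n`); its coefficients are the coordinates of `m0 x`, so at most `m0 C R` in absolute value. -/

namespace TW

open Polynomial NumberField

private theorem twcoord_repr {K : Type} [Field K] [NumberField K] :
    ∃ C : Module.Free.ChooseBasisIndex ℤ (𝓞 K) → ℝ, (∀ j, 0 ≤ C j) ∧ ∀ (x : 𝓞 K) (R : ℝ), 0 ≤ R →
      (∀ σ : K →+* ℂ, ‖σ (x : K)‖ ≤ R) → ∀ j, |((RingOfIntegers.basis K).repr x j : ℝ)| ≤ C j * R := by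
  refine ⟨fun j => ‖LinearMap.toContinuousLinearMap ((canonicalEmbedding.latticeBasis K).coord j)‖,
    fun j => norm_nonneg (LinearMap.toContinuousLinearMap
      ((canonicalEmbedding.latticeBasis K).coord j)), fun x R hR hx j => ?_⟩
  have h1 : (canonicalEmbedding.latticeBasis K).repr (canonicalEmbedding K (x : K)) j =
      (((RingOfIntegers.basis K).repr x j : ℤ) : ℂ) := by
    rw [canonicalEmbedding.integralBasis_repr_apply]
    have h2 := integralBasis_repr_apply K x j
    have h3 : (algebraMap (𝓞 K) K) x = (x : K) := rfl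
    rw [h3] at h2
    rw [h2]
    simp
  have h4 := (LinearMap.toContinuousLinearMap ((canonicalEmbedding.latticeBasis K).coord j)).le_opNorm
    (canonicalEmbedding K (x : K))
  have h5 : (LinearMap.toContinuousLinearMap ((canonicalEmbedding.latticeBasis K).coord j))
      (canonicalEmbedding K (x : K)) = (((RingOfIntegers.basis K).repr x j : ℤ) : ℂ) := by
    rw [← h1]
    rfl
  rw [h5, Complex.norm_intCast] at h4
  refine h4.trans (mul_le_mul_of_nonneg_left ?_ (norm_nonneg _))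
  rw [pi_norm_le_iff_of_nonneg hR]
  intro σ
  rw [canonicalEmbedding.apply_at]
  exact hx σ

private theorem twcoord_coeff (P : ℤ[X]) (i : ℕ) :
    |(P.coeff i : ℝ)| ≤ ∑ k ∈ P.support, |(P.coeff k : ℝ)| := by
  by_cases h : i ∈ P.support
  · exact Finset.single_le_sum (f := fun k => |(P.coeff k : ℝ)|) (fun k _ => abs_nonneg _) h
  · rw [notMem_support_iff.1 h]
    simpa using Finset.sum_nonneg fun k (_ : k ∈ P.support) => abs_nonneg (P.coeff k : ℝ)

theorem coord {g : ℤ[X]} {K : Type} [Field K] [NumberField K] {θ : 𝓞 K} (hG : Gen g K θ) :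
    ∃ (m0 : ℕ) (C : ℝ), m0 ≠ 0 ∧ 0 < C ∧ ∀ x : 𝓞 K, ∃ P : ℤ[X], P.natDegree < g.natDegree ∧ (m0 : 𝓞 K) * x = aeval θ P ∧
      ∀ R : ℝ, (∀ σ : K →+* ℂ, ‖σ (x : K)‖ ≤ R) → ∀ i, |(P.coeff i : ℝ)| ≤ C * R := by
  classical
  obtain ⟨M, hM, hspan, -⟩ := gen_hom hG
  obtain ⟨Cz, hCz, hz⟩ := twcoord_repr (K := K)
  have hg1 : g ≠ 1 := by
    intro h
    have h1 := hG.deg
    rw [h, natDegree_one] at h1
    exact (Module.finrank_pos (R := ℚ) (M := K)).ne' h1
  have hred : ∀ j, ∃ P : ℤ[X], P.natDegree < g.natDegree ∧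
      (M : 𝓞 K) * RingOfIntegers.basis K j = aeval θ P := by
    intro j
    obtain ⟨P, hP⟩ := hspan (RingOfIntegers.basis K j)
    refine ⟨P %ₘ g, natDegree_modByMonic_lt P hG.monic hg1, ?_⟩
    rw [aeval_modByMonic_eq_self_of_root hG.root, hP]
  choose Q hQd hQ using hred
  set A : Module.Free.ChooseBasisIndex ℤ (𝓞 K) → ℝ :=
    fun j => ∑ k ∈ (Q j).support, |((Q j).coeff k : ℝ)| with hA
  have hA0 : ∀ j, 0 ≤ A j := fun j => Finset.sum_nonneg fun k _ => abs_nonneg _
  refine ⟨M, 1 + ∑ j, Cz j * A j, hM, ?_, fun x => ?_⟩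
  · have : 0 ≤ ∑ j, Cz j * A j := Finset.sum_nonneg fun j _ => mul_nonneg (hCz j) (hA0 j)
    linarith
  set z : Module.Free.ChooseBasisIndex ℤ (𝓞 K) → ℤ := fun j => (RingOfIntegers.basis K).repr x j
    with hzdef
  refine ⟨∑ j, C (z j) * Q j, ?_, ?_, ?_⟩
  · have hpos : 0 < g.natDegree := by
      rw [← hG.deg]
      exact Module.finrank_pos
    have h1 : (∑ j, C (z j) * Q j).natDegree ≤ g.natDegree - 1 := by
      refine natDegree_sum_le_of_forall_le _ _ fun j _ => ?_
      have h2 := natDegree_C_mul_le (z j) (Q j)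
      have h3 := hQd j
      omega
    omega
  · rw [map_sum]
    have h1 : ∀ j, aeval θ (C (z j) * Q j) = (M : 𝓞 K) * (z j • RingOfIntegers.basis K j) := by
      intro j
      rw [map_mul, aeval_C, ← hQ j, zsmul_eq_mul]
      simp only [algebraMap_int_eq, eq_intCast]
      ring
    simp_rw [h1]
    rw [← Finset.mul_sum]
    congr 1
    exact ((RingOfIntegers.basis K).sum_repr x).symm
  · intro R hx i
    have hR : 0 ≤ R := by
      obtain ⟨σ⟩ : Nonempty (K →+* ℂ) := inferInstance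
      exact (norm_nonneg _).trans (hx σ)
    rw [finsetSum_coeff]
    simp only [coeff_C_mul]
    push_cast
    refine (Finset.abs_sum_le_sum_abs _ _).trans ?_
    have h2 : ∑ j, |(z j : ℝ) * ((Q j).coeff i : ℝ)| ≤ ∑ j, (Cz j * A j) * R := by
      refine Finset.sum_le_sum fun j _ => ?_
      rw [abs_mul]
      have h3 := hz x R hR hx j
      have h4 := twcoord_coeff (Q j) i
      calc |(z j : ℝ)| * |((Q j).coeff i : ℝ)| ≤ (Cz j * R) * A j :=
            mul_le_mul h3 h4 (abs_nonneg _) (mul_nonneg (hCz j) hR)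
        _ = (Cz j * A j) * R := by ring
    refine h2.trans ?_
    rw [← Finset.sum_mul]
    exact mul_le_mul_of_nonneg_right (by linarith) hR

end TW
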