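import Pool.Agent.Lib.MP_10e784_ag.TW.TWFacs

/-! JOB TWCrt.  Chinese remainder theorem for coefficient vectors.

Let `T = (h : facs f) → AdjoinRoot (h : (ZMod p)[X])` and `Φ : (Fin n → ZMod p) → T`, `Φ w h = AdjoinRoot.mk h (∑ c, C (w c) * X ^ c)`.  `Φ` is injective: if `Φ w = Φ w'` the polynomial with coordinates `w - w'` is divisible by all `h ∈ facs f`, which are pairwise coprime (different monic irreducible), so by their product `f` (`prod_facs`,
`Finset.prod_dvd_of_coprime`), and its degree is less than `n = natDegree f`, so it is `0` and all coefficients vanish.  Cardinalities: `Nat.card (AdjoinRoot h) = p ^ natDegree h` for monic `h` (`card_adjoin` below: `AdjoinRoot.powerBasis'`, `Module.finrank`, `Module.card_eq_pow_finrank`/`Fintype.card_pi`), so `Nat.card T = ∏ p ^ natDegree h = p ^ n = Nat.card (Fin n → ZMod p)`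
(`sum_facs`).  An injective map between finite sets of the same cardinality is bijective (`Nat.bijective_iff_injective_and_card`..).  So the set on the left is in bijection with `{x : T // ∀ h, x h ∈ E h} ≃ (h : facs f) → E h`, whose cardinality is the product (`Nat.card_pi`, `Finset.prod_coe_sort`). -/

namespace TW

open Polynomial Finset

theorem card_adjoin (p : ℕ) [Fact p.Prime] (h : (ZMod p)[X]) (hm : h.Monic) :
    Finite (AdjoinRoot h) ∧ Nat.card (AdjoinRoot h) = p ^ h.natDegree := by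
  have e : AdjoinRoot h ≃ (Fin (AdjoinRoot.powerBasis' hm).dim → ZMod p) :=
    (AdjoinRoot.powerBasis' hm).basis.equivFun.toEquiv
  refine ⟨Finite.of_equiv _ e.symm, ?_⟩
  rw [Nat.card_congr e, Nat.card_fun, Nat.card_zmod, Nat.card_fin, AdjoinRoot.powerBasis'_dim]

private theorem crt_coeff {R : Type} [CommRing R] (n : ℕ) (w : Fin n → R) (c : Fin n) :
    (∑ i : Fin n, C (w i) * X ^ (i : ℕ)).coeff (c : ℕ) = w c := by
  rw [finsetSum_coeff, Finset.sum_eq_single c]
  · rw [coeff_C_mul, coeff_X_pow, if_pos rfl, mul_one]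
  · intro b _ hb
    rw [coeff_C_mul, coeff_X_pow, if_neg (fun h => hb (Fin.ext h.symm)), mul_zero]
  · intro h
    exact absurd (mem_univ c) h

theorem crt_count (p : ℕ) [Fact p.Prime] (n : ℕ) (f : (ZMod p)[X]) (hn : f.natDegree = n) (hm : f.Monic) (hs : Squarefree f)
    (E : (h : (ZMod p)[X]) → Set (AdjoinRoot h)) :
    Nat.card {w : Fin n → ZMod p // ∀ h ∈ facs f, AdjoinRoot.mk h (∑ c : Fin n, C (w c) * X ^ (c : ℕ)) ∈ E h} =
      ∏ h ∈ facs f, Nat.card (E h) := by
  classical
  have hmem : ∀ h ∈ facs f, h.Monic ∧ Irreducible h ∧ h ∣ f := fun h hh =>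
    (mem_facs hm.ne_zero).1 hh
  let P : (Fin n → ZMod p) → (ZMod p)[X] := fun w => ∑ c : Fin n, C (w c) * X ^ (c : ℕ)
  let Φ : (Fin n → ZMod p) → ((h : facs f) → AdjoinRoot (h : (ZMod p)[X])) := fun w h =>
    AdjoinRoot.mk (h : (ZMod p)[X]) (P w)
  have hinj : Function.Injective Φ := by
    intro w w' hww
    have h1 : ∀ h ∈ facs f, h ∣ P w - P w' := fun h hh =>
      AdjoinRoot.mk_eq_mk.1 (congrFun hww ⟨h, hh⟩)
    have hcop : ((facs f : Finset (ZMod p)[X]) : Set (ZMod p)[X]).Pairwise
        (Function.onFun IsCoprime id) := by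
      intro a ha b hb hab
      obtain ⟨ha1, ha2, _⟩ := hmem a ha
      obtain ⟨hb1, hb2, _⟩ := hmem b hb
      refine (ha2.coprime_iff_not_dvd).2 fun h2 => hab ?_
      exact eq_of_monic_of_associated ha1 hb1 (ha2.associated_of_dvd hb2 h2)
    have h2 : f ∣ P w - P w' := by
      have := Finset.prod_dvd_of_coprime hcop h1
      simp only [id] at this
      rwa [prod_facs hm hs] at this
    have h3 : P w - P w' = ∑ c : Fin n, C (w c - w' c) * X ^ (c : ℕ) := by
      simp only [P]
      rw [← Finset.sum_sub_distrib]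
      exact Finset.sum_congr rfl fun c _ => by rw [C_sub, sub_mul]
    have h4 : P w - P w' = 0 := by
      refine eq_zero_of_dvd_of_degree_lt h2 ?_
      rw [h3, degree_eq_natDegree hm.ne_zero, hn]
      exact degree_sum_fin_lt _
    funext c
    have h5 := crt_coeff n (fun c => w c - w' c) c
    rw [← h3, h4, coeff_zero] at h5
    exact sub_eq_zero.1 h5.symm
  have hfin : ∀ h : facs f, Finite (AdjoinRoot (h : (ZMod p)[X])) := fun h =>
    (card_adjoin p _ (hmem h h.2).1).1
  have hcard : Nat.card ((h : facs f) → AdjoinRoot (h : (ZMod p)[X])) =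
      Nat.card (Fin n → ZMod p) := by
    rw [Nat.card_pi, Nat.card_fun, Nat.card_zmod, Nat.card_fin]
    have h1 : ∀ h : facs f, Nat.card (AdjoinRoot (h : (ZMod p)[X])) =
        p ^ (h : (ZMod p)[X]).natDegree := fun h => (card_adjoin p _ (hmem h h.2).1).2
    rw [Finset.prod_congr rfl fun h _ => h1 h,
      Finset.prod_coe_sort (facs f) (fun h => p ^ h.natDegree), Finset.prod_pow_eq_pow_sum,
      sum_facs hm hs, hn]
  have hbij : Function.Bijective Φ := hinj.bijective_of_nat_card_le hcard.le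
  let e := Equiv.ofBijective Φ hbij
  have e2 : {w : Fin n → ZMod p // ∀ h ∈ facs f,
      AdjoinRoot.mk h (∑ c : Fin n, C (w c) * X ^ (c : ℕ)) ∈ E h} ≃
      {x : (h : facs f) → AdjoinRoot (h : (ZMod p)[X]) // ∀ h : facs f, x h ∈ E h} :=
    e.subtypeEquiv fun w => ⟨fun h1 h => h1 h h.2, fun h1 h hh => h1 ⟨h, hh⟩⟩
  have e3 : {x : (h : facs f) → AdjoinRoot (h : (ZMod p)[X]) // ∀ h : facs f, x h ∈ E h} ≃
      ((h : facs f) → E (h : (ZMod p)[X])) :=
    { toFun := fun x h => ⟨x.1 h, x.2 h⟩
      invFun := fun x => ⟨fun h => (x h).1, fun h => (x h).2⟩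
      left_inv := fun _ => rfl
      right_inv := fun _ => rfl }
  rw [Nat.card_congr (e2.trans e3), Nat.card_pi,
    Finset.prod_coe_sort (facs f) (fun h => Nat.card (E h))]

end TW
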