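import Pool.Agent.Lib.MP_10e784_ag.TW.TWOrd
import Pool.Agent.Lib.MP_10e784_ag.TW.TWFld

/-! JOB TWDbl.  Two prime ideals of norm `p` in `E = K(√d)` for every root of `g` modulo `p`, if `d` is a square at all roots.

Take `E, t, s` from `sqrt_field`, `N` from `ord_exists {t, s}`, and integers from Bezout: `qq g` is irreducible and does not divide `d.map` (else `B = 0` contradicts `hd`), so there are `u v : ℤ[X]` and `r ≠ 0` with `u * g + v * d = C r` (clear denominators, see `ptbad_bezout` in `PT/PTBad.lean`).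
`B2 = 2 * N * r.natAbs`.  Let `p ∤ B2`, `ρ` a root of `g` modulo `p`, `y` with `d(ρ) = y ^ 2` (hypothesis; `y ≠ 0` because `p ∤ r`).
Homomorphism `ψ_{ρ,y} : 𝓞 E →+* ZMod p` with `t ↦ ρ`, `s ↦ y`: `hom_ext` with `A = ℤ[X][X]` (or `MvPolynomial`), `π = eval₂RingHom (aeval t : ℤ[X] →+* 𝓞 E) s`, `φ = eval₂RingHom (eval₂RingHom (Int.castRingHom (ZMod p)) ρ) y`, `m = N`.
Kernel condition: let `q ∈ ℤ[X][X]`, `π q = 0`.  Division by the monic polynomial `X ^ 2 - C d` (`Polynomial.modByMonic`, `degree_modByMonic_lt`): `q = (X ^ 2 - C d) * q1 + (C b * X + C a)`, so `aeval t a + aeval t b * s = 0`.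
If `g ∤ b` over `ℚ` then `aeval t b ≠ 0` is invertible by a polynomial in `t` (Bezout over `ℚ`), so `s` is a polynomial in `t` with rational coefficients, excluded by `sqrt_field`.  So `qq g ∣ b`, `aeval t b = 0`, then `aeval t a = 0`, and `g ∣ a`, `g ∣ b` in `ℤ[X]` (`g` monic: `Polynomial.map_dvd_map`
with the injective `Int.castRingHom ℚ` and `g.Monic`), so `φ (C b * X + C a) = 0`, and `φ (X ^ 2 - C d) = y ^ 2 - d(ρ) = 0`.  Surjectivity: `ord_exists` and `Algebra.adjoin ℤ {t, s} ≤ range π` (`Algebra.adjoin_le`/`adjoin_induction`).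
`F` is the image of `{(ρ, y)}`, `ρ` a root and `y ^ 2 = d(ρ)` (exactly two `y` for each `ρ`: `y` and `-y`, `p ≠ 2`), under `(ρ, y) ↦ ker ψ_{ρ,y}`; injective by `ker_inj` (values at `t` and `s`); `ker_norm`. -/

namespace TW

open NumberField Finset Polynomial

private lemma twdbl_bezout (P Q : ℤ[X])
    (h : IsCoprime (P.map (Int.castRingHom ℚ)) (Q.map (Int.castRingHom ℚ))) :
    ∃ (U V : ℤ[X]) (R : ℤ), R ≠ 0 ∧ U * P + V * Q = C R := by
  obtain ⟨u, v, huv⟩ := h
  obtain ⟨bu, hbu', hu⟩ := IsLocalization.integerNormalization_spec (nonZeroDivisors ℤ) u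
  obtain ⟨bv, hbv', hv⟩ := IsLocalization.integerNormalization_spec (nonZeroDivisors ℤ) v
  set Nu := IsLocalization.integerNormalization (nonZeroDivisors ℤ) u with hNu
  set Nv := IsLocalization.integerNormalization (nonZeroDivisors ℤ) v with hNv
  have hbu : (bu : ℤ) ≠ 0 := nonZeroDivisors.ne_zero hbu'
  have hbv : (bv : ℤ) ≠ 0 := nonZeroDivisors.ne_zero hbv'
  have hu' : Nu.map (Int.castRingHom ℚ) = C ((bu : ℤ) : ℚ) * u := by
    rw [← Polynomial.smul_eq_C_mul]
    have : Int.castRingHom ℚ = algebraMap ℤ ℚ := rfl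
    rw [this, hu]
    ext n
    simp
  have hv' : Nv.map (Int.castRingHom ℚ) = C ((bv : ℤ) : ℚ) * v := by
    rw [← Polynomial.smul_eq_C_mul]
    have : Int.castRingHom ℚ = algebraMap ℤ ℚ := rfl
    rw [this, hv]
    ext n
    simp
  refine ⟨C (bv : ℤ) * Nu, C (bu : ℤ) * Nv, (bu : ℤ) * bv, mul_ne_zero hbu hbv, ?_⟩
  apply Polynomial.map_injective (Int.castRingHom ℚ) Int.cast_injective
  rw [Polynomial.map_add, Polynomial.map_mul, Polynomial.map_mul, Polynomial.map_mul,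
    Polynomial.map_mul, hu', hv', Polynomial.map_C, Polynomial.map_C, Polynomial.map_C]
  simp only [eq_intCast, Int.cast_mul, C_mul]
  linear_combination (C ((bu : ℤ) : ℚ) * C ((bv : ℤ) : ℚ)) * huv

/-- the polynomial ring in two variables maps to `𝓞 E` -/
private noncomputable def twdbl_pi {O : Type} [CommRing O] (t s : O) : ℤ[X][X] →+* O :=
  eval₂RingHom ((aeval t : ℤ[X] →ₐ[ℤ] O) : ℤ[X] →+* O) s

private lemma twdbl_pi_C {O : Type} [CommRing O] (t s : O) (a : ℤ[X]) :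
    twdbl_pi t s (C a) = aeval t a := by
  simp [twdbl_pi]

private lemma twdbl_pi_X {O : Type} [CommRing O] (t s : O) :
    twdbl_pi t s X = s := by
  simp [twdbl_pi]

private noncomputable def twdbl_phi (p : ℕ) (ρ y : ZMod p) : ℤ[X][X] →+* ZMod p :=
  eval₂RingHom (eval₂RingHom (Int.castRingHom (ZMod p)) ρ) y

private lemma twdbl_phi_C (p : ℕ) (ρ y : ZMod p) (a : ℤ[X]) :
    twdbl_phi p ρ y (C a) = (red p a).eval ρ := by
  simp [twdbl_phi, red, eval_map]

private lemma twdbl_phi_X (p : ℕ) (ρ y : ZMod p) :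
    twdbl_phi p ρ y X = y := by
  simp [twdbl_phi]

private lemma twdbl_aeval {E : Type} [Field E] [NumberField E] (t : 𝓞 E) (a : ℤ[X]) :
    aeval (t : E) (a.map (Int.castRingHom ℚ)) = ((aeval t a : 𝓞 E) : E) := by
  have h1 : aeval (t : E) (a.map (Int.castRingHom ℚ)) = aeval (t : E) a := by
    have : Int.castRingHom ℚ = algebraMap ℤ ℚ := rfl
    rw [this, aeval_map_algebraMap]
  rw [h1]
  exact aeval_algebraMap_apply E t a

private lemma twdbl_key {E : Type} [Field E] [NumberField E] (g : ℤ[X]) (hm : g.Monic)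
    (hirr : Irreducible (g.map (Int.castRingHom ℚ))) (t s : 𝓞 E) (ht : aeval t g = 0)
    (hB : ∀ B : ℚ[X], (s : E) ≠ aeval (t : E) B) (a b : ℤ[X])
    (h : aeval t a + aeval t b * s = 0) : g ∣ a ∧ g ∣ b := by
  have hg : aeval (t : E) (g.map (Int.castRingHom ℚ)) = 0 := by
    rw [twdbl_aeval, ht]
    rfl
  have hE : aeval (t : E) (a.map (Int.castRingHom ℚ))
      + aeval (t : E) (b.map (Int.castRingHom ℚ)) * (s : E) = 0 := by
    rw [twdbl_aeval, twdbl_aeval]
    have h2 := congrArg (algebraMap (𝓞 E) E) h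
    rw [map_add, map_mul, map_zero] at h2
    exact h2
  have hdvd : ∀ c : ℚ[X], aeval (t : E) c = 0 → g.map (Int.castRingHom ℚ) ∣ c := by
    intro c hc
    by_contra hnd
    obtain ⟨u, v, huv⟩ := (hirr.coprime_iff_not_dvd).2 hnd
    have h3 := congrArg (aeval (t : E)) huv
    rw [map_add, map_mul, map_mul, hg, hc, mul_zero, mul_zero, add_zero, map_one] at h3
    exact zero_ne_one h3
  have hb : g.map (Int.castRingHom ℚ) ∣ b.map (Int.castRingHom ℚ) := by
    by_contra hnd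
    obtain ⟨u, v, huv⟩ := (hirr.coprime_iff_not_dvd).2 hnd
    have h3 := congrArg (aeval (t : E)) huv
    rw [map_add, map_mul, map_mul, hg, mul_zero, zero_add, map_one] at h3
    apply hB (-(v * a.map (Int.castRingHom ℚ)))
    rw [map_neg, map_mul]
    linear_combination (-(s : E)) * h3 + aeval (t : E) v * hE
  have hb0 : aeval (t : E) (b.map (Int.castRingHom ℚ)) = 0 := by
    obtain ⟨c, hc⟩ := hb
    rw [hc, map_mul, hg, zero_mul]
  have ha : g.map (Int.castRingHom ℚ) ∣ a.map (Int.castRingHom ℚ) := by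
    apply hdvd
    rw [hb0, zero_mul, add_zero] at hE
    exact hE
  exact ⟨(Polynomial.map_dvd_map (Int.castRingHom ℚ) Int.cast_injective hm).1 ha,
    (Polynomial.map_dvd_map (Int.castRingHom ℚ) Int.cast_injective hm).1 hb⟩

private lemma twdbl_ker {E : Type} [Field E] [NumberField E] (g : ℤ[X]) (hm : g.Monic)
    (hirr : Irreducible (g.map (Int.castRingHom ℚ))) (d : ℤ[X]) (t s : 𝓞 E) (ht : aeval t g = 0)
    (hs : s ^ 2 = aeval t d) (hB : ∀ B : ℚ[X], (s : E) ≠ aeval (t : E) B) (p : ℕ) (ρ y : ZMod p)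
    (hρ : (red p g).eval ρ = 0) (hy : y ^ 2 = (red p d).eval ρ) (q : ℤ[X][X])
    (hq : twdbl_pi t s q = 0) : twdbl_phi p ρ y q = 0 := by
  have hmon : (X ^ 2 - C d : ℤ[X][X]).Monic := monic_X_pow_sub_C d two_ne_zero
  have hdeg : (X ^ 2 - C d : ℤ[X][X]).natDegree = 2 := natDegree_X_pow_sub_C
  have hne : (X ^ 2 - C d : ℤ[X][X]) ≠ 1 := by
    intro h
    rw [h, natDegree_one] at hdeg
    omega
  have hlt : (q %ₘ (X ^ 2 - C d)).natDegree ≤ 1 := by
    have := natDegree_modByMonic_lt q hmon hne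
    omega
  obtain ⟨b, a, hab⟩ := exists_eq_X_add_C_of_natDegree_le_one hlt
  have hdiv := modByMonic_add_div q (X ^ 2 - C d)
  have hpi : twdbl_pi t s (X ^ 2 - C d) = 0 := by
    rw [map_sub, map_pow, twdbl_pi_X, twdbl_pi_C, hs, sub_self]
  have hphi : twdbl_phi p ρ y (X ^ 2 - C d) = 0 := by
    rw [map_sub, map_pow, twdbl_phi_X, twdbl_phi_C, hy, sub_self]
  have h1 : aeval t a + aeval t b * s = 0 := by
    rw [← hdiv, map_add, map_mul, hpi, zero_mul, add_zero, hab, map_add, map_mul, twdbl_pi_C,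
      twdbl_pi_C, twdbl_pi_X] at hq
    rw [add_comm]
    exact hq
  obtain ⟨⟨a', ha'⟩, ⟨b', hb'⟩⟩ := twdbl_key g hm hirr t s ht hB a b h1
  rw [← hdiv, map_add, map_mul, hphi, zero_mul, add_zero, hab, map_add, map_mul, twdbl_phi_C,
    twdbl_phi_C, ha', hb']
  have e : ∀ c : ℤ[X], (red p (g * c)).eval ρ = 0 := by
    intro c
    rw [red, Polynomial.map_mul, eval_mul]
    rw [red] at hρ
    rw [hρ, zero_mul]
  rw [e, e, zero_mul, add_zero]

private lemma twdbl_hom {E : Type} [Field E] [NumberField E] (g : ℤ[X]) (hm : g.Monic)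
    (hirr : Irreducible (g.map (Int.castRingHom ℚ))) (d : ℤ[X]) (t s : 𝓞 E) (ht : aeval t g = 0)
    (hs : s ^ 2 = aeval t d) (hB : ∀ B : ℚ[X], (s : E) ≠ aeval (t : E) B) (N : ℕ)
    (hN : ∀ x : 𝓞 E, (N : 𝓞 E) * x ∈ Algebra.adjoin ℤ {t, s}) (p : ℕ) [Fact p.Prime]
    (hpN : ¬ p ∣ N) (ρ y : ZMod p)
    (hρ : (red p g).eval ρ = 0) (hy : y ^ 2 = (red p d).eval ρ) :
    ∃ ψ : 𝓞 E →+* ZMod p, ψ t = ρ ∧ ψ s = y := by
  have hNp : ((N : ℕ) : ZMod p) ≠ 0 := by
    intro h
    rw [ZMod.natCast_eq_zero_iff] at h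
    exact hpN h
  have hsurj : ∀ x ∈ Algebra.adjoin ℤ ({t, s} : Set (𝓞 E)), ∃ a, twdbl_pi t s a = x := by
    intro x hx
    induction hx using Algebra.adjoin_induction with
    | mem x hx =>
      rcases hx with rfl | hx
      · exact ⟨C X, by rw [twdbl_pi_C, aeval_X]⟩
      · rw [Set.mem_singleton_iff] at hx
        exact ⟨X, by rw [twdbl_pi_X, hx]⟩
    | algebraMap r => exact ⟨C (C r), by rw [twdbl_pi_C, aeval_C]⟩
    | add x y _ _ hx hy =>
      obtain ⟨a, ha⟩ := hx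
      obtain ⟨b, hb⟩ := hy
      exact ⟨a + b, by rw [map_add, ha, hb]⟩
    | mul x y _ _ hx hy =>
      obtain ⟨a, ha⟩ := hx
      obtain ⟨b, hb⟩ := hy
      exact ⟨a * b, by rw [map_mul, ha, hb]⟩
  obtain ⟨ψ, hψ⟩ := hom_ext (twdbl_pi t s) (twdbl_phi p ρ y) N hNp
    (fun a ha => twdbl_ker g hm hirr d t s ht hs hB p ρ y hρ hy a ha)
    (fun x => hsurj _ (hN x))
  refine ⟨ψ, ?_, ?_⟩
  · have h := hψ (C X)
    rw [twdbl_pi_C, aeval_X, twdbl_phi_C] at h
    rw [h]
    simp [red]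
  · have h := hψ X
    rw [twdbl_pi_X, twdbl_phi_X] at h
    exact h

theorem sqrt_primes (g : ℤ[X]) (hm : g.Monic) (hirr : Irreducible (g.map (Int.castRingHom ℚ))) (d : ℤ[X])
    (hd : ¬ ∃ B : ℚ[X], qq g ∣ d.map (Int.castRingHom ℚ) - B ^ 2) :
    ∃ (E : Type) (_ : Field E) (_ : NumberField E) (B2 : ℕ), B2 ≠ 0 ∧ ∀ p : ℕ, p.Prime → ¬ p ∣ B2 →
      (∀ t : ZMod p, (red p g).eval t = 0 → IsSquare ((red p d).eval t)) →
      ∃ F : Finset (Ideal (𝓞 E)), F.card = 2 * PT.rt g p ∧ ∀ P ∈ F, P.IsPrime ∧ Ideal.absNorm P = p := by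
  classical
  have hgd : ¬ g.map (Int.castRingHom ℚ) ∣ d.map (Int.castRingHom ℚ) := by
    intro h
    apply hd
    refine ⟨0, ?_⟩
    rw [qq]
    simpa using h
  obtain ⟨U, V, R, hR0, hUV⟩ := twdbl_bezout g d ((hirr.coprime_iff_not_dvd).2 hgd)
  obtain ⟨E, iE, iN, t, s, ht, hs, hgen, hB⟩ := sqrt_field g hm hirr d hd
  obtain ⟨N, hN0, hN⟩ := ord_exists (K := E) {t, s} (by rw [Set.image_pair]; exact hgen)
  refine ⟨E, iE, iN, 2 * N * R.natAbs, mul_ne_zero (mul_ne_zero two_ne_zero hN0)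
    (Int.natAbs_ne_zero.2 hR0), ?_⟩
  intro p hp hpB hsq
  have := Fact.mk hp
  have hp2 : ¬ p ∣ 2 := fun h => hpB ((h.mul_right N).mul_right _)
  have hpN : ¬ p ∣ N := fun h => hpB ((h.mul_left 2).mul_right _)
  have hpR : ¬ p ∣ R.natAbs := fun h => hpB (h.mul_left _)
  have h2 : (2 : ZMod p) ≠ 0 := by
    intro h
    apply hp2
    rw [← ZMod.natCast_eq_zero_iff]
    exact_mod_cast h
  have hRp : (R : ZMod p) ≠ 0 := by
    intro h
    rw [ZMod.intCast_zmod_eq_zero_iff_dvd] at h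
    exact hpR (Int.natCast_dvd.1 h)
  have hd0 : ∀ ρ : ZMod p, (red p g).eval ρ = 0 → (red p d).eval ρ ≠ 0 := by
    intro ρ h1 h3
    apply hRp
    have h4 := congrArg (fun q => (red p q).eval ρ) hUV
    simp only [red, Polynomial.map_add, Polynomial.map_mul, eval_add, eval_mul, Polynomial.map_C,
      eval_C] at h4 h1 h3
    rw [h1, h3, mul_zero, mul_zero, add_zero] at h4
    rw [eq_intCast] at h4
    exact h4.symm
  have hy : ∀ ρ : ZMod p, ∃ y : ZMod p, (red p g).eval ρ = 0 → y ^ 2 = (red p d).eval ρ := by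
    intro ρ
    by_cases h : (red p g).eval ρ = 0
    · obtain ⟨y, hy⟩ := hsq ρ h
      exact ⟨y, fun _ => by rw [hy, pow_two]⟩
    · exact ⟨0, fun h' => absurd h' h⟩
  choose y hy using hy
  have hψ : ∀ (i : {ρ : ZMod p // (red p g).eval ρ = 0} × Bool), ∃ ψ : 𝓞 E →+* ZMod p,
      ψ t = i.1.1 ∧ ψ s = (if i.2 then y i.1.1 else - y i.1.1) := by
    rintro ⟨⟨ρ, h⟩, b⟩
    exact twdbl_hom g hm hirr d t s ht hs hB N hN p hpN ρ
        (if b then y ρ else - y ρ) h (by
          rw [← hy ρ h]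
          cases b
          · simp
          · simp)
  choose ψ hψ1 hψ2 using hψ
  have hinj : Function.Injective (fun i => RingHom.ker (ψ i)) := by
    rintro ⟨⟨ρ, h⟩, b⟩ ⟨⟨ρ', h'⟩, b'⟩ hk
    have hk' := ker_inj p _ _ hk
    have e1 : ρ = ρ' := by
      have h3 := hψ1 ⟨⟨ρ, h⟩, b⟩
      rw [hk', hψ1] at h3
      exact h3.symm
    subst e1
    have e2 : (if b then y ρ else - y ρ) = (if b' then y ρ else - y ρ) := by
      have h3 := hψ2 ⟨⟨ρ, h⟩, b⟩
      rw [hk', hψ2] at h3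
      exact h3.symm
    have hy0 : y ρ ≠ 0 := by
      intro h0
      apply hd0 ρ h
      rw [← hy ρ h, h0]
      simp
    have hyy : y ρ ≠ - y ρ := by
      intro h3
      have h4 : 2 * y ρ = 0 := by linear_combination h3
      rcases mul_eq_zero.1 h4 with h5 | h5
      · exact h2 h5
      · exact hy0 h5
    cases b
    · cases b'
      · rfl
      · exact absurd (by simpa using e2.symm) hyy
    · cases b'
      · exact absurd (by simpa using e2) hyy
      · rfl
  refine ⟨univ.image (fun i => RingHom.ker (ψ i)), ?_, ?_⟩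
  · rw [card_image_of_injective _ hinj, card_univ, Fintype.card_prod, Fintype.card_bool, PT.rt,
      Nat.card_eq_fintype_card, mul_comm]
    rfl
  · intro P hP
    rw [mem_image] at hP
    obtain ⟨i, -, rfl⟩ := hP
    exact ker_norm p (ψ i)

end TW
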