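import Pool.Agent.Lib.MP_10e784_ag.TW.TWKf

/-! JOB TWKfNorm.  The norm of `a - b θ`.

`gen_norm`: the norm of `a - b θ` is `PT.hom g a b`: for `b = 0` it is `a ^ n`; for `b ≠ 0`: product over the embeddings `σ` (or over the roots in an algebraic closure): `∏ (a - b σ θ) = b ^ n ∏ (a / b - σ θ) = b ^ n g(a/b)` (`Algebra.norm_eq_prod_embeddings`, `minpoly` splits into the `X - σ θ`; or `Algebra.norm_eq_prod_roots`, or
`PowerBasis.norm_gen_eq_prod_roots` for the generator `a - b θ`). -/

namespace TW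

open Polynomial NumberField

private lemma twkfnorm_min {g : ℤ[X]} {K : Type} [Field K] [NumberField K] {θ : 𝓞 K}
    (hG : Gen g K θ) : qq g = minpoly ℚ (θ : K) := by
  refine minpoly.eq_of_irreducible_of_monic hG.irr ?_ (hG.monic.map _)
  exact (gen_rat hG (qq g)).2 dvd_rfl

private lemma twkfnorm_sub {g : ℤ[X]} {K : Type} [Field K] [NumberField K] {θ : 𝓞 K}
    (hG : Gen g K θ) (r : ℚ) :
    Algebra.norm ℚ (algebraMap ℚ K r - (θ : K)) = (qq g).eval r := by
  classical
  have hint : IsIntegral ℚ (θ : K) := Algebra.IsIntegral.isIntegral _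
  have hadj : Algebra.adjoin ℚ {(θ : K)} = ⊤ := by
    rw [Algebra.adjoin_singleton_eq_range_aeval, eq_top_iff]
    intro x _
    obtain ⟨P, hP⟩ := gen_span hG x
    exact ⟨P, hP.symm⟩
  let pb := PowerBasis.ofAdjoinEqTop hint hadj
  have hgen : pb.gen = (θ : K) := PowerBasis.ofAdjoinEqTop_gen hint hadj
  rw [Algebra.norm_eq_matrix_det pb.basis, map_sub, ← hgen, twkfnorm_min hG, ← hgen,
    ← charpoly_leftMulMatrix pb, Matrix.eval_charpoly]
  congr 2
  rw [AlgHom.commutes]
  rfl

theorem gen_norm {g : ℤ[X]} {K : Type} [Field K] [NumberField K] {θ : 𝓞 K} (hG : Gen g K θ) (a b : ℤ) :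
    Algebra.norm ℤ ((a : 𝓞 K) - b * θ) = PT.hom g a b := by
  have hlc : g.coeff g.natDegree = 1 := hG.monic
  apply Int.cast_injective (α := ℚ)
  rw [Algebra.coe_norm_int]
  have hcast : (((a : 𝓞 K) - b * θ : 𝓞 K) : K) = algebraMap ℚ K a - algebraMap ℚ K b * (θ : K) := by
    simp
  rw [hcast]
  by_cases hb : b = 0
  · rw [hb]
    simp only [Int.cast_zero, map_zero, zero_mul, sub_zero]
    rw [Algebra.norm_algebraMap, hG.deg, PT.hom, Finset.sum_range_succ, Finset.sum_eq_zero]
    · rw [hlc]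
      simp
    · intro k hk
      rw [Finset.mem_range] at hk
      rw [zero_pow (by omega), mul_zero]
  · have hbQ : (b : ℚ) ≠ 0 := Int.cast_ne_zero.2 hb
    have h1 : algebraMap ℚ K a - algebraMap ℚ K b * (θ : K)
        = algebraMap ℚ K b * (algebraMap ℚ K ((a : ℚ) / b) - (θ : K)) := by
      rw [mul_sub, ← map_mul, mul_div_cancel₀ _ hbQ]
    have hnd : (qq g).natDegree = g.natDegree := hG.monic.natDegree_map _
    rw [h1, map_mul, Algebra.norm_algebraMap, hG.deg, twkfnorm_sub hG, eval_eq_sum_range, hnd,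
      Finset.mul_sum, PT.hom, Int.cast_sum]
    apply Finset.sum_congr rfl
    intro k hk
    rw [Finset.mem_range] at hk
    have h2 : g.natDegree = (g.natDegree - k) + k := by omega
    have h3 : (b : ℚ) ^ g.natDegree = (b : ℚ) ^ (g.natDegree - k) * (b : ℚ) ^ k := by
      rw [← pow_add, ← h2]
    rw [h3, div_pow, qq, coeff_map, eq_intCast]
    push_cast
    field_simp

end TW
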