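import Pool.Agent.Lib.MP_10e784_ag.TW.TWKfHom
import Pool.Agent.Lib.MP_10e784_ag.TW.TWKfNorm

/-! JOB TWIdeal.  The squarefree part of the ideal `(a - b θ)`.

`M` from `gen_hom`; assume `M ∣ B`.  Let `α = a - b θ ≠ 0` (`gen_norm`: its norm is `PT.hom g a b ≠ 0`).
See the comments in the skeleton: uniqueness of the prime ideal over `p`, factorization, bound. -/

namespace TW

open Polynomial NumberField UniqueFactorizationMonoid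

/-- an integer lies in a prime ideal over `p` iff it is divisible by `p` -/
private theorem twideal_int {K : Type} [Field K] [NumberField K] {𝔭 : Ideal (𝓞 K)} (h𝔭 : 𝔭.IsPrime)
    {p : ℕ} (hp : p.Prime) (hmem : (p : 𝓞 K) ∈ 𝔭) (n : ℤ) : (n : 𝓞 K) ∈ 𝔭 ↔ (p : ℤ) ∣ n := by
  constructor
  · intro hn
    by_contra hnd
    have hcop : IsCoprime (p : ℤ) n := (Nat.prime_iff_prime_int.mp hp).coprime_iff_not_dvd.mpr hnd
    obtain ⟨u, v, huv⟩ := hcop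
    apply h𝔭.ne_top
    rw [Ideal.eq_top_iff_one]
    have h1 : ((u * p + v * n : ℤ) : 𝓞 K) = 1 := by rw [huv]; simp
    rw [← h1]
    push_cast
    exact 𝔭.add_mem (𝔭.mul_mem_left _ hmem) (𝔭.mul_mem_left _ hn)
  · rintro ⟨k, rfl⟩
    push_cast
    exact 𝔭.mul_mem_right _ hmem

private theorem twideal_b {K : Type} [Field K] [NumberField K] {θ : 𝓞 K} {𝔭 : Ideal (𝓞 K)} (h𝔭 : 𝔭.IsPrime)
    {p : ℕ} (hp : p.Prime) (hmem : (p : 𝓞 K) ∈ 𝔭) {a b : ℤ} (hab : IsCoprime a b)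
    (hα : (a : 𝓞 K) - b * θ ∈ 𝔭) : ¬ (p : ℤ) ∣ b := by
  intro hb
  have hbm : (b : 𝓞 K) ∈ 𝔭 := (twideal_int h𝔭 hp hmem b).mpr hb
  have ham : (a : 𝓞 K) ∈ 𝔭 := by
    have := 𝔭.add_mem hα (𝔭.mul_mem_right θ hbm)
    simpa using this
  have ha := (twideal_int h𝔭 hp hmem a).mp ham
  have := hab.isUnit_of_dvd' ha hb
  exact (Nat.prime_iff_prime_int.mp hp).not_isUnit this

/-- the congruence `M x = P t` -/
private theorem twideal_cong {K : Type} [Field K] [NumberField K] {θ : 𝓞 K} {𝔭 : Ideal (𝓞 K)} (h𝔭 : 𝔭.IsPrime)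
    {p : ℕ} (hp : p.Prime) (hmem : (p : 𝓞 K) ∈ 𝔭) {a b : ℤ} (hab : IsCoprime a b)
    (hα : (a : 𝓞 K) - b * θ ∈ 𝔭) {t : ℤ} (ht : (p : ℤ) ∣ b * t - a) (P : ℤ[X]) :
    aeval θ P - ((P.eval t : ℤ) : 𝓞 K) ∈ 𝔭 := by
  have hθ : θ - (t : 𝓞 K) ∈ 𝔭 := by
    have hb : (b : 𝓞 K) ∉ 𝔭 := fun h => twideal_b h𝔭 hp hmem hab hα ((twideal_int h𝔭 hp hmem b).mp h)
    have h1 : (b : 𝓞 K) * (θ - t) ∈ 𝔭 := by
      have h2 : ((b * t - a : ℤ) : 𝓞 K) ∈ 𝔭 := (twideal_int h𝔭 hp hmem _).mpr ht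
      have h3 := 𝔭.neg_mem (𝔭.add_mem hα h2)
      have h4 : -((a : 𝓞 K) - b * θ + ((b * t - a : ℤ) : 𝓞 K)) = (b : 𝓞 K) * (θ - t) := by
        push_cast; ring
      rwa [h4] at h3
    exact (h𝔭.mem_or_mem h1).resolve_left hb
  have hd : θ - (t : 𝓞 K) ∣ aeval θ P - aeval (t : 𝓞 K) P := by
    have := Polynomial.sub_dvd_eval_sub θ (t : 𝓞 K) (P.map (algebraMap ℤ (𝓞 K)))
    rwa [Polynomial.eval_map_algebraMap, Polynomial.eval_map_algebraMap] at this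
  have he : aeval (t : 𝓞 K) P = ((P.eval t : ℤ) : 𝓞 K) := by
    have h5 : (t : 𝓞 K) = algebraMap ℤ (𝓞 K) t := by simp
    rw [h5, Polynomial.aeval_algebraMap_apply_eq_algebraMap_eval]
    simp
  rw [he] at hd
  exact Ideal.mem_of_dvd _ hd hθ

private theorem twideal_mem {K : Type} [Field K] [NumberField K] {θ : 𝓞 K} {M : ℕ}
    (hM : ∀ x : 𝓞 K, ∃ P : ℤ[X], (M : 𝓞 K) * x = aeval θ P) {𝔭 : Ideal (𝓞 K)} (h𝔭 : 𝔭.IsPrime)
    {p : ℕ} (hp : p.Prime) (hmem : (p : 𝓞 K) ∈ 𝔭) (hpM : ¬ p ∣ M) {a b : ℤ} (hab : IsCoprime a b)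
    (hα : (a : 𝓞 K) - b * θ ∈ 𝔭) {t : ℤ} (ht : (p : ℤ) ∣ b * t - a) (x : 𝓞 K) (P : ℤ[X])
    (hP : (M : 𝓞 K) * x = aeval θ P) : x ∈ 𝔭 ↔ (p : ℤ) ∣ P.eval t := by
  have hc := twideal_cong h𝔭 hp hmem hab hα ht P
  rw [← hP] at hc
  have hMn : (M : 𝓞 K) ∉ 𝔭 := by
    intro h
    have h' : ((M : ℤ) : 𝓞 K) ∈ 𝔭 := by simpa using h
    have := (twideal_int h𝔭 hp hmem (M : ℤ)).mp h'
    exact hpM (by exact_mod_cast this)
  rw [← twideal_int h𝔭 hp hmem]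
  constructor
  · intro hx
    have := 𝔭.sub_mem (𝔭.mul_mem_left (M : 𝓞 K) hx) hc
    simpa using this
  · intro hx
    have := 𝔭.add_mem hc hx
    rw [sub_add_cancel] at this
    exact (h𝔭.mem_or_mem this).resolve_left hMn

private theorem twideal_t {p : ℕ} (hp : p.Prime) {a b : ℤ} (hb : ¬ (p : ℤ) ∣ b) :
    ∃ t : ℤ, (p : ℤ) ∣ b * t - a := by
  have hcop : IsCoprime (p : ℤ) b := (Nat.prime_iff_prime_int.mp hp).coprime_iff_not_dvd.mpr hb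
  obtain ⟨u, v, huv⟩ := hcop
  refine ⟨v * a, -u * a, ?_⟩
  linear_combination a * huv

private theorem twideal_uniq {K : Type} [Field K] [NumberField K] {θ : 𝓞 K} {M : ℕ}
    (hM : ∀ x : 𝓞 K, ∃ P : ℤ[X], (M : 𝓞 K) * x = aeval θ P) {p : ℕ} (hp : p.Prime) (hpM : ¬ p ∣ M)
    {a b : ℤ} (hab : IsCoprime a b) {𝔭 𝔮 : Ideal (𝓞 K)} (h𝔭 : 𝔭.IsPrime) (h𝔮 : 𝔮.IsPrime)
    (hp𝔭 : (p : 𝓞 K) ∈ 𝔭) (hp𝔮 : (p : 𝓞 K) ∈ 𝔮)
    (hα𝔭 : (a : 𝓞 K) - b * θ ∈ 𝔭) (hα𝔮 : (a : 𝓞 K) - b * θ ∈ 𝔮) : 𝔭 = 𝔮 := by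
  obtain ⟨t, ht⟩ := twideal_t (a := a) hp (twideal_b h𝔭 hp hp𝔭 hab hα𝔭)
  ext x
  obtain ⟨P, hP⟩ := hM x
  rw [twideal_mem hM h𝔭 hp hp𝔭 hpM hab hα𝔭 ht x P hP, twideal_mem hM h𝔮 hp hp𝔮 hpM hab hα𝔮 ht x P hP]

private theorem twideal_norm {K : Type} [Field K] [NumberField K] {θ : 𝓞 K} {M : ℕ}
    (hM : ∀ x : 𝓞 K, ∃ P : ℤ[X], (M : 𝓞 K) * x = aeval θ P) {p : ℕ} (hp : p.Prime) (hpM : ¬ p ∣ M)
    {a b : ℤ} (hab : IsCoprime a b) {𝔭 : Ideal (𝓞 K)} (h𝔭 : 𝔭.IsPrime)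
    (hp𝔭 : (p : 𝓞 K) ∈ 𝔭) (hα𝔭 : (a : 𝓞 K) - b * θ ∈ 𝔭) : Ideal.absNorm 𝔭 = p := by
  obtain ⟨t, ht⟩ := twideal_t (a := a) hp (twideal_b h𝔭 hp hp𝔭 hab hα𝔭)
  have hsurj : Function.Surjective ((Ideal.Quotient.mk 𝔭).comp (Int.castRingHom (𝓞 K))) := by
    intro y
    obtain ⟨x, rfl⟩ := Ideal.Quotient.mk_surjective y
    obtain ⟨P, hP⟩ := hM x
    have hc := twideal_cong h𝔭 hp hp𝔭 hab hα𝔭 ht P
    rw [← hP] at hc
    have hcop : IsCoprime (p : ℤ) (M : ℤ) :=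
      (Nat.prime_iff_prime_int.mp hp).coprime_iff_not_dvd.mpr (by exact_mod_cast hpM)
    obtain ⟨u, v, huv⟩ := hcop
    refine ⟨v * P.eval t, ?_⟩
    rw [RingHom.comp_apply, Ideal.Quotient.eq]
    simp only [eq_intCast]
    have h1 := 𝔭.mul_mem_left (-(v : 𝓞 K)) hc
    have h2 := 𝔭.mul_mem_left (-(u : 𝓞 K) * x) hp𝔭
    have h3 := 𝔭.add_mem h1 h2
    have h4 : (((u * p + v * M : ℤ)) : 𝓞 K) = 1 := by rw [huv]; simp
    push_cast at h4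
    have h5 : -(v : 𝓞 K) * ((M : 𝓞 K) * x - ((P.eval t : ℤ) : 𝓞 K)) + -(u : 𝓞 K) * x * (p : 𝓞 K) =
        ((v * P.eval t : ℤ) : 𝓞 K) - x := by
      push_cast
      linear_combination (-x) * h4
    rwa [h5] at h3
  have hker : RingHom.ker ((Ideal.Quotient.mk 𝔭).comp (Int.castRingHom (𝓞 K))) = Ideal.span {(p : ℤ)} := by
    ext n
    rw [RingHom.mem_ker, Ideal.mem_span_singleton, RingHom.comp_apply, Ideal.Quotient.eq_zero_iff_mem,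
      eq_intCast, twideal_int h𝔭 hp hp𝔭]
  have e1 := RingHom.quotientKerEquivOfSurjective hsurj
  have hcard : Nat.card (𝓞 K ⧸ 𝔭) = Nat.card (ℤ ⧸ RingHom.ker ((Ideal.Quotient.mk 𝔭).comp (Int.castRingHom (𝓞 K)))) :=
    (Nat.card_congr e1.toEquiv).symm
  rw [hker, Nat.card_congr (Int.quotientSpanNatEquivZMod p).toEquiv, Nat.card_zmod] at hcard
  rw [Ideal.absNorm_apply, Submodule.cardQuot_apply]
  exact hcard

/-- a nonzero prime ideal contains a prime number -/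
private theorem twideal_over {K : Type} [Field K] [NumberField K] {𝔭 : Ideal (𝓞 K)} (h𝔭 : 𝔭.IsPrime)
    (h0 : 𝔭 ≠ ⊥) : ∃ p : ℕ, p.Prime ∧ (p : 𝓞 K) ∈ 𝔭 := by
  have hn : Ideal.absNorm 𝔭 ≠ 0 := by rwa [Ne, Ideal.absNorm_eq_zero_iff]
  have key : ∀ n : ℕ, n ≠ 0 → (n : 𝓞 K) ∈ 𝔭 → ∃ p : ℕ, p.Prime ∧ (p : 𝓞 K) ∈ 𝔭 := by
    intro n
    induction n using Nat.recOnMul with
    | zero => intro h; exact absurd rfl h
    | one => intro _ h; exact absurd ((Ideal.eq_top_iff_one _).mpr (by simpa using h)) h𝔭.ne_top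
    | prime p hp => intro _ h; exact ⟨p, hp, h⟩
    | mul m n ihm ihn =>
      intro h0 h
      rw [Nat.cast_mul] at h
      rcases h𝔭.mem_or_mem h with h | h
      · exact ihm (left_ne_zero_of_mul h0) h
      · exact ihn (right_ne_zero_of_mul h0) h
  exact key _ hn (Ideal.absNorm_mem 𝔭)

/-- if `p` divides the norm of the prime ideal `𝔮`, then `p ∈ 𝔮` -/
private theorem twideal_dvd {K : Type} [Field K] [NumberField K] {𝔮 : Ideal (𝓞 K)} (h𝔮 : 𝔮.IsPrime) (h0 : 𝔮 ≠ ⊥)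
    {p : ℕ} (hp : p.Prime) (hd : p ∣ Ideal.absNorm 𝔮) : (p : 𝓞 K) ∈ 𝔮 := by
  obtain ⟨P, hP, hP1, hP2⟩ := Ideal.exists_isMaximal_dvd_of_dvd_absNorm' hp 𝔮 hd
  have h1 : 𝔮 ≤ P := Ideal.le_of_dvd hP2
  have h2 : (p : 𝓞 K) ∈ P := by
    have : (p : ℤ) ∈ P.under ℤ := by rw [hP1]; exact Ideal.mem_span_singleton_self _
    rw [Ideal.under_def, Ideal.mem_comap] at this
    simpa using this
  have := (h𝔮.isMaximal h0).eq_of_le hP.ne_top h1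
  rwa [this]

/-- the exponent of `p` in a product in which exactly one factor is divisible by `p` -/
private theorem twideal_val {K : Type} [Field K] [NumberField K] {p : ℕ} (hp : p.Prime) (S : Finset (Ideal (𝓞 K)))
    (v : Ideal (𝓞 K) → ℕ) {𝔭 : Ideal (𝓞 K)} (h𝔭 : 𝔭 ∈ S) (hn : Ideal.absNorm 𝔭 = p)
    (hS : ∀ 𝔮 ∈ S, 𝔮 ≠ 𝔭 → ¬ p ∣ Ideal.absNorm 𝔮) :
    (∏ 𝔮 ∈ S, Ideal.absNorm 𝔮 ^ v 𝔮).factorization p = v 𝔭 := by
  classical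
  rw [← Finset.mul_prod_erase S _ h𝔭, hn]
  have h1 : ¬ p ∣ ∏ 𝔮 ∈ S.erase 𝔭, Ideal.absNorm 𝔮 ^ v 𝔮 := by
    rw [Prime.dvd_finsetProd_iff hp.prime]
    rintro ⟨𝔮, hq, hd⟩
    rw [Finset.mem_erase] at hq
    exact hS 𝔮 hq.2 hq.1 (hp.dvd_of_dvd_pow hd)
  have h2 : ∏ 𝔮 ∈ S.erase 𝔭, Ideal.absNorm 𝔮 ^ v 𝔮 ≠ 0 := fun h => h1 (h ▸ dvd_zero p)
  rw [Nat.factorization_mul (pow_ne_zero _ hp.ne_zero) h2, Finsupp.add_apply, hp.factorization_pow,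
    Finsupp.single_eq_same, Nat.factorization_eq_zero_of_not_dvd h1, add_zero]

theorem ideal_sqf {g : ℤ[X]} {K : Type} [Field K] [NumberField K] {θ : 𝓞 K} (hG : Gen g K θ) :
    ∃ M : ℕ, M ≠ 0 ∧ ∀ B : ℕ, B ≠ 0 → M ∣ B → ∀ a b : ℤ, IsCoprime a b → PT.hom g a b ≠ 0 →
      ∀ (s : ℤ) (e : ℕ) (w : ℤ), PT.hom g a b = s * e * w ^ 2 → s.natAbs ∣ B → Squarefree e →
      (∀ p : ℕ, p.Prime → p ∣ e → ¬ p ∣ B) →
      ∃ 𝔡 𝔞 : Ideal (𝓞 K), Ideal.span {(a : 𝓞 K) - b * θ} = 𝔡 * 𝔞 ^ 2 ∧ Ideal.absNorm 𝔡 ≤ e * B ^ g.natDegree ∧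
        ∀ 𝔭 : Ideal (𝓞 K), 𝔭.IsPrime → ∀ p : ℕ, p.Prime → (p : 𝓞 K) ∈ 𝔭 → ¬ p ∣ B →
          (𝔡 ≤ 𝔭 ↔ (a : 𝓞 K) - b * θ ∈ 𝔭 ∧ p ∣ e) := by
  classical
  obtain ⟨M, hM0, hM, -⟩ := gen_hom hG
  refine ⟨M, hM0, ?_⟩
  intro B hB hMB a b hab hne s e w hsew hsB he heB
  set α : 𝓞 K := (a : 𝓞 K) - b * θ with hα
  have hnorm : Algebra.norm ℤ α = PT.hom g a b := gen_norm hG a b
  have hα0 : α ≠ 0 := by
    intro h
    rw [h, Algebra.norm_zero] at hnorm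
    exact hne hnorm.symm
  have hI0 : Ideal.span {α} ≠ ⊥ := by rwa [Ne, Ideal.span_singleton_eq_bot]
  set F := normalizedFactors (Ideal.span {α}) with hF
  have hprod : F.prod = Ideal.span {α} := Ideal.prod_normalizedFactors_eq_self hI0
  -- members of F
  have hFmem : ∀ 𝔮 : Ideal (𝓞 K), 𝔮 ∈ F ↔ 𝔮.IsPrime ∧ 𝔮 ≠ ⊥ ∧ α ∈ 𝔮 := by
    intro 𝔮
    constructor
    · intro h
      have hpr := prime_of_normalized_factor 𝔮 h
      have h0 : 𝔮 ≠ ⊥ := hpr.ne_zero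
      refine ⟨(Ideal.prime_iff_isPrime h0).mp hpr, h0, ?_⟩
      have hd := dvd_of_mem_normalizedFactors h
      exact (Ideal.le_of_dvd hd) (Ideal.mem_span_singleton_self α)
    · rintro ⟨h1, h2, h3⟩
      have hpr : Prime 𝔮 := (Ideal.prime_iff_isPrime h2).mpr h1
      rw [hF, mem_normalizedFactors_iff' hI0]
      refine ⟨hpr.irreducible, normalize_eq _, ?_⟩
      rw [Ideal.dvd_iff_le, Ideal.span_singleton_le_iff_mem]
      exact h3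
  set S := F.toFinset.filter (fun 𝔮 => Odd (F.count 𝔮)) with hS
  have hspan : Ideal.span {α} = (∏ 𝔮 ∈ S, 𝔮) * (∏ 𝔮 ∈ F.toFinset, 𝔮 ^ (F.count 𝔮 / 2)) ^ 2 := by
    rw [← hprod, Finset.prod_multiset_count, hS, Finset.prod_filter, ← Finset.prod_pow, ← Finset.prod_mul_distrib]
    apply Finset.prod_congr rfl
    intro 𝔮 _
    by_cases ho : Odd (F.count 𝔮)
    · obtain ⟨k, hk⟩ := ho
      rw [hk, if_pos ⟨k, rfl⟩, ← pow_mul, ← pow_succ']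
      congr 1
      omega
    · rw [if_neg ho, one_mul, ← pow_mul]
      rw [Nat.not_odd_iff_even] at ho
      obtain ⟨k, hk⟩ := ho
      congr 1
      omega
  -- the norm
  have habs : ∏ 𝔮 ∈ F.toFinset, Ideal.absNorm 𝔮 ^ F.count 𝔮 = s.natAbs * e * w.natAbs ^ 2 := by
    have h1 : Ideal.absNorm (Ideal.span {α}) = (PT.hom g a b).natAbs := by
      rw [Ideal.absNorm_span_singleton, hnorm]
    rw [← hprod, Finset.prod_multiset_count, map_prod] at h1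
    simp only [map_pow] at h1
    rw [h1, hsew]
    simp [Int.natAbs_mul, Int.natAbs_pow]
  have hw0 : w.natAbs ≠ 0 := by
    intro h
    rw [Int.natAbs_eq_zero] at h
    apply hne
    rw [hsew, h]
    ring
  have he0 : e ≠ 0 := he.ne_zero
  have hs0 : s.natAbs ≠ 0 := by
    intro h
    rw [Int.natAbs_eq_zero] at h
    apply hne
    rw [hsew, h]
    ring
  -- odd exponent iff p divides e
  have hodd : ∀ 𝔭 : Ideal (𝓞 K), 𝔭 ∈ F → ∀ p : ℕ, p.Prime → (p : 𝓞 K) ∈ 𝔭 → ¬ p ∣ B →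
      (Odd (F.count 𝔭) ↔ p ∣ e) := by
    intro 𝔭 h𝔭F p hp hp𝔭 hpB
    obtain ⟨h𝔭, h𝔭0, hα𝔭⟩ := (hFmem 𝔭).mp h𝔭F
    have hpM : ¬ p ∣ M := fun h => hpB (h.trans hMB)
    have hn := twideal_norm hM hp hpM hab h𝔭 hp𝔭 hα𝔭
    have hval := twideal_val hp F.toFinset (fun 𝔮 => F.count 𝔮) (Multiset.mem_toFinset.mpr h𝔭F) hn (by
      intro 𝔮 h𝔮 hne' hd
      obtain ⟨h𝔮p, h𝔮0, hα𝔮⟩ := (hFmem 𝔮).mp (Multiset.mem_toFinset.mp h𝔮)
      have hp𝔮 := twideal_dvd h𝔮p h𝔮0 hp hd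
      exact hne' (twideal_uniq hM hp hpM hab h𝔮p h𝔭 hp𝔮 hp𝔭 hα𝔮 hα𝔭))
    rw [habs] at hval
    have hps : ¬ p ∣ s.natAbs := fun h => hpB (h.trans hsB)
    rw [Nat.factorization_mul (mul_ne_zero hs0 he0) (pow_ne_zero _ hw0), Nat.factorization_mul hs0 he0,
      Nat.factorization_pow] at hval
    simp only [Finsupp.add_apply, Finsupp.smul_apply, smul_eq_mul,
      Nat.factorization_eq_zero_of_not_dvd hps, zero_add] at hval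
    have hle : e.factorization p ≤ 1 := (Nat.squarefree_iff_factorization_le_one he0).mp he p
    rw [← hval]
    constructor
    · intro ho
      by_contra hpe
      rw [Nat.factorization_eq_zero_of_not_dvd hpe, zero_add] at ho
      exact (Nat.not_odd_iff_even.mpr (even_two_mul _)) ho
    · intro hpe
      have : 1 ≤ e.factorization p := (hp.dvd_iff_one_le_factorization he0).mp hpe
      have h1 : e.factorization p = 1 := le_antisymm hle this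
      rw [h1, add_comm]
      exact odd_two_mul_add_one _
  have hSmem : ∀ 𝔮 ∈ S, 𝔮 ∈ F ∧ Odd (F.count 𝔮) := by
    intro 𝔮 h
    rw [hS, Finset.mem_filter, Multiset.mem_toFinset] at h
    exact h
  refine ⟨∏ 𝔮 ∈ S, 𝔮, _, hspan, ?_, ?_⟩
  · -- bound
    rw [map_prod]
    set S1 := S.filter (fun 𝔮 => ∃ p : ℕ, p.Prime ∧ ¬ p ∣ B ∧ (p : 𝓞 K) ∈ 𝔮) with hS1
    set S2 := S.filter (fun 𝔮 => ¬ ∃ p : ℕ, p.Prime ∧ ¬ p ∣ B ∧ (p : 𝓞 K) ∈ 𝔮) with hS2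
    have hsplit : ∏ 𝔮 ∈ S, Ideal.absNorm 𝔮 = (∏ 𝔮 ∈ S1, Ideal.absNorm 𝔮) * ∏ 𝔮 ∈ S2, Ideal.absNorm 𝔮 :=
      (Finset.prod_filter_mul_prod_filter_not S _ _).symm
    rw [hsplit]
    apply Nat.mul_le_mul
    · apply Nat.le_of_dvd (Nat.pos_of_ne_zero he0)
      have hinfo : ∀ 𝔮 ∈ S1, (Ideal.absNorm 𝔮).Prime ∧ ¬ Ideal.absNorm 𝔮 ∣ B ∧ Ideal.absNorm 𝔮 ∣ e ∧
          ((Ideal.absNorm 𝔮 : ℕ) : 𝓞 K) ∈ 𝔮 ∧ 𝔮.IsPrime ∧ α ∈ 𝔮 := by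
        intro 𝔮 h
        rw [hS1, Finset.mem_filter] at h
        obtain ⟨hq, p, hp, hpB, hpq⟩ := h
        obtain ⟨hqF, hqo⟩ := hSmem 𝔮 hq
        obtain ⟨h1, h2, h3⟩ := (hFmem 𝔮).mp hqF
        have hpM : ¬ p ∣ M := fun h => hpB (h.trans hMB)
        have hn := twideal_norm hM hp hpM hab h1 hpq h3
        rw [hn]
        exact ⟨hp, hpB, (hodd 𝔮 hqF p hp hpq hpB).mp hqo, hpq, h1, h3⟩
      have hinj : Set.InjOn (fun 𝔮 : Ideal (𝓞 K) => Ideal.absNorm 𝔮) S1 := by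
        intro 𝔮 h 𝔯 h' heq
        simp only at heq
        obtain ⟨h1, h2, h3, h4, h5, h6⟩ := hinfo 𝔮 h
        obtain ⟨k1, k2, k3, k4, k5, k6⟩ := hinfo 𝔯 h'
        rw [← heq] at k4
        exact twideal_uniq hM h1 (fun h => h2 (h.trans hMB)) hab h5 k5 h4 k4 h6 k6
      have himg : ∏ p ∈ S1.image (fun 𝔮 : Ideal (𝓞 K) => Ideal.absNorm 𝔮), p = ∏ 𝔮 ∈ S1, Ideal.absNorm 𝔮 :=
        Finset.prod_image (fun x hx y hy h => hinj hx hy h)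
      rw [← himg]
      apply Finset.prod_primes_dvd
      · intro p hp
        rw [Finset.mem_image] at hp
        obtain ⟨𝔮, h𝔮, rfl⟩ := hp
        exact (hinfo 𝔮 h𝔮).1.prime
      · intro p hp
        rw [Finset.mem_image] at hp
        obtain ⟨𝔮, h𝔮, rfl⟩ := hp
        exact (hinfo 𝔮 h𝔮).2.2.1
    · have hd : ∏ 𝔮 ∈ S2, 𝔮 ∣ Ideal.span {((B : ℤ) : 𝓞 K)} := by
        apply Finset.prod_primes_dvd
        · intro 𝔮 h
          rw [hS2, Finset.mem_filter] at h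
          obtain ⟨h1, h2, h3⟩ := (hFmem 𝔮).mp (hSmem 𝔮 h.1).1
          exact (Ideal.prime_iff_isPrime h2).mpr h1
        · intro 𝔮 h
          rw [hS2, Finset.mem_filter] at h
          obtain ⟨h1, h2, h3⟩ := (hFmem 𝔮).mp (hSmem 𝔮 h.1).1
          obtain ⟨p, hp, hpq⟩ := twideal_over h1 h2
          have hpB : p ∣ B := by
            by_contra hpB
            exact h.2 ⟨p, hp, hpB, hpq⟩
          rw [Ideal.dvd_iff_le, Ideal.span_singleton_le_iff_mem]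
          exact (twideal_int h1 hp hpq _).mpr (by exact_mod_cast hpB)
      have hd2 := Ideal.absNorm_dvd_absNorm_of_le (Ideal.le_of_dvd hd)
      rw [map_prod, Ideal.absNorm_span_singleton] at hd2
      have hnB : Algebra.norm ℤ ((B : ℤ) : 𝓞 K) = (B : ℤ) ^ g.natDegree := by
        have h1 : ((B : ℤ) : 𝓞 K) = algebraMap ℤ (𝓞 K) B := by simp
        rw [h1, Algebra.norm_algebraMap, NumberField.RingOfIntegers.rank, hG.deg]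
      rw [hnB, Int.natAbs_pow, Int.natAbs_natCast] at hd2
      exact Nat.le_of_dvd (Nat.pos_of_ne_zero (pow_ne_zero _ hB)) hd2
  · intro 𝔭 h𝔭 p hp hp𝔭 hpB
    have h𝔭0 : 𝔭 ≠ ⊥ := by
      intro h
      rw [h, Ideal.mem_bot] at hp𝔭
      exact hp.ne_zero (by exact_mod_cast hp𝔭)
    have hiff : (∏ 𝔮 ∈ S, 𝔮) ≤ 𝔭 ↔ 𝔭 ∈ S := by
      rw [h𝔭.prod_le]
      constructor
      · rintro ⟨𝔮, h𝔮, hle⟩
        obtain ⟨h1, h2, h3⟩ := (hFmem 𝔮).mp (hSmem 𝔮 h𝔮).1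
        have := (h1.isMaximal h2).eq_of_le h𝔭.ne_top hle
        rwa [← this]
      · intro h
        exact ⟨𝔭, h, le_rfl⟩
    rw [hiff, hS, Finset.mem_filter, Multiset.mem_toFinset]
    constructor
    · rintro ⟨h1, h2⟩
      exact ⟨((hFmem 𝔭).mp h1).2.2, (hodd 𝔭 h1 p hp hp𝔭 hpB).mp h2⟩
    · rintro ⟨h1, h2⟩
      have h3 : 𝔭 ∈ F := (hFmem 𝔭).mpr ⟨h𝔭, h𝔭0, h1⟩
      exact ⟨h3, (hodd 𝔭 h3 p hp hp𝔭 hpB).mpr h2⟩

end TW
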