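import Pool.Agent.Lib.MP_10e784_ag.TW.TWRep
import Pool.Agent.Lib.MP_10e784_ag.TW.TWIdeal

/-! JOB TWDesc1.  The descent for one polynomial.

`K, θ` from `gen_exists`; `M` = product of the `M`'s of `gen_hom`, `rep`, `ideal_sqf`.  Given `B` with `M ∣ B` and the data: `α = a - b θ`, `𝔡, 𝔞` from `ideal_sqf`, `A, κ` from `rep` (`α ≠ 0` by `gen_norm`).  Coefficients: `C_rep (absNorm 𝔡) ^ (1/n) ≤ C_rep (e B ^ n) ^ (1/n) = C_rep B e ^ (1/n)`; `C = C_rep * B`.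
`κ = aeval θ κ'` with `κ' : ℚ[X]` (`gen_span`), `qq g ∤ κ'` since `κ ≠ 0` (`gen_rat`), and `qq A - (C a - C b X) κ' ^ 2` vanishes at `θ` (`gen_rat`).
Local: `p ∤ B` prime, `h` monic irreducible, `h ∣ red p g`, `φ` from `gen_hom` with `φ (P(θ)) = mk h (red p P)`; `AdjoinRoot h` is a field.  `𝔭 = RingHom.ker φ` is a prime ideal, `p ∈ 𝔭` (`φ p = 0`), `M_rep ∉ 𝔭` (otherwise `φ (M_rep) = mk h (C M_rep) = 0` in a ring of characteristic `p`, so `p ∣ M_rep ∣ B`).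
`φ α = mk h (red p (C a - C b X))`, `φ (aeval θ A) = mk h (red p A)`, and `mk h Q = 0 ↔ h ∣ Q`.
If `h ∣ red p (C a - C b X)`: `α ∈ 𝔭`, so `h ∣ red p A ↔ aeval θ A ∈ 𝔭 ↔ 𝔡 ≤ 𝔭 ↔ p ∣ e`.  Otherwise `α ∉ 𝔭`, so not `𝔡 ≤ 𝔭`, so `aeval θ A ∉ 𝔭`, `h ∤ red p A`; and `sq_transfer` (`R = 𝓞 K`, `aeval θ A = α κ ^ 2`) gives `IsSquare (φ (aeval θ A) * φ α)`, i.e. a square `mk Q ^ 2` (`AdjoinRoot.mk_surjective`), so `h ∣ red p A * red p (C a - C b X) - Q ^ 2`. -/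

namespace TW

open Polynomial NumberField

private theorem twdesc1_aeval {K : Type} [Field K] [NumberField K] (θ : 𝓞 K) (A : ℤ[X]) :
    aeval (θ : K) (qq A) = ((aeval θ A : 𝓞 K) : K) := by
  have h1 : aeval (θ : K) (qq A) = aeval (θ : K) A := by
    have h2 : qq A = A.map (algebraMap ℤ ℚ) := rfl
    rw [h2, aeval_map_algebraMap]
  rw [h1]
  exact aeval_algebraMap_apply K θ A

private theorem twdesc1_lin {K : Type} [Field K] [NumberField K] (θ : 𝓞 K) (a b : ℤ) :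
    aeval θ (C a - C b * X : ℤ[X]) = (a : 𝓞 K) - b * θ := by
  rw [map_sub, map_mul, aeval_C, aeval_C, aeval_X]
  simp

private theorem twdesc1_coef (C d e B : ℝ) (n : ℕ) (hn : 0 < n) (hC : 0 < C) (hd : 0 ≤ d)
    (he : 0 ≤ e) (hB : 0 ≤ B) (h : d ≤ e * B ^ n) :
    C * d ^ ((1 : ℝ) / n) ≤ C * B * e ^ ((1 : ℝ) / n) := by
  have hn' : (n : ℝ) ≠ 0 := by exact_mod_cast hn.ne'
  have h1 : d ^ ((1 : ℝ) / n) ≤ (e * B ^ n) ^ ((1 : ℝ) / n) :=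
    Real.rpow_le_rpow hd h (by positivity)
  have h2 : (e * B ^ n) ^ ((1 : ℝ) / n) = e ^ ((1 : ℝ) / n) * B := by
    rw [Real.mul_rpow he (by positivity), ← Real.rpow_natCast B n, ← Real.rpow_mul hB]
    rw [mul_one_div_cancel hn', Real.rpow_one]
  rw [h2] at h1
  calc C * d ^ ((1 : ℝ) / n) ≤ C * (e ^ ((1 : ℝ) / n) * B) :=
        mul_le_mul_of_nonneg_left h1 hC.le
    _ = C * B * e ^ ((1 : ℝ) / n) := by ring

theorem desc1 (g : ℤ[X]) (hm : g.Monic) (hirr : Irreducible (qq g)) :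
    ∃ M : ℕ, M ≠ 0 ∧ ∀ B : ℕ, B ≠ 0 → M ∣ B → ∃ C₀ : ℝ, 0 < C₀ ∧ ∀ a b : ℤ, IsCoprime a b → PT.hom g a b ≠ 0 →
      ∀ (s : ℤ) (e : ℕ) (w : ℤ), PT.hom g a b = s * e * w ^ 2 → s.natAbs ∣ B → Squarefree e →
      (∀ p : ℕ, p.Prime → p ∣ e → ¬ p ∣ B) →
      ∃ A : ℤ[X], A.natDegree < g.natDegree ∧
        (∀ k, |(A.coeff k : ℝ)| ≤ C₀ * (e : ℝ) ^ ((1 : ℝ) / g.natDegree)) ∧
        (∃ κ : ℚ[X], ¬ qq g ∣ κ ∧ qq g ∣ qq A - (C (a : ℚ) - C (b : ℚ) * X) * κ ^ 2) ∧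
        ∀ p : ℕ, p.Prime → ¬ p ∣ B → ∀ h : (ZMod p)[X], h.Monic → Irreducible h → h ∣ red p g →
          (h ∣ red p (C a - C b * X) → (h ∣ red p A ↔ p ∣ e)) ∧
          (¬ h ∣ red p (C a - C b * X) → ¬ h ∣ red p A ∧ ∃ Q : (ZMod p)[X], h ∣ red p A * red p (C a - C b * X) - Q ^ 2) := by
  obtain ⟨K, instF, instN, θ, hG⟩ := gen_exists g hm hirr
  obtain ⟨M1, hM1, -, hhom⟩ := gen_hom hG
  obtain ⟨C1, M2, hC1, hM2, hrep⟩ := rep hG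
  obtain ⟨M3, hM3, hid⟩ := ideal_sqf hG
  refine ⟨M1 * M2 * M3, mul_ne_zero (mul_ne_zero hM1 hM2) hM3, fun B hB hMB => ?_⟩
  have hM1B : M1 ∣ B := (Dvd.intro (M2 * M3) (by ring)).trans hMB
  have hM2B : M2 ∣ B := (Dvd.intro (M1 * M3) (by ring)).trans hMB
  have hM3B : M3 ∣ B := (Dvd.intro_left (M1 * M2) rfl).trans hMB
  have hBpos : (0 : ℝ) < B := by exact_mod_cast Nat.pos_of_ne_zero hB
  refine ⟨C1 * B, mul_pos hC1 hBpos, ?_⟩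
  intro a b hab hne s e w hw hs he hpe
  have hα : (a : 𝓞 K) - b * θ ≠ 0 := by
    intro h0
    have h1 := gen_norm hG a b
    rw [h0, Algebra.norm_zero] at h1
    exact hne h1.symm
  obtain ⟨𝔡, 𝔞, hda, hnorm, h𝔡⟩ := hid B hB hM3B a b hab hne s e w hw hs he hpe
  obtain ⟨A, κ, hκ, hdeg, hA, hcoef, hprime⟩ := hrep _ 𝔡 𝔞 hα hda
  have hn : 0 < g.natDegree := lt_of_le_of_lt (Nat.zero_le _) hdeg
  refine ⟨A, hdeg, ?_, ?_, ?_⟩
  · intro k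
    refine (hcoef k).trans (twdesc1_coef C1 _ e B g.natDegree hn hC1 (Nat.cast_nonneg _)
      (Nat.cast_nonneg _) hBpos.le ?_)
    exact_mod_cast hnorm
  · obtain ⟨κ', hκ'⟩ := gen_span hG κ
    refine ⟨κ', ?_, ?_⟩
    · intro h1
      rw [← gen_rat hG, ← hκ'] at h1
      exact hκ h1
    · rw [← gen_rat hG, map_sub, map_mul, map_pow, ← hκ', twdesc1_aeval, hA, map_sub, map_mul,
        aeval_C, aeval_C, aeval_X]
      push_cast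
      simp
  · intro p hp hpB h hmon hhirr hdvd
    have : Fact p.Prime := ⟨hp⟩
    have : Fact (Irreducible h) := ⟨hhirr⟩
    obtain ⟨φ, hφ⟩ := hhom p hp (fun hh => hpB (hh.trans hM1B)) h hhirr hdvd
    have hP : (RingHom.ker φ).IsPrime := RingHom.ker_isPrime φ
    have hpP : (p : 𝓞 K) ∈ RingHom.ker φ := by
      rw [RingHom.mem_ker, map_natCast, ← map_natCast (algebraMap (ZMod p) (AdjoinRoot h)) p,
        ZMod.natCast_self, map_zero]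
    have hM2P : (M2 : 𝓞 K) ∉ RingHom.ker φ := by
      rw [RingHom.mem_ker, map_natCast, ← map_natCast (algebraMap (ZMod p) (AdjoinRoot h)) M2]
      intro h0
      rw [map_eq_zero_iff _ (algebraMap (ZMod p) (AdjoinRoot h)).injective,
        ZMod.natCast_eq_zero_iff] at h0
      exact hpB (h0.trans hM2B)
    have hφα : φ ((a : 𝓞 K) - b * θ) = AdjoinRoot.mk h (red p (C a - C b * X)) := by
      rw [← twdesc1_lin, hφ]
    have hαiff : (a : 𝓞 K) - b * θ ∈ RingHom.ker φ ↔ h ∣ red p (C a - C b * X) := by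
      rw [RingHom.mem_ker, hφα, AdjoinRoot.mk_eq_zero]
    have hAiff : h ∣ red p A ↔ 𝔡 ≤ RingHom.ker φ := by
      rw [← hprime _ hP hM2P, RingHom.mem_ker, hφ, AdjoinRoot.mk_eq_zero]
    have hdiff := h𝔡 _ hP p hp hpP hpB
    refine ⟨fun h1 => ?_, fun h1 => ⟨?_, ?_⟩⟩
    · rw [hAiff, hdiff]
      exact ⟨fun h2 => h2.2, fun h2 => ⟨hαiff.2 h1, h2⟩⟩
    · rw [hAiff, hdiff]
      exact fun h2 => h1 (hαiff.1 h2.1)
    · have hsq : IsSquare (φ (aeval θ A) * φ ((a : 𝓞 K) - b * θ)) :=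
        sq_transfer (R := 𝓞 K) (K := K) φ _ _ κ hA
      obtain ⟨r, hr⟩ := hsq
      obtain ⟨Q, rfl⟩ := AdjoinRoot.mk_surjective r
      refine ⟨Q, ?_⟩
      rw [← AdjoinRoot.mk_eq_zero, map_sub, map_mul, map_pow, ← hφα, ← hφ, hr, sq, sub_self]

end TW
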