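import Pool.Agent.Lib.MP_10e784_ag.TW.TWRtLow
import Pool.Agent.Lib.MP_10e784_ag.TW.TWDbl

/-! JOB TWDiv.  The primes modulo which `d` is a nonresidue at some root of `g` have divergent sum of reciprocals.

Let `T0` be the set in the statement and suppose `¬ Div T0`: there is `B` with `∑ p ∈ F, 1 / p < B` for all finite `F ⊆ T0`.  `C1` from `rt_low_s g`, `M` from `PT.rt_le g` (`rt g p ≤ M`), `E, B2` from `sqrt_primes`, `C2` from `PT.zeta_upper E`.
Let `1 < s ≤ 2` and `T` from `rt_low_s`.  Split `T` into (a) `p ∈ T0`: `∑ rt g p * p ^ (-s) ≤ M ∑ 1 / p ≤ M B` (`p ^ (-s) ≤ 1 / p`); (b) `p ∉ T0`, `p ∣ B2`: at most `B2` primes, `≤ M B2` (as in `PT.rt_sum`, file `PT/PTRtSum.lean`); (c) the rest `T1`: every `p ∈ T1` has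
the finite set `F p` of `2 rt g p` prime ideals of norm `p` (`sqrt_primes`; `p ∉ T0` and `p` prime means that `d` is a square at all roots), different for different `p`, so `2 ∑_{p ∈ T1} rt g p * p ^ (-s) ≤ log (1 / (s - 1)) + C2` (`zeta_upper`, same computation as in `PT.rt_sum`).
Hence `log (1 / (s - 1)) - C1 ≤ M B + M B2 + (log (1 / (s - 1)) + C2) / 2`, i.e. `log (1 / (s - 1)) ≤ 2 (C1 + M B + M B2) + C2 =: R` for all `1 < s ≤ 2`; contradiction for `s = 1 + exp (-(|R| + 1))`. -/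

namespace TW

open NumberField Finset Polynomial

theorem div_nonres (g : ℤ[X]) (hm : g.Monic) (hirr : Irreducible (g.map (Int.castRingHom ℚ))) (d : ℤ[X])
    (hd : ¬ ∃ B : ℚ[X], qq g ∣ d.map (Int.castRingHom ℚ) - B ^ 2) :
    Div {p | p.Prime ∧ ∃ t : ZMod p, (red p g).eval t = 0 ∧ ¬ IsSquare ((red p d).eval t)} := by
  classical
  set T0 : Set ℕ :=
    {p | p.Prime ∧ ∃ t : ZMod p, (red p g).eval t = 0 ∧ ¬ IsSquare ((red p d).eval t)} with hT0
  by_contra hcon
  unfold Div at hcon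
  push Not at hcon
  obtain ⟨B, hB⟩ := hcon
  obtain ⟨C1, hC1⟩ := rt_low_s g hm hirr
  obtain ⟨M, hM⟩ := PT.rt_le g hm.ne_zero
  obtain ⟨E, iF, iN, B2, hB2, hE⟩ := sqrt_primes g hm hirr d hd
  obtain ⟨C2, hC2⟩ := PT.zeta_upper E
  have hex : ∀ p : ℕ, ∃ F : Finset (Ideal (𝓞 E)), p.Prime → ¬ p ∣ B2 → p ∉ T0 →
      F.card = 2 * PT.rt g p ∧ ∀ P ∈ F, P.IsPrime ∧ Ideal.absNorm P = p := by
    intro p
    by_cases h1 : p.Prime ∧ ¬ p ∣ B2 ∧ p ∉ T0
    · have h2 : ∀ t : ZMod p, (red p g).eval t = 0 → IsSquare ((red p d).eval t) := by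
        intro t ht
        by_contra h3
        exact h1.2.2 ⟨h1.1, t, ht, h3⟩
      obtain ⟨F, hF⟩ := hE p h1.1 h1.2.1 h2
      exact ⟨F, fun _ _ _ => hF⟩
    · exact ⟨∅, fun h2 h3 h4 => absurd ⟨h2, h3, h4⟩ h1⟩
  choose F hF using hex
  have hmain : ∀ s : ℝ, 1 < s → s ≤ 2 →
      Real.log (1 / (s - 1)) ≤ 2 * (C1 + (M : ℝ) * B + (M : ℝ) * B2) + C2 := by
    intro s hs1 hs2
    obtain ⟨T, hT, hTs⟩ := hC1 s hs1 hs2
    rw [← Finset.sum_filter_add_sum_filter_not T (fun p => p ∈ T0),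
      ← Finset.sum_filter_add_sum_filter_not (T.filter fun p => ¬ p ∈ T0) (fun p => p ∣ B2)] at hTs
    -- the primes in `T0`
    have hA : ∑ p ∈ T.filter (fun p => p ∈ T0), (PT.rt g p : ℝ) * (p : ℝ) ^ (-s)
        ≤ (M : ℝ) * B := by
      have h1 : ∑ p ∈ T.filter (fun p => p ∈ T0), (PT.rt g p : ℝ) * (p : ℝ) ^ (-s)
          ≤ ∑ p ∈ T.filter (fun p => p ∈ T0), (M : ℝ) * (1 / (p : ℝ)) := by
        refine Finset.sum_le_sum fun p hp => ?_
        have hpp := hT p (Finset.mem_filter.mp hp).1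
        have h2 : (PT.rt g p : ℝ) ≤ M := by exact_mod_cast hM p hpp
        have h3 : (p : ℝ) ^ (-s) ≤ 1 / (p : ℝ) := by
          have h4 : (p : ℝ) ^ (-s) ≤ (p : ℝ) ^ (-1 : ℝ) :=
            Real.rpow_le_rpow_of_exponent_le (by exact_mod_cast hpp.one_lt.le) (by linarith)
          rwa [Real.rpow_neg_one, ← one_div] at h4
        exact mul_le_mul h2 h3 (Real.rpow_nonneg (by positivity) _) (by positivity)
      have h5 : ∑ p ∈ T.filter (fun p => p ∈ T0), (1 / (p : ℝ)) < B :=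
        hB _ fun p hp => (Finset.mem_filter.mp hp).2
      rw [← Finset.mul_sum] at h1
      exact h1.trans (mul_le_mul_of_nonneg_left h5.le (by positivity))
    -- the bad primes
    have hBd : ∑ p ∈ (T.filter fun p => ¬ p ∈ T0).filter (fun p => p ∣ B2),
        (PT.rt g p : ℝ) * (p : ℝ) ^ (-s) ≤ (M : ℝ) * B2 := by
      have h1 : ∀ p ∈ (T.filter fun p => ¬ p ∈ T0).filter (fun p => p ∣ B2),
          (PT.rt g p : ℝ) * (p : ℝ) ^ (-s) ≤ (M : ℝ) := by
        intro p hp
        have hpp := hT p (Finset.mem_filter.mp (Finset.mem_filter.mp hp).1).1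
        have h2 : (PT.rt g p : ℝ) ≤ M := by exact_mod_cast hM p hpp
        have h3 : (p : ℝ) ^ (-s) ≤ 1 :=
          Real.rpow_le_one_of_one_le_of_nonpos (by exact_mod_cast hpp.one_lt.le) (by linarith)
        have h4 : 0 ≤ (p : ℝ) ^ (-s) := Real.rpow_nonneg (by positivity) _
        calc (PT.rt g p : ℝ) * (p : ℝ) ^ (-s) ≤ M * 1 :=
              mul_le_mul h2 h3 h4 (by positivity)
          _ = M := mul_one _
      have h5 : ((T.filter fun p => ¬ p ∈ T0).filter (fun p => p ∣ B2)).card ≤ B2 := by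
        have h6 : (T.filter fun p => ¬ p ∈ T0).filter (fun p => p ∣ B2) ⊆ Finset.Icc 1 B2 := by
          intro p hp
          rw [Finset.mem_filter] at hp
          rw [Finset.mem_Icc]
          exact ⟨(hT p (Finset.mem_filter.mp hp.1).1).one_lt.le,
            Nat.le_of_dvd (Nat.pos_of_ne_zero hB2) hp.2⟩
        have h7 := Finset.card_le_card h6
        rwa [Nat.card_Icc, Nat.add_sub_cancel] at h7
      have h8 := Finset.sum_le_card_nsmul _ _ _ h1
      rw [nsmul_eq_mul] at h8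
      have h9 : (((T.filter fun p => ¬ p ∈ T0).filter (fun p => p ∣ B2)).card : ℝ) ≤ B2 := by
        exact_mod_cast h5
      calc ∑ p ∈ (T.filter fun p => ¬ p ∈ T0).filter (fun p => p ∣ B2),
            (PT.rt g p : ℝ) * (p : ℝ) ^ (-s)
          ≤ (((T.filter fun p => ¬ p ∈ T0).filter (fun p => p ∣ B2)).card : ℝ) * M := h8
        _ ≤ (B2 : ℝ) * M := mul_le_mul_of_nonneg_right h9 (by positivity)
        _ = (M : ℝ) * B2 := mul_comm _ _
    -- the other primes
    have hG : 2 * ∑ p ∈ (T.filter fun p => ¬ p ∈ T0).filter (fun p => ¬ p ∣ B2),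
        (PT.rt g p : ℝ) * (p : ℝ) ^ (-s) ≤ Real.log (1 / (s - 1)) + C2 := by
      have hmem : ∀ p ∈ (T.filter fun p => ¬ p ∈ T0).filter (fun p => ¬ p ∣ B2),
          (F p).card = 2 * PT.rt g p ∧ ∀ P ∈ F p, P.IsPrime ∧ Ideal.absNorm P = p := by
        intro p hp
        rw [Finset.mem_filter, Finset.mem_filter] at hp
        exact hF p (hT p hp.1.1) hp.2 hp.1.2
      have h1 : 2 * ∑ p ∈ (T.filter fun p => ¬ p ∈ T0).filter (fun p => ¬ p ∣ B2),
            (PT.rt g p : ℝ) * (p : ℝ) ^ (-s)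
          = ∑ P ∈ ((T.filter fun p => ¬ p ∈ T0).filter (fun p => ¬ p ∣ B2)).biUnion F,
              ((Ideal.absNorm P : ℕ) : ℝ) ^ (-s) := by
        rw [Finset.mul_sum, Finset.sum_biUnion]
        · refine Finset.sum_congr rfl (fun p hp => ?_)
          obtain ⟨hc, hP⟩ := hmem p hp
          have h2 : ∀ P ∈ F p, ((Ideal.absNorm P : ℕ) : ℝ) ^ (-s) = (p : ℝ) ^ (-s) := by
            intro P hPE
            rw [(hP P hPE).2]
          rw [Finset.sum_congr rfl h2, Finset.sum_const, hc, nsmul_eq_mul]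
          push_cast
          ring
        · intro p hp q hq hpq
          rw [Function.onFun, Finset.disjoint_left]
          intro P hP1 hP2
          apply hpq
          rw [← ((hmem p hp).2 P hP1).2, ← ((hmem q hq).2 P hP2).2]
      rw [h1]
      refine hC2 s _ hs1 hs2 ?_
      intro P hP
      rw [Finset.mem_biUnion] at hP
      obtain ⟨p, hp, hPE⟩ := hP
      have h3 := (hmem p hp).2 P hPE
      refine ⟨h3.1, ?_⟩
      intro h4
      have h5 := h3.2
      rw [h4, Ideal.absNorm_bot] at h5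
      exact (hT p (Finset.mem_filter.mp (Finset.mem_filter.mp hp).1).1).ne_zero h5.symm
    linarith
  set R : ℝ := 2 * (C1 + (M : ℝ) * B + (M : ℝ) * B2) + C2 with hR
  have hpos : 0 < Real.exp (-(|R| + 1)) := Real.exp_pos _
  have hle : Real.exp (-(|R| + 1)) ≤ 1 := by
    rw [Real.exp_le_one_iff]
    have := abs_nonneg R
    linarith
  have hfin := hmain (1 + Real.exp (-(|R| + 1))) (by linarith) (by linarith)
  rw [add_sub_cancel_left, one_div, ← Real.exp_neg, neg_neg, Real.log_exp] at hfin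
  have := le_abs_self R
  linarith

end TW
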