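import Pool.Agent.Lib.MP_10e784_ag.TW.TWOne

/-! JOB TWEqui.  Equidistribution in boxes at several scales.

Induction on `m`.  `m = 0`: the box has one point (`Unique (Fin 0 → ℤ)`), the product over `Fin 0` is `1`, `(1 + η) ^ 0 - 1 = 0`; for `p ∈ S` the hypothesis says `ω p = Nat.card {w // w ∈ Ω p}` which is `1` or `0` (`Fin 0 → ZMod p` is a singleton), so the number of points is `∏ p ∈ S, ω p`.
`m + 1`: points `x = Fin.cons x0 x'` (`Fin.consEquiv`, `Fin.cons`), so the count is the sum over `x0 ∈ Ico (a 0) (a 0 + H 0)` of the number of `x'` in the box of the coordinates `Fin.succ c` with `x' ∈ Ω' p := {w' | Fin.cons (x0 : ZMod p) w' ∈ Ω p}` for `p ∈ S`.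
For fixed `x0` apply the induction hypothesis with `lev' = lev ∘ Fin.succ`, `Ω'` and the densities `ω' p = ω p` if `lev 0 < k p`, and `ω' p = Nat.card {w' // w' ∈ Ω' p} / p ^ m` if `k p ≤ lev 0` (then `k p ≤ lev c` for all `c` by monotonicity: all coordinates are active and the condition `lev' c < k p → ..` is empty).
If `lev 0 < k p`: the fibre of `Ω' p` over `y'` is the fibre of `Ω p` over `Fin.cons x0 y'` (coordinate `0` is fixed), and the filter cards agree (coordinate `0` is not counted).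
Result: `|count(x0) - (∏ H') * ∏ ω' p| ≤ ((1 + η) ^ m - 1) * (∏ H') * ∏ ω' p`.  Sum over `x0`; let `S0 = S.filter (k p ≤ lev 0)`, `∏ p ∈ S, ω' p = (∏ p ∈ S0, φ p (x0 : ZMod p)) * ∏ p ∈ S \ S0, ω p` with `φ p r = Nat.card {w' // Fin.cons r w' ∈ Ω p} / p ^ m ≥ 0` and
`∑ r ∈ range p, φ p r = Nat.card {w // w ∈ Ω p} / p ^ m = ω p * p` for `p ∈ S0` (hypothesis `hΩ` with no frozen coordinate, the number of active coordinates is `m + 1`).
`one_dim` for `S0` (with `μ = ω`): `|∑_{x0} ∏_{S0} φ - H 0 * ∏_{S0} ω| ≤ (if S0 = ∅ then 0 else (∏_{S0} p) * ∏_{S0} ω) ≤ η * H 0 * ∏_{S0} ω` by `hH 0` (if `S0 = ∅` the bound is `0`; if `S0 ≠ ∅` the first alternative of `hH 0` is impossible).  All `ω p ≥ 0` for `p ∈ S` (they are cardinals divided by positive numbers).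
Total error: `((1 + η) ^ m - 1) * (1 + η) * V + η * V = ((1 + η) ^ (m + 1) - 1) * V` with `V = (∏ H) * ∏ ω`.
(For `p ∈ S` the type `Fin m → ZMod p` is finite: `haveI : NeZero p`.  The set of points in the box is finite.) -/

namespace TW

open Finset

private lemma card_one {α : Type} [Subsingleton α] (u : α) (P : α → Prop) (h : P u) :
    Nat.card {x : α // P x} = 1 := by
  have : Nonempty {x : α // P x} := ⟨⟨u, h⟩⟩
  exact Nat.card_unique

private lemma card_none {α : Type} [Subsingleton α] (u : α) (P : α → Prop) (h : ¬ P u) :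
    Nat.card {x : α // P x} = 0 := by
  have : IsEmpty {x : α // P x} := ⟨fun x => h (by
      have h1 : x.1 = u := Subsingleton.elim _ _
      rw [← h1]; exact x.2)⟩
  exact Nat.card_of_isEmpty

private lemma box_fin {m : ℕ} (a : Fin m → ℤ) (H : Fin m → ℕ) (P : (Fin m → ℤ) → Prop) :
    Finite {x : Fin m → ℤ // (∀ c, a c ≤ x c ∧ x c < a c + H c) ∧ P x} := by
  have h : {x : Fin m → ℤ | (∀ c, a c ≤ x c ∧ x c < a c + H c) ∧ P x}.Finite := by
    refine Set.Finite.subset
      (Fintype.piFinset (fun c => Ico (a c) (a c + H c))).finite_toSet ?_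
    intro x hx
    simp only [Finset.mem_coe, Fintype.mem_piFinset, mem_Ico]
    exact hx.1
  exact h.to_subtype

private lemma card_box_succ {m : ℕ} (a : Fin (m + 1) → ℤ) (H : Fin (m + 1) → ℕ)
    (P : (Fin (m + 1) → ℤ) → Prop) :
    Nat.card {x : Fin (m + 1) → ℤ // (∀ c, a c ≤ x c ∧ x c < a c + H c) ∧ P x} =
      ∑ x0 ∈ Ico (a 0) (a 0 + H 0), Nat.card {x : Fin m → ℤ //
        (∀ c, a (Fin.succ c) ≤ x c ∧ x c < a (Fin.succ c) + H (Fin.succ c)) ∧
          P (Fin.cons x0 x)} := by
  have e : {x : Fin (m + 1) → ℤ // (∀ c, a c ≤ x c ∧ x c < a c + H c) ∧ P x} ≃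
      Σ x0 : {z : ℤ // z ∈ Ico (a 0) (a 0 + H 0)}, {x : Fin m → ℤ //
        (∀ c, a (Fin.succ c) ≤ x c ∧ x c < a (Fin.succ c) + H (Fin.succ c)) ∧
          P (Fin.cons x0.1 x)} :=
    { toFun := fun x => ⟨⟨x.1 0, mem_Ico.2 (x.2.1 0)⟩,
        ⟨Fin.tail x.1, fun c => x.2.1 (Fin.succ c), by
          have h := x.2.2
          rwa [← Fin.cons_self_tail x.1] at h⟩⟩
      invFun := fun s => ⟨Fin.cons s.1.1 s.2.1, fun c => by
          refine Fin.cases ?_ (fun c => ?_) c
          · simpa using mem_Ico.1 s.1.2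
          · simpa using s.2.2.1 c, s.2.2.2⟩
      left_inv := fun x => by
        apply Subtype.ext
        exact Fin.cons_self_tail x.1
      right_inv := fun s => by
        obtain ⟨⟨x0, h0⟩, ⟨x, hx⟩⟩ := s
        rfl }
  have : ∀ x0 : {z : ℤ // z ∈ Ico (a 0) (a 0 + H 0)}, Finite {x : Fin m → ℤ //
        (∀ c, a (Fin.succ c) ≤ x c ∧ x c < a (Fin.succ c) + H (Fin.succ c)) ∧
          P (Fin.cons x0.1 x)} := fun x0 =>
    box_fin (fun c => a (Fin.succ c)) (fun c => H (Fin.succ c)) _
  rw [Nat.card_congr e, Nat.card_sigma]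
  exact Finset.sum_coe_sort (Ico (a 0) (a 0 + (H 0 : ℤ))) (fun x0 => Nat.card {x : Fin m → ℤ //
        (∀ c, a (Fin.succ c) ≤ x c ∧ x c < a (Fin.succ c) + H (Fin.succ c)) ∧
          P (Fin.cons x0 x)})

private lemma cons_tl {m : ℕ} {A : Type} (w : Fin (m + 1) → A) (r : A) (h : w 0 = r) :
    (Fin.cons r (Fin.tail w) : Fin (m + 1) → A) = w := by
  subst h
  exact Fin.cons_self_tail w

private lemma card_mod_succ {m p : ℕ} (hp : p.Prime) (Q : Set (Fin (m + 1) → ZMod p)) :
    (Nat.card {w : Fin (m + 1) → ZMod p // w ∈ Q} : ℝ) =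
      ∑ r ∈ range p, (Nat.card {w : Fin m → ZMod p // Fin.cons (r : ZMod p) w ∈ Q} : ℝ) := by
  have : NeZero p := ⟨hp.ne_zero⟩
  have e : {w : Fin (m + 1) → ZMod p // w ∈ Q} ≃
      Σ r : ZMod p, {w : Fin m → ZMod p // Fin.cons r w ∈ Q} :=
    { toFun := fun x => ⟨x.1 0, ⟨Fin.tail x.1, by
          have h := x.2
          rwa [← Fin.cons_self_tail x.1] at h⟩⟩
      invFun := fun s => ⟨Fin.cons s.1 s.2.1, s.2.2⟩
      left_inv := fun x => by
        apply Subtype.ext
        exact Fin.cons_self_tail x.1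
      right_inv := fun s => by
        obtain ⟨x0, ⟨x, hx⟩⟩ := s
        rfl }
  rw [Nat.card_congr e, Nat.card_sigma]
  push_cast
  symm
  refine Finset.sum_nbij' (fun r => (r : ZMod p)) (fun z => z.val) ?_ ?_ ?_ ?_ ?_
  · intro r _; exact mem_univ _
  · intro z _; exact mem_range.2 (ZMod.val_lt z)
  · intro r hr; exact ZMod.val_cast_of_lt (mem_range.1 hr)
  · intro z _; exact ZMod.natCast_zmod_val z
  · intro r _; rfl

theorem equi (m : ℕ) (S : Finset ℕ) (hS : ∀ p ∈ S, p.Prime) (k : ℕ → ℕ) (lev : Fin m → ℕ) (hlev : Monotone lev)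
    (Ω : (p : ℕ) → Set (Fin m → ZMod p)) (ω : ℕ → ℝ)
    (hΩ : ∀ p ∈ S, ∀ y : Fin m → ZMod p,
      (Nat.card {w : Fin m → ZMod p // w ∈ Ω p ∧ ∀ c, lev c < k p → w c = y c} : ℝ) =
        ω p * (p : ℝ) ^ (univ.filter fun c => k p ≤ lev c).card)
    (a : Fin m → ℤ) (H : Fin m → ℕ) (η : ℝ) (hη : 0 ≤ η)
    (hH : ∀ c, (∀ p ∈ S, lev c < k p) ∨ (∏ p ∈ S.filter (fun p => k p ≤ lev c), (p : ℝ)) ≤ η * H c) :
    |(Nat.card {x : Fin m → ℤ // (∀ c, a c ≤ x c ∧ x c < a c + H c) ∧
        ∀ p ∈ S, (fun c => ((x c : ℤ) : ZMod p)) ∈ Ω p} : ℝ) - (∏ c, (H c : ℝ)) * ∏ p ∈ S, ω p| ≤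
      ((1 + η) ^ m - 1) * ((∏ c, (H c : ℝ)) * ∏ p ∈ S, ω p) := by
  induction m generalizing ω with
  | zero =>
    classical
    have h1 : ∀ p ∈ S, ω p = if (fun c => c.elim0 : Fin 0 → ZMod p) ∈ Ω p then 1 else 0 := by
      intro p hp
      have h2 := hΩ p hp (fun c => c.elim0)
      have h3 : (univ.filter fun c : Fin 0 => k p ≤ lev c).card = 0 := by simp
      rw [h3, pow_zero, mul_one] at h2
      rw [← h2]
      split_ifs with h5
      · rw [card_one (fun c => c.elim0 : Fin 0 → ZMod p) _ ⟨h5, fun c => c.elim0⟩]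
        norm_num
      · rw [card_none (fun c => c.elim0 : Fin 0 → ZMod p) _ (fun h => h5 h.1)]
        norm_num
    have h6 : ∏ p ∈ S, ω p =
        if ∀ p ∈ S, (fun c => c.elim0 : Fin 0 → ZMod p) ∈ Ω p then 1 else 0 := by
      rw [prod_congr rfl h1, prod_ite_zero]
      simp
    have h10 : ∀ (x : Fin 0 → ℤ) (p : ℕ), (fun c : Fin 0 => ((x c : ℤ) : ZMod p)) =
        (fun c => c.elim0 : Fin 0 → ZMod p) := fun x p => Subsingleton.elim _ _
    have h7 : (Nat.card {x : Fin 0 → ℤ // (∀ c, a c ≤ x c ∧ x c < a c + H c) ∧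
        ∀ p ∈ S, (fun c => ((x c : ℤ) : ZMod p)) ∈ Ω p} : ℝ) = ∏ p ∈ S, ω p := by
      rw [h6]
      split_ifs with h5
      · rw [card_one (fun c => c.elim0 : Fin 0 → ℤ) _ ⟨fun c => c.elim0, fun p hp => by
          rw [h10]; exact h5 p hp⟩]
        norm_num
      · rw [card_none (fun c => c.elim0 : Fin 0 → ℤ) _ (fun h => h5 (fun p hp => by
          have := h.2 p hp
          rw [h10] at this; exact this))]
        norm_num
    rw [h7]
    simp
  | succ m ih =>
    classical
    have hω0 : ∀ p ∈ S, 0 ≤ ω p := by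
      intro p hp
      have h2 := hΩ p hp 0
      have h3 : (0 : ℝ) < (p : ℝ) ^ (univ.filter fun c => k p ≤ lev c).card :=
        pow_pos (by exact_mod_cast (hS p hp).pos) _
      have h4 : (0 : ℝ) ≤ ω p * (p : ℝ) ^ (univ.filter fun c => k p ≤ lev c).card := by
        rw [← h2]; positivity
      by_contra h5
      push Not at h5
      have := mul_neg_of_neg_of_pos h5 h3
      linarith
    set S0 : Finset ℕ := S.filter (fun p => k p ≤ lev 0) with hS0
    set φ : (p : ℕ) → ZMod p → ℝ := fun p r =>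
      (Nat.card {w : Fin m → ZMod p // Fin.cons r w ∈ Ω p} : ℝ) / (p : ℝ) ^ m with hφ
    set V0 : ℝ := ∏ c : Fin m, (H (Fin.succ c) : ℝ) with hV0
    set W : ℝ := ∏ p ∈ S0, ω p with hW
    set R : ℝ := ∏ p ∈ S.filter (fun p => ¬ k p ≤ lev 0), ω p with hR
    set N' : ℤ → ℝ := fun x0 => (Nat.card {x : Fin m → ℤ //
        (∀ c, a (Fin.succ c) ≤ x c ∧ x c < a (Fin.succ c) + H (Fin.succ c)) ∧
          ∀ p ∈ S, (fun c => ((x c : ℤ) : ZMod p)) ∈
            {w : Fin m → ZMod p | Fin.cons ((x0 : ℤ) : ZMod p) w ∈ Ω p}} : ℝ) with hN'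
    have hWR : ∏ p ∈ S, ω p = W * R := by
      rw [hW, hR, hS0, prod_filter_mul_prod_filter_not]
    have hW0 : 0 ≤ W := prod_nonneg fun p hp => hω0 p (mem_filter.1 hp).1
    have hR0 : 0 ≤ R := prod_nonneg fun p hp => hω0 p (mem_filter.1 hp).1
    have hV00 : 0 ≤ V0 := prod_nonneg fun c _ => by positivity
    -- the total count
    have hN : (Nat.card {x : Fin (m + 1) → ℤ // (∀ c, a c ≤ x c ∧ x c < a c + H c) ∧
        ∀ p ∈ S, (fun c => ((x c : ℤ) : ZMod p)) ∈ Ω p} : ℝ) =
        ∑ x0 ∈ Ico (a 0) (a 0 + H 0), N' x0 := by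
      rw [card_box_succ]
      push_cast
      refine sum_congr rfl fun x0 _ => ?_
      have h1 : ∀ x : Fin m → ℤ, ∀ p : ℕ,
          (fun c => (((Fin.cons x0 x : Fin (m + 1) → ℤ) c : ℤ) : ZMod p)) =
            Fin.cons ((x0 : ℤ) : ZMod p) (fun c => ((x c : ℤ) : ZMod p)) := by
        intro x p
        funext c
        refine Fin.cases ?_ (fun c => ?_) c
        · simp
        · simp
      simp only [hN', h1]
      rfl
    -- the count in a slice
    have hslice : ∀ x0 : ℤ, |N' x0 - V0 * ((∏ p ∈ S0, φ p ((x0 : ℤ) : ZMod p)) * R)| ≤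
        ((1 + η) ^ m - 1) * (V0 * ((∏ p ∈ S0, φ p ((x0 : ℤ) : ZMod p)) * R)) := by
      intro x0
      have h1 := ih (fun c => lev (Fin.succ c))
        (fun c d hcd => hlev (Fin.succ_le_succ_iff.2 hcd))
        (fun p => {w : Fin m → ZMod p | Fin.cons ((x0 : ℤ) : ZMod p) w ∈ Ω p})
        (fun p => if k p ≤ lev 0 then φ p ((x0 : ℤ) : ZMod p) else ω p) ?_
        (fun c => a (Fin.succ c)) (fun c => H (Fin.succ c)) (fun c => hH (Fin.succ c))
      · have h2 : ∏ p ∈ S, (if k p ≤ lev 0 then φ p ((x0 : ℤ) : ZMod p) else ω p) =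
            (∏ p ∈ S0, φ p ((x0 : ℤ) : ZMod p)) * R := by
          rw [prod_ite]
        rw [h2] at h1
        exact h1
      · intro p hp y
        have : NeZero p := ⟨(hS p hp).ne_zero⟩
        by_cases hk : k p ≤ lev 0
        · rw [if_pos hk]
          have h3 : ∀ c : Fin m, k p ≤ lev (Fin.succ c) := fun c =>
            hk.trans (hlev (Fin.zero_le _))
          have h4 : (univ.filter fun c : Fin m => k p ≤ lev (Fin.succ c)).card = m := by
            rw [filter_true_of_mem (fun c _ => h3 c)]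
            simp
          rw [h4, hφ]
          have h5 : (0 : ℝ) < (p : ℝ) ^ m := pow_pos (by exact_mod_cast (hS p hp).pos) _
          rw [div_mul_cancel₀ _ h5.ne']
          norm_cast
          apply Nat.card_congr
          refine Equiv.subtypeEquivRight fun w => ?_
          constructor
          · intro h; exact h.1
          · intro h; exact ⟨h, fun c hc => absurd hc (not_lt.2 (h3 c))⟩
        · rw [if_neg hk]
          have h3 := hΩ p hp (Fin.cons ((x0 : ℤ) : ZMod p) y)
          have h4 : (univ.filter fun c : Fin (m + 1) => k p ≤ lev c).card =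
              (univ.filter fun c : Fin m => k p ≤ lev (Fin.succ c)).card := by
            rw [Fin.card_filter_univ_succ, if_neg hk]
          rw [h4] at h3
          rw [← h3]
          norm_cast
          symm
          apply Nat.card_congr
          exact
            { toFun := fun w => ⟨Fin.tail w.1, by
                have h5 : w.1 0 = ((x0 : ℤ) : ZMod p) := by
                  have := w.2.2 0 (not_le.1 hk)
                  simpa using this
                have h6 := cons_tl w.1 _ h5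
                refine ⟨?_, fun c hc => ?_⟩
                · show Fin.cons ((x0 : ℤ) : ZMod p) (Fin.tail w.1) ∈ Ω p
                  rw [h6]
                  exact w.2.1
                · have := w.2.2 (Fin.succ c) hc
                  simpa [Fin.tail] using this⟩
              invFun := fun w => ⟨Fin.cons ((x0 : ℤ) : ZMod p) w.1, w.2.1, by
                intro c
                refine Fin.cases ?_ (fun c => ?_) c
                · intro _; simp
                · intro hc
                  have := w.2.2 c hc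
                  simpa using this⟩
              left_inv := fun w => by
                apply Subtype.ext
                have h5 : w.1 0 = ((x0 : ℤ) : ZMod p) := by
                  have := w.2.2 0 (not_le.1 hk)
                  simpa using this
                exact cons_tl w.1 _ h5
              right_inv := fun w => by
                apply Subtype.ext
                rfl }
    -- one dimension
    set A : ℝ := ∑ x0 ∈ Ico (a 0) (a 0 + H 0), ∏ p ∈ S0, φ p ((x0 : ℤ) : ZMod p) with hA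
    have hA1 : |A - H 0 * W| ≤ η * (H 0 * W) := by
      have h1 := one_dim S0 (fun p hp => hS p (mem_filter.1 hp).1) φ
        (fun p _ r => by rw [hφ]; positivity) ω ?_ (a 0) (H 0)
      · refine h1.trans ?_
        split_ifs with h2
        · positivity
        · rcases hH 0 with h3 | h3
          · exfalso
            apply h2
            rw [hS0, filter_eq_empty_iff]
            intro p hp
            exact not_le.2 (h3 p hp)
          · have h4 := mul_le_mul_of_nonneg_right h3 hW0
            calc (∏ p ∈ S0, (p : ℝ)) * ∏ p ∈ S0, ω p ≤ η * (H 0) * W := h4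
              _ = η * (H 0 * W) := by ring
      · intro p hp
        have hp' := (mem_filter.1 hp).1
        have hk := (mem_filter.1 hp).2
        have : NeZero p := ⟨(hS p hp').ne_zero⟩
        have h3 : ∀ c : Fin (m + 1), k p ≤ lev c := fun c => hk.trans (hlev (Fin.zero_le _))
        have h4 : (univ.filter fun c : Fin (m + 1) => k p ≤ lev c).card = m + 1 := by
          rw [filter_true_of_mem (fun c _ => h3 c)]
          simp
        have h5 := hΩ p hp' 0
        rw [h4] at h5
        have h6 : Nat.card {w : Fin (m + 1) → ZMod p // w ∈ Ω p ∧ ∀ c, lev c < k p →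
            w c = (0 : Fin (m + 1) → ZMod p) c} = Nat.card {w : Fin (m + 1) → ZMod p // w ∈ Ω p} := by
          apply Nat.card_congr
          refine Equiv.subtypeEquivRight fun w => ?_
          constructor
          · intro h; exact h.1
          · intro h; exact ⟨h, fun c hc => absurd hc (not_lt.2 (h3 c))⟩
        rw [h6, card_mod_succ (hS p hp')] at h5
        have h7 : (0 : ℝ) < (p : ℝ) ^ m := pow_pos (by exact_mod_cast (hS p hp').pos) _
        simp only [hφ]
        rw [← sum_div, div_eq_iff h7.ne', h5]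
        ring
    have hA0 : 0 ≤ A := sum_nonneg fun x0 _ => prod_nonneg fun p _ => by
      rw [hφ]; positivity
    have hsum : |(∑ x0 ∈ Ico (a 0) (a 0 + H 0), N' x0) - V0 * (A * R)| ≤
        ((1 + η) ^ m - 1) * (V0 * (A * R)) := by
      have h1 : V0 * (A * R) = ∑ x0 ∈ Ico (a 0) (a 0 + H 0),
          V0 * ((∏ p ∈ S0, φ p ((x0 : ℤ) : ZMod p)) * R) := by
        rw [hA, sum_mul, mul_sum]
      rw [h1, ← sum_sub_distrib, mul_sum]
      exact (abs_sum_le_sum_abs _ _).trans (sum_le_sum fun x0 _ => hslice x0)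
    rw [hN, hWR, Fin.prod_univ_succ]
    have hη1 : 0 ≤ (1 + η) ^ m - 1 := by
      have := one_le_pow₀ (n := m) (show (1 : ℝ) ≤ 1 + η by linarith)
      linarith
    have hAle : A ≤ (1 + η) * (H 0 * W) := by
      have := (abs_le.1 hA1).2
      linarith
    have hVR : 0 ≤ V0 * R := mul_nonneg hV00 hR0
    calc |(∑ x0 ∈ Ico (a 0) (a 0 + H 0), N' x0) - H 0 * V0 * (W * R)|
        = |((∑ x0 ∈ Ico (a 0) (a 0 + H 0), N' x0) - V0 * (A * R)) +
            V0 * R * (A - H 0 * W)| := by congr 1; ring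
      _ ≤ |(∑ x0 ∈ Ico (a 0) (a 0 + H 0), N' x0) - V0 * (A * R)| +
            |V0 * R * (A - H 0 * W)| := abs_add_le _ _
      _ ≤ ((1 + η) ^ m - 1) * (V0 * (A * R)) + V0 * R * (η * (H 0 * W)) := by
          rw [abs_mul (V0 * R), abs_of_nonneg hVR]
          exact add_le_add hsum (mul_le_mul_of_nonneg_left hA1 hVR)
      _ = ((1 + η) ^ m - 1) * (V0 * R) * A + V0 * R * (η * (H 0 * W)) := by ring
      _ ≤ ((1 + η) ^ m - 1) * (V0 * R) * ((1 + η) * (H 0 * W)) + V0 * R * (η * (H 0 * W)) := by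
          gcongr
      _ = ((1 + η) ^ (m + 1) - 1) * (H 0 * V0 * (W * R)) := by ring

end TW
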