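import Pool.Agent.Lib.MP_10e784_ag.TW.TWEqui

/-! JOB TWEquiK.  The same for an arbitrary finite index type and an arbitrary level function.

Transport `equi` along an equivalence `e : Fin m ≃ κ`, `m = Fintype.card κ`, for which `lev ∘ e` is monotone: take any `e0 : Fin m ≃ κ` (`Fintype.equivFin`) and `e = (Tuple.sort (lev ∘ e0)).trans e0` (`Tuple.monotone_sort`).
Everything is a reindexing: `Nat.card_congr` with `Equiv.arrowCongr`/`Equiv.piCongrLeft`, `Fintype.prod_equiv`, `Finset.card` of filters over `univ` (`Finset.card_equiv`/`Fintype.card_congr`). -/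

namespace TW

open Finset

theorem equiK {κ : Type} [Fintype κ] [DecidableEq κ] (S : Finset ℕ) (hS : ∀ p ∈ S, p.Prime) (k : ℕ → ℕ) (lev : κ → ℕ)
    (Ω : (p : ℕ) → Set (κ → ZMod p)) (ω : ℕ → ℝ)
    (hΩ : ∀ p ∈ S, ∀ y : κ → ZMod p,
      (Nat.card {w : κ → ZMod p // w ∈ Ω p ∧ ∀ c, lev c < k p → w c = y c} : ℝ) =
        ω p * (p : ℝ) ^ (univ.filter fun c => k p ≤ lev c).card)
    (a : κ → ℤ) (H : κ → ℕ) (η : ℝ) (hη : 0 ≤ η)
    (hH : ∀ c, (∀ p ∈ S, lev c < k p) ∨ (∏ p ∈ S.filter (fun p => k p ≤ lev c), (p : ℝ)) ≤ η * H c) :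
    |(Nat.card {x : κ → ℤ // (∀ c, a c ≤ x c ∧ x c < a c + H c) ∧
        ∀ p ∈ S, (fun c => ((x c : ℤ) : ZMod p)) ∈ Ω p} : ℝ) - (∏ c, (H c : ℝ)) * ∏ p ∈ S, ω p| ≤
      ((1 + η) ^ Fintype.card κ - 1) * ((∏ c, (H c : ℝ)) * ∏ p ∈ S, ω p) := by
  classical
  obtain ⟨m, hm⟩ : ∃ m, Fintype.card κ = m := ⟨_, rfl⟩
  let e0 : Fin m ≃ κ := (Fintype.equivFinOfCardEq hm).symm
  let e : Fin m ≃ κ := (Tuple.sort (lev ∘ e0)).trans e0
  have hmono : Monotone (lev ∘ e) := Tuple.monotone_sort (lev ∘ e0)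
  have hΩ' : ∀ p ∈ S, ∀ y : Fin m → ZMod p,
      (Nat.card {w : Fin m → ZMod p // w ∈ {w : Fin m → ZMod p | (fun c => w (e.symm c)) ∈ Ω p} ∧
        ∀ c, (lev ∘ e) c < k p → w c = y c} : ℝ) =
        ω p * (p : ℝ) ^ (univ.filter fun c => k p ≤ (lev ∘ e) c).card := by
    intro p hp y
    have h1 := hΩ p hp (fun c => y (e.symm c))
    have h2 : Nat.card {w : Fin m → ZMod p //
        w ∈ {w : Fin m → ZMod p | (fun c => w (e.symm c)) ∈ Ω p} ∧
        ∀ c, (lev ∘ e) c < k p → w c = y c} =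
        Nat.card {w : κ → ZMod p // w ∈ Ω p ∧ ∀ c, lev c < k p → w c = y (e.symm c)} := by
      refine Nat.card_congr (Equiv.subtypeEquiv (Equiv.arrowCongr e (Equiv.refl _)) ?_)
      intro w
      have h3 : (Equiv.arrowCongr e (Equiv.refl (ZMod p))) w = fun c => w (e.symm c) := by
        funext c
        simp [Equiv.arrowCongr]
      rw [h3]
      refine and_congr Iff.rfl ?_
      constructor
      · intro h c hc
        exact h (e.symm c) (by simpa using hc)
      · intro h c hc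
        have h4 := h (e c) hc
        simpa using h4
    have h5 : (univ.filter fun c => k p ≤ (lev ∘ e) c).card =
        (univ.filter fun c => k p ≤ lev c).card := by
      refine Finset.card_equiv e (fun i => ?_)
      simp
    rw [h2, h5]
    exact h1
  have hH' : ∀ c, (∀ p ∈ S, (lev ∘ e) c < k p) ∨
      (∏ p ∈ S.filter (fun p => k p ≤ (lev ∘ e) c), (p : ℝ)) ≤ η * (H (e c) : ℝ) := fun c =>
    hH (e c)
  have main := equi m S hS k (lev ∘ e) hmono
    (fun p => {w : Fin m → ZMod p | (fun c => w (e.symm c)) ∈ Ω p}) ω hΩ'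
    (fun c => a (e c)) (fun c => H (e c)) η hη hH'
  have hcard : Nat.card {x : Fin m → ℤ // (∀ c, a (e c) ≤ x c ∧ x c < a (e c) + H (e c)) ∧
        ∀ p ∈ S, (fun c => ((x c : ℤ) : ZMod p)) ∈
          {w : Fin m → ZMod p | (fun c => w (e.symm c)) ∈ Ω p}} =
      Nat.card {x : κ → ℤ // (∀ c, a c ≤ x c ∧ x c < a c + H c) ∧
        ∀ p ∈ S, (fun c => ((x c : ℤ) : ZMod p)) ∈ Ω p} := by
    refine Nat.card_congr (Equiv.subtypeEquiv (Equiv.arrowCongr e (Equiv.refl _)) ?_)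
    intro x
    have h3 : (Equiv.arrowCongr e (Equiv.refl ℤ)) x = fun c => x (e.symm c) := by
      funext c
      simp [Equiv.arrowCongr]
    rw [h3]
    refine and_congr ?_ Iff.rfl
    constructor
    · intro h c
      have h4 := h (e.symm c)
      simpa using h4
    · intro h c
      have h4 := h (e c)
      simpa using h4
  have hprod : ∏ c, ((H (e c) : ℕ) : ℝ) = ∏ c, (H c : ℝ) :=
    Fintype.prod_equiv e _ _ (fun _ => rfl)
  rw [hcard, hprod, ← hm] at main
  exact main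

end TW
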