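import Pool.Agent.Lib.MP_10e784_ag.TW.TWDefs

/-! JOB TWExt.  Two algebraic lemmas.

`ext_hom`: for `x : S` let `r x` be the element with `m x = r x` (unique by injectivity).  `ψ x = φ (r x) / φ m`.  `ψ` is additive (`r (x + y) = r x + r y`), `ψ 1 = 1` (`r 1 = m`), `r (algebraMap s) = m s` so `ψ (algebraMap s) = φ s`; multiplicative: `m * r (x y) = m ^ 2 x y = r x * r y` in `S`, hence in `R` by injectivity, so `φ m * φ (r (x y)) = φ (r x) φ (r y)`.
`sq_transfer`: `γ ^ 2 = α / β`.  Let `P = ker φ`, a prime ideal of `R`, `T = R \ P`; `β ∈ T`.  The localization `R_P` is integrally closed (`IsIntegrallyClosed.of_localization...` / `isIntegrallyClosed_of_isLocalization`, `IsLocalization.isIntegrallyClosed`), `γ ∈ K` is integral over it (a root of `X ^ 2 - α / β`), so `γ = a / b` with `a ∈ R`, `b ∈ R`, `φ b ≠ 0`.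
Elementary alternative without localizations: `β γ` is integral over `R` (`(β γ) ^ 2 = α β`), so `β γ = c ∈ R` (`IsIntegrallyClosed`), and `c ^ 2 = α β` in `R`; hence `φ α * φ β = φ c ^ 2`.  (This proof is three lines and does not even need `φ β ≠ 0`.) -/

namespace TW

theorem ext_hom {R S F : Type} [CommRing R] [CommRing S] [Field F] [Algebra R S] (hinj : Function.Injective (algebraMap R S))
    (m : R) (hm : ∀ x : S, ∃ r : R, algebraMap R S m * x = algebraMap R S r) (φ : R →+* F) (hφ : φ m ≠ 0) :
    ∃ ψ : S →+* F, ∀ r, ψ (algebraMap R S r) = φ r := by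
  choose r hr using hm
  have h1 : r 1 = m := by
    apply hinj
    rw [← hr, mul_one]
  have h0 : r 0 = 0 := by
    apply hinj
    rw [← hr, mul_zero, map_zero]
  have hadd : ∀ x y, r (x + y) = r x + r y := by
    intro x y
    apply hinj
    rw [← hr, map_add, ← hr, ← hr, mul_add]
  have hmul : ∀ x y, m * r (x * y) = r x * r y := by
    intro x y
    apply hinj
    rw [map_mul, map_mul, ← hr, ← hr, ← hr]
    ring
  have hal : ∀ s, r (algebraMap R S s) = m * s := by
    intro s
    apply hinj
    rw [← hr, map_mul]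
  refine ⟨⟨⟨⟨fun x => φ (r x) / φ m, ?_⟩, ?_⟩, ?_, ?_⟩, ?_⟩
  · change φ (r 1) / φ m = 1
    rw [h1, div_self hφ]
  · intro x y
    change φ (r (x * y)) / φ m = φ (r x) / φ m * (φ (r y) / φ m)
    have h2 := congrArg φ (hmul x y)
    rw [map_mul, map_mul] at h2
    field_simp
    linear_combination h2
  · change φ (r 0) / φ m = 0
    rw [h0, map_zero, zero_div]
  · intro x y
    change φ (r (x + y)) / φ m = φ (r x) / φ m + φ (r y) / φ m
    rw [hadd, map_add, add_div]
  · intro s
    change φ (r (algebraMap R S s)) / φ m = φ s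
    rw [hal, map_mul]
    field_simp

theorem sq_transfer {R K F : Type} [CommRing R] [IsDomain R] [IsIntegrallyClosed R] [Field K] [Algebra R K] [IsFractionRing R K]
    [CommRing F] (φ : R →+* F) (α β : R) (γ : K) (h : algebraMap R K α = algebraMap R K β * γ ^ 2) :
    IsSquare (φ α * φ β) := by
  have h1 : (algebraMap R K β * γ) ^ 2 = algebraMap R K (α * β) := by
    rw [map_mul, h]
    ring
  obtain ⟨c, hc⟩ := IsIntegrallyClosed.exists_algebraMap_eq_of_isIntegral_pow (R := R) (x := algebraMap R K β * γ)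
    (n := 2) (by norm_num) (by rw [h1]; exact isIntegral_algebraMap)
  have h2 : α * β = c ^ 2 := by
    apply IsFractionRing.injective R K
    rw [map_pow, hc, h1]
  refine ⟨φ c, ?_⟩
  rw [← map_mul, h2, map_pow, sq]

end TW
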