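import Pool.Agent.Lib.MP_10e784_ag.TW.TWCrt

/-! JOB TWFamC.  The count for a family with frozen coordinates.

The vectors `w : Co g → ZMod p` with `w c = y c` for `c.1 ∉ I` correspond to `(i : I) → (Fin (g i).natDegree → ZMod p)` (`w ⟨i, c⟩`), and the condition is a product of conditions, one for each `i ∈ I`: `Nat.card` of the set is `∏ i ∈ I, Nat.card {w : Fin (g i).natDegree → ZMod p // ∀ h ∈ facs (red p (g i)), mk h (..) ∈ E i h}` (`Nat.card_congr` with an explicit equivalence
to `(i : I) → {w // ..}`, `Nat.card_pi`, `Finset.prod_coe_sort`), then `crt_count` (with `red_monic`, `red_sqf`). -/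

namespace TW

open Polynomial Finset

theorem fam_count {ι : Type} [Fintype ι] [DecidableEq ι] {g : ι → ℤ[X]} (hg : Fam g) (p : ℕ) [Fact p.Prime] (hp : GoodP g p)
    (I : Finset ι) (y : Co g → ZMod p) (E : ι → (h : (ZMod p)[X]) → Set (AdjoinRoot h)) :
    Nat.card {w : Co g → ZMod p // (∀ i ∈ I, ∀ h ∈ facs (red p (g i)), AdjoinRoot.mk h (pol g w i) ∈ E i h) ∧
        ∀ c : Co g, c.1 ∉ I → w c = y c} =
      ∏ i ∈ I, ∏ h ∈ facs (red p (g i)), Nat.card (E i h) := by
  have e : {w : Co g → ZMod p // (∀ i ∈ I, ∀ h ∈ facs (red p (g i)),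
        AdjoinRoot.mk h (pol g w i) ∈ E i h) ∧ ∀ c : Co g, c.1 ∉ I → w c = y c} ≃
      ((i : I) → {u : Fin (g i).natDegree → ZMod p // ∀ h ∈ facs (red p (g i)),
        AdjoinRoot.mk h (∑ c : Fin (g i).natDegree, C (u c) * X ^ (c : ℕ)) ∈ E i h}) :=
    { toFun := fun w i => ⟨fun c => w.1 ⟨i, c⟩, fun h hh => w.2.1 i i.2 h hh⟩
      invFun := fun u => ⟨fun c => if hc : c.1 ∈ I then (u ⟨c.1, hc⟩).1 c.2 else y c, by
        refine ⟨fun i hi h hh => ?_, fun c hc => dif_neg hc⟩
        have h1 := (u ⟨i, hi⟩).2 h hh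
        have h2 : pol g (fun c => if hc : c.1 ∈ I then (u ⟨c.1, hc⟩).1 c.2 else y c) i =
            ∑ c : Fin (g i).natDegree, C ((u ⟨i, hi⟩).1 c) * X ^ (c : ℕ) := by
          rw [pol]
          exact Finset.sum_congr rfl fun c _ => by rw [dif_pos hi]
        rw [h2]
        exact h1⟩
      left_inv := by
        rintro ⟨w, hw1, hw2⟩
        apply Subtype.ext
        funext c
        by_cases hc : c.1 ∈ I
        · simp only [dif_pos hc]
        · simp only [dif_neg hc]
          exact (hw2 c hc).symm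
      right_inv := by
        intro u
        funext i
        apply Subtype.ext
        funext c
        simp only [dif_pos i.2] }
  rw [Nat.card_congr e, Nat.card_pi, ← Finset.prod_coe_sort I
    (fun i => ∏ h ∈ facs (red p (g i)), Nat.card (E i h))]
  refine Finset.prod_congr rfl fun i _ => ?_
  exact crt_count p (g i).natDegree (red p (g i)) (red_monic hg p i).2 (red_monic hg p i).1
    (red_sqf hg p hp i) (E i)

end TW
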