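import Pool.Agent.Lib.MP_10e784_ag.TW.TWRed

/-! The final statements from the main theorem for families. -/

namespace TW

open Finset Polynomial Filter

/-- the main theorem for families, as a proposition -/
def MainTW : Prop := ∀ (n : ℕ) (g : Fin n → ℤ[X]), Fam g → ∀ a : ℤ, a ≠ 0 →
  Tendsto (fun N : ℕ => (Nat.card {D : ℤ // Squarefree D ∧ |D| ≤ (N : ℤ) ∧ ∃ u v : ℤ, IsCoprime u v ∧
    (∀ i, PT.hom (g i) u v ≠ 0) ∧ IsSquare (D * a * ∏ i, PT.hom (g i) u v) ∧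
    ∀ i₀, ¬ Triv g i₀ (fun _ => C (u : ℚ) - C (v : ℚ) * X)} : ℝ) / N) atTop (nhds 0)

private theorem twfin_squeeze (P Q : ℤ → Prop) (h : ∀ D : ℤ, Squarefree D → P D → Q D)
    (hQ : Tendsto (fun N : ℕ => (Nat.card {D : ℤ // Squarefree D ∧ |D| ≤ (N : ℤ) ∧ Q D} : ℝ) / N) atTop (nhds 0)) :
    Tendsto (fun N : ℕ => (Nat.card {D : ℤ // Squarefree D ∧ |D| ≤ (N : ℤ) ∧ P D} : ℝ) / N) atTop (nhds 0) := by
  refine squeeze_zero (fun N => by positivity) (fun N => ?_) hQ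
  have hfin : Finite {D : ℤ // Squarefree D ∧ |D| ≤ (N : ℤ) ∧ Q D} := by
    apply Set.Finite.to_subtype
    apply (Set.finite_Icc (-(N : ℤ)) N).subset
    rintro D ⟨-, h2, -⟩
    exact abs_le.1 h2
  have h1 := Nat.card_le_card_of_injective
    (fun z : {D : ℤ // Squarefree D ∧ |D| ≤ (N : ℤ) ∧ P D} =>
      (⟨z.1, z.2.1, z.2.2.1, h z.1 z.2.1 z.2.2.2⟩ : {D : ℤ // Squarefree D ∧ |D| ≤ (N : ℤ) ∧ Q D}))
    (fun x y hxy => by
      have h2 := congrArg Subtype.val hxy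
      exact Subtype.ext h2)
  have h2 : (Nat.card {D : ℤ // Squarefree D ∧ |D| ≤ (N : ℤ) ∧ P D} : ℝ) ≤
      (Nat.card {D : ℤ // Squarefree D ∧ |D| ≤ (N : ℤ) ∧ Q D} : ℝ) := by exact_mod_cast h1
  exact div_le_div_of_nonneg_right h2 (Nat.cast_nonneg _)

theorem fin_even (main : MainTW) (f : ℚ[X]) (hf : Squarefree f) (hdeg : Even f.natDegree) (h6 : 6 ≤ f.natDegree)
    (hroot : ∀ x : ℚ, f.eval x ≠ 0) :
    Tendsto (fun N : ℕ => (Nat.card {D : ℤ // Squarefree D ∧ |D| ≤ (N : ℤ) ∧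
      ∃ x y : ℚ, (D : ℚ) * y ^ 2 = f.eval x} : ℝ) / N) atTop (nhds 0) := by
  obtain ⟨n, g, a, hg, ha, h⟩ := red_E f hf hdeg h6 hroot
  exact twfin_squeeze _ _ (fun D _ hP => h D hP) (main n g hg a ha)

theorem fin_odd (main : MainTW) (f : ℚ[X]) (hf : Squarefree f) (hdeg : Odd f.natDegree) (h5 : 5 ≤ f.natDegree)
    (hroot : ∀ x : ℚ, f.eval x ≠ 0) :
    Tendsto (fun N : ℕ => (Nat.card {D : ℤ // Squarefree D ∧ |D| ≤ (N : ℤ) ∧
      ∃ x y : ℚ, (D : ℚ) * y ^ 2 = f.eval x ∧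
        ¬ ∃ h : ℚ[X], f ∣ C (f.leadingCoeff * D) * (C x - X) - h ^ 2} : ℝ) / N) atTop (nhds 0) := by
  obtain ⟨n, g, a, hg, ha, h⟩ := red_O f hf hdeg h5 hroot
  exact twfin_squeeze _ _ (fun D hD hP => h D hD.ne_zero hP) (main n g hg a ha)

end TW
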