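import Pool.Agent.Lib.MP_10e784_ag.TW.TWDefs

/-! JOB TWHq.  Homogeneous evaluation of rational polynomials.

`hq q x y = y ^ deg q * q (x / y)` if `y ≠ 0` and `leadingCoeff * x ^ deg q` if `y = 0` (only the top term survives; `0 ^ 0 = 1`).  `hq_prod`: both sides with these formulas (`natDegree_prod`, `eval_prod`, `leadingCoeff_prod`, domain); or prove `hq (p * q) = hq p * hq q` for nonzero `p, q` and use induction.
`hq_rev`: coefficients: `natDegree (X * f.reverse) = f.natDegree + 1` (`reverse_natDegree`, `natTrailingDegree = 0` since `f.coeff 0 ≠ 0`), `coeff (X * r) (k + 1) = coeff r k`, `coeff_reverse` with `revAt`, reindex `k ↦ f.natDegree - k` (`Finset.sum_range_reflect`), `eval_eq_sum_range`.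
`hom_scale`: `PT.hom g u v = ∑ coeff g k * u ^ k * v ^ (deg g - k)`, cast to `ℚ`, `(g.coeff k : ℚ) = (qq g).coeff k = q.coeff k * M ^ (deg q - k)` (`coeff_scaleRoots`), `natDegree g = natDegree (qq g) = natDegree q`.
`coprime_pt`: multiply `(x, y)` by a common denominator to get integers `(a, b) ≠ (0, 0)`, divide by `gcd`. -/

namespace TW

open Finset Polynomial

/-- homogeneous evaluation -/
noncomputable def hq (q : ℚ[X]) (x y : ℚ) : ℚ :=
  ∑ k ∈ range (q.natDegree + 1), q.coeff k * x ^ k * y ^ (q.natDegree - k)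

theorem hq_one (q : ℚ[X]) (x : ℚ) : hq q x 1 = q.eval x := by
  rw [hq, eval_eq_sum_range]
  refine sum_congr rfl fun k _ => ?_
  rw [one_pow, mul_one]

private theorem hq_ne (q : ℚ[X]) (x : ℚ) {y : ℚ} (hy : y ≠ 0) :
    hq q x y = y ^ q.natDegree * q.eval (x / y) := by
  rw [hq, eval_eq_sum_range, mul_sum]
  refine sum_congr rfl fun k hk => ?_
  have hk' : k ≤ q.natDegree := Nat.lt_succ_iff.1 (mem_range.1 hk)
  have h1 : y ^ q.natDegree = y ^ k * y ^ (q.natDegree - k) := by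
    rw [← pow_add, Nat.add_sub_cancel' hk']
  rw [h1, div_pow]
  have h2 : y ^ k ≠ 0 := pow_ne_zero k hy
  field_simp

private theorem hq_zero (q : ℚ[X]) (x : ℚ) : hq q x 0 = q.leadingCoeff * x ^ q.natDegree := by
  rw [hq, sum_range_succ, Nat.sub_self, pow_zero, mul_one]
  rw [sum_eq_zero, zero_add]
  · rfl
  · intro k hk
    have h1 : q.natDegree - k ≠ 0 := by
      have := mem_range.1 hk
      omega
    rw [zero_pow h1, mul_zero]

theorem hq_prod {n : ℕ} (q : Fin n → ℚ[X]) (h0 : ∀ i, q i ≠ 0) (c : ℚ) (hc : c ≠ 0) (x y : ℚ) :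
    hq (C c * ∏ i, q i) x y = c * ∏ i, hq (q i) x y := by
  have hp : (∏ i, q i) ≠ 0 := prod_ne_zero_iff.2 fun i _ => h0 i
  have hd : (C c * ∏ i, q i).natDegree = ∑ i, (q i).natDegree := by
    rw [natDegree_C_mul hc, natDegree_prod _ _ fun i _ => h0 i]
  by_cases hy : y = 0
  · subst hy
    rw [hq_zero, hd, leadingCoeff_mul, leadingCoeff_C, leadingCoeff_prod]
    simp only [hq_zero]
    rw [prod_mul_distrib, prod_pow_eq_pow_sum, mul_assoc]
  · rw [hq_ne _ _ hy, hd, eval_mul, eval_C, eval_prod]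
    simp only [hq_ne _ _ hy]
    rw [prod_mul_distrib, prod_pow_eq_pow_sum]
    ring

theorem hq_rev (f : ℚ[X]) (h0 : f.coeff 0 ≠ 0) (x : ℚ) : hq (X * f.reverse) 1 x = f.eval x := by
  have hf : f ≠ 0 := by
    rintro rfl
    exact h0 (coeff_zero 0)
  have ht : f.natTrailingDegree = 0 := natTrailingDegree_eq_zero.2 (Or.inr h0)
  have hr : f.reverse.natDegree = f.natDegree := by
    rw [reverse_natDegree, ht, Nat.sub_zero]
  have hr0 : f.reverse ≠ 0 := by
    rw [Ne, reverse_eq_zero]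
    exact hf
  have hd : (X * f.reverse).natDegree = f.natDegree + 1 := by
    rw [natDegree_X_mul hr0, hr]
  rw [hq, hd, sum_range_succ', eval_eq_sum_range, ← sum_range_reflect]
  have h1 : (X * f.reverse).coeff 0 = 0 := by
    rw [mul_coeff_zero, coeff_X_zero, zero_mul]
  rw [h1, zero_mul, zero_mul, add_zero]
  refine sum_congr rfl fun k hk => ?_
  have hk' : k ≤ f.natDegree := Nat.lt_succ_iff.1 (mem_range.1 hk)
  have h3 : f.natDegree + 1 - 1 - k = f.natDegree - k := by omega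
  have h2 : f.natDegree + 1 - (f.natDegree - k + 1) = k := by omega
  have h4 : f.natDegree - (f.natDegree - k) = k := by omega
  rw [coeff_X_mul, coeff_reverse, h3, revAt_le (Nat.sub_le _ _), one_pow, mul_one, h2, h4]

theorem hom_scale (g : ℤ[X]) (q : ℚ[X]) (M : ℤ) (h : qq g = q.scaleRoots (M : ℚ)) (l x y : ℚ) (u v : ℤ)
    (hu : (u : ℚ) = l * (M * x)) (hv : (v : ℚ) = l * y) :
    ((PT.hom g u v : ℤ) : ℚ) = (l * M) ^ q.natDegree * hq q x y := by
  have hd : g.natDegree = q.natDegree := by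
    have h1 : (qq g).natDegree = g.natDegree :=
      natDegree_map_eq_of_injective (RingHom.injective_int _) g
    rw [← h1, h, natDegree_scaleRoots]
  have hc : ∀ k, (g.coeff k : ℚ) = q.coeff k * (M : ℚ) ^ (q.natDegree - k) := by
    intro k
    have h1 : (qq g).coeff k = (g.coeff k : ℚ) := by
      rw [qq, coeff_map]
      rfl
    rw [← h1, h, coeff_scaleRoots]
  rw [PT.hom, hq, mul_sum, hd]
  push_cast
  refine sum_congr rfl fun k hk => ?_
  have hk' : k ≤ q.natDegree := Nat.lt_succ_iff.1 (mem_range.1 hk)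
  rw [hc k, hu, hv]
  have h1 : (l * (M : ℚ)) ^ q.natDegree
      = (l * (M : ℚ)) ^ k * (l * (M : ℚ)) ^ (q.natDegree - k) := by
    rw [← pow_add, Nat.add_sub_cancel' hk']
  rw [h1]
  simp only [mul_pow]
  ring

theorem coprime_pt (x y : ℚ) (h : x ≠ 0 ∨ y ≠ 0) :
    ∃ (u v : ℤ) (l : ℚ), IsCoprime u v ∧ l ≠ 0 ∧ (u : ℚ) = l * x ∧ (v : ℚ) = l * y := by
  have hxd : (x.den : ℚ) ≠ 0 := Nat.cast_ne_zero.2 x.den_nz
  have hyd : (y.den : ℚ) ≠ 0 := Nat.cast_ne_zero.2 y.den_nz
  have hx : x * x.den = x.num := Rat.mul_den_eq_num x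
  have hy : y * y.den = y.num := Rat.mul_den_eq_num y
  set a : ℤ := x.num * y.den with ha
  set b : ℤ := y.num * x.den with hb
  have ha' : (a : ℚ) = x.den * y.den * x := by
    rw [ha]
    push_cast
    rw [← hx]
    ring
  have hb' : (b : ℚ) = x.den * y.den * y := by
    rw [hb]
    push_cast
    rw [← hy]
    ring
  have hg : 0 < Int.gcd a b := by
    rw [Nat.pos_iff_ne_zero, Ne, Int.gcd_eq_zero_iff]
    rintro ⟨h1, h2⟩
    rcases h with h | h
    · rw [h1] at ha'
      have : (x.den : ℚ) * y.den * x ≠ 0 := mul_ne_zero (mul_ne_zero hxd hyd) h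
      exact this (by rw [← ha']; simp)
    · rw [h2] at hb'
      have : (x.den : ℚ) * y.den * y ≠ 0 := mul_ne_zero (mul_ne_zero hxd hyd) h
      exact this (by rw [← hb']; simp)
  have hg' : (Int.gcd a b : ℚ) ≠ 0 := Nat.cast_ne_zero.2 hg.ne'
  have h1 : (a / (Int.gcd a b : ℤ)) * (Int.gcd a b : ℤ) = a := Int.ediv_mul_cancel (Int.gcd_dvd_left ..)
  have h2 : (b / (Int.gcd a b : ℤ)) * (Int.gcd a b : ℤ) = b := Int.ediv_mul_cancel (Int.gcd_dvd_right ..)
  have h1' : ((a / (Int.gcd a b : ℤ) : ℤ) : ℚ) * (Int.gcd a b : ℚ) = a := by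
    exact_mod_cast h1
  have h2' : ((b / (Int.gcd a b : ℤ) : ℤ) : ℚ) * (Int.gcd a b : ℚ) = b := by
    exact_mod_cast h2
  refine ⟨a / (Int.gcd a b : ℤ), b / (Int.gcd a b : ℤ), x.den * y.den / (Int.gcd a b : ℚ), ?_,
    div_ne_zero (mul_ne_zero hxd hyd) hg', ?_, ?_⟩
  · rw [Int.isCoprime_iff_gcd_eq_one]
    exact Int.gcd_ediv_gcd_ediv_gcd hg
  · rw [div_mul_eq_mul_div, ← ha', eq_div_iff hg']
    exact h1'
  · rw [div_mul_eq_mul_div, ← hb', eq_div_iff hg']
    exact h2'

end TW
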