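import Pool.Agent.Lib.MP_10e784_ag.TW.TWExt

/-! JOB TWKf.  The number field of a monic irreducible polynomial.

`gen_exists`: `K = AdjoinRoot (qq g)` with `Fact (Irreducible (qq g))` is a field of characteristic zero, finite over `ℚ` (`AdjoinRoot.powerBasis`), `θ` = the class of `X`, integral over `ℤ` because `g` is monic (see `PT.root_primes` in `PTRoot.lean` for the instances: model).
`gen_int`: `aeval θ P = 0` in `𝓞 K` iff `g ∣ P`: divide by the monic `g` (`%ₘ`), a polynomial of smaller degree with `aeval = 0` vanishes since `minpoly ℚ θ = qq g` (`minpoly.eq_of_irreducible_of_monic`).  `gen_rat`: `minpoly.dvd_iff`.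
`gen_span`: `1, θ, .., θ ^ (n-1)` is a `ℚ`-basis of `K` (they are independent because `qq g` is the minimal polynomial and `finrank = n`), so every element of `K` is `aeval θ P` with `P : ℚ[X]`. -/

namespace TW

open Polynomial NumberField

structure Gen (g : ℤ[X]) (K : Type) [Field K] [NumberField K] (θ : 𝓞 K) : Prop where
  monic : g.Monic
  irr : Irreducible (qq g)
  root : aeval θ g = 0
  deg : Module.finrank ℚ K = g.natDegree

theorem twkf_coe {K : Type} [Field K] [NumberField K] (θ : 𝓞 K) (P : ℤ[X]) :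
    ((aeval θ P : 𝓞 K) : K) = aeval (θ : K) (qq P) := by
  have h1 : aeval (θ : K) P = ((aeval θ P : 𝓞 K) : K) := aeval_algebraMap_apply K θ P
  rw [← h1]
  exact (aeval_map_algebraMap ℚ (θ : K) P).symm

theorem twkf_zero {K : Type} [Field K] [NumberField K] (θ : 𝓞 K) (P : ℤ[X]) :
    aeval θ P = 0 ↔ aeval (θ : K) (qq P) = 0 := by
  rw [← twkf_coe]
  constructor
  · intro h
    rw [h]
    rfl
  · intro h
    exact RingOfIntegers.coe_injective (h.trans rfl)

theorem twkf_minpoly {K : Type} [Field K] [NumberField K] {g : ℤ[X]} (hm : g.Monic) (hirr : Irreducible (qq g)) {θ : K}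
    (h : aeval θ (qq g) = 0) : qq g = minpoly ℚ θ :=
  minpoly.eq_of_irreducible_of_monic hirr h (hm.map _)

theorem gen_exists (g : ℤ[X]) (hm : g.Monic) (hirr : Irreducible (qq g)) :
    ∃ (K : Type) (_ : Field K) (_ : NumberField K) (θ : 𝓞 K), Gen g K θ := by
  have hfact : Fact (Irreducible (qq g)) := ⟨hirr⟩
  have hmk : ∀ q : ℚ[X], aeval (AdjoinRoot.root (qq g)) q = AdjoinRoot.mk (qq g) q := fun q => AdjoinRoot.aeval_eq q
  have hroot : aeval (AdjoinRoot.root (qq g)) g = 0 := by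
    have h1 : aeval (AdjoinRoot.root (qq g)) (qq g) = aeval (AdjoinRoot.root (qq g)) g :=
      aeval_map_algebraMap ℚ (AdjoinRoot.root (qq g)) g
    rw [← h1, hmk, AdjoinRoot.mk_self]
  have hint : IsIntegral ℤ (AdjoinRoot.root (qq g)) := ⟨g, hm, hroot⟩
  obtain ⟨t, ht⟩ : ∃ t : 𝓞 (AdjoinRoot (qq g)), (t : AdjoinRoot (qq g)) = AdjoinRoot.root (qq g) := ⟨⟨_, hint⟩, rfl⟩
  refine ⟨AdjoinRoot (qq g), inferInstance, inferInstance, t, hm, hirr, ?_, ?_⟩
  · refine RingOfIntegers.coe_injective ?_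
    have h1 : aeval (t : AdjoinRoot (qq g)) g = ((aeval t g : 𝓞 (AdjoinRoot (qq g))) : AdjoinRoot (qq g)) :=
      aeval_algebraMap_apply (AdjoinRoot (qq g)) t g
    refine (h1.symm.trans ?_).trans (map_zero _).symm
    rw [ht]
    exact hroot
  · have hpb := (AdjoinRoot.powerBasis hirr.ne_zero).finrank
    rw [AdjoinRoot.powerBasis_dim] at hpb
    have hd : (qq g).natDegree = g.natDegree := hm.natDegree_map _
    rw [← hd, ← hpb]

theorem gen_int {g : ℤ[X]} {K : Type} [Field K] [NumberField K] {θ : 𝓞 K} (hG : Gen g K θ) (P : ℤ[X]) :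
    aeval θ P = 0 ↔ g ∣ P := by
  have h0 : aeval (θ : K) (qq g) = 0 := (twkf_zero θ g).1 hG.root
  rw [twkf_zero, ← minpoly.dvd_iff, ← twkf_minpoly hG.monic hG.irr h0]
  exact Polynomial.map_dvd_map _ (RingHom.injective_int _) hG.monic

theorem gen_rat {g : ℤ[X]} {K : Type} [Field K] [NumberField K] {θ : 𝓞 K} (hG : Gen g K θ) (P : ℚ[X]) :
    aeval (θ : K) P = 0 ↔ qq g ∣ P := by
  have h0 : aeval (θ : K) (qq g) = 0 := (twkf_zero θ g).1 hG.root
  rw [twkf_minpoly hG.monic hG.irr h0]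
  exact (minpoly.dvd_iff).symm

theorem gen_span {g : ℤ[X]} {K : Type} [Field K] [NumberField K] {θ : 𝓞 K} (hG : Gen g K θ) (x : K) :
    ∃ P : ℚ[X], x = aeval (θ : K) P := by
  have h0 : aeval (θ : K) (qq g) = 0 := (twkf_zero θ g).1 hG.root
  have hmin := twkf_minpoly hG.monic hG.irr h0
  have hdeg : (minpoly ℚ (θ : K)).natDegree = Module.finrank ℚ K := by
    rw [← hmin, hG.deg]
    exact hG.monic.natDegree_map _
  have hi : IsIntegral ℚ (θ : K) := Algebra.IsIntegral.isIntegral _
  have htop := (Field.primitive_element_iff_minpoly_natDegree_eq ℚ (θ : K)).2 hdeg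
  have h1 : x ∈ Algebra.adjoin ℚ {(θ : K)} := by
    rw [← IntermediateField.adjoin_simple_toSubalgebra_of_isAlgebraic hi.isAlgebraic, htop]
    exact IntermediateField.mem_top
  rw [Algebra.adjoin_singleton_eq_range_aeval] at h1
  obtain ⟨P, hP⟩ := h1
  exact ⟨P, hP.symm⟩

end TW
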