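import Pool.Agent.Lib.MP_10e784_ag.TW.TWDefs

/-! Orders and homomorphisms to finite fields (public variants of the private lemmas of `PTRoot`). -/

namespace TW

open NumberField Finset Polynomial

private lemma tword_clear {K : Type*} [Field K] [CharZero K] (S : Set K) (x : K)
    (hx : x ∈ Algebra.adjoin ℚ S) :
    ∃ N : ℕ, N ≠ 0 ∧ (N : K) * x ∈ Algebra.adjoin ℤ S := by
  induction hx using Algebra.adjoin_induction with
  | mem x hx => exact ⟨1, one_ne_zero, by simpa using Algebra.subset_adjoin hx⟩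
  | algebraMap q =>
    refine ⟨q.den, q.den_ne_zero, ?_⟩
    have h : ((q.den : ℕ) : K) * algebraMap ℚ K q = algebraMap ℤ K q.num := by
      have h1 : ((q.den : ℚ)) * q = q.num := by
        rw [mul_comm]; exact Rat.mul_den_eq_num q
      have h2 := congrArg (algebraMap ℚ K) h1
      rw [map_mul, map_natCast, map_intCast] at h2
      rw [h2, eq_intCast]
    rw [h]
    exact Subalgebra.algebraMap_mem _ _
  | add x y _ _ hx hy =>
    obtain ⟨a, ha, hx⟩ := hx
    obtain ⟨b, hb, hy⟩ := hy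
    refine ⟨a * b, mul_ne_zero ha hb, ?_⟩
    have : ((a * b : ℕ) : K) * (x + y) = (b : K) * ((a : K) * x) + (a : K) * ((b : K) * y) := by
      push_cast; ring
    rw [this]
    exact add_mem (mul_mem (natCast_mem _ _) hx) (mul_mem (natCast_mem _ _) hy)
  | mul x y _ _ hx hy =>
    obtain ⟨a, ha, hx⟩ := hx
    obtain ⟨b, hb, hy⟩ := hy
    refine ⟨a * b, mul_ne_zero ha hb, ?_⟩
    have : ((a * b : ℕ) : K) * (x * y) = ((a : K) * x) * ((b : K) * y) := by
      push_cast; ring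
    rw [this]
    exact mul_mem hx hy

private lemma tword_clearO {K : Type*} [Field K] [NumberField K] (S : Set (𝓞 K))
    (hgen : Algebra.adjoin ℚ ((fun x : 𝓞 K => (x : K)) '' S) = ⊤) (x : 𝓞 K) :
    ∃ N : ℕ, N ≠ 0 ∧ (N : 𝓞 K) * x ∈ Algebra.adjoin ℤ S := by
  have h1 : (x : K) ∈ Algebra.adjoin ℚ ((fun x : 𝓞 K => (x : K)) '' S) := by
    rw [hgen]; trivial
  obtain ⟨N, hN, h⟩ := tword_clear _ _ h1
  refine ⟨N, hN, ?_⟩
  have h3 : Algebra.adjoin ℤ ((fun x : 𝓞 K => (x : K)) '' S)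
      = (Algebra.adjoin ℤ S).map (IsScalarTower.toAlgHom ℤ (𝓞 K) K) := by
    rw [AlgHom.map_adjoin]
    rfl
  rw [h3, Subalgebra.mem_map] at h
  obtain ⟨y, hy, hy2⟩ := h
  have : y = (N : 𝓞 K) * x := by
    apply RingOfIntegers.coe_injective
    have h5 : (algebraMap (𝓞 K) K) y = ↑N * ↑x := hy2
    rw [h5, map_mul, map_natCast]
  rwa [← this]

theorem ord_exists {K : Type} [Field K] [NumberField K] (S : Set (𝓞 K))
    (hgen : Algebra.adjoin ℚ ((fun x : 𝓞 K => (x : K)) '' S) = ⊤) :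
    ∃ N : ℕ, N ≠ 0 ∧ ∀ x : 𝓞 K, (N : 𝓞 K) * x ∈ Algebra.adjoin ℤ S := by
  choose N hN h using tword_clearO S hgen
  let b := RingOfIntegers.basis K
  refine ⟨∏ i, N (b i), Finset.prod_ne_zero_iff.mpr (fun i _ => hN _), fun x => ?_⟩
  have h1 : ∀ i, ((∏ i, N (b i) : ℕ) : 𝓞 K) * b i ∈ Algebra.adjoin ℤ S := by
    intro i
    classical
    rw [← Finset.prod_erase_mul _ _ (Finset.mem_univ i)]
    push_cast
    rw [mul_assoc]
    exact mul_mem (prod_mem fun j _ => natCast_mem _ _) (h _)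
  rw [← b.sum_repr x, Finset.mul_sum]
  refine sum_mem fun i _ => ?_
  rw [mul_smul_comm]
  exact zsmul_mem (h1 i) _

theorem hom_ext {A B F : Type} [CommRing A] [CommRing B] [Field F] (π : A →+* B) (φ : A →+* F) (m : ℕ)
    (hm : (m : F) ≠ 0) (hk : ∀ a, π a = 0 → φ a = 0) (hs : ∀ x : B, ∃ a, π a = m * x) :
    ∃ ψ : B →+* F, ∀ a, ψ (π a) = φ a := by
  choose s hs using hs
  have wd : ∀ a x, π a = m * x → φ a = φ (s x) := by
    intro a x h
    have h1 : π (a - s x) = 0 := by rw [map_sub, h, hs, sub_self]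
    have h2 := hk _ h1
    rw [map_sub] at h2
    exact sub_eq_zero.1 h2
  refine ⟨{ toFun := fun x => φ (s x) / m, map_one' := ?_, map_mul' := ?_, map_zero' := ?_, map_add' := ?_ }, ?_⟩
  · rw [← wd (m : A) 1 (by simp), map_natCast]
    exact div_self hm
  · intro x y
    have h1 : φ (s x * s y) = φ (m * s (x * y)) := by
      have h2 : π (s x * s y - m * s (x * y)) = 0 := by
        rw [map_sub, map_mul, map_mul, hs, hs, hs, map_natCast]; ring
      have h3 := hk _ h2
      rw [map_sub] at h3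
      exact sub_eq_zero.1 h3
    rw [map_mul, map_mul, map_natCast] at h1
    rw [div_mul_div_comm, h1, mul_div_mul_left _ _ hm]
  · rw [← wd 0 0 (by simp)]; simp
  · intro x y
    rw [← wd (s x + s y) (x + y) (by rw [map_add, hs, hs]; ring), map_add, add_div]
  · intro a
    change φ (s (π a)) / m = φ a
    rw [← wd (m * a) (π a) (by rw [map_mul, map_natCast]), map_mul, map_natCast]
    field_simp

/-- homomorphisms to `ZMod p` which agree on `S` are equal -/
theorem hom_eq {K : Type} [Field K] [NumberField K] (S : Set (𝓞 K)) (N : ℕ)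
    (hN : ∀ x : 𝓞 K, (N : 𝓞 K) * x ∈ Algebra.adjoin ℤ S) (p : ℕ) [Fact p.Prime] (hp : ¬ p ∣ N)
    (ψ ψ' : 𝓞 K →+* ZMod p) (h : ∀ x ∈ S, ψ x = ψ' x) : ψ = ψ' := by
  have hpm : ((N : ℕ) : ZMod p) ≠ 0 := by
    intro h
    rw [ZMod.natCast_eq_zero_iff] at h
    exact hp h
  have h1 : ∀ y ∈ Algebra.adjoin ℤ S, ψ y = ψ' y := by
    intro y hy
    induction hy using Algebra.adjoin_induction with
    | mem x hx => exact h x hx
    | algebraMap r => rw [eq_intCast, map_intCast, map_intCast]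
    | add x y _ _ hx hy => rw [map_add, map_add, hx, hy]
    | mul x y _ _ hx hy => rw [map_mul, map_mul, hx, hy]
  ext x
  have h2 := h1 _ (hN x)
  rw [map_mul, map_mul, map_natCast, map_natCast] at h2
  exact mul_left_cancel₀ hpm h2

/-- the kernel of a homomorphism to `ZMod p` is a prime ideal of norm `p` -/
theorem ker_norm {K : Type} [Field K] [NumberField K] (p : ℕ) [Fact p.Prime] (ψ : 𝓞 K →+* ZMod p) :
    (RingHom.ker ψ).IsPrime ∧ Ideal.absNorm (RingHom.ker ψ) = p := by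
  have hsurj : Function.Surjective ψ := ZMod.ringHom_surjective _
  refine ⟨RingHom.ker_isPrime ψ, ?_⟩
  rw [Ideal.absNorm_apply, Submodule.cardQuot_apply,
    Nat.card_congr (RingHom.quotientKerEquivOfSurjective hsurj).toEquiv, Nat.card_zmod]

/-- homomorphisms to `ZMod p` with the same kernel are equal -/
theorem ker_inj {K : Type} [Field K] [NumberField K] (p : ℕ) [Fact p.Prime] (ψ ψ' : 𝓞 K →+* ZMod p)
    (h : RingHom.ker ψ = RingHom.ker ψ') : ψ = ψ' := by
  ext x
  obtain ⟨r, hr⟩ := ZMod.intCast_surjective (ψ x)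
  have h1 : x - (r : 𝓞 K) ∈ RingHom.ker ψ := by
    rw [RingHom.mem_ker, map_sub, map_intCast, hr, sub_self]
  rw [h, RingHom.mem_ker, map_sub, map_intCast, hr] at h1
  exact (sub_eq_zero.1 h1).symm

/-- every prime ideal of norm `p` is the kernel of a homomorphism to `ZMod p` -/
theorem ker_surj {K : Type} [Field K] [NumberField K] (p : ℕ) [Fact p.Prime] (P : Ideal (𝓞 K))
    (hP : Ideal.absNorm P = p) : ∃ ψ : 𝓞 K →+* ZMod p, RingHom.ker ψ = P := by
  classical
  have hp : p.Prime := Fact.out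
  have hc : Nat.card (𝓞 K ⧸ P) = p := by
    rw [← hP, Ideal.absNorm_apply, Submodule.cardQuot_apply]
  have hfin : Finite (𝓞 K ⧸ P) := Nat.finite_of_card_ne_zero (by rw [hc]; exact hp.ne_zero)
  let _ := Fintype.ofFinite (𝓞 K ⧸ P)
  rw [Nat.card_eq_fintype_card] at hc
  refine ⟨((ZMod.ringEquivOfPrime (𝓞 K ⧸ P) hp hc).symm : (𝓞 K ⧸ P) →+* ZMod p).comp
    (Ideal.Quotient.mk P), ?_⟩
  ext x
  rw [RingHom.mem_ker]
  constructor
  · intro hx
    have h1 : (ZMod.ringEquivOfPrime (𝓞 K ⧸ P) hp hc).symm (Ideal.Quotient.mk P x) = 0 := hx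
    rw [EmbeddingLike.map_eq_zero_iff] at h1
    exact Ideal.Quotient.eq_zero_iff_mem.1 h1
  · intro hx
    have h1 : Ideal.Quotient.mk P x = 0 := Ideal.Quotient.eq_zero_iff_mem.2 hx
    change (ZMod.ringEquivOfPrime (𝓞 K ⧸ P) hp hc).symm (Ideal.Quotient.mk P x) = 0
    rw [h1, map_zero]

end TW
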