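import Pool.Agent.Lib.MP_10e784_ag.TW.TWKf
import Pool.Agent.Lib.MP_10e784_ag.TW.TWOrd

/-! JOB TWKfHom.  Homomorphisms to the residue fields.

`gen_hom`: there is `m ≠ 0` with `m x ∈ ℤ[θ]` for all `x ∈ 𝓞 K` (finite index: `𝓞 K` is a finitely generated `ℤ`-module, each generator is `aeval θ P` with `P : ℚ[X]`, clear denominators; or `TWCoord`).  Let `R = AdjoinRoot g` (over `ℤ`), `R → 𝓞 K` (`AdjoinRoot.lift`/`AdjoinRoot.liftAlgHom`) is injective by `gen_int`,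
make it an algebra (`RingHom.toAlgebra`) and apply `ext_hom` to `R → AdjoinRoot h` (`AdjoinRoot.lift`, it kills `g` because `h ∣ red p g`), `M = m`; `h` irreducible makes `AdjoinRoot h` a field (`Fact`). -/

namespace TW

open Polynomial NumberField

private lemma twkfhom_adjoin {g : ℤ[X]} {K : Type} [Field K] [NumberField K] {θ : 𝓞 K}
    (hG : Gen g K θ) : Algebra.adjoin ℚ ((fun x : 𝓞 K => (x : K)) '' {θ}) = ⊤ := by
  rw [Set.image_singleton, Algebra.adjoin_singleton_eq_range_aeval, eq_top_iff]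
  intro x _
  obtain ⟨P, hP⟩ := gen_span hG x
  exact ⟨P, hP.symm⟩

theorem gen_hom {g : ℤ[X]} {K : Type} [Field K] [NumberField K] {θ : 𝓞 K} (hG : Gen g K θ) :
    ∃ M : ℕ, M ≠ 0 ∧ (∀ x : 𝓞 K, ∃ P : ℤ[X], (M : 𝓞 K) * x = aeval θ P) ∧
      ∀ p : ℕ, p.Prime → ¬ p ∣ M → ∀ h : (ZMod p)[X], Irreducible h → h ∣ red p g →
      ∃ φ : 𝓞 K →+* AdjoinRoot h, ∀ P : ℤ[X], φ (aeval θ P) = AdjoinRoot.mk h (red p P) := by
  obtain ⟨M, hM0, hM⟩ := ord_exists (K := K) {θ} (twkfhom_adjoin hG)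
  have hM' : ∀ x : 𝓞 K, ∃ P : ℤ[X], (M : 𝓞 K) * x = aeval θ P := by
    intro x
    have h1 := hM x
    rw [Algebra.adjoin_singleton_eq_range_aeval] at h1
    obtain ⟨P, hP⟩ := h1
    exact ⟨P, hP.symm⟩
  refine ⟨M, hM0, hM', ?_⟩
  intro p hp hpM h hh hhg
  have := Fact.mk hp
  have := Fact.mk hh
  have hMF : ((M : ℕ) : AdjoinRoot h) ≠ 0 := by
    intro h0
    apply hpM
    rw [← ZMod.natCast_eq_zero_iff]
    apply (algebraMap (ZMod p) (AdjoinRoot h)).injective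
    rw [map_natCast, map_zero]
    exact h0
  obtain ⟨φ, hφ⟩ := hom_ext ((aeval θ : ℤ[X] →ₐ[ℤ] 𝓞 K) : ℤ[X] →+* 𝓞 K)
    ((AdjoinRoot.mk h).comp (mapRingHom (Int.castRingHom (ZMod p)))) M hMF
    (by
      intro a ha
      obtain ⟨c, hc⟩ := (gen_int hG a).1 ha
      change AdjoinRoot.mk h (a.map (Int.castRingHom (ZMod p))) = 0
      rw [AdjoinRoot.mk_eq_zero, hc, Polynomial.map_mul]
      exact Dvd.dvd.mul_right hhg _)
    (by
      intro x
      obtain ⟨P, hP⟩ := hM' x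
      exact ⟨P, hP.symm⟩)
  exact ⟨φ, fun P => hφ P⟩

end TW
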