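import Pool.Agent.Lib.MP_10e784_ag.TW.TWDefs

/-! JOB TWSum.  Two analytic lemmas.

`summable_box`: `summable_of_sum_le` (all terms `≥ 0`): a finite set `F` of functions `α → ℕ` is contained in `Fintype.piFinset fun _ => range n` for some `n`, and the sum over it is `∏ i, ∑ m ∈ range n, (1 + m) ^ (-(1 + δ)) ≤ (∑' m, (1 + m) ^ (-(1 + δ))) ^ card α` (`Finset.prod_univ_sum`, `Real.summable_nat_rpow_inv`/`Real.summable_one_div_nat_add_rpow`, shifted).
`avg`: given `ε > 0` choose `m0` with `s m ≤ ε 2 ^ m` for `m ≥ m0`; the sum is at most `∑_{m < m0} s m + ε ∑_{m : 2 ^ m ≤ N} 2 ^ m ≤ S0 + 2 ε N` (if `2 ^ k` is the largest power of two `≤ N` then `∑_{m ≤ k} 2 ^ m < 2 ^ (k + 1) ≤ 2 N`; the exponent `b + m ≥ m`).  Divide by `N`. `avg_le`: `2 ^ b * ∑ 2 ^ m = ∑ 2 ^ (b + m)` over `m` with `2 ^ (b + m) ≤ N`: different powers of two `≤ N`, so at most `2 N`. -/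

namespace TW

open Finset Filter

theorem summable_box {α : Type} [Fintype α] (δ : ℝ) (hδ : 0 < δ) :
    Summable (fun k : α → ℕ => ∏ i, ((1 + k i : ℝ)) ^ (-(1 + δ))) := by
  classical
  set u : ℕ → ℝ := fun m => (1 + m : ℝ) ^ (-(1 + δ)) with hu
  have hu0 : ∀ m, 0 ≤ u m := fun m => Real.rpow_nonneg (by positivity) _
  have hus : Summable u := by
    have h1 : Summable (fun n : ℕ => (n : ℝ) ^ (-(1 + δ))) := Real.summable_nat_rpow.2 (by linarith)
    have h2 := (summable_nat_add_iff 1).2 h1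
    refine h2.congr fun m => ?_
    simp only [hu]
    push_cast
    rw [add_comm]
  refine summable_of_sum_le (c := (∑' m, u m) ^ Fintype.card α)
    (fun k => Finset.prod_nonneg fun i _ => hu0 _) fun F => ?_
  obtain ⟨n, hn⟩ : ∃ n : ℕ, ∀ k ∈ F, ∀ i, k i < n := by
    refine ⟨(F.sup fun k => ∑ i, k i) + 1, fun k hk i => ?_⟩
    have h1 : ∑ i, k i ≤ F.sup fun k => ∑ i, k i := Finset.le_sup (f := fun k => ∑ i, k i) hk
    have h2 : k i ≤ ∑ i, k i := Finset.single_le_sum (fun _ _ => Nat.zero_le _) (mem_univ i)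
    omega
  have hsub : F ⊆ Fintype.piFinset fun _ : α => range n := fun k hk => by
    rw [Fintype.mem_piFinset]
    exact fun i => mem_range.2 (hn k hk i)
  calc ∑ k ∈ F, ∏ i, u (k i) ≤ ∑ k ∈ Fintype.piFinset fun _ : α => range n, ∏ i, u (k i) :=
        Finset.sum_le_sum_of_subset_of_nonneg hsub fun k _ _ => Finset.prod_nonneg fun i _ => hu0 _
    _ = ∏ i : α, ∑ m ∈ range n, u m :=
        (Finset.prod_univ_sum (fun _ : α => range n) fun _ m => u m).symm
    _ ≤ ∏ i : α, ∑' m, u m :=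
        Finset.prod_le_prod (fun _ _ => Finset.sum_nonneg fun m _ => hu0 m)
          fun _ _ => hus.sum_le_tsum _ fun m _ => hu0 m
    _ = _ := by simp

private theorem twsum_aux (b N : ℕ) :
    ∑ m ∈ (range (N + 1)).filter (fun m => 2 ^ (b + m) ≤ N), (2 : ℝ) ^ (b + m) ≤ 2 * N := by
  have hnat : ∑ m ∈ (range (N + 1)).filter (fun m => 2 ^ (b + m) ≤ N), 2 ^ (b + m) ≤ 2 * N := by
    rcases Nat.eq_zero_or_pos N with h0 | hpos
    · subst h0
      refine (Finset.sum_eq_zero fun m hm => ?_).le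
      have h1 := (mem_filter.1 hm).2
      have h2 : 0 < 2 ^ (b + m) := by positivity
      omega
    · have h1 : ∑ m ∈ (range (N + 1)).filter (fun m => 2 ^ (b + m) ≤ N), 2 ^ (b + m) =
          ∑ k ∈ ((range (N + 1)).filter (fun m => 2 ^ (b + m) ≤ N)).image (fun m => b + m), 2 ^ k := by
        rw [Finset.sum_image]
        intro x _ y _ hxy
        exact Nat.add_left_cancel hxy
      rw [h1]
      have h2 : ∑ k ∈ ((range (N + 1)).filter (fun m => 2 ^ (b + m) ≤ N)).image (fun m => b + m), 2 ^ k <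
          2 ^ (Nat.log 2 N + 1) := by
        refine Nat.geomSum_lt le_rfl fun k hk => ?_
        obtain ⟨m, hm, rfl⟩ := mem_image.1 hk
        exact Nat.lt_succ_of_le (Nat.le_log_of_pow_le (by norm_num) (mem_filter.1 hm).2)
      have h3 : 2 ^ Nat.log 2 N ≤ N := Nat.pow_log_le_self 2 hpos.ne'
      rw [pow_succ] at h2
      omega
  exact_mod_cast hnat

theorem avg (s : ℕ → ℝ) (hs : ∀ m, 0 ≤ s m) (h : Tendsto (fun m : ℕ => s m / 2 ^ m) atTop (nhds 0)) (b : ℕ) :
    Tendsto (fun N : ℕ => (∑ m ∈ (range (N + 1)).filter (fun m => 2 ^ (b + m) ≤ N), s m) / (N : ℝ)) atTop (nhds 0) := by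
  rw [Metric.tendsto_atTop] at h ⊢
  intro ε hε
  obtain ⟨m0, hm0⟩ := h (ε / 4) (by positivity)
  set S0 : ℝ := ∑ m ∈ range m0, s m with hS0
  have hS0n : 0 ≤ S0 := sum_nonneg fun m _ => hs m
  obtain ⟨N0, hN0⟩ := exists_nat_gt (4 * S0 / ε)
  refine ⟨N0 + 1, fun N hN => ?_⟩
  have hNpos : (0 : ℝ) < N := by exact_mod_cast (by omega : 0 < N)
  have hNN : 4 * S0 / ε < N := hN0.trans (by exact_mod_cast (by omega : N0 < N))
  rw [Real.dist_eq, sub_zero, abs_of_nonneg (div_nonneg (sum_nonneg fun m _ => hs m) hNpos.le),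
    div_lt_iff₀ hNpos]
  have hterm : ∀ m, s m ≤ (if m < m0 then s m else 0) + ε / 4 * (2 : ℝ) ^ (b + m) := by
    intro m
    have hp : (0 : ℝ) < (2 : ℝ) ^ m := by positivity
    by_cases hm : m < m0
    · rw [if_pos hm]
      have : 0 ≤ ε / 4 * (2 : ℝ) ^ (b + m) := by positivity
      linarith
    · rw [if_neg hm, zero_add]
      have h1 := hm0 m (not_lt.1 hm)
      rw [Real.dist_eq, sub_zero, abs_of_nonneg (div_nonneg (hs m) hp.le), div_lt_iff₀ hp] at h1
      have h2 : (2 : ℝ) ^ m ≤ (2 : ℝ) ^ (b + m) := pow_le_pow_right₀ (by norm_num) (by omega)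
      have h3 : ε / 4 * (2 : ℝ) ^ m ≤ ε / 4 * (2 : ℝ) ^ (b + m) :=
        mul_le_mul_of_nonneg_left h2 (by positivity)
      linarith
  have hfirst : ∑ m ∈ (range (N + 1)).filter (fun m => 2 ^ (b + m) ≤ N), (if m < m0 then s m else 0) ≤ S0 := by
    rw [← Finset.sum_filter]
    refine Finset.sum_le_sum_of_subset_of_nonneg (fun m hm => ?_) fun m _ _ => hs m
    exact mem_range.2 (mem_filter.1 hm).2
  have key : ∑ m ∈ (range (N + 1)).filter (fun m => 2 ^ (b + m) ≤ N), s m ≤ S0 + ε / 4 * (2 * N) := by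
    calc ∑ m ∈ (range (N + 1)).filter (fun m => 2 ^ (b + m) ≤ N), s m
        ≤ ∑ m ∈ (range (N + 1)).filter (fun m => 2 ^ (b + m) ≤ N),
          ((if m < m0 then s m else 0) + ε / 4 * (2 : ℝ) ^ (b + m)) := sum_le_sum fun m _ => hterm m
      _ = ∑ m ∈ (range (N + 1)).filter (fun m => 2 ^ (b + m) ≤ N), (if m < m0 then s m else 0) +
          ε / 4 * ∑ m ∈ (range (N + 1)).filter (fun m => 2 ^ (b + m) ≤ N), (2 : ℝ) ^ (b + m) := by
        rw [sum_add_distrib, mul_sum]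
      _ ≤ S0 + ε / 4 * (2 * N) :=
        add_le_add hfirst (mul_le_mul_of_nonneg_left (twsum_aux b N) (by positivity))
  have h4 : 4 * S0 < N * ε := (div_lt_iff₀ hε).1 hNN
  nlinarith

theorem avg_le (b N : ℕ) :
    ∑ m ∈ (range (N + 1)).filter (fun m => 2 ^ (b + m) ≤ N), (2 : ℝ) ^ (b + m) ≤ 2 * N :=
  twsum_aux b N

end TW
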