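import Pool.Agent.Lib.MP_10e784_ag.TW.TWLayer
import Pool.Agent.Lib.MP_10e784_ag.TW.TWSV
import Pool.Agent.Lib.MP_10e784_ag.TW.TWSum

/-! JOB TWLim.  The sum over the layers.

`lim`: every `j` has an index `i*` with `j i ≤ j i*` for all `i` (`ι` is nonempty by `hg.six`), so the sum is at most `∑_{i*} ∑_{j : j i ≤ j i* ∀ i, 2 ^ (∑ j) ≤ N} card (SS j)`; it suffices to treat one `i*`.  Write `j = (k, m)`, `m = j i*`, `k : {i // i ≠ i*} → ℕ` (extend `k` by `0`: `ext k : ι → ℕ`, `j = Function.update (ext k) i* m`), `|k| = ∑ k`.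
`f N k = (∑_{m : 2 ^ (|k| + m) ≤ N, k i ≤ m ∀ i} card (SS (k, m))) / N` (zero if `N = 0`).  The double sum divided by `N` is `∑' k, f N k` (for fixed `N` only finitely many `k` contribute: `2 ^ |k| ≤ N`, `tsum_eq_sum`).
Bound: `sv` gives `card (SS (k, m)) ≤ C' 2 ^ (|k| + m) ∏_i (1 + k i) ^ (-(1 + δ))` and `avg_le` gives `f N k ≤ 2 C' ∏_i (1 + k i) ^ (-(1 + δ))`, summable by `summable_box`.  Pointwise: `pwS` and `avg` (`b = |k|`) give `f N k → 0`.  `tendsto_tsum_of_dominated_convergence`. -/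

namespace TW

open Polynomial Finset Filter

/-- extension by zero -/
private def twlim_ext {ι : Type} [DecidableEq ι] (i₀ : ι) (k : {i // i ≠ i₀} → ℕ) : ι → ℕ :=
  fun i => if h : i ≠ i₀ then k ⟨i, h⟩ else 0

/-- the vector with coordinates `k` and `m` -/
private def twlim_j {ι : Type} [DecidableEq ι] (i₀ : ι) (k : {i // i ≠ i₀} → ℕ) (m : ℕ) : ι → ℕ :=
  Function.update (twlim_ext i₀ k) i₀ m

private lemma twlim_j_self {ι : Type} [DecidableEq ι] (i₀ : ι) (k : {i // i ≠ i₀} → ℕ) (m : ℕ) :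
    twlim_j i₀ k m i₀ = m := by
  unfold twlim_j
  rw [Function.update_self]

private lemma twlim_j_ne {ι : Type} [DecidableEq ι] (i₀ : ι) (k : {i // i ≠ i₀} → ℕ) (m : ℕ) (i : {i // i ≠ i₀}) :
    twlim_j i₀ k m i = k i := by
  unfold twlim_j
  rw [Function.update_of_ne i.2]
  unfold twlim_ext
  rw [dif_pos i.2]

private lemma twlim_rest {ι : Type} [DecidableEq ι] (i₀ : ι) (j : ι → ℕ) :
    twlim_j i₀ (fun i => j i) (j i₀) = j := by
  funext i
  by_cases h : i = i₀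
  · subst h
    rw [twlim_j_self]
  · exact twlim_j_ne i₀ (fun i => j i) (j i₀) ⟨i, h⟩

private lemma twlim_sum {ι : Type} [Fintype ι] [DecidableEq ι] (i₀ : ι) (k : {i // i ≠ i₀} → ℕ) (m : ℕ) :
    ∑ i, twlim_j i₀ k m i = (∑ i, k i) + m := by
  rw [← Finset.sum_erase_add univ _ (mem_univ i₀), twlim_j_self]
  congr 1
  rw [Finset.sum_subtype (univ.erase i₀) (p := fun i => i ≠ i₀) (by simp)]
  exact Finset.sum_congr rfl fun i _ => twlim_j_ne i₀ k m i

private lemma twlim_prod {ι : Type} [Fintype ι] [DecidableEq ι] (i₀ : ι) (k : {i // i ≠ i₀} → ℕ) (m : ℕ) (δ : ℝ) :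
    ∏ i ∈ univ.erase i₀, ((1 + twlim_j i₀ k m i : ℝ)) ^ (-(1 + δ)) = ∏ i, ((1 + k i : ℝ)) ^ (-(1 + δ)) := by
  rw [Finset.prod_subtype (univ.erase i₀) (p := fun i => i ≠ i₀) (by simp)]
  refine Finset.prod_congr rfl fun i _ => ?_
  rw [twlim_j_ne i₀ k m i]

/-- the summand -/
private noncomputable def twlim_f {ι : Type} [Fintype ι] [DecidableEq ι] (s : (ι → ℕ) → ℝ) (i₀ : ι) (N : ℕ)
    (k : {i // i ≠ i₀} → ℕ) : ℝ :=
  (∑ m ∈ (range (N + 1)).filter (fun m => 2 ^ ((∑ i, k i) + m) ≤ N),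
    if ∀ i, k i ≤ m then s (twlim_j i₀ k m) else 0) / (N : ℝ)

private lemma twlim_f_nonneg {ι : Type} [Fintype ι] [DecidableEq ι] {s : (ι → ℕ) → ℝ} (hs : ∀ j, 0 ≤ s j) (i₀ : ι) (N : ℕ)
    (k : {i // i ≠ i₀} → ℕ) : 0 ≤ twlim_f s i₀ N k := by
  unfold twlim_f
  refine div_nonneg (Finset.sum_nonneg fun m _ => ?_) (Nat.cast_nonneg N)
  split_ifs
  · exact hs _
  · exact le_rfl

private lemma twlim_f_le {ι : Type} [Fintype ι] [DecidableEq ι] {s : (ι → ℕ) → ℝ} {C' δ : ℝ} (hC' : 0 < C')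
    (hb : ∀ (j : ι → ℕ) (i₀ : ι), (∀ i, j i ≤ j i₀) →
      s j ≤ C' * 2 ^ (∑ i, j i) * ∏ i ∈ univ.erase i₀, ((1 + j i : ℝ)) ^ (-(1 + δ)))
    (i₀ : ι) (N : ℕ) (k : {i // i ≠ i₀} → ℕ) :
    twlim_f s i₀ N k ≤ 2 * C' * ∏ i, ((1 + k i : ℝ)) ^ (-(1 + δ)) := by
  have hP : 0 ≤ ∏ i, ((1 + k i : ℝ)) ^ (-(1 + δ)) :=
    Finset.prod_nonneg fun i _ => Real.rpow_nonneg (by positivity) _
  set P : ℝ := ∏ i, ((1 + k i : ℝ)) ^ (-(1 + δ)) with hPdef
  unfold twlim_f
  rcases Nat.eq_zero_or_pos N with hN | hN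
  · subst hN
    simp only [Nat.cast_zero, div_zero]
    positivity
  · have hN' : (0 : ℝ) < N := by exact_mod_cast hN
    rw [div_le_iff₀ hN']
    have h1 : ∀ m ∈ (range (N + 1)).filter (fun m => 2 ^ ((∑ i, k i) + m) ≤ N),
        (if ∀ i, k i ≤ m then s (twlim_j i₀ k m) else 0) ≤ (C' * P) * (2 : ℝ) ^ ((∑ i, k i) + m) := by
      intro m _
      split_ifs with hk
      · have h2 : ∀ i, twlim_j i₀ k m i ≤ twlim_j i₀ k m i₀ := by
          intro i
          rw [twlim_j_self]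
          by_cases h : i = i₀
          · subst h
            rw [twlim_j_self]
          · rw [twlim_j_ne i₀ k m ⟨i, h⟩]
            exact hk ⟨i, h⟩
        have h3 := hb (twlim_j i₀ k m) i₀ h2
        rw [twlim_sum, twlim_prod] at h3
        refine h3.trans (le_of_eq ?_)
        rw [← hPdef]
        ring
      · positivity
    refine (Finset.sum_le_sum h1).trans ?_
    rw [← Finset.mul_sum]
    have h4 := avg_le (∑ i, k i) N
    have h5 : 0 ≤ C' * P := by positivity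
    have h6 := mul_le_mul_of_nonneg_left h4 h5
    refine h6.trans (le_of_eq ?_)
    ring

private lemma twlim_one {ι : Type} [Fintype ι] [DecidableEq ι] {s : (ι → ℕ) → ℝ} (hs : ∀ j, 0 ≤ s j) (i₀ : ι) (N : ℕ)
    (hsum : Summable (twlim_f s i₀ N)) :
    (∑ j ∈ ((Fintype.piFinset fun _ : ι => range (N + 1)).filter (fun j => 2 ^ (∑ i, j i) ≤ N)).filter
      (fun j => ∀ i, j i ≤ j i₀), s j) / (N : ℝ) ≤ ∑' k, twlim_f s i₀ N k := by
  classical
  set A := ((Fintype.piFinset fun _ : ι => range (N + 1)).filter (fun j => 2 ^ (∑ i, j i) ≤ N)).filter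
      (fun j => ∀ i, j i ≤ j i₀) with hA
  set K : Finset ({i // i ≠ i₀} → ℕ) := Fintype.piFinset fun _ => range (N + 1) with hK
  have h1 : (∑ j ∈ A, s j) ≤ ∑ k ∈ K, ∑ m ∈ (range (N + 1)).filter (fun m => 2 ^ ((∑ i, k i) + m) ≤ N),
      if ∀ i, k i ≤ m then s (twlim_j i₀ k m) else 0 := by
    rw [Finset.sum_sigma']
    let φ : (ι → ℕ) → (Σ _ : ({i // i ≠ i₀} → ℕ), ℕ) := fun j => ⟨fun i => j i, j i₀⟩
    have hinj : Set.InjOn φ A := by
      intro j _ j' _ hjj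
      have h2 : (fun i : {i // i ≠ i₀} => j i) = fun i : {i // i ≠ i₀} => j' i := by
        have := congrArg (fun p : (Σ _ : ({i // i ≠ i₀} → ℕ), ℕ) => p.1) hjj
        exact this
      have h3 : j i₀ = j' i₀ := by
        have := congrArg (fun p : (Σ _ : ({i // i ≠ i₀} → ℕ), ℕ) => p.2) hjj
        exact this
      rw [← twlim_rest i₀ j, ← twlim_rest i₀ j', h2, h3]
    have h4 : ∑ j ∈ A, s j = ∑ p ∈ A.image φ, (if ∀ i, p.1 i ≤ p.2 then s (twlim_j i₀ p.1 p.2) else 0) := by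
      rw [Finset.sum_image hinj]
      refine Finset.sum_congr rfl fun j hj => ?_
      rw [hA, Finset.mem_filter] at hj
      have h5 : ∀ i : {i // i ≠ i₀}, (φ j).1 i ≤ (φ j).2 := fun i => hj.2 i
      rw [if_pos h5]
      show s j = s (twlim_j i₀ (fun i => j i) (j i₀))
      rw [twlim_rest]
    rw [h4]
    refine Finset.sum_le_sum_of_subset_of_nonneg ?_ ?_
    · intro p hp
      rw [Finset.mem_image] at hp
      obtain ⟨j, hj, rfl⟩ := hp
      rw [hA, Finset.mem_filter, Finset.mem_filter, Fintype.mem_piFinset] at hj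
      rw [Finset.mem_sigma, hK, Fintype.mem_piFinset, Finset.mem_filter]
      refine ⟨fun i => hj.1.1 i, hj.1.1 i₀, ?_⟩
      show 2 ^ ((∑ i : {i // i ≠ i₀}, j i) + j i₀) ≤ N
      have h6 := twlim_sum i₀ (fun i => j i) (j i₀)
      rw [twlim_rest] at h6
      rw [← h6]
      exact hj.1.2
    · intro p _ _
      split_ifs
      · exact hs _
      · exact le_rfl
  have h2 : (∑ j ∈ A, s j) / (N : ℝ) ≤ ∑ k ∈ K, twlim_f s i₀ N k := by
    unfold twlim_f
    rw [← Finset.sum_div]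
    exact div_le_div_of_nonneg_right h1 (Nat.cast_nonneg N)
  exact h2.trans (hsum.sum_le_tsum K fun k _ => twlim_f_nonneg hs i₀ N k)

theorem lim {ι : Type} [Fintype ι] [DecidableEq ι] {g : ι → ℤ[X]} (hg : Fam g) (M : ℕ) (hM : M ≠ 0) (C : ℝ) (hC : 1 ≤ C) :
    Tendsto (fun N : ℕ => (∑ j ∈ (Fintype.piFinset fun _ : ι => range (N + 1)).filter (fun j => 2 ^ (∑ i, j i) ≤ N),
      (Nat.card (SS g M C j) : ℝ)) / N) atTop (nhds 0) := by
  classical
  obtain ⟨C', δ, hδ, hC', hb⟩ := sv hg M hM C hC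
  set s : (ι → ℕ) → ℝ := fun j => (Nat.card (SS g M C j) : ℝ) with hs
  have hs0 : ∀ j, 0 ≤ s j := fun j => Nat.cast_nonneg _
  have hsb : ∀ (j : ι → ℕ) (i₀ : ι), (∀ i, j i ≤ j i₀) →
      s j ≤ C' * 2 ^ (∑ i, j i) * ∏ i ∈ univ.erase i₀, ((1 + j i : ℝ)) ^ (-(1 + δ)) := by
    intro j i₀ h
    refine le_trans ?_ (hb j i₀ h)
    exact Nat.cast_le.mpr (ss_le hg M C hC j).2
  have hbox : ∀ i₀ : ι, Summable (fun k : {i // i ≠ i₀} → ℕ => 2 * C' * ∏ i, ((1 + k i : ℝ)) ^ (-(1 + δ))) :=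
    fun i₀ => (summable_box (α := {i // i ≠ i₀}) δ hδ).mul_left (2 * C')
  have hsumm : ∀ (i₀ : ι) (N : ℕ), Summable (twlim_f s i₀ N) := fun i₀ N =>
    Summable.of_nonneg_of_le (twlim_f_nonneg hs0 i₀ N) (twlim_f_le hC' hsb i₀ N) (hbox i₀)
  have hlim : ∀ i₀ : ι, Tendsto (fun N : ℕ => ∑' k, twlim_f s i₀ N k) atTop (nhds 0) := by
    intro i₀
    have h0 : ∑' _ : ({i // i ≠ i₀} → ℕ), (0 : ℝ) = 0 := tsum_zero
    rw [← h0]
    refine tendsto_tsum_of_dominated_convergence (hbox i₀) (fun k => ?_) ?_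
    · have h1 := avg (fun m => s (Function.update (twlim_ext i₀ k) i₀ m)) (fun m => hs0 _)
        (pwS hg M hM C hC i₀ (twlim_ext i₀ k)) (∑ i, k i)
      refine squeeze_zero (fun N => twlim_f_nonneg hs0 i₀ N k) (fun N => ?_) h1
      unfold twlim_f
      refine div_le_div_of_nonneg_right (Finset.sum_le_sum fun m _ => ?_) (Nat.cast_nonneg N)
      split_ifs
      · exact le_rfl
      · exact hs0 _
    · refine Eventually.of_forall fun N k => ?_
      rw [Real.norm_eq_abs, abs_of_nonneg (twlim_f_nonneg hs0 i₀ N k)]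
      exact twlim_f_le hC' hsb i₀ N k
  have htot : Tendsto (fun N : ℕ => ∑ i₀ : ι, ∑' k, twlim_f s i₀ N k) atTop (nhds 0) := by
    have h0 : ∑ _i₀ : ι, (0 : ℝ) = 0 := Finset.sum_const_zero
    rw [← h0]
    exact tendsto_finsetSum _ fun i₀ _ => hlim i₀
  have hne : Nonempty ι := by
    by_contra h
    rw [not_nonempty_iff] at h
    have h6 := hg.six
    simp at h6
  refine squeeze_zero (fun N => ?_) (fun N => ?_) htot
  · exact div_nonneg (Finset.sum_nonneg fun j _ => Nat.cast_nonneg _) (Nat.cast_nonneg N)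
  · set B := (Fintype.piFinset fun _ : ι => range (N + 1)).filter (fun j => 2 ^ (∑ i, j i) ≤ N) with hB
    have h1 : ∑ j ∈ B, s j ≤ ∑ i₀ : ι, ∑ j ∈ B.filter (fun j => ∀ i, j i ≤ j i₀), s j := by
      have h2 : ∀ j ∈ B, s j ≤ ∑ i₀ : ι, (if ∀ i, j i ≤ j i₀ then s j else 0) := by
        intro j _
        obtain ⟨i₀, _, hi₀⟩ := Finset.exists_max_image (univ : Finset ι) j ⟨hne.some, mem_univ _⟩
        have h3 : (if ∀ i, j i ≤ j i₀ then s j else 0) = s j := if_pos fun i => hi₀ i (mem_univ i)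
        calc s j = (if ∀ i, j i ≤ j i₀ then s j else 0) := h3.symm
          _ ≤ ∑ i₀ : ι, (if ∀ i, j i ≤ j i₀ then s j else 0) :=
            Finset.single_le_sum (f := fun i₀ => if ∀ i, j i ≤ j i₀ then s j else 0) (fun i _ => by
              split_ifs
              · exact hs0 _
              · exact le_rfl) (mem_univ i₀)
      refine (Finset.sum_le_sum h2).trans (le_of_eq ?_)
      rw [Finset.sum_comm]
      exact Finset.sum_congr rfl fun i₀ _ => (Finset.sum_filter (fun j => ∀ i, j i ≤ j i₀) s).symm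
    calc (∑ j ∈ B, s j) / (N : ℝ) ≤ (∑ i₀ : ι, ∑ j ∈ B.filter (fun j => ∀ i, j i ≤ j i₀), s j) / (N : ℝ) :=
          div_le_div_of_nonneg_right h1 (Nat.cast_nonneg N)
      _ = ∑ i₀ : ι, (∑ j ∈ B.filter (fun j => ∀ i, j i ≤ j i₀), s j) / (N : ℝ) := by rw [Finset.sum_div]
      _ ≤ ∑ i₀ : ι, ∑' k, twlim_f s i₀ N k :=
          Finset.sum_le_sum fun i₀ _ => twlim_one hs0 i₀ N (hsumm i₀ N)

end TW
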