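import Pool.Agent.Lib.MP_10e784_ag.TW.TWDefs

/-! JOB TWOne.  Mean value of a product of local functions over an interval.

Let `q = ∏ p ∈ S, p`.  `f x = ∏ p ∈ S, φ p (x : ZMod p)` has period `q`, and its sum over a period is `∏ p ∈ S, ∑ r ∈ range p, φ p r = ∏ p ∈ S, (μ p * p)` by the Chinese remainder theorem (induction over `S`: for `S = insert p T`, `∏ T` and `p`
are coprime; or `ZMod.prodEquivPi`/`ZMod.chineseRemainder` and `Fintype.piFinset`/`Finset.prod_univ_sum`).  With `H = q * k + r`, `r < q`, `f ≥ 0`: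
the sum over `Ico a (a + H)` is at least `k` and at most `k + 1` periods (every interval of length `q` is a period, `Int` version: translation invariance), and `k q ≤ H < (k + 1) q`, so the sum differs from `H * ∏ μ = (H / q) * (q ∏ μ)` by at most one period `q * ∏ μ`.
If `S = ∅` both sides are equal. -/

namespace TW

open Finset

private theorem twone_reindex (a : ℤ) (H : ℕ) (F : ℤ → ℝ) :
    ∑ x ∈ Ico a (a + H), F x = ∑ i ∈ range H, F (a + i) := by
  symm
  refine Finset.sum_bij (fun i _ => a + (i : ℤ)) ?_ ?_ ?_ ?_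
  · intro i hi
    rw [mem_range] at hi
    rw [mem_Ico]
    omega
  · intro i _ j _ h
    have h1 : a + (i : ℤ) = a + (j : ℤ) := h
    omega
  · intro x hx
    rw [mem_Ico] at hx
    refine ⟨(x - a).toNat, ?_, ?_⟩
    · rw [mem_range]
      omega
    · show a + (((x - a).toNat : ℕ) : ℤ) = x
      omega
  · intro i _
    rfl

private theorem twone_crt (p q : ℕ) (h : Nat.Coprime p q) (hp : 0 < p) (hq : 0 < q) (f g : ℕ → ℝ)
    (hf : ∀ x, f (x % p) = f x) (hg : ∀ x, g (x % q) = g x) :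
    ∑ x ∈ range (p * q), f x * g x = (∑ x ∈ range p, f x) * ∑ x ∈ range q, g x := by
  rw [Finset.sum_mul_sum, ← Finset.sum_product']
  refine Finset.sum_bij (fun x _ => (x % p, x % q)) ?_ ?_ ?_ ?_
  · intro x _
    rw [mem_product, mem_range, mem_range]
    exact ⟨Nat.mod_lt _ hp, Nat.mod_lt _ hq⟩
  · intro x hx y hy hxy
    rw [mem_range] at hx hy
    have h1 : x % p = y % p := congrArg Prod.fst hxy
    have h2 : x % q = y % q := congrArg Prod.snd hxy
    have h3 : x ≡ y [MOD p * q] := (Nat.modEq_and_modEq_iff_modEq_mul h).1 ⟨h1, h2⟩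
    exact Nat.ModEq.eq_of_lt_of_lt h3 hx hy
  · rintro ⟨u, v⟩ huv
    rw [mem_product, mem_range, mem_range] at huv
    obtain ⟨hu, hv⟩ := huv
    have hz := (Nat.chineseRemainder h u v).2
    have hlt := Nat.chineseRemainder_lt_mul h u v hp.ne' hq.ne'
    refine ⟨(Nat.chineseRemainder h u v : ℕ), mem_range.2 hlt, ?_⟩
    have h1 : (Nat.chineseRemainder h u v : ℕ) % p = u % p := hz.1
    have h2 : (Nat.chineseRemainder h u v : ℕ) % q = v % q := hz.2
    have hu' : u < p := hu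
    have hv' : v < q := hv
    rw [Nat.mod_eq_of_lt hu'] at h1
    rw [Nat.mod_eq_of_lt hv'] at h2
    exact Prod.ext h1 h2
  · intro x _
    show f x * g x = f (x % p) * g (x % q)
    rw [hf, hg]

private theorem twone_period (S : Finset ℕ) (hS : ∀ p ∈ S, p.Prime) (φ : (p : ℕ) → ZMod p → ℝ) :
    ∑ x ∈ range (∏ p ∈ S, p), ∏ p ∈ S, φ p ((x : ℕ) : ZMod p) =
      ∏ p ∈ S, ∑ r ∈ range p, φ p ((r : ℕ) : ZMod p) := by
  induction S using Finset.induction_on with
  | empty => simp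
  | insert p T hpT ih =>
    have hp : p.Prime := hS p (mem_insert_self p T)
    have hT : ∀ r ∈ T, r.Prime := fun r hr => hS r (mem_insert_of_mem hr)
    have hcop : Nat.Coprime p (∏ r ∈ T, r) := by
      refine Nat.Coprime.prod_right fun r hr => ?_
      refine (Nat.coprime_primes hp (hT r hr)).2 ?_
      rintro rfl
      exact hpT hr
    have hq : 0 < ∏ r ∈ T, r := Finset.prod_pos fun r hr => (hT r hr).pos
    rw [prod_insert hpT, prod_insert hpT, ← ih hT]
    rw [← twone_crt p (∏ r ∈ T, r) hcop hp.pos hq (fun x => φ p ((x : ℕ) : ZMod p))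
      (fun x => ∏ r ∈ T, φ r ((x : ℕ) : ZMod r)) ?_ ?_]
    · refine Finset.sum_congr rfl fun x _ => ?_
      rw [prod_insert hpT]
    · intro x
      show φ p ((x % p : ℕ) : ZMod p) = φ p ((x : ℕ) : ZMod p)
      rw [ZMod.natCast_mod]
    · intro x
      refine Finset.prod_congr rfl fun r hr => ?_
      have h1 : ((x % (∏ r ∈ T, r) : ℕ) : ZMod r) = ((x : ℕ) : ZMod r) := by
        rw [ZMod.natCast_eq_natCast_iff']
        exact Nat.mod_mod_of_dvd x (Finset.dvd_prod_of_mem _ hr)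
      rw [h1]

private theorem twone_per (q : ℕ) (G : ℕ → ℝ) (hG : ∀ x, G (q + x) = G x) (a : ℕ) :
    ∑ i ∈ range q, G (a + i) = ∑ i ∈ range q, G i := by
  have h1 := Finset.sum_range_add G a q
  have h2 := Finset.sum_range_add G q a
  rw [Nat.add_comm q a] at h2
  have h3 : ∑ x ∈ range a, G (q + x) = ∑ x ∈ range a, G x :=
    Finset.sum_congr rfl fun x _ => hG x
  rw [h3] at h2
  linarith

theorem one_dim (S : Finset ℕ) (hS : ∀ p ∈ S, p.Prime) (φ : (p : ℕ) → ZMod p → ℝ)
    (hφ : ∀ p ∈ S, ∀ r, 0 ≤ φ p r) (μ : ℕ → ℝ) (hμ : ∀ p ∈ S, ∑ r ∈ range p, φ p (r : ZMod p) = μ p * p)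
    (a : ℤ) (H : ℕ) :
    |∑ x ∈ Ico a (a + H), ∏ p ∈ S, φ p ((x : ℤ) : ZMod p) - H * ∏ p ∈ S, μ p| ≤
      if S = ∅ then 0 else (∏ p ∈ S, (p : ℝ)) * ∏ p ∈ S, μ p := by
  split_ifs with hemp
  · subst hemp
    simp
  set q : ℕ := ∏ p ∈ S, p with hqdef
  have hq : 0 < q := Finset.prod_pos fun r hr => (hS r hr).pos
  set F : ℤ → ℝ := fun x => ∏ p ∈ S, φ p ((x : ℤ) : ZMod p) with hF
  have hF0 : ∀ x, 0 ≤ F x := fun x => Finset.prod_nonneg fun p hp => hφ p hp _
  have hFq : ∀ x : ℤ, ∀ k : ℤ, F (x + k * q) = F x := by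
    intro x k
    refine Finset.prod_congr rfl fun p hp => ?_
    have h1 : ((q : ℤ) : ZMod p) = 0 := by
      rw [Int.cast_natCast, ZMod.natCast_eq_zero_iff]
      exact Finset.dvd_prod_of_mem _ hp
    rw [Int.cast_add, Int.cast_mul, h1, mul_zero, add_zero]
  set P : ℝ := (∏ p ∈ S, (p : ℝ)) * ∏ p ∈ S, μ p with hP
  have hPsum : ∑ i ∈ range q, F (i : ℤ) = P := by
    have h1 := twone_period S hS φ
    rw [Finset.prod_congr rfl hμ, Finset.prod_mul_distrib] at h1
    rw [hP, mul_comm, ← h1]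
    refine Finset.sum_congr rfl fun x _ => ?_
    refine Finset.prod_congr rfl fun p _ => ?_
    rw [Int.cast_natCast]
  have hPeriod : ∀ b : ℤ, ∑ i ∈ range q, F (b + i) = P := by
    intro b
    have hq' : (0 : ℤ) < q := by exact_mod_cast hq
    obtain ⟨c, hc⟩ := Int.eq_ofNat_of_zero_le (Int.emod_nonneg b hq'.ne')
    have h1 : ∀ i : ℕ, F (b + i) = F (((c + i : ℕ)) : ℤ) := by
      intro i
      have h2 : b + (i : ℤ) = (((c + i : ℕ)) : ℤ) + (b / q) * q := by
        have h3 := Int.emod_add_mul_ediv b q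
        rw [hc] at h3
        push_cast
        have h4 : (q : ℤ) * (b / q) = (b / q) * q := mul_comm _ _
        have h5 : ((Int.ofNat c : ℤ)) = (c : ℤ) := rfl
        linarith
      rw [h2, hFq]
    rw [Finset.sum_congr rfl fun i _ => h1 i]
    rw [← hPsum]
    refine twone_per q (fun i => F ((i : ℕ) : ℤ)) (fun x => ?_) c
    show F (((q + x : ℕ)) : ℤ) = F (x : ℤ)
    have h2 : (((q + x : ℕ)) : ℤ) = (x : ℤ) + 1 * q := by
      push_cast
      ring
    rw [h2, hFq]
  have hP0 : 0 ≤ P := by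
    rw [← hPsum]
    exact Finset.sum_nonneg fun i _ => hF0 _
  have hk : ∀ k : ℕ, ∑ i ∈ range (k * q), F (a + i) = k * P := by
    intro k
    induction k with
    | zero => simp
    | succ k ih =>
      rw [Nat.succ_mul, Finset.sum_range_add, ih]
      have h1 : ∑ x ∈ range q, F (a + (((k * q + x : ℕ)) : ℤ)) = P := by
        rw [← hPeriod (a + (((k * q : ℕ)) : ℤ))]
        refine Finset.sum_congr rfl fun i _ => ?_
        congr 1
        push_cast
        ring
      rw [h1]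
      push_cast
      ring
  have hsum := twone_reindex a H F
  have hH : H = (H / q) * q + H % q := (Nat.div_add_mod' H q).symm
  have hr : H % q < q := Nat.mod_lt _ hq
  set k : ℕ := H / q with hkdef
  set r : ℕ := H % q with hrdef
  have hrest : ∑ i ∈ range H, F (a + i) = k * P + ∑ i ∈ range r, F (a + (((k * q + i : ℕ)) : ℤ)) := by
    rw [← hk k]
    conv_lhs => rw [hH]
    rw [Finset.sum_range_add]
  have hr0 : 0 ≤ ∑ i ∈ range r, F (a + (((k * q + i : ℕ)) : ℤ)) :=
    Finset.sum_nonneg fun i _ => hF0 _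
  have hr1 : ∑ i ∈ range r, F (a + (((k * q + i : ℕ)) : ℤ)) ≤ P := by
    rw [← hPeriod (a + (((k * q : ℕ)) : ℤ))]
    calc ∑ i ∈ range r, F (a + (((k * q + i : ℕ)) : ℤ))
        ≤ ∑ i ∈ range q, F (a + (((k * q + i : ℕ)) : ℤ)) :=
          Finset.sum_le_sum_of_subset_of_nonneg (Finset.range_subset_range.2 hr.le)
            fun i _ _ => hF0 _
      _ = ∑ i ∈ range q, F (a + (((k * q : ℕ)) : ℤ) + i) := by
          refine Finset.sum_congr rfl fun i _ => ?_
          congr 1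
          push_cast
          ring
  have hqR : (0 : ℝ) < q := by exact_mod_cast hq
  have hqP : (q : ℝ) * ∏ p ∈ S, μ p = P := by
    rw [hP, hqdef]
    push_cast
    rfl
  have hHR : (H : ℝ) = k * q + r := by
    conv_lhs => rw [hH]
    push_cast
    rfl
  have hmain : (H : ℝ) * ∏ p ∈ S, μ p = k * P + r * ∏ p ∈ S, μ p := by
    rw [hHR, ← hqP]
    ring
  have hM0 : 0 ≤ ∏ p ∈ S, μ p := by
    by_contra hcon
    push Not at hcon
    have : (q : ℝ) * ∏ p ∈ S, μ p < 0 := mul_neg_of_pos_of_neg hqR hcon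
    linarith
  have hrR : (r : ℝ) ≤ q := by exact_mod_cast hr.le
  have hrM : (r : ℝ) * ∏ p ∈ S, μ p ≤ P := by
    rw [← hqP]
    exact mul_le_mul_of_nonneg_right hrR hM0
  have hrM0 : 0 ≤ (r : ℝ) * ∏ p ∈ S, μ p := mul_nonneg (by positivity) hM0
  have hfin : ∑ x ∈ Ico a (a + H), F x - H * ∏ p ∈ S, μ p =
      ∑ i ∈ range r, F (a + (((k * q + i : ℕ)) : ℤ)) - r * ∏ p ∈ S, μ p := by
    rw [hsum, hrest, hmain]
    ring
  show |∑ x ∈ Ico a (a + H), F x - H * ∏ p ∈ S, μ p| ≤ P
  rw [hfin, abs_le]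
  constructor <;> linarith

end TW
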