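import Pool.Agent.Lib.MP_10e784_ag.TW.TWOrd

/-! JOB TWPrU.  At most `rt g p` prime ideals of norm `p`.

`S = {t}`: `ord_exists S` (the image of `{t}` is `{(t : K)}`) gives `N`; take `B1 = N`.  Let `p ∤ N` and `E` a finite set of prime ideals of norm `p`.  By `ker_surj` choose for `P ∈ E` a homomorphism `ψ P : 𝓞 K →+* ZMod p` with kernel `P`; `ψ P t` is a root of `g` modulo `p`
(apply `ψ P` to `aeval t g = 0`: `Polynomial.hom_eval₂`, `aeval_def`, `eval_map`, the two ring homomorphisms `ℤ → ZMod p` are equal).  The map `P ↦ ψ P t` from `E` to the roots is injective: `hom_eq` and the kernels.  Compare cardinalities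
(`PT.rt` is a `Nat.card` of a finite type). -/

namespace TW

open NumberField Finset Polynomial

theorem primes_le_rt (g : ℤ[X]) (K : Type) [Field K] [NumberField K] (t : 𝓞 K) (ht : aeval t g = 0)
    (hgen : Algebra.adjoin ℚ {(t : K)} = ⊤) :
    ∃ B1 : ℕ, B1 ≠ 0 ∧ ∀ p : ℕ, p.Prime → ¬ p ∣ B1 → ∀ E : Finset (Ideal (𝓞 K)),
      (∀ P ∈ E, P.IsPrime ∧ Ideal.absNorm P = p) → E.card ≤ PT.rt g p := by
  obtain ⟨N, hN, hord⟩ := ord_exists ({t} : Set (𝓞 K)) (by rw [Set.image_singleton]; exact hgen)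
  refine ⟨N, hN, fun p hp hpN E hE => ?_⟩
  have : Fact p.Prime := ⟨hp⟩
  have h1 : ∀ P : {P // P ∈ E}, ∃ ψ : 𝓞 K →+* ZMod p, RingHom.ker ψ = P.1 :=
    fun P => ker_surj p P.1 (hE P.1 P.2).2
  choose ψ hψ using h1
  have hroot : ∀ P, (g.map (Int.castRingHom (ZMod p))).eval (ψ P t) = 0 := by
    intro P
    have h2 : ψ P (aeval t g) = 0 := by rw [ht, map_zero]
    rw [aeval_def, Polynomial.hom_eval₂] at h2
    rw [Polynomial.eval_map]
    have h3 : (ψ P).comp (algebraMap ℤ (𝓞 K)) = Int.castRingHom (ZMod p) := Subsingleton.elim _ _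
    rw [h3] at h2
    exact h2
  let F : {P // P ∈ E} → {ρ : ZMod p // (g.map (Int.castRingHom (ZMod p))).eval ρ = 0} :=
    fun P => ⟨ψ P t, hroot P⟩
  have hinj : Function.Injective F := by
    intro P P' h
    have h2 : ψ P t = ψ P' t := congrArg Subtype.val h
    have h3 : ψ P = ψ P' := hom_eq ({t} : Set (𝓞 K)) N hord p hpN (ψ P) (ψ P') (by
      intro x hx
      rw [Set.mem_singleton_iff.1 hx]
      exact h2)
    apply Subtype.ext
    rw [← hψ P, ← hψ P', h3]
  have h4 := Nat.card_le_card_of_injective F hinj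
  rw [Nat.card_eq_fintype_card, Fintype.card_coe] at h4
  exact h4

end TW
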