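import Pool.Agent.Lib.MP_10e784_ag.TW.TWPw0
import Pool.Agent.Lib.MP_10e784_ag.TW.TWNrm
import Pool.Agent.Lib.MP_10e784_ag.TW.TWDiv
import Pool.Agent.Lib.MP_10e784_ag.TW.TWGood

/-! JOB TWPwB.  Density zero for fixed coordinates outside the index of degree one.

`pwB` (`natDegree (g i₀) = 1`): `g i₀ = X - C r`, `r = -coeff 0`.  `c` from `norm_class`.  `hT` says (with this `c`) that there is `i ≠ i₀` such that `d = C c * pol g y i * (C r - X) ∈ ℤ[X]` is not congruent to a square modulo `qq (g i)` (`qq d = C c * pol g (y : ℚ) i * (C r - X)`: `pol_map`).  `T` = the set of `div_nonres (g i) d` intersected with `¬ p ∣ M * M1 * c.natAbs` (`div_sub`).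
Let `p ∈ T`, `t` a root of `red p (g i)` with `(red p d).eval t` not a square, and let `w` be in the set of `pw0`.  Claim: `w ⟨i₀, 0⟩ ≠ 0`.  Otherwise `pol g w i₀ = 0` (only one coordinate), so the first alternative of `Al` fails (`h = X - C r = red p (g i₀)`), and the second one holds with `(i₁, t₁, s)`.
If `i₁ ≠ i₀`: `X - C t₁` divides `red p (g i₁)` and `pol g w i₁ = pol g (y mod p) i₁` (the coordinates outside `i₀` are those of `y`), contradicting the first part of `norm_class`.  So `i₁ = i₀`, `t₁ = r` (the root of `X - C r`).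
For `i' ≠ i₀` and `h ∣ red p (g i')`: `h ≠ X - C r`, because `red p (g i')` and `red p (g i₀)` have no common factor (`facs_disjoint`, or `GoodP.sqf`).  So the second part of `norm_class` applies: `c * s` is a square in `ZMod p`.  For `h = X - C t`, evaluating at `t`: `pol g (y mod p) i (t) * s * (r - t) = B(t) ^ 2` is a square.
Then `(red p d).eval t = c * pol(t) * (r - t) = (c s) * (s pol(t) (r - t)) / s ^ 2` is a square: contradiction.
So the number of `w` is at most `p - 1 = p ^ 1 * (1 - 1/p)` (`w` is determined by `w ⟨i₀, 0⟩ ≠ 0`), `c0 = 1`. -/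

namespace TW

open Polynomial Finset Filter

private theorem twpwb_local {ι : Type} [Fintype ι] [DecidableEq ι] {g : ι → ℤ[X]} (hg : Fam g) (i₀ : ι)
    (h1 : (g i₀).natDegree = 1) (y : Co g → ℤ) (c : ℤ) (p : ℕ) [Fact p.Prime] (hp : GoodP g p)
    (hA : ∀ i, i ≠ i₀ → ∀ h : (ZMod p)[X], h.Monic → Irreducible h → h ∣ red p (g i) →
      ¬ h ∣ pol g (fun c => (y c : ZMod p)) i)
    (hB : ∀ s : ZMod p, s ≠ 0 → (∀ i, i ≠ i₀ → ∀ h : (ZMod p)[X], h.Monic → Irreducible h → h ∣ red p (g i) →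
        ∃ B : (ZMod p)[X], h ∣ pol g (fun c => (y c : ZMod p)) i * C s *
          (C (-((g i₀).coeff 0 : ZMod p)) - X) - B ^ 2) → IsSquare ((c : ZMod p) * s))
    (i : ι) (hi : i ≠ i₀) (t : ZMod p) (ht : (red p (g i)).eval t = 0)
    (hsq : ¬ IsSquare ((red p (C c * pol g y i * (C (-(g i₀).coeff 0) - X))).eval t))
    (w : Co g → ZMod p) (hw : Al g p w) (hwy : ∀ c : Co g, c.1 ≠ i₀ → w c = (y c : ZMod p))
    (k0 : Fin (g i₀).natDegree) : w ⟨i₀, k0⟩ ≠ 0 := by
  intro h0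
  have hsub : ∀ k : Fin (g i₀).natDegree, k = k0 := fun k => by
    apply Fin.ext
    have := k.isLt
    have := k0.isLt
    omega
  have hpol0 : pol g w i₀ = 0 := by
    unfold pol
    refine Finset.sum_eq_zero fun k _ => ?_
    rw [hsub k, h0, C_0, zero_mul]
  have hpol : ∀ j, j ≠ i₀ → pol g w j = pol g (fun c => (y c : ZMod p)) j := by
    intro j hj
    unfold pol
    refine Finset.sum_congr rfl fun k _ => ?_
    rw [hwy ⟨j, k⟩ hj]
  set r : ZMod p := -((g i₀).coeff 0 : ZMod p) with hr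
  obtain ⟨hm0, hd0⟩ := red_monic hg p i₀
  have hred0 : red p (g i₀) = X - C r := by
    rw [hm0.eq_X_add_C (hd0.trans h1), hr, C_neg, sub_neg_eq_add]
    congr 2
    unfold red
    rw [coeff_map]
    rfl
  have hfac : ∀ j, ∀ h : (ZMod p)[X], h.Monic → Irreducible h → h ∣ red p (g j) → h ∈ facs (red p (g j)) :=
    fun j h hm hir hd => (mem_facs (red_monic hg p j).1.ne_zero).2 ⟨hm, hir, hd⟩
  have hr0 : X - C r ∈ facs (red p (g i₀)) :=
    hfac i₀ _ (monic_X_sub_C r) (irreducible_X_sub_C r) (by rw [hred0])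
  rcases hw with hw1 | ⟨i₁, t₁, s, hs, hroot, hvan, hrest⟩
  · refine hw1 i₀ (X - C r) (monic_X_sub_C r) (irreducible_X_sub_C r) (by rw [hred0]) ?_
    rw [hpol0]
    exact dvd_zero _
  · by_cases hi₁ : i₁ = i₀
    · subst hi₁
      have ht₁ : t₁ = r := by
        rw [hred0, eval_sub, eval_X, eval_C] at hroot
        exact sub_eq_zero.1 hroot
      subst ht₁
      have hne : ∀ j, j ≠ i₁ → ∀ h : (ZMod p)[X], h.Monic → Irreducible h → h ∣ red p (g j) → h ≠ X - C r := by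
        intro j hj h hm hir hd heq
        subst heq
        exact facs_disjoint hg p hp hj (hfac j _ hm hir hd) hr0
      obtain ⟨u, hu⟩ := hB s hs (fun j hj h hm hir hd => by
        have := (hrest j h hm hir hd (hne j hj h hm hir hd)).2
        rw [hpol j hj] at this
        exact this)
      have hdt : (X - C t) ∣ red p (g i) := dvd_iff_isRoot.2 ht
      obtain ⟨B, hBB⟩ := (hrest i (X - C t) (monic_X_sub_C t) (irreducible_X_sub_C t) hdt
        (hne i hi _ (monic_X_sub_C t) (irreducible_X_sub_C t) hdt)).2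
      rw [hpol i hi, dvd_iff_isRoot, IsRoot.def] at hBB
      simp only [eval_sub, eval_mul, eval_C, eval_X, eval_pow] at hBB
      refine hsq ⟨u * B.eval t / s, ?_⟩
      have hredd : (red p (C c * pol g y i * (C (-(g i₁).coeff 0) - X))).eval t =
          (c : ZMod p) * (pol g (fun c => (y c : ZMod p)) i).eval t * (r - t) := by
        unfold red
        rw [Polynomial.map_mul, Polynomial.map_mul, pol_map, Polynomial.map_sub, map_C, map_C, map_X]
        simp only [eval_mul, eval_sub, eval_C, eval_X, eval_neg, hr, map_neg, eq_intCast]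
      rw [hredd]
      have h5 : (pol g (fun c => (y c : ZMod p)) i).eval t * s * (r - t) = B.eval t ^ 2 := sub_eq_zero.1 hBB
      have h6 : (c : ZMod p) * (pol g (fun c => (y c : ZMod p)) i).eval t * (r - t) * s ^ 2 =
          (u * B.eval t) ^ 2 := by
        calc (c : ZMod p) * (pol g (fun c => (y c : ZMod p)) i).eval t * (r - t) * s ^ 2 =
            ((c : ZMod p) * s) * ((pol g (fun c => (y c : ZMod p)) i).eval t * s * (r - t)) := by ring
          _ = (u * u) * B.eval t ^ 2 := by rw [hu, h5]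
          _ = _ := by ring
      have hs2 : s ^ 2 ≠ 0 := pow_ne_zero 2 hs
      rw [eq_div_iff_mul_eq hs2 |>.2 h6]
      field_simp
    · rw [hpol i₁ hi₁] at hvan
      exact hA i₁ hi₁ (X - C t₁) (monic_X_sub_C t₁) (irreducible_X_sub_C t₁) (dvd_iff_isRoot.2 hroot)
        (dvd_iff_isRoot.2 hvan)

theorem pwB {ι : Type} [Fintype ι] [DecidableEq ι] {g : ι → ℤ[X]} (hg : Fam g) (M : ℕ) (hM : M ≠ 0) (C : ℝ) (hC : 1 ≤ C)
    (i₀ : ι) (h1 : (g i₀).natDegree = 1) (y : Co g → ℤ) (hy : ∀ i, i ≠ i₀ → pol g y i ≠ 0)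
    (hT : ¬ Triv g i₀ (fun i => pol g (fun c => (y c : ℚ)) i)) :
    Tendsto (fun m : ℕ => (Nat.card {x : Co g → ℤ // (∀ c : Co g, c.1 ≠ i₀ → x c = y c) ∧
      (∀ c : Co g, c.1 = i₀ → |(x c : ℝ)| ≤ C * (2 : ℝ) ^ ((m : ℝ) / (g i₀).natDegree)) ∧ Loc g M x} : ℝ) / 2 ^ m)
      atTop (nhds 0) := by
  classical
  obtain ⟨M1, hM1, hgood⟩ := good_exists hg
  obtain ⟨c, hc0, hc⟩ := norm_class hg i₀ h1 y hy
  have hex : ∃ i, i ≠ i₀ ∧ ¬ ∃ B : ℚ[X], qq (g i) ∣ Polynomial.C (c : ℚ) * pol g (fun c => (y c : ℚ)) i *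
      (Polynomial.C (-((g i₀).coeff 0 : ℚ)) - X) - B ^ 2 := by
    by_contra hcon
    push Not at hcon
    exact hT ⟨h1, (c : ℚ), by exact_mod_cast hc0, fun i hi => hcon i hi⟩
  obtain ⟨i, hi, hnsq⟩ := hex
  set d : ℤ[X] := Polynomial.C c * pol g y i * (Polynomial.C (-(g i₀).coeff 0) - X) with hd
  have hdmap : d.map (Int.castRingHom ℚ) = Polynomial.C (c : ℚ) * pol g (fun c => (y c : ℚ)) i *
      (Polynomial.C (-((g i₀).coeff 0 : ℚ)) - X) := by
    rw [hd, Polynomial.map_mul, Polynomial.map_mul, pol_map, Polynomial.map_sub, map_C, map_C, map_X]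
    simp only [map_neg, eq_intCast]
  rw [← hdmap] at hnsq
  have hdiv := div_sub _ (div_nonres (g i) (hg.monic i) (hg.irr i) d hnsq) (fun p hp => hp.1)
    (M * M1 * c.natAbs) (mul_ne_zero (mul_ne_zero hM hM1) (Int.natAbs_ne_zero.2 hc0))
  refine pw0 hg M C hC i₀ y _ hdiv 1 one_pos fun p hp => ?_
  obtain ⟨⟨hpp, t, ht, hsq⟩, hpM⟩ := hp
  have hpM' : ¬ p ∣ M * M1 := fun h => hpM (dvd_mul_of_dvd_left h _)
  have hgp := hgood p hpp fun h => hpM' (dvd_mul_of_dvd_right h _)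
  have hpc : ¬ (p : ℤ) ∣ c := fun h => hpM (dvd_mul_of_dvd_right (Int.natCast_dvd.1 h) _)
  refine ⟨hpp, fun h => hpM' (dvd_mul_of_dvd_left h _), ?_⟩
  have : Fact p.Prime := ⟨hpp⟩
  obtain ⟨hA, hB⟩ := hc p hgp hpc
  have hk : 0 < (g i₀).natDegree := by omega
  have hcard : Nat.card {w : Co g → ZMod p // Al g p w ∧ ∀ c : Co g, c.1 ≠ i₀ → w c = (y c : ZMod p)} ≤
      Nat.card (ZMod p)ˣ := by
    refine Nat.card_le_card_of_injective
      (fun w => Units.mk0 (w.1 ⟨i₀, ⟨0, hk⟩⟩)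
        (twpwb_local hg i₀ h1 y c p hgp hA hB i hi t ht hsq w.1 w.2.1 w.2.2 ⟨0, hk⟩)) fun w w' hww => ?_
    have h3 : w.1 ⟨i₀, ⟨0, hk⟩⟩ = w'.1 ⟨i₀, ⟨0, hk⟩⟩ := congrArg Units.val hww
    refine Subtype.ext (funext fun c => ?_)
    obtain ⟨j, k⟩ := c
    by_cases hj : j = i₀
    · subst hj
      have hk0 : k = ⟨0, hk⟩ := by
        apply Fin.ext
        have := k.isLt
        simp only
        omega
      rw [hk0]
      exact h3
    · rw [w.2.2 ⟨j, k⟩ hj, w'.2.2 ⟨j, k⟩ hj]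
  have hunits : Nat.card (ZMod p)ˣ = p - 1 := by
    rw [Nat.card_eq_fintype_card, ZMod.card_units]
  rw [hunits] at hcard
  have hp0 : (0 : ℝ) < p := by exact_mod_cast hpp.pos
  have h4 : (Nat.card {w : Co g → ZMod p // Al g p w ∧ ∀ c : Co g, c.1 ≠ i₀ → w c = (y c : ZMod p)} : ℝ) ≤
      ((p - 1 : ℕ) : ℝ) := by exact_mod_cast hcard
  rw [Nat.cast_sub hpp.one_le, Nat.cast_one] at h4
  rw [h1, pow_one]
  have h5 : (p : ℝ) * (1 - 1 / p) = p - 1 := by field_simp
  rw [h5]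
  exact h4

end TW
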