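import Pool.Agent.Lib.MP_10e784_ag.TW.TWPwA
import Pool.Agent.Lib.MP_10e784_ag.TW.TWPwB

/-! Both cases. -/

namespace TW

open Polynomial Finset Filter

theorem pw {ι : Type} [Fintype ι] [DecidableEq ι] {g : ι → ℤ[X]} (hg : Fam g) (M : ℕ) (hM : M ≠ 0) (C : ℝ) (hC : 1 ≤ C)
    (i₀ : ι) (y : Co g → ℤ) (hy : ∀ i, i ≠ i₀ → pol g y i ≠ 0)
    (hT : ¬ Triv g i₀ (fun i => pol g (fun c => (y c : ℚ)) i)) :
    Tendsto (fun m : ℕ => (Nat.card {x : Co g → ℤ // (∀ c : Co g, c.1 ≠ i₀ → x c = y c) ∧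
      (∀ c : Co g, c.1 = i₀ → |(x c : ℝ)| ≤ C * (2 : ℝ) ^ ((m : ℝ) / (g i₀).natDegree)) ∧ Loc g M x} : ℝ) / 2 ^ m)
      atTop (nhds 0) := by
  rcases Nat.lt_or_ge 1 (g i₀).natDegree with h | h
  · exact pwA hg M hM C hC i₀ h y
  · have h0 : (g i₀).natDegree ≠ 0 := by
      intro h0
      have h1 := hg.irr i₀
      have h2 := (hg.monic i₀).natDegree_map (Int.castRingHom ℚ)
      have h3 : 0 < ((g i₀).map (Int.castRingHom ℚ)).natDegree := h1.natDegree_pos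
      omega
    exact pwB hg M hM C hC i₀ (by omega) y hy hT

end TW
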