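import Pool.Agent.Lib.MP_10e784_ag.TW.TWCoord
import Pool.Agent.Lib.MP_10e784_ag.TW.TWUnit

/-! JOB TWRep.  Representatives modulo squares with small coordinates.

`cls`: for the class of `𝔞` (nonzero, since `α ≠ 0`) take `𝔯` with `ClassGroup.mk0 𝔯 = ClassGroup.mk0 𝔞` and `absNorm 𝔯 ≤ B` (`NumberField.exists_ideal_in_class_of_norm_le`; `B` = ceiling of the Minkowski bound; or: the class group is finite, choose one ideal in each class).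
`ClassGroup.mk0_eq_mk0_iff`: there are `x, y ≠ 0` with `span {x} * 𝔞 = span {y} * 𝔯`.  Then `span {α x ^ 2} = 𝔡 (x 𝔞) ^ 2 = 𝔡 𝔯 ^ 2 span {y ^ 2} ≤ span {y ^ 2}`, so `y ^ 2 ∣ α x ^ 2`, `α x ^ 2 = β y ^ 2`, and cancelling `span {y ^ 2}`: `span {β} = 𝔡 𝔯 ^ 2`.
`rep`: `B` from `cls`, `C_1` from `unit_balance`, `m0, C_2` from `coord`, `M = m0 * B !`.  For `α, 𝔡, 𝔞`: `β, x, y, 𝔯` from `cls`, `ε` from `unit_balance` for `β`, `P` from `coord` for `ε ^ 2 β`, `A = m0 * P` (`C (m0 : ℤ) * P`): `aeval θ A = m0 ^ 2 ε ^ 2 β`, `κ = m0 ε x / y` (`α κ ^ 2 = m0^2 ε^2 α x^2 / y^2 = m0^2 ε^2 β`).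
`|N β| = absNorm (span {β}) = absNorm 𝔡 * absNorm 𝔯 ^ 2 ≤ B ^ 2 absNorm 𝔡` (`Ideal.absNorm_span_singleton`), so the coefficients of `A` are at most `m0 C_2 C_1 (B ^ 2 absNorm 𝔡) ^ (1/n) ≤ C (absNorm 𝔡) ^ (1/n)`, `C = m0 C_2 C_1 B ^ 2` (`B ≥ 1`, `n ≥ 1`).
Prime `𝔭` with `M ∉ 𝔭`: `m0 ∉ 𝔭`, `ε` is a unit, so `aeval θ A ∈ 𝔭 ↔ β ∈ 𝔭 ↔ 𝔡 𝔯 ^ 2 ≤ 𝔭 ↔ 𝔡 ≤ 𝔭 ∨ 𝔯 ≤ 𝔭` (`Ideal.IsPrime.mul_le`, `IsPrime.pow_le_iff`), and `𝔯 ≤ 𝔭` is impossible: `absNorm 𝔯 ∈ 𝔯` (`Ideal.absNorm_mem`), `absNorm 𝔯 ∣ B !`. -/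

namespace TW

open Polynomial NumberField

theorem cls (K : Type) [Field K] [NumberField K] :
    ∃ B : ℕ, 1 ≤ B ∧ ∀ (α : 𝓞 K) (𝔡 𝔞 : Ideal (𝓞 K)), α ≠ 0 → Ideal.span {α} = 𝔡 * 𝔞 ^ 2 →
      ∃ (𝔯 : Ideal (𝓞 K)) (β x y : 𝓞 K), x ≠ 0 ∧ y ≠ 0 ∧ α * x ^ 2 = β * y ^ 2 ∧ Ideal.span {β} = 𝔡 * 𝔯 ^ 2 ∧
        Ideal.absNorm 𝔯 ≤ B ∧ Ideal.absNorm 𝔯 ≠ 0 := by
  classical
  choose I hI using (ClassGroup.mk0_surjective : Function.Surjective (ClassGroup.mk0 (R := 𝓞 K)))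
  refine ⟨∑ c, Ideal.absNorm (I c : Ideal (𝓞 K)) + 1, Nat.le_add_left 1 _, ?_⟩
  intro α 𝔡 𝔞 hα h
  have h𝔞 : 𝔞 ≠ 0 := by
    rintro rfl
    rw [zero_pow two_ne_zero, mul_zero] at h
    exact hα (Ideal.span_singleton_eq_bot.1 h)
  set a : nonZeroDivisors (Ideal (𝓞 K)) := ⟨𝔞, mem_nonZeroDivisors_of_ne_zero h𝔞⟩ with ha
  set c := ClassGroup.mk0 a with hc
  have h1 : ClassGroup.mk0 a = ClassGroup.mk0 (I c) := by rw [hI]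
  obtain ⟨x, y, hx, hy, hxy⟩ := ClassGroup.mk0_eq_mk0_iff.1 h1
  have hy2 : y ^ 2 ≠ 0 := pow_ne_zero 2 hy
  have h2 : Ideal.span {α * x ^ 2} = Ideal.span {y ^ 2} * (𝔡 * (I c : Ideal (𝓞 K)) ^ 2) := by
    calc Ideal.span {α * x ^ 2} = Ideal.span {α} * Ideal.span {x} ^ 2 := by
          rw [Ideal.span_singleton_pow, Ideal.span_singleton_mul_span_singleton]
      _ = 𝔡 * (Ideal.span {x} * 𝔞) ^ 2 := by rw [h]; ring
      _ = 𝔡 * (Ideal.span {y} * (I c : Ideal (𝓞 K))) ^ 2 := by rw [← hxy]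
      _ = Ideal.span {y ^ 2} * (𝔡 * (I c : Ideal (𝓞 K)) ^ 2) := by
          rw [← Ideal.span_singleton_pow]; ring
  have h3 : α * x ^ 2 ∈ Ideal.span {y ^ 2} := by
    have h4 : α * x ^ 2 ∈ Ideal.span {y ^ 2} * (𝔡 * (I c : Ideal (𝓞 K)) ^ 2) := by
      rw [← h2]
      exact Ideal.mem_span_singleton_self _
    have h5 : Ideal.span {y ^ 2} * (𝔡 * (I c : Ideal (𝓞 K)) ^ 2) ≤ Ideal.span {y ^ 2} :=
      Ideal.mul_le_left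
    exact h5 h4
  obtain ⟨β, hβ⟩ := Ideal.mem_span_singleton'.1 h3
  refine ⟨I c, β, x, y, hx, hy, hβ.symm, ?_, ?_, ?_⟩
  · have h5 : Ideal.span {y ^ 2} * Ideal.span {β}
        = Ideal.span {y ^ 2} * (𝔡 * (I c : Ideal (𝓞 K)) ^ 2) := by
      rw [← h2, ← hβ, Ideal.span_singleton_mul_span_singleton, mul_comm]
    refine mul_left_cancel₀ ?_ h5
    intro h6
    exact hy2 (Ideal.span_singleton_eq_bot.1 h6)
  · have h7 : Ideal.absNorm (I c : Ideal (𝓞 K)) ≤ ∑ c, Ideal.absNorm (I c : Ideal (𝓞 K)) :=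
      Finset.single_le_sum (f := fun c => Ideal.absNorm (I c : Ideal (𝓞 K)))
        (fun _ _ => Nat.zero_le _) (Finset.mem_univ c)
    omega
  · rw [Ne, Ideal.absNorm_eq_zero_iff]
    exact nonZeroDivisors.coe_ne_zero (I c)

theorem rep {g : ℤ[X]} {K : Type} [Field K] [NumberField K] {θ : 𝓞 K} (hG : Gen g K θ) :
    ∃ (C : ℝ) (M : ℕ), 0 < C ∧ M ≠ 0 ∧ ∀ (α : 𝓞 K) (𝔡 𝔞 : Ideal (𝓞 K)), α ≠ 0 → Ideal.span {α} = 𝔡 * 𝔞 ^ 2 →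
      ∃ (A : ℤ[X]) (κ : K), κ ≠ 0 ∧ A.natDegree < g.natDegree ∧ ((aeval θ A : 𝓞 K) : K) = (α : K) * κ ^ 2 ∧
        (∀ i, |(A.coeff i : ℝ)| ≤ C * (Ideal.absNorm 𝔡 : ℝ) ^ ((1 : ℝ) / g.natDegree)) ∧
        ∀ 𝔭 : Ideal (𝓞 K), 𝔭.IsPrime → (M : 𝓞 K) ∉ 𝔭 → (aeval θ A ∈ 𝔭 ↔ 𝔡 ≤ 𝔭) := by
  obtain ⟨B, hB1, hB⟩ := cls K
  obtain ⟨C1, hC1, hU⟩ := unit_balance K
  obtain ⟨m0, C2, hm0, hC2, hco⟩ := coord hG
  have hBpos : (0 : ℝ) < B := by exact_mod_cast hB1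
  have hm0pos : (0 : ℝ) < m0 := by exact_mod_cast Nat.pos_of_ne_zero hm0
  refine ⟨m0 * C2 * C1 * (B : ℝ) ^ 2, m0 * B.factorial, by positivity,
    mul_ne_zero hm0 (Nat.factorial_ne_zero _), ?_⟩
  intro α 𝔡 𝔞 hα h
  obtain ⟨𝔯, β, x, y, hx, hy, hxy, hβ, h𝔯B, h𝔯0⟩ := hB α 𝔡 𝔞 hα h
  have hβ0 : β ≠ 0 := by
    rintro rfl
    rw [zero_mul] at hxy
    exact (mul_ne_zero hα (pow_ne_zero 2 hx)) hxy
  obtain ⟨ε, hε⟩ := hU β hβ0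
  obtain ⟨P, hPdeg, hPa, hPb⟩ := hco ((ε : 𝓞 K) ^ 2 * β)
  have hεK : (((ε : 𝓞 K) : K)) ≠ 0 := RingOfIntegers.coe_ne_zero_iff.2 ε.ne_zero
  have hxK : (x : K) ≠ 0 := RingOfIntegers.coe_ne_zero_iff.2 hx
  have hyK : (y : K) ≠ 0 := RingOfIntegers.coe_ne_zero_iff.2 hy
  have hm0K : (m0 : K) ≠ 0 := by exact_mod_cast hm0
  have hA : aeval θ (Polynomial.C (m0 : ℤ) * P) = (m0 : 𝓞 K) * ((m0 : 𝓞 K) * ((ε : 𝓞 K) ^ 2 * β)) := by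
    rw [map_mul, ← hPa, aeval_C]
    congr 1
    simp
  refine ⟨Polynomial.C (m0 : ℤ) * P, (m0 : K) * ((ε : 𝓞 K) : K) * x / y, ?_, ?_, ?_, ?_, ?_⟩
  · exact div_ne_zero (mul_ne_zero (mul_ne_zero hm0K hεK) hxK) hyK
  · exact (natDegree_C_mul_le _ _).trans_lt hPdeg
  · have h1 : (α : K) * (x : K) ^ 2 = (β : K) * (y : K) ^ 2 := by
      have := congrArg (algebraMap (𝓞 K) K) hxy
      simpa only [map_mul, map_pow] using this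
    rw [hA]
    simp only [map_mul, map_pow, map_natCast]
    rw [div_pow, mul_div_assoc', eq_div_iff (pow_ne_zero 2 hyK)]
    linear_combination (-(m0 : K) ^ 2 * ((ε : 𝓞 K) : K) ^ 2) * h1
  · intro i
    have hn : Module.finrank ℚ K = g.natDegree := hG.deg
    have hnpos : 0 < Module.finrank ℚ K := Module.finrank_pos
    have hn1 : (1 : ℝ) ≤ (g.natDegree : ℝ) := by
      rw [← hn]
      exact_mod_cast hnpos
    have hexp0 : (0 : ℝ) ≤ 1 / (g.natDegree : ℝ) := by positivity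
    have hexp1 : 1 / (g.natDegree : ℝ) ≤ 1 := by
      rw [div_le_one (by linarith)]
      exact hn1
    have h1 := hPb _ (hε) i
    rw [hn] at h1
    have h2 : (|((Algebra.norm ℤ β : ℤ) : ℝ)|) = (Ideal.absNorm 𝔡 : ℝ) * (Ideal.absNorm 𝔯 : ℝ) ^ 2 := by
      have h3 : Ideal.absNorm (Ideal.span {β}) = Ideal.absNorm 𝔡 * Ideal.absNorm 𝔯 ^ 2 := by
        rw [hβ, map_mul, map_pow]
      rw [Ideal.absNorm_span_singleton] at h3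
      have h4 := congrArg (fun k : ℕ => (k : ℝ)) h3
      simp only [Nat.cast_natAbs, Int.cast_abs] at h4
      rw [h4]
      push_cast
      ring
    rw [h2] at h1
    have h5 : ((Ideal.absNorm 𝔡 : ℝ) * (Ideal.absNorm 𝔯 : ℝ) ^ 2) ^ ((1 : ℝ) / g.natDegree)
        ≤ (Ideal.absNorm 𝔡 : ℝ) ^ ((1 : ℝ) / g.natDegree) * (B : ℝ) ^ 2 := by
      rw [Real.mul_rpow (by positivity) (by positivity)]
      refine mul_le_mul_of_nonneg_left ?_ (Real.rpow_nonneg (by positivity) _)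
      have h6 : ((Ideal.absNorm 𝔯 : ℝ) ^ 2) ≤ (B : ℝ) ^ 2 := by
        have : (Ideal.absNorm 𝔯 : ℝ) ≤ B := by exact_mod_cast h𝔯B
        exact pow_le_pow_left₀ (by positivity) this 2
      have h7 : (1 : ℝ) ≤ (B : ℝ) ^ 2 := one_le_pow₀ (by exact_mod_cast hB1)
      calc ((Ideal.absNorm 𝔯 : ℝ) ^ 2) ^ ((1 : ℝ) / g.natDegree)
          ≤ ((B : ℝ) ^ 2) ^ ((1 : ℝ) / g.natDegree) :=
            Real.rpow_le_rpow (by positivity) h6 hexp0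
        _ ≤ ((B : ℝ) ^ 2) ^ (1 : ℝ) := Real.rpow_le_rpow_of_exponent_le h7 hexp1
        _ = (B : ℝ) ^ 2 := Real.rpow_one _
    have h8 : |((Polynomial.C (m0 : ℤ) * P).coeff i : ℝ)| = m0 * |(P.coeff i : ℝ)| := by
      rw [coeff_C_mul]
      push_cast
      rw [abs_mul, abs_of_pos hm0pos]
    rw [h8]
    calc (m0 : ℝ) * |(P.coeff i : ℝ)|
        ≤ m0 * (C2 * (C1 * ((Ideal.absNorm 𝔡 : ℝ) * (Ideal.absNorm 𝔯 : ℝ) ^ 2) ^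
            ((1 : ℝ) / g.natDegree))) := mul_le_mul_of_nonneg_left h1 hm0pos.le
      _ ≤ m0 * (C2 * (C1 * ((Ideal.absNorm 𝔡 : ℝ) ^ ((1 : ℝ) / g.natDegree) * (B : ℝ) ^ 2))) := by
          gcongr
      _ = m0 * C2 * C1 * (B : ℝ) ^ 2 * (Ideal.absNorm 𝔡 : ℝ) ^ ((1 : ℝ) / g.natDegree) := by ring
  · intro 𝔭 h𝔭 hM
    have hM' : (((m0 * B.factorial : ℕ) : 𝓞 K)) = (m0 : 𝓞 K) * (B.factorial : 𝓞 K) := by push_cast; rfl
    have hm : (m0 : 𝓞 K) ∉ 𝔭 := by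
      intro h0
      apply hM
      rw [hM']
      exact Ideal.mul_mem_right _ _ h0
    have hεu : (ε : 𝓞 K) ^ 2 ∉ 𝔭 := by
      intro h0
      exact h𝔭.ne_top (Ideal.eq_top_of_isUnit_mem _ h0 (ε.isUnit.pow 2))
    have hr : ¬ 𝔯 ≤ 𝔭 := by
      intro h0
      apply hM
      rw [hM']
      refine Ideal.mul_mem_left _ _ ?_
      obtain ⟨k, hk⟩ := Nat.dvd_factorial (Nat.pos_of_ne_zero h𝔯0) h𝔯B
      rw [hk]
      push_cast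
      exact Ideal.mul_mem_right _ _ (h0 (Ideal.absNorm_mem 𝔯))
    have hmem : aeval θ (Polynomial.C (m0 : ℤ) * P) ∈ 𝔭 ↔ β ∈ 𝔭 := by
      rw [hA]
      constructor
      · intro h0
        have h1 := (h𝔭.mem_or_mem h0).resolve_left hm
        have h2 := (h𝔭.mem_or_mem h1).resolve_left hm
        exact (h𝔭.mem_or_mem h2).resolve_left hεu
      · intro h0
        exact Ideal.mul_mem_left _ _ (Ideal.mul_mem_left _ _ (Ideal.mul_mem_left _ _ h0))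
    rw [hmem, ← Ideal.span_singleton_le_iff_mem, hβ, h𝔭.mul_le, h𝔭.pow_le_iff two_ne_zero]
    constructor
    · intro h0
      exact h0.resolve_right hr
    · intro h0
      exact Or.inl h0

end TW
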